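import Mathlib

/-! Basic objects of the analytic part. -/

namespace Pool.Agent.Lib.MP_abef03_an

open Complex MeasureTheory Set
open scoped Real

/-- The analytic theorem (interface between the KAM part and the geometric part). -/
def KAMStmt : Prop :=
  ∀ H : ℝ → ℝ, ContDiff ℝ 4 H → Function.Periodic H (2 * π) →
    (∀ x, 0 < deriv (deriv H) x + H x) → ∀ ε > (0 : ℝ), ∃ μ₀ > (0 : ℝ), ∀ μ ∈ Ioo 0 μ₀,
    ∃ E : Set ℝ, E ⊆ Icc μ (2 * μ) ∧ IsCompact E ∧ 0 < volume E ∧ ∀ ω ∈ E, ∃ u h : ℝ → ℝ,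
      Continuous u ∧ StrictMono u ∧ (∀ x, u (x + 2 * π) = u x + 2 * π) ∧
      ContDiff ℝ 2 h ∧ Function.Periodic h (2 * π) ∧
      (∀ x, |h x - H x| ≤ ε ∧ |deriv h x - deriv H x| ≤ ε ∧
        |deriv (deriv h) x - deriv (deriv H) x| ≤ ε) ∧
      ∀ x, u (x + ω) - u x ≤ ε ∧
        h (u x) = H ((u x + u (x + ω)) / 2) * Real.cos ((u (x + ω) - u x) / 2) -
          deriv H ((u x + u (x + ω)) / 2) * Real.sin ((u (x + ω) - u x) / 2) ∧
        h (u (x + ω)) = H ((u x + u (x + ω)) / 2) * Real.cos ((u (x + ω) - u x) / 2) +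
          deriv H ((u x + u (x + ω)) / 2) * Real.sin ((u (x + ω) - u x) / 2)

/-- Fourier coefficient. -/
noncomputable def coef (f : ℂ → ℂ) (m : ℤ) : ℂ :=
  (1 / (2 * π)) * ∫ x in (0 : ℝ)..(2 * π), f x * exp (-(I * m * x))

/-- `2π`-periodic. -/
def Per (f : ℂ → ℂ) : Prop := ∀ z, f (z + 2 * π) = f z

/-- Holomorphic at every point of the closed strip. -/
def Hol (f : ℂ → ℂ) (σ : ℝ) : Prop := ∀ z : ℂ, |z.im| ≤ σ → DifferentiableAt ℂ f z

/-- Real on the real axis. -/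
def RealOn (f : ℂ → ℂ) : Prop := ∀ x : ℝ, (f x).im = 0

/-- Sup bound on the closed strip. -/
def SB (f : ℂ → ℂ) (σ A : ℝ) : Prop := ∀ z : ℂ, |z.im| ≤ σ → ‖f z‖ ≤ A

/-- `L²` bound on the horizontal lines of the strip. -/
def LB (f : ℂ → ℂ) (σ Q : ℝ) : Prop :=
  ∀ y : ℝ, |y| ≤ σ → ∫ x in (0 : ℝ)..(2 * π), ‖f (x + y * I)‖ ^ 2 ≤ Q

/-- Weighted `ℓ²` bound for the nonzero modes. -/
def WB (f : ℂ → ℂ) (σ W : ℝ) : Prop :=
  ∀ A : Finset ℤ, 0 ∉ A → ∑ m ∈ A, ‖coef f m‖ ^ 2 * Real.exp (2 * |(m : ℝ)| * σ) ≤ W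

/-- Trigonometric polynomial. -/
noncomputable def tp (c : ℤ → ℂ) (A : Finset ℤ) (z : ℂ) : ℂ := ∑ m ∈ A, c m * exp (I * m * z)

/-- The nonzero modes up to `M`. -/
noncomputable def full (M : ℕ) : Finset ℤ := (Finset.Icc (-(M : ℤ)) M).erase 0

/-- The modes `N < |m| ≤ N'`. -/
noncomputable def blk (N N' : ℕ) : Finset ℤ := Finset.Icc (-(N' : ℤ)) N' \ Finset.Icc (-(N : ℤ)) N

/-- Solution of the cohomological equation on the modes in `A`. -/
noncomputable def solve (A : Finset ℤ) (f : ℂ → ℂ) (ω : ℂ) : ℂ → ℂ :=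
  tp (fun m => coef f m / (exp (I * m * ω) - 1)) A

/-- Distance from `ω` to the resonances `2πp/m`. -/
noncomputable def dd (m : ℤ) (ω : ℝ) : ℝ := |ω - 2 * π * round (m * ω / (2 * π)) / m|

/-- Majorant, on a disc of frequencies, of the weighted squared coefficients. -/
noncomputable def beta (F : ℂ → ℂ → ℂ) (c l s : ℝ) (m : ℤ) : ℝ :=
  ((1 / π) * ∫ t in (0 : ℝ)..(2 * π), ‖coef (F (circleMap c (2 * l) t)) m‖) ^ 2 *
    Real.exp (2 * |(m : ℝ)| * s)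

/-- A convex box around a positive interval. -/
def Box (ζ : ℂ) (lo hi e : ℝ) : Prop := lo ≤ ζ.re ∧ ‖ζ‖ ≤ hi ∧ |ζ.im| ≤ e

/-- The normalised generating function in chord-angle coordinates (`K' = H`). -/
noncomputable def St (H K : ℂ → ℂ) (x y : ℂ) : ℂ :=
  2 * H ((x + y) / 2) * sin ((y - x) / 2) - K y + K x

/-- Its derivative in `y`. -/
noncomputable def Sy (H : ℂ → ℂ) (x y : ℂ) : ℂ :=
  deriv H ((x + y) / 2) * sin ((y - x) / 2) + H ((x + y) / 2) * cos ((y - x) / 2) - H y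

/-- Its derivative in `x`. -/
noncomputable def Sx (H : ℂ → ℂ) (x y : ℂ) : ℂ :=
  deriv H ((x + y) / 2) * sin ((y - x) / 2) - H ((x + y) / 2) * cos ((y - x) / 2) + H x

end Pool.Agent.Lib.MP_abef03_an
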