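import Mathlib
import Pool.Agent.Lib.MP_abef03_an.Basic

/-! Fourier analysis on strips. -/

namespace Pool.Agent.Lib.MP_abef03_an

open Complex MeasureTheory Set
open scoped Real

theorem four_contLine {f : ℂ → ℂ} {σ y : ℝ} (hf : Hol f σ) (hy : |y| ≤ σ) :
    Continuous (fun x : ℝ => f (x + y * I)) := by
  refine continuous_iff_continuousAt.2 fun x => ?_
  have h1 : ContinuousAt f ((x : ℂ) + y * I) := (hf _ (by simpa using hy)).continuousAt
  exact ContinuousAt.comp (f := fun x : ℝ => (x : ℂ) + y * I) h1 (by fun_prop)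

theorem four_contReal {f : ℂ → ℂ} {σ : ℝ} (hf : Hol f σ) (hσ : 0 ≤ σ) :
    Continuous (fun x : ℝ => f x) := by
  have := four_contLine (y := 0) hf (by simpa using hσ)
  simpa using this

theorem four_Hol_mono {f : ℂ → ℂ} {σ σ' : ℝ} (hf : Hol f σ) (h : σ' ≤ σ) : Hol f σ' :=
  fun z hz => hf z (hz.trans h)

theorem four_exp_per (m : ℤ) (z : ℂ) : exp (-(I * m * (z + 2 * π))) = exp (-(I * m * z)) := by
  have : -(I * m * (z + 2 * π)) = -(I * m * z) + ((-m : ℤ) : ℂ) * (2 * π * I) := by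
    push_cast; ring
  rw [this, Complex.exp_add, Complex.exp_int_mul_two_pi_mul_I, mul_one]

theorem four_exp_per' (m : ℤ) (z : ℂ) : exp (I * m * (z + 2 * π)) = exp (I * m * z) := by
  have : I * m * (z + 2 * π) = I * m * z + (m : ℂ) * (2 * π * I) := by ring
  rw [this, Complex.exp_add, Complex.exp_int_mul_two_pi_mul_I, mul_one]

/-- Contour shift. -/
theorem four_shift {g : ℂ → ℂ} {σ y : ℝ} (hg : Hol g σ) (hp : Per g) (hy : |y| ≤ σ) :
    ∫ x in (0 : ℝ)..(2 * π), g (x + y * I) = ∫ x in (0 : ℝ)..(2 * π), g x := by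
  have hd : DifferentiableOn ℂ g
      (uIcc (0 : ℂ).re ((2 * π : ℝ) + y * I : ℂ).re ×ℂ uIcc (0 : ℂ).im ((2 * π : ℝ) + y * I : ℂ).im) := by
    intro z hz
    refine (hg z ?_).differentiableWithinAt
    have h2 : z.im ∈ uIcc (0 : ℝ) y := by simpa using hz.2
    refine le_trans ?_ hy
    rcases le_total 0 y with h | h
    · rw [uIcc_of_le h] at h2
      rw [abs_of_nonneg h2.1, abs_of_nonneg h]; exact h2.2
    · rw [uIcc_of_ge h] at h2
      rw [abs_of_nonpos h2.2, abs_of_nonpos h]; linarith [h2.1]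
  have h := Complex.integral_boundary_rect_eq_zero_of_differentiableOn g 0
    ((2 * π : ℝ) + y * I : ℂ) hd
  have e1 : ((2 * π : ℝ) + y * I : ℂ).re = 2 * π := by simp
  have e2 : ((2 * π : ℝ) + y * I : ℂ).im = y := by simp
  rw [e1, e2] at h
  simp only [Complex.zero_re, Complex.zero_im, Complex.ofReal_zero, zero_mul, add_zero,
    zero_add] at h
  have e3 : ∀ t : ℝ, g (((2 * π : ℝ) : ℂ) + t * I) = g (t * I) := by
    intro t
    rw [← hp (t * I)]
    congr 1
    push_cast; ring
  simp only [e3] at h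
  linear_combination -h

theorem four_coef_shift {f : ℂ → ℂ} {σ y : ℝ} (hf : Hol f σ) (hp : Per f) (hy : |y| ≤ σ) (m : ℤ) :
    coef (fun z => f (z + y * I)) m = coef f m * exp (-(m * y)) := by
  have hg : Hol (fun z => f z * exp (-(I * m * z))) σ := fun z hz =>
    (hf z hz).mul (by fun_prop)
  have hgp : Per (fun z => f z * exp (-(I * m * z))) := fun z => by
    simp only [hp z, four_exp_per]
  have h := four_shift hg hgp hy
  unfold coef
  rw [← h, mul_assoc, ← intervalIntegral.integral_mul_const]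
  congr 1
  refine intervalIntegral.integral_congr fun x _ => ?_
  simp only
  rw [mul_assoc (f _), ← Complex.exp_add]
  congr 2
  linear_combination ((m : ℂ) * y) * Complex.I_mul_I

theorem four_coef_eq (F : ℂ → ℂ) (m : ℤ) :
    fourierCoeffOn Real.two_pi_pos (fun x : ℝ => F x) m = coef F m := by
  rw [fourierCoeffOn_eq_integral, coef]
  have hpi : (π : ℂ) ≠ 0 := by exact_mod_cast Real.pi_ne_zero
  have : ∀ x : ℝ, fourier (-m) (x : AddCircle (2 * π - 0)) • F x = F x * exp (-(I * m * x)) := by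
    intro x
    rw [fourier_coe_apply, smul_eq_mul, mul_comm]
    congr 2
    push_cast
    field_simp
    ring
  simp only [this]
  rw [Complex.real_smul]
  push_cast
  simp

theorem four_parseval0 {F : ℂ → ℂ} (hF : Continuous (fun x : ℝ => F x)) :
    HasSum (fun m : ℤ => ‖coef F m‖ ^ 2) ((1 / (2 * π)) * ∫ x in (0 : ℝ)..(2 * π), ‖F x‖ ^ 2) := by
  have hL2 : MemLp (fun x : ℝ => F x) 2 (volume.restrict (Ioc 0 (2 * π))) := by
    rw [memLp_two_iff_integrable_sq_norm hF.aestronglyMeasurable]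
    exact ((hF.norm.pow 2).integrableOn_Icc).mono_set Ioc_subset_Icc_self
  have h := hasSum_sq_fourierCoeffOn Real.two_pi_pos hL2
  simp only [four_coef_eq] at h
  rw [sub_zero, smul_eq_mul, ← one_div] at h
  exact h

/-- Parseval on a horizontal line (contour shift + `hasSum_sq_fourierCoeffOn`). -/
theorem parseval {f : ℂ → ℂ} {σ y : ℝ} (hf : Hol f σ) (hp : Per f) (hy : |y| ≤ σ) :
    HasSum (fun m : ℤ => ‖coef f m‖ ^ 2 * Real.exp (-(2 * m * y)))
      ((1 / (2 * π)) * ∫ x in (0 : ℝ)..(2 * π), ‖f (x + y * I)‖ ^ 2) := by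
  have h := four_parseval0 (F := fun z => f (z + y * I)) (four_contLine hf hy)
  simp only [four_coef_shift hf hp hy] at h
  have e : ∀ m : ℤ, ‖coef f m * exp (-(m * y))‖ ^ 2 = ‖coef f m‖ ^ 2 * Real.exp (-(2 * m * y)) := by
    intro m
    rw [norm_mul, mul_pow, Complex.norm_exp, ← Real.exp_nat_mul]
    congr 2
    simp
    ring
  simp only [e] at h
  exact h

theorem coef_sub_smul {f g : ℂ → ℂ} (hf : Hol f 0) (hg : Hol g 0) (c : ℂ) (m : ℤ) :
    coef (fun z => f z - c * g z) m = coef f m - c * coef g m := by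
  have h1 := four_contReal hf le_rfl
  have h2 := four_contReal hg le_rfl
  have i1 : IntervalIntegrable (fun x : ℝ => f x * exp (-(I * m * x))) volume 0 (2 * π) :=
    (h1.mul (by fun_prop)).intervalIntegrable _ _
  have i2 : IntervalIntegrable (fun x : ℝ => c * (g x * exp (-(I * m * x)))) volume 0 (2 * π) :=
    (continuous_const.mul (h2.mul (by fun_prop))).intervalIntegrable _ _
  unfold coef
  have e : ∀ x : ℝ, (f x - c * g x) * exp (-(I * m * x)) =
      f x * exp (-(I * m * x)) - c * (g x * exp (-(I * m * x))) := fun x => by ring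
  simp only [e]
  rw [intervalIntegral.integral_sub i1 i2, intervalIntegral.integral_const_mul]
  ring

theorem four_int_exp (k : ℤ) :
    ∫ x in (0 : ℝ)..(2 * π), exp (I * k * x) = if k = 0 then (2 * π : ℂ) else 0 := by
  split_ifs with hk
  · subst hk
    simp
  · have hc : I * (k : ℂ) ≠ 0 := mul_ne_zero I_ne_zero (by exact_mod_cast hk)
    rw [integral_exp_mul_complex hc]
    have := four_exp_per' k 0
    simp only [zero_add, mul_zero, Complex.exp_zero] at this
    push_cast
    rw [this]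
    simp

theorem differentiable_tp (c : ℤ → ℂ) (A : Finset ℤ) : Differentiable ℂ (tp c A) := by
  unfold tp
  fun_prop

theorem per_tp (c : ℤ → ℂ) (A : Finset ℤ) : Per (tp c A) := by
  intro z
  unfold tp
  simp only [four_exp_per']

theorem deriv_tp (c : ℤ → ℂ) (A : Finset ℤ) : deriv (tp c A) = tp (fun m => I * m * c m) A := by
  funext z
  have h : HasDerivAt (fun z => ∑ m ∈ A, c m * exp (I * m * z))
      (∑ m ∈ A, c m * (exp (I * m * z) * (I * m * 1))) z := by
    refine HasDerivAt.fun_sum fun m _ => ?_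
    exact (((hasDerivAt_id z).const_mul (I * m)).cexp).const_mul (c m)
  have h2 : tp c A = fun z => ∑ m ∈ A, c m * exp (I * m * z) := rfl
  rw [h2, h.deriv]
  unfold tp
  exact Finset.sum_congr rfl fun m _ => by ring

theorem coef_tp (c : ℤ → ℂ) (A : Finset ℤ) (m : ℤ) :
    coef (tp c A) m = if m ∈ A then c m else 0 := by
  have hpi : (π : ℂ) ≠ 0 := by exact_mod_cast Real.pi_ne_zero
  unfold coef tp
  have e : ∀ x : ℝ, (∑ k ∈ A, c k * exp (I * k * x)) * exp (-(I * m * x)) =
      ∑ k ∈ A, c k * exp (I * ((k - m : ℤ) : ℂ) * x) := by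
    intro x
    rw [Finset.sum_mul]
    refine Finset.sum_congr rfl fun k _ => ?_
    rw [mul_assoc, ← Complex.exp_add]
    congr 2
    push_cast; ring
  simp only [e]
  rw [intervalIntegral.integral_finsetSum (fun k _ => Continuous.intervalIntegrable (by fun_prop) _ _)]
  simp only [intervalIntegral.integral_const_mul, four_int_exp, sub_eq_zero, mul_ite, mul_zero]
  rw [Finset.sum_ite_eq']
  split_ifs
  · field_simp
  · simp

theorem four_coef_one {m : ℤ} (hm : m ≠ 0) : coef (fun _ => 1) m = 0 := by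
  have h := coef_tp (fun _ => 1) {0} m
  have e : tp (fun _ => 1) {0} = fun _ => 1 := by
    funext z; simp [tp]
  rw [e] at h
  simpa [hm] using h

theorem four_coef_one_zero : coef (fun _ => 1) 0 = 1 := by
  have h := coef_tp (fun _ => 1) {0} 0
  have e : tp (fun _ => 1) {0} = fun _ => 1 := by
    funext z; simp [tp]
  rw [e] at h
  simpa using h

theorem four_coef_sub_const {f : ℂ → ℂ} (hf : Hol f 0) (c : ℂ) {m : ℤ} (hm : m ≠ 0) :
    coef (fun z => f z - c) m = coef f m := by
  have h := coef_sub_smul (g := fun _ => 1) hf (fun _ _ => differentiableAt_const _) c m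
  simp only [mul_one, four_coef_one hm, mul_zero, sub_zero] at h
  exact h

theorem WB_of_LB {f : ℂ → ℂ} {σ Q : ℝ} {c : ℂ} (hσ : 0 ≤ σ) (hf : Hol f σ) (hp : Per f)
    (h : LB (fun z => f z - c) σ Q) : WB f σ (Q / π) := by
  intro A hA
  have hg : Hol (fun z => f z - c) σ := fun z hz => (hf z hz).sub_const c
  have hgp : Per (fun z => f z - c) := fun z => by simp only [hp z]
  have h1 := parseval (y := σ) hg hgp (by rw [abs_of_nonneg hσ])
  have h2 := parseval (y := -σ) hg hgp (by rw [abs_neg, abs_of_nonneg hσ])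
  have b1 := sum_le_hasSum A (fun m _ => by positivity) h1
  have b2 := sum_le_hasSum A (fun m _ => by positivity) h2
  have q1 := h σ (by rw [abs_of_nonneg hσ])
  have q2 := h (-σ) (by rw [abs_neg, abs_of_nonneg hσ])
  have hpi := Real.pi_pos
  have c1 : (1 / (2 * π)) * ∫ x in (0 : ℝ)..(2 * π), ‖f (x + σ * I) - c‖ ^ 2 ≤ (1 / (2 * π)) * Q :=
    mul_le_mul_of_nonneg_left q1 (by positivity)
  have c2 : (1 / (2 * π)) * ∫ x in (0 : ℝ)..(2 * π), ‖f (x + (-σ : ℝ) * I) - c‖ ^ 2 ≤
      (1 / (2 * π)) * Q := mul_le_mul_of_nonneg_left q2 (by positivity)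
  have e : Q / π = (1 / (2 * π)) * Q + (1 / (2 * π)) * Q := by field_simp; ring
  rw [e]
  refine le_trans ?_ (add_le_add (b1.trans c1) (b2.trans c2))
  rw [← Finset.sum_add_distrib]
  refine Finset.sum_le_sum fun m hm => ?_
  have hm0 : m ≠ 0 := fun h0 => hA (h0 ▸ hm)
  rw [four_coef_sub_const (four_Hol_mono hf hσ) c hm0, ← mul_add]
  refine mul_le_mul_of_nonneg_left ?_ (by positivity)
  rcases le_total 0 (m : ℝ) with hm' | hm'
  · rw [abs_of_nonneg hm']
    have : -(2 * (m : ℝ) * -σ) = 2 * m * σ := by ring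
    rw [this]
    linarith [Real.exp_pos (-(2 * (m : ℝ) * σ))]
  · rw [abs_of_nonpos hm']
    have : 2 * -(m : ℝ) * σ = -(2 * m * σ) := by ring
    rw [this]
    linarith [Real.exp_pos (-(2 * (m : ℝ) * -σ))]

theorem LB_of_SB {f : ℂ → ℂ} {σ A : ℝ} (h : SB f σ A) : LB f σ (2 * π * A ^ 2) := by
  intro y hy
  have hb : ∀ x ∈ uIoc (0 : ℝ) (2 * π), ‖‖f (x + y * I)‖ ^ 2‖ ≤ A ^ 2 := by
    intro x _
    rw [Real.norm_of_nonneg (by positivity)]
    exact pow_le_pow_left₀ (norm_nonneg _) (h _ (by simpa using hy)) 2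
  have := intervalIntegral.norm_integral_le_of_norm_le_const hb
  rw [sub_zero, abs_of_pos Real.two_pi_pos, Real.norm_eq_abs] at this
  linarith [le_abs_self (∫ x in (0 : ℝ)..(2 * π), ‖f (x + y * I)‖ ^ 2)]

theorem SB_tp (c : ℤ → ℂ) (A : Finset ℤ) (σ : ℝ) :
    SB (tp c A) σ (∑ m ∈ A, ‖c m‖ * Real.exp (|(m : ℝ)| * σ)) := by
  intro z hz
  unfold tp
  refine (norm_sum_le _ _).trans (Finset.sum_le_sum fun m _ => ?_)
  rw [norm_mul, Complex.norm_exp]
  refine mul_le_mul_of_nonneg_left (Real.exp_le_exp.2 ?_) (norm_nonneg _)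
  have e : (I * m * z).re = -(m * z.im) := by simp
  rw [e]
  calc -((m : ℝ) * z.im) ≤ |(m : ℝ) * z.im| := neg_le_abs _
    _ = |(m : ℝ)| * |z.im| := abs_mul _ _
    _ ≤ _ := mul_le_mul_of_nonneg_left hz (abs_nonneg _)

theorem four_exp_le (m : ℤ) {y σ : ℝ} (hy : |y| ≤ σ) :
    Real.exp (-(2 * m * y)) ≤ Real.exp (2 * |(m : ℝ)| * σ) := by
  refine Real.exp_le_exp.2 ?_
  calc -(2 * (m : ℝ) * y) ≤ |2 * (m : ℝ) * y| := neg_le_abs _
    _ = 2 * |(m : ℝ)| * |y| := by rw [abs_mul, abs_mul, abs_two]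
    _ ≤ _ := mul_le_mul_of_nonneg_left hy (by positivity)

theorem four_le_of_avg {X W : ℝ} (h : (1 / (2 * π)) * X ≤ W) : X ≤ 2 * π * W := by
  have hpi := Real.pi_pos
  have : X = 2 * π * ((1 / (2 * π)) * X) := by field_simp
  rw [this]
  exact mul_le_mul_of_nonneg_left h (by positivity)

theorem LB_tp {c : ℤ → ℂ} {A : Finset ℤ} {σ W : ℝ}
    (h : ∑ m ∈ A, ‖c m‖ ^ 2 * Real.exp (2 * |(m : ℝ)| * σ) ≤ W) : LB (tp c A) σ (2 * π * W) := by
  intro y hy
  have h1 := parseval (fun z _ => differentiable_tp c A z) (per_tp c A) hy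
  have h2 : HasSum (fun m : ℤ => ‖coef (tp c A) m‖ ^ 2 * Real.exp (-(2 * m * y)))
      (∑ m ∈ A, ‖coef (tp c A) m‖ ^ 2 * Real.exp (-(2 * m * y))) :=
    hasSum_sum_of_ne_finset_zero fun m hm => by simp [coef_tp, hm]
  refine four_le_of_avg ?_
  rw [h1.unique h2]
  refine le_trans (Finset.sum_le_sum fun m hm => ?_) h
  rw [coef_tp, if_pos hm]
  exact mul_le_mul_of_nonneg_left (four_exp_le m hy) (by positivity)

theorem realOn_tp {c : ℤ → ℂ} {A : Finset ℤ} (hA : ∀ m ∈ A, -m ∈ A)
    (hc : ∀ m, c (-m) = starRingEnd ℂ (c m)) : RealOn (tp c A) := by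
  intro x
  rw [← Complex.conj_eq_iff_im]
  unfold tp
  rw [map_sum]
  refine Finset.sum_bij' (fun m _ => -m) (fun m _ => -m) (fun m hm => hA m hm)
    (fun m hm => hA m hm) (fun m _ => neg_neg m) (fun m _ => neg_neg m) fun m _ => ?_
  rw [map_mul, ← hc m, ← Complex.exp_conj]
  congr 2
  simp

/-- What is left after removing the mean and the modes in `A`. -/
theorem LB_sub_tp {f : ℂ → ℂ} {σ W WA : ℝ} {M : ℕ} {A : Finset ℤ} (hσ : 0 ≤ σ) (hf : Hol f σ)
    (hp : Per f) (hW : WB f σ W) (hA : A ⊆ full M)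
    (hWA : ∑ m ∈ full M \ A, ‖coef f m‖ ^ 2 * Real.exp (2 * |(m : ℝ)| * σ) ≤ WA) :
    LB (fun z => f z - coef f 0 - tp (coef f) A z) (σ / 2)
      (2 * π * (WA + Real.exp (-(M * σ)) * W)) := by
  intro y hy
  have hA0 : (0 : ℤ) ∉ A := fun h => by simpa [full] using hA h
  have hyσ : |y| ≤ σ := by linarith
  have hg : Hol (fun z => f z - coef f 0 - tp (coef f) A z) σ := fun z hz =>
    ((hf z hz).sub_const _).sub (differentiable_tp _ _ z)
  have hgp : Per (fun z => f z - coef f 0 - tp (coef f) A z) := fun z => by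
    simp only [hp z, per_tp _ _ z]
  have hf0 : Hol f 0 := four_Hol_mono hf hσ
  have hco : ∀ m : ℤ, coef (fun z => f z - coef f 0 - tp (coef f) A z) m =
      if m = 0 ∨ m ∈ A then 0 else coef f m := by
    intro m
    have h1 := coef_sub_smul (f := fun z => f z - coef f 0) (g := tp (coef f) A)
      (fun z hz => (hf0 z hz).sub_const _) (fun z _ => differentiable_tp _ _ z) 1 m
    simp only [one_mul] at h1
    rw [h1, coef_tp]
    by_cases hm : m = 0
    · subst hm
      have h2 := coef_sub_smul (g := fun _ => 1) hf0 (fun _ _ => differentiableAt_const _)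
        (coef f 0) 0
      simp only [mul_one, four_coef_one_zero, sub_self] at h2
      simp [h2, hA0]
    · rw [four_coef_sub_const hf0 _ hm]
      by_cases hmA : m ∈ A <;> simp [hm, hmA]
  have h1 := parseval hg hgp hyσ
  refine four_le_of_avg ?_
  refine hasSum_le_of_sum_le h1 fun S => ?_
  simp only [hco]
  rw [← Finset.sum_filter_add_sum_filter_not S (fun m => m ∈ Finset.Icc (-(M : ℤ)) M)]
  refine add_le_add (le_trans ?_ hWA) ?_
  · calc ∑ m ∈ S with m ∈ Finset.Icc (-(M : ℤ)) M,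
          ‖if m = 0 ∨ m ∈ A then 0 else coef f m‖ ^ 2 * Real.exp (-(2 * m * y))
        ≤ ∑ m ∈ Finset.Icc (-(M : ℤ)) M,
          ‖if m = 0 ∨ m ∈ A then 0 else coef f m‖ ^ 2 * Real.exp (-(2 * m * y)) :=
          Finset.sum_le_sum_of_subset_of_nonneg (fun m hm => (Finset.mem_filter.1 hm).2)
            fun m _ _ => by positivity
      _ = ∑ m ∈ full M \ A,
          ‖if m = 0 ∨ m ∈ A then 0 else coef f m‖ ^ 2 * Real.exp (-(2 * m * y)) := by
          symm
          refine Finset.sum_subset (fun m hm => ?_) fun m hm hm' => ?_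
          · exact Finset.mem_of_mem_erase (Finset.mem_sdiff.1 hm).1
          · have : m = 0 ∨ m ∈ A := by
              by_contra hc
              rw [not_or] at hc
              exact hm' (Finset.mem_sdiff.2 ⟨Finset.mem_erase.2 ⟨hc.1, hm⟩, hc.2⟩)
            simp [this]
      _ ≤ _ := by
          refine Finset.sum_le_sum fun m hm => ?_
          have h3 := Finset.mem_sdiff.1 hm
          have : ¬(m = 0 ∨ m ∈ A) := by
            rw [not_or]; exact ⟨(Finset.mem_erase.1 h3.1).1, h3.2⟩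
          rw [if_neg this]
          exact mul_le_mul_of_nonneg_left (four_exp_le m hyσ) (by positivity)
  · have h0 : (0 : ℤ) ∉ S.filter (fun m => m ∉ Finset.Icc (-(M : ℤ)) M) := by simp
    refine le_trans ?_ (mul_le_mul_of_nonneg_left (hW _ h0) (Real.exp_pos _).le)
    rw [Finset.mul_sum]
    refine Finset.sum_le_sum fun m hm => ?_
    have hm2 := (Finset.mem_filter.1 hm).2
    have hM : (M : ℝ) ≤ |(m : ℝ)| := by
      have : (M : ℤ) ≤ |m| := by
        rw [Finset.mem_Icc, not_and_or] at hm2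
        rcases hm2 with h | h
        · exact le_abs.2 (Or.inr (by omega))
        · exact le_abs.2 (Or.inl (by omega))
      exact_mod_cast this
    have hn : ‖if m = 0 ∨ m ∈ A then 0 else coef f m‖ ≤ ‖coef f m‖ := by
      split_ifs <;> simp
    have he : Real.exp (-(2 * m * y)) ≤ Real.exp (-(M * σ)) * Real.exp (2 * |(m : ℝ)| * σ) := by
      refine (four_exp_le m hy).trans ?_
      rw [← Real.exp_add]
      refine Real.exp_le_exp.2 ?_
      nlinarith [mul_le_mul_of_nonneg_right hM hσ]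
    calc _ ≤ ‖coef f m‖ ^ 2 * (Real.exp (-(M * σ)) * Real.exp (2 * |(m : ℝ)| * σ)) :=
          mul_le_mul (pow_le_pow_left₀ (norm_nonneg _) hn 2) he (Real.exp_pos _).le (by positivity)
      _ = _ := by ring

/-- Cauchy-Schwarz on an interval. -/
theorem four_sq_int {φ : ℝ → ℝ} (hφ : Continuous φ) :
    (∫ t in (0 : ℝ)..(2 * π), φ t) ^ 2 ≤ 2 * π * ∫ t in (0 : ℝ)..(2 * π), φ t ^ 2 := by
  have hpi := Real.pi_pos
  set J := ∫ t in (0 : ℝ)..(2 * π), φ t with hJ
  set a := J / (2 * π) with ha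
  have h0 : 0 ≤ ∫ t in (0 : ℝ)..(2 * π), (φ t - a) ^ 2 :=
    intervalIntegral.integral_nonneg Real.two_pi_pos.le fun t _ => sq_nonneg _
  have e : ∀ t, (φ t - a) ^ 2 = φ t ^ 2 - 2 * a * φ t + a ^ 2 := fun t => by ring
  simp only [e] at h0
  rw [intervalIntegral.integral_add (Continuous.intervalIntegrable (by fun_prop) _ _)
      (Continuous.intervalIntegrable (by fun_prop) _ _),
    intervalIntegral.integral_sub (Continuous.intervalIntegrable (by fun_prop) _ _)
      (Continuous.intervalIntegrable (by fun_prop) _ _),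
    intervalIntegral.integral_const_mul, intervalIntegral.integral_const, ← hJ] at h0
  simp only [sub_zero, smul_eq_mul] at h0
  have hJa : J = 2 * π * a := by rw [ha]; field_simp
  rw [hJa] at h0 ⊢
  nlinarith [mul_nonneg Real.two_pi_pos.le h0]

/-- Continuous majorant (Cauchy formula on circles of radius `2r` centred on the real axis). -/
theorem exists_majorant {g : ℂ → ℂ} {r Q : ℝ} (hr : 0 < r) (hg : Hol g (2 * r)) (hp : Per g)
    (h : LB g (2 * r) Q) : ∃ mj : ℝ → ℝ, Continuous mj ∧ Function.Periodic mj (2 * π) ∧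
      (∀ x, 0 ≤ mj x) ∧ (∀ (x : ℝ) (ζ : ℂ), ‖ζ - x‖ ≤ r → ‖g ζ‖ ≤ mj x) ∧
      ∫ x in (0 : ℝ)..(2 * π), mj x ^ 2 ≤ 4 * Q := by
  have hpi := Real.pi_pos
  have him : ∀ (x : ℝ) (z : ℂ), z ∈ Metric.closedBall (x : ℂ) (2 * r) → |z.im| ≤ 2 * r := by
    intro x z hz
    rw [mem_closedBall_iff_norm] at hz
    have := Complex.abs_im_le_norm (z - x)
    simp only [Complex.sub_im, Complex.ofReal_im, sub_zero] at this
    exact this.trans hz
  have hcm : ∀ x t : ℝ, circleMap (x : ℂ) (2 * r) t ∈ Metric.closedBall (x : ℂ) (2 * r) :=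
    fun x t => circleMap_mem_closedBall _ (by positivity) _
  have hG : Continuous (fun p : ℝ × ℝ => ‖g (circleMap (p.1 : ℂ) (2 * r) p.2)‖) := by
    refine Continuous.norm (continuous_iff_continuousAt.2 fun p => ?_)
    have h1 : ContinuousAt g (circleMap (p.1 : ℂ) (2 * r) p.2) :=
      (hg _ (him _ _ (hcm p.1 p.2))).continuousAt
    refine ContinuousAt.comp (f := fun p : ℝ × ℝ => circleMap (p.1 : ℂ) (2 * r) p.2) h1 ?_
    unfold circleMap
    fun_prop
  have hG2 : Continuous (fun p : ℝ × ℝ => ‖g (circleMap (p.1 : ℂ) (2 * r) p.2)‖ ^ 2) := hG.pow 2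
  have hG3 : Continuous (fun p : ℝ × ℝ => ‖g (circleMap (p.2 : ℂ) (2 * r) p.1)‖ ^ 2) :=
    hG2.comp continuous_swap
  have hGt : ∀ x : ℝ, Continuous (fun t : ℝ => ‖g (circleMap (x : ℂ) (2 * r) t)‖) := fun x =>
    hG.comp (f := fun t : ℝ => (x, t)) (by fun_prop)
  have hper : ∀ x t : ℝ, g (circleMap ((x + 2 * π : ℝ) : ℂ) (2 * r) t) =
      g (circleMap (x : ℂ) (2 * r) t) := by
    intro x t
    rw [← hp (circleMap (x : ℂ) (2 * r) t)]
    congr 1
    unfold circleMap
    push_cast; ring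
  have hcont : Continuous fun x : ℝ =>
      ∫ t in (0 : ℝ)..(2 * π), ‖g (circleMap (x : ℂ) (2 * r) t)‖ :=
    intervalIntegral.continuous_parametric_intervalIntegral_of_continuous' (μ := volume)
      (f := fun (x : ℝ) (t : ℝ) => ‖g (circleMap (x : ℂ) (2 * r) t)‖) hG 0 (2 * π)
  have hcont2 : Continuous fun x : ℝ =>
      ∫ t in (0 : ℝ)..(2 * π), ‖g (circleMap (x : ℂ) (2 * r) t)‖ ^ 2 :=
    intervalIntegral.continuous_parametric_intervalIntegral_of_continuous' (μ := volume)
      (f := fun (x : ℝ) (t : ℝ) => ‖g (circleMap (x : ℂ) (2 * r) t)‖ ^ 2) hG2 0 (2 * π)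
  refine ⟨fun x => (1 / π) * ∫ t in (0 : ℝ)..(2 * π), ‖g (circleMap (x : ℂ) (2 * r) t)‖,
    continuous_const.mul hcont, fun x => by simp only [hper], fun x => ?_, fun x ζ hζ => ?_, ?_⟩
  · exact mul_nonneg (by positivity)
      (intervalIntegral.integral_nonneg Real.two_pi_pos.le fun t _ => norm_nonneg _)
  · have hd : DifferentiableOn ℂ g (Metric.closedBall (x : ℂ) (2 * r)) := fun z hz =>
      (hg z (him x z hz)).differentiableWithinAt
    have hw : ζ ∈ Metric.ball (x : ℂ) (2 * r) := by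
      rw [mem_ball_iff_norm]; linarith
    have hc := hd.circleIntegral_sub_inv_smul hw
    have hn : ‖∮ z in C((x : ℂ), 2 * r), (z - ζ)⁻¹ • g z‖ ≤
        ∫ t in (0 : ℝ)..(2 * π), 2 * ‖g (circleMap (x : ℂ) (2 * r) t)‖ := by
      unfold circleIntegral
      refine intervalIntegral.norm_integral_le_of_norm_le Real.two_pi_pos.le
        (Filter.Eventually.of_forall fun t _ => ?_)
        ((continuous_const.mul (hGt x)).intervalIntegrable _ _)
      have h1 : ‖circleMap (x : ℂ) (2 * r) t - x‖ = 2 * r := by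
        rw [circleMap_sub_center, norm_circleMap_zero, abs_of_pos (by positivity)]
      have h2 : r ≤ ‖circleMap (x : ℂ) (2 * r) t - ζ‖ := by
        have := norm_sub_le_norm_sub_add_norm_sub (circleMap (x : ℂ) (2 * r) t) ζ x
        linarith
      rw [norm_smul, norm_smul, norm_inv, deriv_circleMap, norm_mul, Complex.norm_I, mul_one,
        norm_circleMap_zero, abs_of_pos (by positivity), ← mul_assoc]
      refine mul_le_mul_of_nonneg_right ?_ (norm_nonneg _)
      rw [← div_eq_mul_inv, div_le_iff₀ (by linarith)]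
      linarith
    rw [hc, intervalIntegral.integral_const_mul, norm_smul] at hn
    have h3 : ‖(2 * π * I : ℂ)‖ = 2 * π := by simp [hpi.le]
    rw [h3] at hn
    beta_reduce
    rw [one_div, ← div_eq_inv_mul, le_div_iff₀ hpi]
    linarith
  · have hsw := intervalIntegral_intervalIntegral_swap
      (F := fun (x : ℝ) (t : ℝ) => ‖g (circleMap (x : ℂ) (2 * r) t)‖ ^ 2)
      (a := 0) (b := 2 * π) (c := 0) (d := 2 * π)
      ((hG2.continuousOn.integrableOn_compact
        (isCompact_uIcc.prod isCompact_uIcc)).mono_set (prod_mono uIoc_subset_uIcc uIoc_subset_uIcc))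
    have hin : ∀ t : ℝ, ∫ x in (0 : ℝ)..(2 * π), ‖g (circleMap (x : ℂ) (2 * r) t)‖ ^ 2 ≤ Q := by
      intro t
      set w := circleMap 0 (2 * r) t with hw
      have hwi : |w.im| ≤ 2 * r := him 0 w (hcm 0 t)
      have e1 : ∀ x : ℝ, circleMap (x : ℂ) (2 * r) t = ((x + w.re : ℝ) : ℂ) + w.im * I := by
        intro x
        have : circleMap (x : ℂ) (2 * r) t = x + w := by
          rw [hw]; unfold circleMap; ring
        rw [this]
        push_cast
        rw [add_assoc, Complex.re_add_im]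
      simp only [e1]
      have hpp : Function.Periodic (fun x : ℝ => ‖g (x + w.im * I)‖ ^ 2) (2 * π) := by
        intro x
        have : (((x + 2 * π : ℝ) : ℂ) + w.im * I) = (x + w.im * I) + 2 * π := by push_cast; ring
        simp only [this, hp _]
      rw [intervalIntegral.integral_comp_add_right (fun x : ℝ => ‖g (x + w.im * I)‖ ^ 2) w.re,
        zero_add, add_comm (2 * π), hpp.intervalIntegral_add_eq w.re 0, zero_add]
      exact h _ hwi
    have hcont3 : Continuous fun t : ℝ =>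
        ∫ x in (0 : ℝ)..(2 * π), ‖g (circleMap (x : ℂ) (2 * r) t)‖ ^ 2 :=
      intervalIntegral.continuous_parametric_intervalIntegral_of_continuous' (μ := volume)
        (f := fun (t : ℝ) (x : ℝ) => ‖g (circleMap (x : ℂ) (2 * r) t)‖ ^ 2)
        hG3 0 (2 * π)
    have h4 : ∫ t in (0 : ℝ)..(2 * π), ∫ x in (0 : ℝ)..(2 * π),
        ‖g (circleMap (x : ℂ) (2 * r) t)‖ ^ 2 ≤ ∫ _t in (0 : ℝ)..(2 * π), Q :=
      intervalIntegral.integral_mono_on Real.two_pi_pos.le (hcont3.intervalIntegrable _ _)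
        (continuous_const.intervalIntegrable _ _) fun t _ => hin t
    rw [← hsw, intervalIntegral.integral_const, sub_zero, smul_eq_mul] at h4
    have h5 : ∫ x in (0 : ℝ)..(2 * π),
        ((1 / π) * ∫ t in (0 : ℝ)..(2 * π), ‖g (circleMap (x : ℂ) (2 * r) t)‖) ^ 2 ≤
        ∫ x in (0 : ℝ)..(2 * π),
          (2 / π) * ∫ t in (0 : ℝ)..(2 * π), ‖g (circleMap (x : ℂ) (2 * r) t)‖ ^ 2 := by
      refine intervalIntegral.integral_mono_on Real.two_pi_pos.le
        (((continuous_const.mul hcont).pow 2).intervalIntegrable _ _)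
        ((continuous_const.mul hcont2).intervalIntegrable _ _) fun x _ => ?_
      have := four_sq_int (hGt x)
      rw [mul_pow]
      refine (mul_le_mul_of_nonneg_left this (by positivity)).trans (le_of_eq ?_)
      field_simp
    refine h5.trans ?_
    rw [intervalIntegral.integral_const_mul]
    refine (mul_le_mul_of_nonneg_left h4 (by positivity)).trans (le_of_eq ?_)
    field_simp
    ring

/-- Change of variables. -/
theorem integral_comp_le {mj : ℝ → ℝ} (hc : Continuous mj) (hp : Function.Periodic mj (2 * π))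
    {V : ℂ → ℂ} (hV : Differentiable ℂ V) (hVp : ∀ z, V (z + 2 * π) = V z + 2 * π) {C : ℝ}
    (hC : 0 < C) (hV' : ∀ x : ℝ, 1 / C ≤ (deriv V x).re) :
    ∫ x in (0 : ℝ)..(2 * π), mj (V x).re ^ 2 ≤ C * ∫ x in (0 : ℝ)..(2 * π), mj x ^ 2 := by
  have hd : ∀ x : ℝ, HasDerivAt (fun x : ℝ => (V x).re) (deriv V x).re x := fun x =>
    (hV x).hasDerivAt.real_of_complex
  have hVc : Continuous fun x : ℝ => (V x).re :=
    Complex.continuous_re.comp (hV.continuous.comp Complex.continuous_ofReal)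
  have hV'c : Continuous fun x : ℝ => (deriv V x).re :=
    Complex.continuous_re.comp (hV.deriv.continuous.comp Complex.continuous_ofReal)
  have h1 := intervalIntegral.integral_comp_mul_deriv (a := 0) (b := 2 * π)
    (g := fun x => mj x ^ 2) (fun x _ => hd x) hV'c.continuousOn (hc.pow 2)
  have e : (V ((2 * π : ℝ) : ℂ)).re = (V ((0 : ℝ) : ℂ)).re + 2 * π := by
    have := hVp 0
    rw [zero_add] at this
    push_cast
    rw [this]
    simp
  have hpp : Function.Periodic (fun x => mj x ^ 2) (2 * π) := fun x => by simp only [hp x]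
  rw [e, hpp.intervalIntegral_add_eq _ 0, zero_add] at h1
  rw [← h1, ← intervalIntegral.integral_const_mul]
  refine intervalIntegral.integral_mono_on Real.two_pi_pos.le
    (((hc.comp hVc).pow 2).intervalIntegrable _ _)
    ((continuous_const.mul (((hc.comp hVc).pow 2).mul hV'c)).intervalIntegrable _ _) fun x _ => ?_
  have h2 : 1 ≤ C * (deriv V x).re := by
    have := hV' x
    rwa [div_le_iff₀' hC] at this
  simp only [Function.comp]
  nlinarith [mul_le_mul_of_nonneg_left h2 (sq_nonneg (mj (V x).re))]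

theorem four_LB_nonneg {g : ℂ → ℂ} {σ Q : ℝ} (hσ : 0 ≤ σ) (h : LB g σ Q) : 0 ≤ Q :=
  le_trans (intervalIntegral.integral_nonneg Real.two_pi_pos.le fun _ _ => by positivity)
    (h 0 (by simpa using hσ))

/-- The form in which the two previous lemmas are used. -/
theorem LB_of_majorant {g : ℂ → ℂ} {r Q : ℝ} (hr : 0 < r) (hg : Hol g (2 * r)) (hp : Per g)
    (h : LB g (2 * r) Q) {V : ℂ → ℂ} (hV : Differentiable ℂ V)
    (hVp : ∀ z, V (z + 2 * π) = V z + 2 * π) {C : ℝ} (hC : 0 < C)
    (hV' : ∀ x : ℝ, 1 / C ≤ (deriv V x).re) {F : ℂ → ℂ} {s B : ℝ} (hB : 0 ≤ B)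
    (hF : ∀ (x y a : ℝ), |y| ≤ s → (∀ ζ : ℂ, ‖ζ - ((V x).re : ℝ)‖ ≤ r → ‖g ζ‖ ≤ a) →
      ‖F (x + y * I)‖ ≤ B * a) : LB F s (4 * C * B ^ 2 * Q) := by
  obtain ⟨mj, hc, hper, h0, hmj, hint⟩ := exists_majorant hr hg hp h
  have hQ : 0 ≤ Q := four_LB_nonneg (by positivity) h
  intro y hy
  by_cases hi : IntervalIntegrable (fun x : ℝ => ‖F (x + y * I)‖ ^ 2) volume 0 (2 * π)
  · have hVc : Continuous fun x : ℝ => (V x).re :=
      Complex.continuous_re.comp (hV.continuous.comp Complex.continuous_ofReal)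
    have h1 : ∫ x in (0 : ℝ)..(2 * π), ‖F (x + y * I)‖ ^ 2 ≤
        ∫ x in (0 : ℝ)..(2 * π), B ^ 2 * mj (V x).re ^ 2 := by
      refine intervalIntegral.integral_mono_on Real.two_pi_pos.le hi
        ((continuous_const.mul ((hc.comp hVc).pow 2)).intervalIntegrable _ _) fun x _ => ?_
      rw [← mul_pow]
      exact pow_le_pow_left₀ (norm_nonneg _) (hF x y _ hy (hmj _)) 2
    rw [intervalIntegral.integral_const_mul] at h1
    have h2 := integral_comp_le hc hper hV hVp hC hV'
    calc _ ≤ _ := h1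
      _ ≤ B ^ 2 * (C * (4 * Q)) :=
        mul_le_mul_of_nonneg_left (h2.trans (mul_le_mul_of_nonneg_left hint hC.le)) (by positivity)
      _ = _ := by ring
  · rw [intervalIntegral.integral_undef hi]
    positivity

theorem SB_of_LB {g : ℂ → ℂ} {r Q : ℝ} (hr : 0 < r) (hr1 : r ≤ 1) (hg : Hol g (2 * r)) (hp : Per g)
    (h : LB g (2 * r) Q) : SB g (r / 2) (Real.sqrt (8 * Q / r)) := by
  obtain ⟨mj, hc, hper, h0, hmj, hint⟩ := exists_majorant hr hg hp h
  have hQ : 0 ≤ Q := four_LB_nonneg (by positivity) h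
  intro z hz
  refine Real.le_sqrt_of_sq_le ?_
  have hpi := Real.pi_gt_three
  have h1 : ∫ _x in (z.re - r / 2)..(z.re - r / 2 + r), ‖g z‖ ^ 2 ≤
      ∫ x in (z.re - r / 2)..(z.re - r / 2 + r), mj x ^ 2 := by
    refine intervalIntegral.integral_mono_on (by linarith)
      (continuous_const.intervalIntegrable _ _) ((hc.pow 2).intervalIntegrable _ _) fun x hx => ?_
    refine pow_le_pow_left₀ (norm_nonneg _) (hmj x z ?_) 2
    refine (Complex.norm_le_abs_re_add_abs_im _).trans ?_
    simp only [Complex.sub_re, Complex.ofReal_re, Complex.sub_im, Complex.ofReal_im, sub_zero]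
    have : |z.re - x| ≤ r / 2 := abs_le.2 ⟨by linarith [hx.2], by linarith [hx.1]⟩
    linarith
  have h2 : ∫ x in (z.re - r / 2)..(z.re - r / 2 + r), mj x ^ 2 ≤
      ∫ x in (z.re - r / 2)..(z.re - r / 2 + 2 * π), mj x ^ 2 :=
    intervalIntegral.integral_mono_interval le_rfl (by linarith) (by linarith)
      (Filter.Eventually.of_forall fun x => sq_nonneg _) ((hc.pow 2).intervalIntegrable _ _)
  have hpp : Function.Periodic (fun x => mj x ^ 2) (2 * π) := fun x => by simp only [hper x]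
  rw [hpp.intervalIntegral_add_eq _ 0, zero_add] at h2
  rw [intervalIntegral.integral_const, add_sub_cancel_left, smul_eq_mul] at h1
  rw [le_div_iff₀ hr]
  linarith

theorem LB_add {f g : ℂ → ℂ} {σ Q Q' : ℝ} (hf : Hol f σ) (hg : Hol g σ) (h : LB f σ Q)
    (h' : LB g σ Q') : LB (fun z => f z + g z) σ (2 * Q + 2 * Q') := by
  intro y hy
  have c1 := four_contLine hf hy
  have c2 := four_contLine hg hy
  have h1 : ∫ x in (0 : ℝ)..(2 * π), ‖f (x + y * I) + g (x + y * I)‖ ^ 2 ≤
      ∫ x in (0 : ℝ)..(2 * π), (2 * ‖f (x + y * I)‖ ^ 2 + 2 * ‖g (x + y * I)‖ ^ 2) := by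
    refine intervalIntegral.integral_mono_on Real.two_pi_pos.le
      (((c1.add c2).norm.pow 2).intervalIntegrable _ _)
      (((continuous_const.mul (c1.norm.pow 2)).add
        (continuous_const.mul (c2.norm.pow 2))).intervalIntegrable _ _) fun x _ => ?_
    have h3 := pow_le_pow_left₀ (norm_nonneg _) (norm_add_le (f (x + y * I)) (g (x + y * I))) 2
    nlinarith [sq_nonneg (‖f (x + y * I)‖ - ‖g (x + y * I)‖)]
  have d1 : Continuous fun x : ℝ => 2 * ‖f (x + y * I)‖ ^ 2 := continuous_const.mul (c1.norm.pow 2)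
  have d2 : Continuous fun x : ℝ => 2 * ‖g (x + y * I)‖ ^ 2 := continuous_const.mul (c2.norm.pow 2)
  rw [intervalIntegral.integral_add (d1.intervalIntegrable _ _) (d2.intervalIntegrable _ _),
    intervalIntegral.integral_const_mul, intervalIntegral.integral_const_mul] at h1
  linarith [h y hy, h' y hy]

/-- Cauchy estimate. -/
theorem SB_deriv {f : ℂ → ℂ} {σ δ A : ℝ} (hδ : 0 < δ) (hf : Hol f σ) (h : SB f σ A) :
    SB (deriv f) (σ - δ) (A / δ) := by
  intro z hz
  have him : ∀ w ∈ Metric.closedBall z δ, |w.im| ≤ σ := by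
    intro w hw
    rw [mem_closedBall_iff_norm] at hw
    have h1 := Complex.abs_im_le_norm (w - z)
    rw [Complex.sub_im] at h1
    have h2 := abs_add_le (w.im - z.im) z.im
    rw [sub_add_cancel] at h2
    linarith
  have hd : DifferentiableOn ℂ f (Metric.closedBall z δ) := fun w hw =>
    (hf w (him w hw)).differentiableWithinAt
  exact Complex.norm_deriv_le_of_forall_mem_sphere_norm_le hδ
    (hd.mono Metric.closure_ball_subset_closedBall).diffContOnCl
    fun w hw => h w (him w (Metric.sphere_subset_closedBall hw))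

theorem Hol_deriv {f : ℂ → ℂ} {σ σ' : ℝ} (hσ : σ' < σ) (hf : Hol f σ) : Hol (deriv f) σ' := by
  intro z hz
  have ho : IsOpen {w : ℂ | |w.im| < σ} :=
    isOpen_lt (continuous_abs.comp Complex.continuous_im) continuous_const
  have hd : DifferentiableOn ℂ f {w : ℂ | |w.im| < σ} := fun w hw =>
    (hf w (le_of_lt hw)).differentiableWithinAt
  exact (hd.deriv ho).differentiableAt (ho.mem_nhds (lt_of_le_of_lt hz hσ))

theorem norm_coef_le {f : ℂ → ℂ} {A : ℝ} (h : ∀ x : ℝ, ‖f x‖ ≤ A) (m : ℤ) : ‖coef f m‖ ≤ A := by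
  have hpi := Real.pi_pos
  have hb : ∀ x ∈ uIoc (0 : ℝ) (2 * π), ‖f x * exp (-(I * m * x))‖ ≤ A := by
    intro x _
    rw [norm_mul, Complex.norm_exp]
    have : (-(I * m * x)).re = 0 := by simp
    rw [this, Real.exp_zero, mul_one]
    exact h x
  have h1 := intervalIntegral.norm_integral_le_of_norm_le_const hb
  rw [sub_zero, abs_of_pos Real.two_pi_pos] at h1
  unfold coef
  have h2 : ‖(1 / (2 * π) : ℂ)‖ = 1 / (2 * π) := by simp [hpi.le]
  rw [norm_mul, h2]
  refine (mul_le_mul_of_nonneg_left h1 (by positivity)).trans (le_of_eq ?_)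
  field_simp

theorem re_coef_zero_ge {f : ℂ → ℂ} {A : ℝ} (hf : Hol f 0) (h : ∀ x : ℝ, A ≤ (f x).re) :
    A ≤ (coef f 0).re := by
  have hpi := Real.pi_pos
  have hc := four_contReal hf le_rfl
  have e : coef f 0 = ((1 / (2 * π) : ℝ) : ℂ) * ∫ x in (0 : ℝ)..(2 * π), f x := by
    unfold coef
    simp
  have h1 : ∫ _x in (0 : ℝ)..(2 * π), A ≤ ∫ x in (0 : ℝ)..(2 * π), (f x).re :=
    intervalIntegral.integral_mono_on Real.two_pi_pos.le (continuous_const.intervalIntegrable _ _)
      ((Complex.continuous_re.comp hc).intervalIntegrable _ _) fun x _ => h x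
  have h2 : ∫ x in (0 : ℝ)..(2 * π), (f x).re = (∫ x in (0 : ℝ)..(2 * π), f x).re :=
    Complex.reCLM.intervalIntegral_comp_comm (hc.intervalIntegrable _ _)
  rw [intervalIntegral.integral_const, sub_zero, smul_eq_mul, h2] at h1
  rw [e, Complex.re_ofReal_mul, one_div, ← div_eq_inv_mul, le_div_iff₀ Real.two_pi_pos]
  linarith

end Pool.Agent.Lib.MP_abef03_an
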