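import Mathlib
import Pool.Agent.Lib.MP_abef03_an.Four

/-! Small divisors, reality and analytic dependence on the frequency. -/

namespace Pool.Agent.Lib.MP_abef03_an

open Complex MeasureTheory Set
open scoped Real

theorem coho_eq (m : ℤ) (hm : m ≠ 0) (ω : ℝ) (p : ℤ) :
    ω - 2 * π * p / m = (2 * π / m) * (m * ω / (2 * π) - p) := by
  have hm' : (m : ℝ) ≠ 0 := Int.cast_ne_zero.mpr hm
  have := Real.pi_pos.ne'
  field_simp

theorem dd_le (m : ℤ) (hm : m ≠ 0) (ω : ℝ) (p : ℤ) : dd m ω ≤ |ω - 2 * π * p / m| := by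
  unfold dd
  have hm' : (m : ℝ) ≠ 0 := Int.cast_ne_zero.mpr hm
  rw [coho_eq m hm ω, coho_eq m hm ω, abs_mul, abs_mul]
  exact mul_le_mul_of_nonneg_left (round_le _ _) (abs_nonneg _)

theorem dd_neg (m : ℤ) (ω : ℝ) : dd (-m) ω = dd m ω := by
  have key : ∀ n : ℤ, n ≠ 0 → dd (-n) ω ≤ dd n ω := by
    intro n hn
    have := dd_le (-n) (neg_ne_zero.mpr hn) ω (-round (n * ω / (2 * π)))
    refine this.trans (le_of_eq ?_)
    unfold dd
    push_cast
    rw [mul_neg, neg_div_neg_eq]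
  rcases eq_or_ne m 0 with rfl | hm
  · simp
  · refine le_antisymm (key m hm) ?_
    have := key (-m) (neg_ne_zero.mpr hm)
    rwa [neg_neg] at this

theorem dd_lip (m : ℤ) (hm : m ≠ 0) (ω ω' : ℝ) : dd m ω ≤ dd m ω' + |ω - ω'| := by
  refine (dd_le m hm ω (round (m * ω' / (2 * π)))).trans ?_
  unfold dd
  have := abs_add_le (ω' - 2 * π * round (m * ω' / (2 * π)) / m) (ω - ω')
  rwa [show ω' - 2 * π * round (m * ω' / (2 * π)) / m + (ω - ω') =
    ω - 2 * π * round (m * ω' / (2 * π)) / m by ring] at this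

theorem divisor_ge {m : ℤ} (hm : m ≠ 0) {ω : ℂ} {ω₀ lam : ℝ} (h1 : lam ≤ dd m ω₀)
    (h2 : ‖ω - ω₀‖ ≤ lam / 2) (h3 : |(m : ℝ)| * lam ≤ 1) :
    |(m : ℝ)| * dd m ω₀ / 6 ≤ ‖exp (I * m * ω) - 1‖ := by
  have hm' : (m : ℝ) ≠ 0 := Int.cast_ne_zero.mpr hm
  have hpi := Real.pi_pos
  have hlam : 0 ≤ lam := by linarith [norm_nonneg (ω - ω₀)]
  have hre : |ω.re - ω₀| ≤ lam / 2 := by
    have := Complex.abs_re_le_norm (ω - ω₀)
    simp only [sub_re, ofReal_re] at this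
    linarith
  have him : |ω.im| ≤ lam / 2 := by
    have := Complex.abs_im_le_norm (ω - ω₀)
    simp only [sub_im, ofReal_im, sub_zero] at this
    linarith
  have hd : dd m ω₀ / 2 ≤ dd m ω.re := by
    have := dd_lip m hm ω₀ ω.re
    rw [abs_sub_comm] at this
    linarith
  have hb : |(m : ℝ) * ω.im| ≤ 1 / 2 := by
    rw [abs_mul]
    nlinarith [abs_nonneg (m : ℝ), mul_le_mul_of_nonneg_left him (abs_nonneg (m : ℝ))]
  set k : ℤ := round (m * ω.re / (2 * π)) with hk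
  set θ : ℝ := m * ω.re - k * (2 * π) with hθ
  have hθ1 : |θ| = |(m : ℝ)| * dd m ω.re := by
    unfold dd
    rw [← abs_mul, ← hk]
    congr 1
    rw [hθ]
    field_simp
  have hθ2 : |θ| ≤ π := by
    have h := abs_sub_round (m * ω.re / (2 * π))
    rw [← hk] at h
    have : θ = 2 * π * (m * ω.re / (2 * π) - k) := by
      rw [hθ]
      field_simp
    rw [this, abs_mul, abs_of_pos (by positivity : 0 < 2 * π)]
    nlinarith
  have hcos : Real.cos (m * ω.re) ≤ 1 - 2 / π ^ 2 * θ ^ 2 := by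
    rw [← Real.cos_sub_int_mul_two_pi _ k]
    exact Real.cos_le_one_sub_mul_cos_sq hθ2
  set r : ℝ := Real.exp (-(m * ω.im)) with hr
  have hr1 : 1 / 2 ≤ r := by
    have := Real.add_one_le_exp (-(m * ω.im))
    have h' := (abs_le.mp hb).2
    linarith
  have hn : ‖exp (I * m * ω) - 1‖ ^ 2 = r ^ 2 - 2 * r * Real.cos (m * ω.re) + 1 := by
    rw [Complex.sq_norm, Complex.normSq_apply]
    simp only [sub_re, sub_im, one_re, one_im, exp_re, exp_im, mul_re, mul_im, I_re, I_im,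
      intCast_re, intCast_im]
    have := Real.sin_sq_add_cos_sq (m * ω.re)
    simp only [zero_mul, mul_zero, sub_zero, one_mul, zero_sub, zero_add, ← hr]
    nlinarith
  have hdd : 0 ≤ dd m ω₀ := abs_nonneg _
  have hx : |(m : ℝ)| * dd m ω₀ / 2 ≤ |θ| := by
    rw [hθ1]
    nlinarith [abs_nonneg (m : ℝ)]
  have hx0 : 0 ≤ |(m : ℝ)| * dd m ω₀ := by positivity
  have hx2 : (|(m : ℝ)| * dd m ω₀ / 2) ^ 2 ≤ θ ^ 2 := by
    rw [← sq_abs θ]
    exact pow_le_pow_left₀ (by positivity) hx 2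
  have hpi2 : 1 / 8 ≤ 2 / π ^ 2 := by
    rw [div_le_div_iff₀ (by norm_num) (by positivity)]
    nlinarith [Real.pi_le_four]
  have h5 : θ ^ 2 / 8 ≤ 1 - Real.cos (m * ω.re) := by nlinarith [sq_nonneg θ]
  refine le_of_sq_le_sq ?_ (norm_nonneg _)
  rw [hn]
  nlinarith [sq_nonneg (r - 1), sq_nonneg θ, sq_nonneg (|(m : ℝ)| * dd m ω₀)]

section solve

variable {f : ℂ → ℂ} {σ W lam ω₀ : ℝ} {ω : ℂ} {M : ℕ} {A : Finset ℤ}

theorem coho_mem {m : ℤ} (hm : m ∈ full M) : m ≠ 0 ∧ |(m : ℝ)| ≤ M := by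
  unfold full at hm
  rw [Finset.mem_erase, Finset.mem_Icc] at hm
  refine ⟨hm.1, ?_⟩
  have : |m| ≤ (M : ℤ) := abs_le.mpr hm.2
  exact_mod_cast this

theorem coho_pos (hA : A ⊆ full M) (h1 : ∀ m ∈ A, lam ≤ dd m ω₀) (hlam : 0 < lam) {m : ℤ}
    (hm : m ∈ A) : 0 < |(m : ℝ)| * dd m ω₀ :=
  mul_pos (abs_pos.mpr (Int.cast_ne_zero.mpr (coho_mem (hA hm)).1)) (hlam.trans_le (h1 m hm))

theorem coho_div (hA : A ⊆ full M) (h1 : ∀ m ∈ A, lam ≤ dd m ω₀) (h2 : ‖ω - ω₀‖ ≤ lam / 2)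
    (h3 : M * lam ≤ 1) (hlam : 0 < lam) {m : ℤ} (hm : m ∈ A) :
    |(m : ℝ)| * dd m ω₀ / 6 ≤ ‖exp (I * m * ω) - 1‖ :=
  divisor_ge (coho_mem (hA hm)).1 (h1 m hm) h2
    ((mul_le_mul_of_nonneg_right (coho_mem (hA hm)).2 hlam.le).trans h3)

theorem coho_q (hA : A ⊆ full M) (h1 : ∀ m ∈ A, lam ≤ dd m ω₀) (h2 : ‖ω - ω₀‖ ≤ lam / 2)
    (h3 : M * lam ≤ 1) (hlam : 0 < lam) {m : ℤ} (hm : m ∈ A) :
    ‖coef f m / (exp (I * m * ω) - 1)‖ ≤ ‖coef f m‖ * (6 / (|(m : ℝ)| * dd m ω₀)) := by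
  have h := coho_div hA h1 h2 h3 hlam hm
  have h0 := coho_pos hA h1 hlam hm
  rw [norm_div, div_eq_mul_one_div]
  refine mul_le_mul_of_nonneg_left ?_ (norm_nonneg _)
  rw [div_le_div_iff₀ (lt_of_lt_of_le (by positivity) h) h0]
  linarith

theorem coho_q' (hA : A ⊆ full M) (h1 : ∀ m ∈ A, lam ≤ dd m ω₀) (h2 : ‖ω - ω₀‖ ≤ lam / 2)
    (h3 : M * lam ≤ 1) (hlam : 0 < lam) {m : ℤ} (hm : m ∈ A) :
    ‖I * m * (coef f m / (exp (I * m * ω) - 1))‖ ≤ ‖coef f m‖ * (6 / dd m ω₀) := by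
  have h := coho_q (f := f) hA h1 h2 h3 hlam hm
  have hm0 : 0 < |(m : ℝ)| := abs_pos.mpr (Int.cast_ne_zero.mpr (coho_mem (hA hm)).1)
  have hd : 0 < dd m ω₀ := hlam.trans_le (h1 m hm)
  rw [norm_mul, norm_mul, norm_I, one_mul, Complex.norm_intCast]
  refine (mul_le_mul_of_nonneg_left h hm0.le).trans (le_of_eq ?_)
  field_simp

theorem coho_cs (hW : WB f σ W) (hA : A ⊆ full M) {c : ℤ → ℂ} {b : ℤ → ℝ} {Λ : ℝ}
    (hb : ∀ m ∈ full M, 0 ≤ b m) (hΛ : ∑ m ∈ full M, b m ≤ Λ)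
    (hc : ∀ m ∈ A, ‖c m‖ ^ 2 ≤ 72 * b m * ‖coef f m‖ ^ 2) :
    SB (tp c A) σ (Real.sqrt (72 * Λ * W)) := by
  intro z hz
  refine (SB_tp c A σ z hz).trans ?_
  have h0 : (0 : ℤ) ∉ A := fun h => (coho_mem (hA h)).1 rfl
  have hW' := hW A h0
  have hb' : ∑ m ∈ A, 72 * b m ≤ 72 * Λ := by
    rw [← Finset.mul_sum]
    have := Finset.sum_le_sum_of_subset_of_nonneg hA (f := b) fun m hm _ => hb m hm
    linarith
  refine Real.le_sqrt_of_sq_le ?_
  have hcs := Finset.sum_sq_le_sum_mul_sum_of_sq_le_mul A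
    (r := fun m => ‖c m‖ * Real.exp (|(m : ℝ)| * σ)) (f := fun m => 72 * b m)
    (g := fun m => ‖coef f m‖ ^ 2 * Real.exp (2 * |(m : ℝ)| * σ))
    (fun m hm => by have := hb m (hA hm); positivity) (fun m _ => by positivity)
    (fun m hm => by
      have he : Real.exp (2 * |(m : ℝ)| * σ) = Real.exp (|(m : ℝ)| * σ) ^ 2 := by
        rw [← Real.exp_nat_mul]
        congr 1
        push_cast
        ring
      rw [he, mul_pow, ← mul_assoc]
      exact mul_le_mul_of_nonneg_right (hc m hm) (by positivity))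
  refine hcs.trans (mul_le_mul hb' hW' (Finset.sum_nonneg fun m _ => by positivity) ?_)
  exact le_trans (Finset.sum_nonneg fun m hm => by have := hb m (hA hm); positivity) hb'

theorem coho_num {d lam : ℝ} (hlam : 0 < lam) (hd : lam ≤ d) :
    (6 / d) ^ 2 ≤ 72 * (1 / (d ^ 2 + lam ^ 2)) := by
  have hd0 : 0 < d := hlam.trans_le hd
  rw [div_pow, mul_one_div, div_le_div_iff₀ (by positivity) (by positivity)]
  nlinarith

theorem solve_diff (hlam : 0 < lam) (hA : A ⊆ full M) (h1 : ∀ m ∈ A, lam ≤ dd m ω₀)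
    (h2 : ‖ω - ω₀‖ ≤ lam / 2) (h3 : M * lam ≤ 1) (z : ℂ) :
    solve A f ω (z + ω) - solve A f ω z = tp (coef f) A z := by
  unfold solve tp
  rw [← Finset.sum_sub_distrib]
  refine Finset.sum_congr rfl fun m hm => ?_
  have hne : exp (I * m * ω) - 1 ≠ 0 := by
    have h := coho_div hA h1 h2 h3 hlam hm
    have h0 := coho_pos hA h1 hlam hm
    exact norm_pos_iff.mp (lt_of_lt_of_le (by positivity) h)
  rw [mul_add, Complex.exp_add]
  field_simp

theorem SB_deriv_solve (hW : WB f σ W) (hlam : 0 < lam) (hA : A ⊆ full M)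
    (h1 : ∀ m ∈ A, lam ≤ dd m ω₀) (h2 : ‖ω - ω₀‖ ≤ lam / 2) (h3 : M * lam ≤ 1) {Λ : ℝ}
    (hΛ : ∑ m ∈ full M, 1 / (dd m ω₀ ^ 2 + lam ^ 2) ≤ Λ) :
    SB (deriv (solve A f ω)) σ (Real.sqrt (72 * Λ * W)) := by
  unfold solve
  rw [deriv_tp]
  refine coho_cs hW hA (fun m _ => by positivity) hΛ fun m hm => ?_
  refine (pow_le_pow_left₀ (norm_nonneg _) (coho_q' hA h1 h2 h3 hlam hm) 2).trans ?_
  rw [mul_pow, mul_comm]
  exact mul_le_mul_of_nonneg_right (coho_num hlam (h1 m hm)) (by positivity)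

theorem SB_solve (hW : WB f σ W) (hlam : 0 < lam) (hA : A ⊆ full M)
    (h1 : ∀ m ∈ A, lam ≤ dd m ω₀) (h2 : ‖ω - ω₀‖ ≤ lam / 2) (h3 : M * lam ≤ 1) {Λ : ℝ}
    (hΛ : ∑ m ∈ full M, (1 / (m : ℝ) ^ 2) / (dd m ω₀ ^ 2 + lam ^ 2) ≤ Λ) :
    SB (solve A f ω) σ (Real.sqrt (72 * Λ * W)) := by
  unfold solve
  refine coho_cs hW hA (fun m _ => by positivity) hΛ fun m hm => ?_
  refine (pow_le_pow_left₀ (norm_nonneg _) (coho_q hA h1 h2 h3 hlam hm) 2).trans ?_
  rw [mul_pow, mul_comm]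
  refine mul_le_mul_of_nonneg_right ?_ (by positivity)
  have h := coho_num hlam (h1 m hm)
  have hm0 : (m : ℝ) ≠ 0 := Int.cast_ne_zero.mpr (coho_mem (hA hm)).1
  have hd : 0 < dd m ω₀ := hlam.trans_le (h1 m hm)
  have e1 : (6 / (|(m : ℝ)| * dd m ω₀)) ^ 2 = 1 / (m : ℝ) ^ 2 * (6 / dd m ω₀) ^ 2 := by
    rw [← sq_abs (m : ℝ)]
    have := abs_pos.mpr hm0
    field_simp
  rw [e1]
  refine (mul_le_mul_of_nonneg_left h (by positivity)).trans (le_of_eq ?_)
  ring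

theorem LB_deriv_solve (hW : WB f σ W) (hlam : 0 < lam) (hA : A ⊆ full M)
    (h1 : ∀ m ∈ A, lam ≤ dd m ω₀) (h2 : ‖ω - ω₀‖ ≤ lam / 2) (h3 : M * lam ≤ 1) :
    LB (deriv (solve A f ω)) σ (72 * π * W / lam ^ 2) := by
  unfold solve
  rw [deriv_tp, show 72 * π * W / lam ^ 2 = 2 * π * (36 / lam ^ 2 * W) by ring]
  refine LB_tp ?_
  have h0 : (0 : ℤ) ∉ A := fun h => (coho_mem (hA h)).1 rfl
  refine le_trans ?_ (mul_le_mul_of_nonneg_left (hW A h0) (by positivity))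
  rw [Finset.mul_sum]
  refine Finset.sum_le_sum fun m hm => ?_
  rw [← mul_assoc]
  refine mul_le_mul_of_nonneg_right ?_ (by positivity)
  refine (pow_le_pow_left₀ (norm_nonneg _) (coho_q' hA h1 h2 h3 hlam hm) 2).trans ?_
  rw [mul_pow, mul_comm]
  refine mul_le_mul_of_nonneg_right ?_ (by positivity)
  have hd := h1 m hm
  have hd0 : 0 < dd m ω₀ := hlam.trans_le hd
  rw [div_pow, div_le_div_iff₀ (by positivity) (by positivity)]
  nlinarith

end solve

theorem coef_neg_of_realOn {f : ℂ → ℂ} (hf : RealOn f) (m : ℤ) :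
    coef f (-m) = starRingEnd ℂ (coef f m) := by
  unfold coef
  have hpi : (0 : ℝ) ≤ 2 * π := by positivity
  rw [map_mul, intervalIntegral.integral_of_le hpi, intervalIntegral.integral_of_le hpi,
    ← integral_conj]
  congr 1
  · simp [map_ofNat]
  · refine integral_congr_ae (Filter.Eventually.of_forall fun x => ?_)
    simp only [map_mul, ← Complex.exp_conj, map_neg, conj_I, conj_ofReal, map_intCast]
    rw [Complex.conj_eq_iff_im.mpr (hf x)]
    congr 2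
    push_cast
    ring

theorem realOn_solve {f : ℂ → ℂ} (hf : RealOn f) {A : Finset ℤ} (hA : ∀ m ∈ A, -m ∈ A) (ω : ℝ) :
    RealOn (solve A f ω) := by
  refine realOn_tp hA fun m => ?_
  rw [coef_neg_of_realOn hf]
  simp only [map_div₀, map_sub, map_one, ← Complex.exp_conj, map_mul, conj_I, conj_ofReal,
    map_intCast]
  congr 3
  push_cast
  ring

theorem realOn_deriv {f : ℂ → ℂ} (hf : RealOn f) (hd : Hol f 0) : RealOn (deriv f) := by
  intro x
  have h1 : HasDerivAt (fun y : ℝ => f y) (deriv f x) x :=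
    (hd x (by simp)).hasDerivAt.comp_ofReal
  have h2 : HasDerivAt (fun y : ℝ => (f y).im) (deriv f x).im x :=
    imCLM.hasFDerivAt.comp_hasDerivAt x h1
  have h3 : (fun y : ℝ => (f y).im) = fun _ => 0 := funext hf
  rw [h3] at h2
  exact h2.unique (hasDerivAt_const x 0)

/-- Analytic dependence of Fourier coefficients on a parameter. -/
theorem analyticAt_coef {F : ℂ → ℂ → ℂ} {ω₀ : ℂ}
    (hF : ∀ x : ℝ, AnalyticAt ℂ (fun p : ℂ × ℂ => F p.1 p.2) (ω₀, x)) (m : ℤ) :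
    AnalyticAt ℂ (fun ω => coef (F ω) m) ω₀ := by
  set G : ℂ × ℂ → ℂ := fun p => F p.1 p.2 with hG
  have hK : IsCompact ((fun x : ℝ => (x : ℂ)) '' uIcc 0 (2 * π)) :=
    isCompact_uIcc.image continuous_ofReal
  obtain ⟨u, v, hu, -, hu0, hv, huv⟩ := generalized_tube_lemma (isCompact_singleton (x := ω₀)) hK
    (isOpen_analyticAt ℂ G) (by
      rintro ⟨a, b⟩ ⟨ha, x, -, hb⟩
      simp only [mem_singleton_iff] at ha hb
      subst ha hb
      exact hF x)
  obtain ⟨r, hr, hru⟩ := Metric.nhds_basis_closedBall.mem_iff.mp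
    (hu.mem_nhds (hu0 (mem_singleton ω₀)))
  have han : ∀ ω ∈ Metric.closedBall ω₀ r, ∀ x ∈ uIcc 0 (2 * π), AnalyticAt ℂ G (ω, (x : ℝ)) :=
    fun ω hω x hx => huv ⟨hru hω, hv ⟨x, hx, rfl⟩⟩
  set D : ℂ × ℝ → ℂ := fun p => fderiv ℂ G (p.1, p.2) (1, 0) * exp (-(I * m * p.2)) with hD
  have hι : Continuous fun p : ℂ × ℝ => ((p.1, p.2) : ℂ × ℂ) := by fun_prop
  have hDc : ContinuousOn D (Metric.closedBall ω₀ r ×ˢ uIcc 0 (2 * π)) := by
    intro p hp
    have h1 : ContinuousAt (fun p : ℂ × ℝ => fderiv ℂ G (p.1, p.2)) p :=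
      ContinuousAt.comp (f := fun p : ℂ × ℝ => ((p.1, p.2) : ℂ × ℂ))
        (han p.1 hp.1 p.2 hp.2).fderiv.continuousAt hι.continuousAt
    exact ((h1.clm_apply continuousAt_const).mul (by fun_prop)).continuousWithinAt
  obtain ⟨C, hC⟩ := ((isCompact_closedBall ω₀ r).prod isCompact_uIcc).exists_bound_of_continuousOn
    hDc
  have hc : ∀ ω ∈ Metric.closedBall ω₀ r,
      ContinuousOn (fun x : ℝ => F ω x * exp (-(I * m * x))) (uIcc 0 (2 * π)) := by
    intro ω hω x hx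
    have h1 : ContinuousAt (fun x : ℝ => G (ω, x)) x :=
      ContinuousAt.comp (f := fun x : ℝ => ((ω, x) : ℂ × ℂ)) (han ω hω x hx).continuousAt
        (by fun_prop)
    exact (h1.mul (by fun_prop)).continuousWithinAt
  have hdiff : DifferentiableOn ℂ (fun ω => coef (F ω) m) (Metric.ball ω₀ r) := by
    intro ω₁ h₁
    have hs : Metric.ball ω₀ r ∈ nhds ω₁ := Metric.isOpen_ball.mem_nhds h₁
    have h := intervalIntegral.hasDerivAt_integral_of_dominated_loc_of_deriv_le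
      (μ := volume) (a := 0) (b := 2 * π) (F := fun ω (x : ℝ) => F ω x * exp (-(I * m * x)))
      (F' := fun ω x => D (ω, x)) (bound := fun _ => C) hs
      (Filter.eventually_of_mem hs fun ω hω =>
        ((hc ω (Metric.ball_subset_closedBall hω)).mono uIoc_subset_uIcc).aestronglyMeasurable
          measurableSet_uIoc)
      (hc ω₁ (Metric.ball_subset_closedBall h₁)).intervalIntegrable
      (ContinuousOn.aestronglyMeasurable (hDc.comp (f := fun x : ℝ => (ω₁, x)) (by fun_prop)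
        fun x hx => ⟨Metric.ball_subset_closedBall h₁, uIoc_subset_uIcc hx⟩) measurableSet_uIoc)
      (Filter.Eventually.of_forall fun x hx ω hω =>
        hC (ω, x) ⟨Metric.ball_subset_closedBall hω, uIoc_subset_uIcc hx⟩)
      intervalIntegrable_const
      (Filter.Eventually.of_forall fun x hx ω hω => by
        have h1 := (han ω (Metric.ball_subset_closedBall hω) x
          (uIoc_subset_uIcc hx)).differentiableAt.hasFDerivAt
        have h2 : HasDerivAt (fun w : ℂ => ((w, x) : ℂ × ℂ)) (1, 0) ω :=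
          (hasDerivAt_id ω).prodMk (hasDerivAt_const ω _)
        exact (h1.comp_hasDerivAt ω h2).mul_const _)
    exact (h.2.differentiableAt.const_mul _).differentiableWithinAt
  exact hdiff.analyticAt (Metric.ball_mem_nhds _ hr)

theorem analyticAt_solve {F : ℂ → ℂ → ℂ} {ω₀ : ℂ} {A : Finset ℤ}
    (hF : ∀ x : ℝ, AnalyticAt ℂ (fun p : ℂ × ℂ => F p.1 p.2) (ω₀, x))
    (hA : ∀ m ∈ A, exp (I * m * ω₀) - 1 ≠ 0) (z : ℂ) :
    AnalyticAt ℂ (fun p : ℂ × ℂ => solve A (F p.1) p.1 p.2) (ω₀, z) := by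
  unfold solve tp
  refine Finset.analyticAt_fun_sum _ fun m hm => ?_
  have h1 : AnalyticAt ℂ (fun p : ℂ × ℂ => coef (F p.1) m) (ω₀, z) :=
    AnalyticAt.comp (g := fun ω => coef (F ω) m) (f := Prod.fst) (analyticAt_coef hF m)
      analyticAt_fst
  have h2 : AnalyticAt ℂ (fun p : ℂ × ℂ => exp (I * m * p.1) - 1) (ω₀, z) :=
    (analyticAt_const.mul analyticAt_fst).cexp.sub analyticAt_const
  have h3 : AnalyticAt ℂ (fun p : ℂ × ℂ => exp (I * m * p.2)) (ω₀, z) :=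
    (analyticAt_const.mul analyticAt_snd).cexp
  exact (h1.div h2 (hA m hm)).mul h3

theorem analyticAt_deriv {F : ℂ → ℂ → ℂ} {q : ℂ × ℂ}
    (hF : AnalyticAt ℂ (fun p : ℂ × ℂ => F p.1 p.2) q) :
    AnalyticAt ℂ (fun p : ℂ × ℂ => deriv (F p.1) p.2) q := by
  set G : ℂ × ℂ → ℂ := fun p => F p.1 p.2 with hG
  have h1 : AnalyticAt ℂ (fun p => fderiv ℂ G p (0, 1)) q :=
    ((ContinuousLinearMap.apply ℂ ℂ ((0, 1) : ℂ × ℂ)).analyticAt _).comp hF.fderiv
  refine h1.congr (hF.eventually_analyticAt.mono fun p hp => ?_)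
  have h2 : HasDerivAt (fun w : ℂ => ((p.1, w) : ℂ × ℂ)) (0, 1) p.2 :=
    (hasDerivAt_const p.2 _).prodMk (hasDerivAt_id p.2)
  have h3 := HasFDerivAt.comp_hasDerivAt (l := G) (f := fun w : ℂ => ((p.1, w) : ℂ × ℂ)) p.2
    hp.differentiableAt.hasFDerivAt h2
  exact h3.deriv.symm

theorem beta_nonneg (F : ℂ → ℂ → ℂ) (c l s : ℝ) (m : ℤ) : 0 ≤ beta F c l s m := by
  unfold beta
  positivity

theorem coho_circ {c l : ℝ} (hl : 0 < l) (t : ℝ) : ‖circleMap c (2 * l) t - c‖ ≤ 2 * l := by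
  rw [circleMap_sub_center, norm_circleMap_zero, abs_of_pos (by positivity)]

theorem coho_cont {F : ℂ → ℂ → ℂ} {c l : ℝ} (hl : 0 < l)
    (hF : ∀ ω : ℂ, ‖ω - c‖ ≤ 2 * l → ∀ x : ℝ, AnalyticAt ℂ (fun p : ℂ × ℂ => F p.1 p.2) (ω, x))
    (m : ℤ) : Continuous fun t : ℝ => ‖coef (F (circleMap c (2 * l) t)) m‖ := by
  refine Continuous.norm (continuous_iff_continuousAt.mpr fun t => ?_)
  exact ContinuousAt.comp (g := fun w => coef (F w) m) (f := circleMap c (2 * l))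
    (analyticAt_coef (hF _ (coho_circ hl t)) m).continuousAt (continuous_circleMap _ _).continuousAt

theorem coho_int_cs {g : ℝ → ℝ} (hg : Continuous g) :
    ((1 / π) * ∫ t in (0 : ℝ)..(2 * π), g t) ^ 2 ≤ (2 / π) * ∫ t in (0 : ℝ)..(2 * π), g t ^ 2 := by
  have hpi := Real.pi_pos
  set J := ∫ t in (0 : ℝ)..(2 * π), g t with hJ
  set a := J / (2 * π) with ha
  have h0 : 0 ≤ ∫ t in (0 : ℝ)..(2 * π), (g t ^ 2 - 2 * a * g t + a ^ 2) :=
    intervalIntegral.integral_nonneg (by positivity) fun t _ => by nlinarith [sq_nonneg (g t - a)]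
  have hg2 : IntervalIntegrable (fun t => g t ^ 2) volume 0 (2 * π) :=
    (hg.pow 2).intervalIntegrable _ _
  have hg1 : IntervalIntegrable (fun t => 2 * a * g t) volume 0 (2 * π) :=
    (continuous_const.mul hg).intervalIntegrable _ _
  rw [intervalIntegral.integral_add (hg2.sub hg1) intervalIntegrable_const,
    intervalIntegral.integral_sub hg2 hg1, intervalIntegral.integral_const_mul,
    intervalIntegral.integral_const, ← hJ, sub_zero, smul_eq_mul] at h0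
  have e1 : (1 / π * J) ^ 2 = (2 / π) * (2 * a * J - 2 * π * a ^ 2) := by
    rw [ha]
    field_simp
    ring
  rw [e1]
  exact mul_le_mul_of_nonneg_left (by linarith) (by positivity)

/-- Cauchy formula in the frequency. -/
theorem le_beta {F : ℂ → ℂ → ℂ} {c l s : ℝ} (hl : 0 < l)
    (hF : ∀ ω : ℂ, ‖ω - c‖ ≤ 2 * l → ∀ x : ℝ, AnalyticAt ℂ (fun p : ℂ × ℂ => F p.1 p.2) (ω, x))
    {ω : ℂ} (hω : ‖ω - c‖ ≤ l) (m : ℤ) :
    ‖coef (F ω) m‖ ^ 2 * Real.exp (2 * |(m : ℝ)| * s) ≤ beta F c l s m := by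
  unfold beta
  refine mul_le_mul_of_nonneg_right (pow_le_pow_left₀ (norm_nonneg _) ?_ 2) (by positivity)
  have hpi := Real.pi_pos
  have hφ : DifferentiableOn ℂ (fun w => coef (F w) m) (Metric.closedBall (c : ℂ) (2 * l)) :=
    fun w hw => (analyticAt_coef (hF w (mem_closedBall_iff_norm.mp hw))
      m).differentiableAt.differentiableWithinAt
  have hw : ω ∈ Metric.ball (c : ℂ) (2 * l) := mem_ball_iff_norm.mpr (by linarith)
  have hC := (hφ.diffContOnCl_ball subset_rfl).circleIntegral_sub_inv_smul hw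
  have hn : 2 * π * ‖coef (F ω) m‖ ≤
      ∫ t in (0 : ℝ)..(2 * π), 2 * ‖coef (F (circleMap c (2 * l) t)) m‖ := by
    have e : ‖(2 * π * I : ℂ) • coef (F ω) m‖ = 2 * π * ‖coef (F ω) m‖ := by
      simp [abs_of_pos hpi]
    rw [← e, ← hC]
    unfold circleIntegral
    refine intervalIntegral.norm_integral_le_of_norm_le (by positivity)
      (Filter.Eventually.of_forall fun t _ => ?_)
      ((continuous_const.mul (coho_cont hl hF m)).intervalIntegrable _ _)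
    have h1 : l ≤ ‖circleMap c (2 * l) t - ω‖ := by
      have h2 : ‖circleMap c (2 * l) t - c‖ = 2 * l := by
        rw [circleMap_sub_center, norm_circleMap_zero, abs_of_pos (by positivity)]
      have h3 := norm_sub_le_norm_sub_add_norm_sub (circleMap c (2 * l) t) ω c
      linarith
    rw [norm_smul, norm_smul, deriv_circleMap, norm_mul, norm_circleMap_zero, norm_I, norm_inv,
      abs_of_pos (by positivity), ← mul_assoc]
    refine mul_le_mul_of_nonneg_right ?_ (norm_nonneg _)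
    rw [mul_one, ← div_eq_mul_inv, div_le_iff₀ (hl.trans_le h1)]
    linarith
  rw [intervalIntegral.integral_const_mul] at hn
  rw [one_div, ← div_eq_inv_mul, le_div_iff₀ hpi]
  linarith

theorem sum_beta_le {F : ℂ → ℂ → ℂ} {c l s W : ℝ} (hl : 0 < l)
    (hF : ∀ ω : ℂ, ‖ω - c‖ ≤ 2 * l → ∀ x : ℝ, AnalyticAt ℂ (fun p : ℂ × ℂ => F p.1 p.2) (ω, x))
    (hW : ∀ ω : ℂ, ‖ω - c‖ ≤ 2 * l → WB (F ω) s W) {A : Finset ℤ} (hA : 0 ∉ A) :
    ∑ m ∈ A, beta F c l s m ≤ 4 * W := by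
  have hpi := Real.pi_pos
  have hc : ∀ m : ℤ, Continuous fun t : ℝ =>
      ‖coef (F (circleMap c (2 * l) t)) m‖ ^ 2 * Real.exp (2 * |(m : ℝ)| * s) :=
    fun m => ((coho_cont hl hF m).pow 2).mul continuous_const
  have h1 : ∀ m ∈ A, beta F c l s m ≤ (2 / π) * ∫ t in (0 : ℝ)..(2 * π),
      ‖coef (F (circleMap c (2 * l) t)) m‖ ^ 2 * Real.exp (2 * |(m : ℝ)| * s) := by
    intro m _
    unfold beta
    rw [intervalIntegral.integral_mul_const, ← mul_assoc]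
    exact mul_le_mul_of_nonneg_right (coho_int_cs (coho_cont hl hF m)) (by positivity)
  refine (Finset.sum_le_sum h1).trans ?_
  rw [← Finset.mul_sum, ← intervalIntegral.integral_finsetSum
    fun m _ => (hc m).intervalIntegrable _ _]
  have h2 : (∫ t in (0 : ℝ)..(2 * π), ∑ m ∈ A,
      ‖coef (F (circleMap c (2 * l) t)) m‖ ^ 2 * Real.exp (2 * |(m : ℝ)| * s)) ≤
      ∫ _t in (0 : ℝ)..(2 * π), W :=
    intervalIntegral.integral_mono_on (by positivity)
      ((continuous_finsetSum _ fun m _ => hc m).intervalIntegrable _ _) intervalIntegrable_const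
      fun t _ => hW _ (coho_circ hl t) A hA
  rw [intervalIntegral.integral_const, sub_zero, smul_eq_mul] at h2
  refine (mul_le_mul_of_nonneg_left h2 (by positivity)).trans (le_of_eq ?_)
  field_simp
  ring

/-- Lipschitz bound in the frequency from a sup bound. -/
theorem lip_of_analytic {φ : ℂ → ℂ} {ω₀ : ℂ} {h A : ℝ} (hh : 0 < h)
    (hφ : ∀ ω, ‖ω - ω₀‖ ≤ h → AnalyticAt ℂ φ ω) (hA : ∀ ω, ‖ω - ω₀‖ ≤ h → ‖φ ω‖ ≤ A) {ω : ℂ}
    (hω : ‖ω - ω₀‖ ≤ h / 2) : ‖φ ω - φ ω₀‖ ≤ 2 * A / h * ‖ω - ω₀‖ := by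
  have hd : DifferentiableOn ℂ φ (Metric.ball ω₀ h) := fun w hw =>
    (hφ w (mem_ball_iff_norm.mp hw).le).differentiableAt.differentiableWithinAt
  have hm : MapsTo φ (Metric.ball ω₀ h) (Metric.closedBall (φ ω₀) (2 * A)) := by
    intro w hw
    rw [mem_closedBall_iff_norm]
    have h1 := hA w (mem_ball_iff_norm.mp hw).le
    have h2 := hA ω₀ (by simpa using hh.le)
    linarith [norm_sub_le (φ w) (φ ω₀)]
  have := Complex.dist_le_div_mul_dist_of_mapsTo_ball hd hm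
    (mem_ball_iff_norm.mpr (by linarith) : ω ∈ Metric.ball ω₀ h)
  rwa [dist_eq_norm, dist_eq_norm] at this

end Pool.Agent.Lib.MP_abef03_an
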