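import Mathlib
import Pool.Agent.Lib.MP_abef03_an.Coho

/-! Calculus of the generating function. -/

namespace Pool.Agent.Lib.MP_abef03_an

open Complex Set
open scoped Real

/-- Quasi-periodic. -/
def QP (f : ℂ → ℂ) : Prop := ∃ c : ℂ, ∀ z, f (z + 2 * π) = f z + c

/-- Lift of a degree one map. -/
def UP (u : ℂ → ℂ) : Prop := ∀ z, u (z + 2 * π) = u z + 2 * π

/-- Radius of curvature. -/
noncomputable def rho (H : ℂ → ℂ) (z : ℂ) : ℂ := deriv (deriv H) z + H z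

/-- Pulled back generating function minus a coboundary. -/
noncomputable def Tf (H K u k : ℂ → ℂ) (x y : ℂ) : ℂ := St H K (u x) (u y) - k y + k x

/-- Derivative of `Tf` in `y`. -/
noncomputable def Pf (H u k : ℂ → ℂ) (x y : ℂ) : ℂ := Sy H (u x) (u y) * deriv u y - deriv k y

/-- Mixed derivative of `Tf`. -/
noncomputable def Af (H u : ℂ → ℂ) (x y : ℂ) : ℂ :=
  rho H ((u x + u y) / 2) * sin ((u y - u x) / 2) / 2 * deriv u x * deriv u y

structure HK (H K : ℂ → ℂ) : Prop where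
  dH : Differentiable ℂ H
  dK : ∀ z, HasDerivAt K (H z) z
  pH : Per H
  qK : QP K

structure UK (u k : ℂ → ℂ) : Prop where
  du : Differentiable ℂ u
  dk : Differentiable ℂ k
  pu : UP u
  qk : QP k

theorem QP.per_deriv {f : ℂ → ℂ} (h : QP f) : Per (deriv f) := by
  obtain ⟨c, hc⟩ := h
  intro z
  rw [← deriv_comp_add_const f (2 * π) z, funext hc, deriv_add_const]

theorem Per.qp {f : ℂ → ℂ} (h : Per f) : QP f := ⟨0, fun z => by rw [h z, add_zero]⟩

theorem UP.qp {f : ℂ → ℂ} (h : UP f) : QP f := ⟨_, h⟩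

theorem hol_of_diff {f : ℂ → ℂ} (h : Differentiable ℂ f) (σ : ℝ) : Hol f σ := fun z _ => h z

theorem SB.mono {f : ℂ → ℂ} {σ σ' A A' : ℝ} (h : SB f σ A) (h1 : σ' ≤ σ) (h2 : A ≤ A') :
    SB f σ' A' := fun z hz => (h z (hz.trans h1)).trans h2

theorem LB.mono {f : ℂ → ℂ} {σ σ' A A' : ℝ} (h : LB f σ A) (h1 : σ' ≤ σ) (h2 : A ≤ A') :
    LB f σ' A' := fun z hz => (h z (hz.trans h1)).trans h2

theorem Hol.mono {f : ℂ → ℂ} {σ σ' : ℝ} (h : Hol f σ) (h1 : σ' ≤ σ) : Hol f σ' :=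
  fun z hz => h z (hz.trans h1)

theorem WB.mono {f : ℂ → ℂ} {σ A A' : ℝ} (h : WB f σ A) (h2 : A ≤ A') : WB f σ A' :=
  fun B hB => (h B hB).trans h2

theorem WB.nonneg {f : ℂ → ℂ} {σ A : ℝ} (h : WB f σ A) : 0 ≤ A := by
  simpa using h ∅ (by simp)

theorem im_le_of_near {z ζ : ℂ} {a b : ℝ} (hz : |z.im| ≤ a) (h : ‖ζ - z‖ ≤ b) : |ζ.im| ≤ a + b := by
  have h1 : |(ζ - z).im| ≤ b := (abs_im_le_norm _).trans h
  have : ζ.im = z.im + (ζ - z).im := by simp
  rw [this]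
  exact (abs_add_le _ _).trans (add_le_add hz h1)

theorem convex_strip (σ : ℝ) : Convex ℝ {z : ℂ | |z.im| ≤ σ} := by
  have : {z : ℂ | |z.im| ≤ σ} = imLm ⁻¹' Icc (-σ) σ := by
    ext z
    simp [abs_le]
  rw [this]
  exact (convex_Icc _ _).linear_preimage _

/-- Mean value inequality on a ball. -/
theorem mvt_ball {φ φ' : ℂ → ℂ} {a b : ℂ} {B : ℝ}
    (h : ∀ ζ, ‖ζ - a‖ ≤ ‖b - a‖ → HasDerivAt φ (φ' ζ) ζ ∧ ‖φ' ζ‖ ≤ B) :
    ‖φ b - φ a‖ ≤ B * ‖b - a‖ :=
  (convex_closedBall a ‖b - a‖).norm_image_sub_le_of_norm_hasDerivWithin_le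
    (fun ζ hζ => (h ζ (mem_closedBall_iff_norm.mp hζ)).1.hasDerivWithinAt)
    (fun ζ hζ => (h ζ (mem_closedBall_iff_norm.mp hζ)).2) (by simp)
    (mem_closedBall_iff_norm.mpr le_rfl)

/-- Mean value inequality on a convex set. -/
theorem mvt_conv {φ φ' : ℂ → ℂ} {a b : ℂ} {B : ℝ} {s : Set ℂ} (hs : Convex ℝ s) (ha : a ∈ s)
    (hb : b ∈ s) (h : ∀ ζ ∈ s, ‖ζ - a‖ ≤ ‖b - a‖ → HasDerivAt φ (φ' ζ) ζ ∧ ‖φ' ζ‖ ≤ B) :
    ‖φ b - φ a‖ ≤ B * ‖b - a‖ :=
  (hs.inter (convex_closedBall a ‖b - a‖)).norm_image_sub_le_of_norm_hasDerivWithin_le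
    (fun ζ hζ => (h ζ hζ.1 (mem_closedBall_iff_norm.mp hζ.2)).1.hasDerivWithinAt)
    (fun ζ hζ => (h ζ hζ.1 (mem_closedBall_iff_norm.mp hζ.2)).2) ⟨ha, by simp⟩
    ⟨hb, mem_closedBall_iff_norm.mpr le_rfl⟩

theorem lip_strip {f : ℂ → ℂ} {σ B : ℝ} (hf : Hol f σ) (hB : SB (deriv f) σ B) {a b : ℂ}
    (ha : |a.im| ≤ σ) (hb : |b.im| ≤ σ) : ‖f b - f a‖ ≤ B * ‖b - a‖ :=
  mvt_conv (convex_strip σ) ha hb fun ζ hζ _ => ⟨(hf ζ hζ).hasDerivAt, hB ζ hζ⟩

theorem norm_sin_sub_le {δ : ℂ} (h : ‖δ‖ ≤ 1) : ‖sin δ - δ‖ ≤ ‖δ‖ ^ 3 / 5 := by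
  have h1 := Complex.sin_bound h
  have h2 : sin δ - δ = (sin δ - (δ - δ ^ 3 / 6)) - δ ^ 3 / 6 := by ring
  have h3 : ‖δ‖ ^ 5 ≤ ‖δ‖ ^ 3 := pow_le_pow_of_le_one (norm_nonneg _) h (by norm_num)
  have h4 : ‖δ ^ 3 / 6‖ = ‖δ‖ ^ 3 / 6 := by simp
  have h5 := norm_sub_le (sin δ - (δ - δ ^ 3 / 6)) (δ ^ 3 / 6)
  have h6 : 0 ≤ ‖δ‖ ^ 3 := by positivity
  rw [h2]
  linarith

theorem norm_sin_le {δ : ℂ} (h : ‖δ‖ ≤ 1) : ‖sin δ‖ ≤ 2 * ‖δ‖ := by
  have h1 := norm_sin_sub_le h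
  have h3 : ‖δ‖ ^ 3 ≤ ‖δ‖ ^ 1 := pow_le_pow_of_le_one (norm_nonneg _) h (by norm_num)
  have h5 := norm_add_le (sin δ - δ) δ
  have := norm_nonneg δ
  rw [sub_add_cancel] at h5
  linarith

theorem norm_cos_le {δ : ℂ} (h : ‖δ‖ ≤ 1) : ‖cos δ‖ ≤ 2 := by
  have h1 := Complex.cos_bound h
  have h3 : ‖δ‖ ^ 4 ≤ 1 := pow_le_one₀ (norm_nonneg _) h
  have h4 : ‖δ‖ ^ 2 ≤ 1 := pow_le_one₀ (norm_nonneg _) h
  have h5 := norm_add_le (cos δ - (1 - δ ^ 2 / 2)) (1 - δ ^ 2 / 2)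
  have h6 := norm_sub_le (1 : ℂ) (δ ^ 2 / 2)
  have h7 : ‖δ ^ 2 / 2‖ = ‖δ‖ ^ 2 / 2 := by simp
  rw [sub_add_cancel] at h5
  rw [norm_one] at h6
  linarith

section deriv

variable {H K : ℂ → ℂ}

theorem hasDerivAt_St (h : HK H K) {a b : ℂ → ℂ} {a' b' z : ℂ} (ha : HasDerivAt a a' z)
    (hb : HasDerivAt b b' z) : HasDerivAt (fun t => St H K (a t) (b t))
      (Sx H (a z) (b z) * a' + Sy H (a z) (b z) * b') z := by
  have h1 : HasDerivAt (fun t => (a t + b t) / 2) ((a' + b') / 2) z := (ha.add hb).div_const 2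
  have h2 : HasDerivAt (fun t => (b t - a t) / 2) ((b' - a') / 2) z := (hb.sub ha).div_const 2
  have h3 := ((h.dH _).hasDerivAt.comp z h1).const_mul 2
  have h4 := (((h3.mul h2.csin).sub ((h.dK _).comp z hb)).add ((h.dK _).comp z ha))
  refine HasDerivAt.congr_deriv h4 ?_
  simp only [Sx, Sy, Function.comp]
  ring

theorem hasDerivAt_Sy (hH : Differentiable ℂ H) {a : ℂ → ℂ} {a' z : ℂ} (ha : HasDerivAt a a' z)
    (y : ℂ) : HasDerivAt (fun t => Sy H (a t) y)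
      (rho H ((a z + y) / 2) * sin ((y - a z) / 2) / 2 * a') z := by
  have h1 : HasDerivAt (fun t => (a t + y) / 2) (a' / 2) z := (ha.add_const y).div_const 2
  have h2 : HasDerivAt (fun t => (y - a t) / 2) (-a' / 2) z := (ha.const_sub y).div_const 2
  have h3 := (hH.deriv _).hasDerivAt.comp z h1
  have h4 := (hH _).hasDerivAt.comp z h1
  have h5 := ((h3.mul h2.csin).add (h4.mul h2.ccos)).sub_const (H y)
  refine HasDerivAt.congr_deriv h5 ?_
  simp only [rho, Function.comp]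
  ring

variable {u k : ℂ → ℂ}

theorem hasDerivAt_Tf (h : HK H K) (hu : UK u k) (x y : ℂ) :
    HasDerivAt (fun t => Tf H K u k x t) (Pf H u k x y) y := by
  have h1 := hasDerivAt_St h (hasDerivAt_const y (u x)) (hu.du y).hasDerivAt
  refine HasDerivAt.congr_deriv ((h1.sub (hu.dk y).hasDerivAt).add_const (k x)) ?_
  simp [Pf]

theorem hasDerivAt_Pf (hH : Differentiable ℂ H) (hu : Differentiable ℂ u) (k : ℂ → ℂ) (x y : ℂ) :
    HasDerivAt (fun t => Pf H u k t y) (Af H u x y) x := by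
  have h1 := hasDerivAt_Sy hH (hu x).hasDerivAt (u y)
  exact (h1.mul_const (deriv u y)).sub_const (deriv k y)

theorem hasDerivAt_Ff (h : HK H K) (hu : UK u k) (ω z : ℂ) :
    HasDerivAt (fun t => Tf H K u k t (t + ω))
      (Sx H (u z) (u (z + ω)) * deriv u z + deriv k z + Pf H u k z (z + ω)) z := by
  have h0 : HasDerivAt (fun t : ℂ => t + ω) 1 z := (hasDerivAt_id z).add_const ω
  have h1 := hasDerivAt_St h (hu.du z).hasDerivAt ((hu.du (z + ω)).hasDerivAt.comp z h0)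
  have h2 := (h1.sub ((hu.dk (z + ω)).hasDerivAt.comp z h0)).add (hu.dk z).hasDerivAt
  refine HasDerivAt.congr_deriv h2 ?_
  simp only [Pf, Function.comp]
  ring

theorem diff_Ff (h : HK H K) (hu : UK u k) (ω : ℂ) :
    Differentiable ℂ fun t => Tf H K u k t (t + ω) := fun z => (hasDerivAt_Ff h hu ω z).differentiableAt

theorem diff_Af (hH : Differentiable ℂ H) (hu : Differentiable ℂ u) {a b : ℂ → ℂ}
    (ha : Differentiable ℂ a) (hb : Differentiable ℂ b) :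
    Differentiable ℂ fun t => Af H u (a t) (b t) := by
  have h1 := hH.deriv.deriv
  have h2 := hu.deriv
  unfold Af rho
  fun_prop

theorem diff_Pf (hH : Differentiable ℂ H) (hu : UK u k) (ω : ℂ) :
    Differentiable ℂ fun t => Pf H u k t (t + ω) := by
  have h1 := hH.deriv
  have h2 := hu.du.deriv
  have h3 := hu.dk.deriv
  have h4 := hu.du
  unfold Pf Sy
  fun_prop

theorem mid_shift (a b : ℂ) : (a + 2 * π + (b + 2 * π)) / 2 = (a + b) / 2 + 2 * π := by ring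

theorem half_shift (a b : ℂ) : (b + 2 * π - (a + 2 * π)) / 2 = (b - a) / 2 := by ring

theorem per_Ff (h : HK H K) (hu : UK u k) (ω : ℂ) : Per fun t => Tf H K u k t (t + ω) := by
  intro z
  obtain ⟨c, hc⟩ := h.qK
  obtain ⟨c', hc'⟩ := hu.qk
  simp only [Tf, St, add_right_comm z _ ω, hu.pu _, mid_shift, half_shift, h.pH _, hc, hc']
  ring

theorem per_Pf (hH : Per H) (hu : UK u k) (ω : ℂ) : Per fun t => Pf H u k t (t + ω) := by
  intro z
  simp only [Pf, Sy, add_right_comm z _ ω, hu.pu _, mid_shift, half_shift, hH _,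
    hH.qp.per_deriv _, hu.qk.per_deriv _, hu.pu.qp.per_deriv _]

theorem per_Af (hH : Per H) (hu : UP u) (ω : ℂ) : Per fun t => Af H u t (t + ω) := by
  intro z
  simp only [Af, rho, add_right_comm z _ ω, hu _, mid_shift, half_shift, hH _,
    hH.qp.per_deriv.qp.per_deriv _, hu.qp.per_deriv _]

end deriv

section box

theorem Box.mono {ζ : ℂ} {lo hi e lo' hi' e' : ℝ} (h : Box ζ lo hi e) (h1 : lo' ≤ lo) (h2 : hi ≤ hi')
    (h3 : e ≤ e') : Box ζ lo' hi' e' := ⟨h1.trans h.1, h.2.1.trans h2, h.2.2.trans h3⟩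

theorem Box.near {ζ ζ' : ℂ} {lo hi e d : ℝ} (h : Box ζ lo hi e) (hd : ‖ζ' - ζ‖ ≤ d) :
    Box ζ' (lo - d) (hi + d) (e + d) := by
  have h1 := abs_le.mp ((abs_re_le_norm _).trans hd)
  have h3 := norm_add_le (ζ' - ζ) ζ
  rw [sub_add_cancel] at h3
  rw [sub_re] at h1
  exact ⟨by linarith [h.1], by linarith [h.2.1], im_le_of_near h.2.2 hd⟩

theorem exists_slope {u : ℂ → ℂ} (hu : Differentiable ℂ u) {σ lo hi e : ℝ}
    (h : ∀ z : ℂ, |z.im| ≤ σ → Box (deriv u z) lo hi e) {x y : ℂ} (hx : |x.im| ≤ σ)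
    (hy : |y.im| ≤ σ) : ∃ q, u y - u x = q * (y - x) ∧ Box q lo hi e := by
  have hc : Continuous fun t : ℝ => deriv u (x + t * (y - x)) :=
    hu.deriv.continuous.comp (by fun_prop)
  have hm : ∀ t ∈ Icc (0 : ℝ) 1, Box (deriv u (x + t * (y - x))) lo hi e := by
    intro t ht
    apply h
    have := (convex_strip σ).add_smul_sub_mem hx hy ht
    simpa using this
  refine ⟨∫ t in (0 : ℝ)..1, deriv u (x + t * (y - x)), ?_, ?_, ?_, ?_⟩
  · rw [← intervalIntegral.integral_mul_const]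
    have := intervalIntegral.integral_eq_sub_of_hasDerivAt (a := 0) (b := 1)
      (f := fun t : ℝ => u (x + t * (y - x))) (f' := fun t => deriv u (x + t * (y - x)) * (y - x))
      (fun t _ => by
        have h1 : HasDerivAt (fun s : ℂ => u (x + s * (y - x))) (deriv u (x + t * (y - x)) * (y - x))
            (t : ℂ) := by
          have := (hu (x + t * (y - x))).hasDerivAt.comp (t : ℂ)
            (((hasDerivAt_id (t : ℂ)).mul_const (y - x)).const_add x)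
          exact this.congr_deriv (by simp)
        exact h1.comp_ofReal)
      ((hc.mul continuous_const).intervalIntegrable _ _)
    rw [this]
    simp
  · have h1 := reCLM.intervalIntegral_comp_comm (μ := MeasureTheory.volume) (hc.intervalIntegrable 0 1)
    simp only [reCLM_apply] at h1
    rw [← h1]
    have := intervalIntegral.integral_mono_on (μ := MeasureTheory.volume) zero_le_one
      (f := fun _ => lo) (by simp) ((continuous_re.comp hc).intervalIntegrable 0 1)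
      fun t ht => (hm t ht).1
    simpa using this
  · have := intervalIntegral.norm_integral_le_of_norm_le_const (a := 0) (b := 1) (C := hi)
      (f := fun t : ℝ => deriv u (x + t * (y - x))) fun t ht => by
        rw [uIoc_of_le zero_le_one] at ht
        exact (hm t ⟨ht.1.le, ht.2⟩).2.1
    simpa using this
  · have h1 := imCLM.intervalIntegral_comp_comm (μ := MeasureTheory.volume) (hc.intervalIntegrable 0 1)
    simp only [imCLM_apply] at h1
    rw [← h1]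
    have := intervalIntegral.norm_integral_le_of_norm_le_const (a := 0) (b := 1) (C := e)
      (f := fun t : ℝ => (deriv u (x + t * (y - x))).im) fun t ht => by
        rw [uIoc_of_le zero_le_one] at ht
        exact (hm t ⟨ht.1.le, ht.2⟩).2.2
    simpa using this

/-- A sector around the positive axis. -/
def Sec (a : ℂ) (e : ℝ) : Prop := 0 < a.re ∧ |a.im| ≤ e * a.re

theorem Sec.mul {a b : ℂ} {e e' e'' : ℝ} (ha : Sec a e) (hb : Sec b e') (h0 : 0 ≤ e) (_h0' : 0 ≤ e')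
    (h1 : e * e' < 1) (h0'' : 0 ≤ e'') (h : e + e' ≤ e'' * (1 - e * e')) : Sec (a * b) e'' := by
  have h2 : |a.im * b.im| ≤ e * e' * (a.re * b.re) := by
    rw [abs_mul]
    calc _ ≤ (e * a.re) * (e' * b.re) := mul_le_mul ha.2 hb.2 (abs_nonneg _) (by have := ha.1; positivity)
      _ = _ := by ring
  have h3 : 0 < a.re * b.re := mul_pos ha.1 hb.1
  have h4 : (1 - e * e') * (a.re * b.re) ≤ (a * b).re := by
    rw [mul_re]
    linarith [le_abs_self (a.im * b.im)]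
  have h5 : |(a * b).im| ≤ (e + e') * (a.re * b.re) := by
    rw [mul_im]
    refine (abs_add_le _ _).trans ?_
    rw [abs_mul, abs_mul, abs_of_pos ha.1, abs_of_pos hb.1]
    nlinarith [mul_le_mul_of_nonneg_left hb.2 ha.1.le, mul_le_mul_of_nonneg_right ha.2 hb.1.le]
  refine ⟨lt_of_lt_of_le (mul_pos (by linarith) h3) h4, h5.trans ?_⟩
  calc _ ≤ e'' * (1 - e * e') * (a.re * b.re) := by gcongr
    _ ≤ _ := by rw [mul_assoc]; gcongr

theorem Box.sec {G : ℝ} (hG : 1 ≤ G) {ζ : ℂ} (h : Box ζ (1 / (2 * G)) (2 * G) (1 / (100 * G))) :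
    Sec ζ (1 / 50) := by
  have h1 : 0 < 1 / (2 * G) := by positivity
  refine ⟨h1.trans_le h.1, h.2.2.trans ?_⟩
  have : 1 / (100 * G) = 1 / 50 * (1 / (2 * G)) := by field_simp; norm_num
  rw [this]
  linarith [h.1]

theorem Box.norm_ge {ζ : ℂ} {lo hi e : ℝ} (h : Box ζ lo hi e) : lo ≤ ‖ζ‖ := h.1.trans (re_le_norm _)

end box

section twist

variable {H u : ℂ → ℂ} {G μ τ : ℝ}

theorem Af_le (hu : Differentiable ℂ u) (hG : 1 ≤ G) (hμ : 0 < μ) (hGμ : 100 * G * μ ≤ 1)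
    (hU : ∀ z : ℂ, |z.im| ≤ τ → Box (deriv u z) (1 / (2 * G)) (2 * G) (1 / (100 * G)))
    {x y : ℂ} (hx : |x.im| ≤ τ) (hy : |y.im| ≤ τ) (hxy : ‖y - x‖ ≤ 3 * μ)
    (hρ : Box (rho H ((u x + u y) / 2)) (1 / (2 * G)) (2 * G) (1 / (100 * G))) :
    ‖Af H u x y‖ ≤ 100 * G ^ 4 * μ := by
  obtain ⟨q, hq, hb⟩ := exists_slope hu hU hx hy
  have h1 : ‖(u y - u x) / 2‖ ≤ 3 * G * μ := by
    rw [hq, norm_div, norm_mul]
    have := mul_le_mul hb.2.1 hxy (norm_nonneg _) (by positivity)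
    simp only [norm_ofNat]
    linarith
  have h2 := (norm_sin_le (h1.trans (by linarith))).trans (mul_le_mul_of_nonneg_left h1 zero_le_two)
  simp only [Af, norm_mul, norm_div, norm_ofNat]
  calc _ ≤ 2 * G * (2 * (3 * G * μ)) / 2 * (2 * G) * (2 * G) := by
        gcongr
        exacts [hρ.2.1, (hU x hx).2.1, (hU y hy).2.1]
    _ = 24 * (G ^ 4 * μ) := by ring
    _ ≤ _ := by nlinarith [show 0 < G ^ 4 * μ by positivity]

theorem Af_ge (hu : Differentiable ℂ u) (hG : 1 ≤ G) (hμ : 0 < μ) (hGμ : 100 * G * μ ≤ 1)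
    (hU : ∀ z : ℂ, |z.im| ≤ τ → Box (deriv u z) (1 / (2 * G)) (2 * G) (1 / (100 * G)))
    {x ω : ℂ} {ω₀ : ℝ} (h0 : ω₀ ∈ Icc μ (2 * μ)) (hω : ‖ω - ω₀‖ ≤ μ / 100) (hx : |x.im| ≤ τ)
    (hy : |(x + ω).im| ≤ τ)
    (hρ : Box (rho H ((u x + u (x + ω)) / 2)) (1 / (2 * G)) (2 * G) (1 / (100 * G))) :
    Af H u x (x + ω) ≠ 0 ∧ ‖(Af H u x (x + ω))⁻¹‖ ≤ 100 * G ^ 4 / μ ∧
      1 / (200 * G ^ 4 * μ) ≤ ((Af H u x (x + ω))⁻¹).re := by
  obtain ⟨q, hq, hb⟩ := exists_slope hu hU hx hy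
  rw [add_sub_cancel_left] at hq
  have hω1 := abs_le.mp ((abs_re_le_norm _).trans hω)
  have hω2 := (abs_im_le_norm _).trans hω
  simp only [sub_re, ofReal_re, sub_im, ofReal_im, sub_zero] at hω1 hω2
  have hω3 : ‖ω‖ ≤ 3 * μ := by
    have := norm_add_le (ω - ω₀) ω₀
    rw [sub_add_cancel, norm_real, Real.norm_eq_abs, abs_of_pos (hμ.trans_le h0.1)] at this
    linarith [h0.2]
  have sω : Sec ω (1 / 50) := ⟨by linarith [h0.1], by linarith [h0.1]⟩
  have nω : 99 / 100 * μ ≤ ‖ω‖ := le_trans (by linarith [h0.1]) (re_le_norm ω)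
  have hle := Af_le hu hG hμ hGμ hU hx hy (by simpa using hω3) hρ
  set δ := (u (x + ω) - u x) / 2 with hδ
  have hδ1 : ‖δ‖ ≤ 1 / 10 := by
    rw [hδ, hq, norm_div, norm_mul]
    have := mul_le_mul hb.2.1 hω3 (norm_nonneg _) (by positivity)
    simp only [norm_ofNat]
    linarith
  have hq0 : 0 < ‖q‖ := lt_of_lt_of_le (by positivity) hb.norm_ge
  have hδ0 : δ ≠ 0 := by
    rw [hδ, hq]
    exact div_ne_zero (mul_ne_zero (norm_pos_iff.mp hq0)
      (norm_pos_iff.mp (lt_of_lt_of_le (by positivity) nω))) two_ne_zero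
  have hs : ‖sin δ / δ - 1‖ ≤ 1 / 100 := by
    have h1 : sin δ / δ - 1 = (sin δ - δ) / δ := by field_simp
    have h2 := norm_pos_iff.mpr hδ0
    rw [h1, norm_div, div_le_iff₀ h2]
    refine (norm_sin_sub_le (by linarith)).trans ?_
    nlinarith [mul_pos h2 h2]
  have hs1 := abs_le.mp ((abs_re_le_norm _).trans hs)
  have hs2 := (abs_im_le_norm _).trans hs
  simp only [sub_re, one_re, sub_im, one_im, sub_zero] at hs1 hs2
  have ss : Sec (sin δ / δ) (1 / 50) := ⟨by linarith, by linarith⟩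
  have ns : 99 / 100 ≤ ‖sin δ / δ‖ := le_trans (by linarith) (re_le_norm _)
  have hA : Af H u x (x + ω) = rho H ((u x + u (x + ω)) / 2) * q * deriv u x * deriv u (x + ω) * ω *
      (sin δ / δ) / 4 := by
    have : sin δ = sin δ / δ * (q * ω / 2) := by rw [← hq, ← hδ]; field_simp
    rw [Af, ← hδ]
    conv_lhs => rw [this]
    ring
  have s1 := (((((hρ.sec hG).mul (hb.sec hG) (e'' := 1 / 24) (by norm_num) (by norm_num) (by norm_num)
    (by norm_num) (by norm_num)).mul ((hU x hx).sec hG) (e'' := 1 / 15) (by norm_num) (by norm_num)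
    (by norm_num) (by norm_num) (by norm_num)).mul ((hU _ hy).sec hG) (e'' := 1 / 11) (by norm_num)
    (by norm_num) (by norm_num) (by norm_num) (by norm_num)).mul sω (e'' := 1 / 8) (by norm_num)
    (by norm_num) (by norm_num) (by norm_num) (by norm_num)).mul ss (e'' := 1 / 6) (by norm_num)
    (by norm_num) (by norm_num) (by norm_num) (by norm_num)
  have n1 : μ / (100 * G ^ 4) ≤ ‖Af H u x (x + ω)‖ := by
    rw [hA]
    simp only [norm_mul, norm_div (_ * _), norm_ofNat]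
    calc μ / (100 * G ^ 4) ≤ 1 / (2 * G) * (1 / (2 * G)) * (1 / (2 * G)) * (1 / (2 * G)) *
          (99 / 100 * μ) * (99 / 100) / 4 := by
          rw [div_le_iff₀ (by positivity)]
          field_simp
          norm_num
      _ ≤ _ := by
          gcongr
          exacts [hρ.norm_ge, hb.norm_ge, (hU x hx).norm_ge, (hU _ hy).norm_ge]
  have n0 : 0 < ‖Af H u x (x + ω)‖ := lt_of_lt_of_le (by positivity) n1
  refine ⟨norm_pos_iff.mp n0, ?_, ?_⟩
  · rw [norm_inv, inv_le_comm₀ n0 (by positivity)]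
    simpa using n1
  · have h2 : ‖Af H u x (x + ω)‖ ≤ 2 * (Af H u x (x + ω)).re := by
      refine (norm_le_abs_re_add_abs_im _).trans ?_
      rw [hA, div_ofNat_re, div_ofNat_im, abs_div, abs_div, abs_of_pos s1.1,
        abs_of_pos (by norm_num : (0 : ℝ) < 4)]
      linarith [s1.2, s1.1]
    rw [inv_re, normSq_eq_norm_sq, div_le_div_iff₀ (by positivity) (by positivity)]
    nlinarith [mul_le_mul h2 hle n0.le (by linarith)]

end twist

end Pool.Agent.Lib.MP_abef03_an
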