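import Mathlib
import Pool.Agent.Lib.MP_abef03_an.Calc

/-! One Newton step at a fixed complex frequency. -/

namespace Pool.Agent.Lib.MP_abef03_an

open Complex Set
open scoped Real

section defs

variable (H K u k : ℂ → ℂ) (M : ℕ) (ω : ℂ)

noncomputable def kc : ℂ → ℂ := solve (full M) (fun t => Tf H K u k t (t + ω)) ω

noncomputable def k1 (z : ℂ) : ℂ := k z + kc H K u k M ω z

noncomputable def cc : ℂ :=
  coef (fun z => Pf H u (k1 H K u k M ω) z (z + ω) * (Af H u z (z + ω))⁻¹) 0 /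
    coef (fun z => (Af H u z (z + ω))⁻¹) 0

noncomputable def gg (z : ℂ) : ℂ :=
  Pf H u (k1 H K u k M ω) z (z + ω) * (Af H u z (z + ω))⁻¹ -
    cc H K u k M ω * (Af H u z (z + ω))⁻¹

noncomputable def ww : ℂ → ℂ := solve (full M) (gg H K u k M ω) ω

noncomputable def uN (z : ℂ) : ℂ := u (z + ww H K u k M ω z)

noncomputable def kN (z : ℂ) : ℂ :=
  k1 H K u k M ω (z + ww H K u k M ω z) + cc H K u k M ω * (z + ww H K u k M ω z)

end defs

theorem diff_solve (A : Finset ℤ) (f : ℂ → ℂ) (ω : ℂ) : Differentiable ℂ (solve A f ω) :=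
  differentiable_tp _ _

theorem per_solve (A : Finset ℤ) (f : ℂ → ℂ) (ω : ℂ) : Per (solve A f ω) := per_tp _ _

theorem UK.add {u k G : ℂ → ℂ} (h : UK u k) (hG : Differentiable ℂ G) (hp : QP G) :
    UK u fun z => k z + G z := by
  obtain ⟨c, hc⟩ := h.qk
  obtain ⟨c', hc'⟩ := hp
  exact ⟨h.du, h.dk.add hG, h.pu, c + c', fun z => by simp only [hc, hc']; ring⟩

theorem UK.comp {u k w : ℂ → ℂ} (h : UK u k) (hw : Differentiable ℂ w) (hp : Per w) :
    UK (fun z => u (z + w z)) fun z => k (z + w z) := by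
  obtain ⟨c, hc⟩ := h.qk
  have h1 := h.du
  have h2 := h.dk
  refine ⟨by fun_prop, by fun_prop, fun z => ?_, c, fun z => ?_⟩
  · simp only [hp z, add_right_comm z _ (w z), h.pu _]
  · simp only [hp z, add_right_comm z _ (w z), hc]

theorem deriv_comp_w {f w : ℂ → ℂ} (hf : Differentiable ℂ f) (hw : Differentiable ℂ w) (z : ℂ) :
    deriv (fun z => f (z + w z)) z = deriv f (z + w z) * (1 + deriv w z) :=
  ((hf _).hasDerivAt.comp z ((hasDerivAt_id z).add (hw z).hasDerivAt)).deriv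

theorem sqrt_le_mul {a b c : ℝ} (hb : 0 ≤ b) (hc : 0 ≤ c) (h : a ≤ b ^ 2 * c ^ 2) :
    Real.sqrt a ≤ b * c := Real.sqrt_le_iff.mpr ⟨mul_nonneg hb hc, by rw [mul_pow]; exact h⟩

theorem hasDerivAt_sub_lin {f : ℂ → ℂ} {f' s : ℂ} (h : HasDerivAt f f' s) (c : ℂ) :
    HasDerivAt (fun s => f s - c * s) (f' - c) s :=
  (h.sub ((hasDerivAt_id s).const_mul c)).congr_deriv (by simp)

theorem hasDerivAt_add_lin {f : ℂ → ℂ} {f' s : ℂ} (h : HasDerivAt f f' s) (c : ℂ) :
    HasDerivAt (fun s => f s + c * s) (f' + c) s :=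
  (h.add ((hasDerivAt_id s).const_mul c)).congr_deriv (by simp)

/-- The tail of a Fourier series. -/
theorem SB_tail {f : ℂ → ℂ} {σ φ t : ℝ} {M : ℕ} (hσ : 0 < σ) (hσ1 : σ ≤ 1) (hf : Hol f σ)
    (hp : Per f) (hφ : 0 ≤ φ) (ht0 : 0 ≤ t) (hW : WB f σ (2 * φ ^ 2))
    (ht : Real.exp (-(M * σ)) ≤ t ^ 2 * σ / 500) :
    SB (fun z => f z - coef f 0 - tp (coef f) (full M) z) (σ / 8) (t * φ) := by
  have h1 := LB_sub_tp (WA := 0) hσ.le hf hp hW (Finset.Subset.refl (full M)) (by simp)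
  have h2 := SB_of_LB (g := fun z => f z - coef f 0 - tp (coef f) (full M) z) (r := σ / 4)
    (by positivity) (by linarith)
    (fun z hz => ((hf z (by linarith)).sub_const _).sub (differentiable_tp _ _ z))
    (fun z => by simp only [hp z, per_tp _ _ z]) (h1.mono (by linarith) le_rfl)
  refine h2.mono (by linarith) (sqrt_le_mul ht0 hφ ?_)
  rw [div_le_iff₀ (by positivity)]
  have h3 := mul_le_mul ht (mul_le_mul_of_nonneg_right Real.pi_lt_d2.le (sq_nonneg φ))
    (by positivity) (by positivity)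
  nlinarith [mul_nonneg (mul_nonneg (sq_nonneg t) hσ.le) (sq_nonneg φ)]

structure StepOut (H K u k : ℂ → ℂ) (M : ℕ) (ω : ℂ) (σ C p γ ϖ p' φ' : ℝ) : Prop where
  uk : UK (uN H K u k M ω) (kN H K u k M ω)
  w0 : SB (ww H K u k M ω) (σ / 2) ϖ
  w1 : SB (deriv (ww H K u k M ω)) (σ / 4) (4 * ϖ / σ)
  al : SB (fun z => ww H K u k M ω (z + ω) - ww H K u k M ω z) (σ / 16) (2 * γ)
  c0 : ‖cc H K u k M ω‖ ≤ 2 * C ^ 2 * p
  kc1 : SB (deriv (kc H K u k M ω)) σ p
  pN : SB (fun z => Pf H (uN H K u k M ω) (kN H K u k M ω) z (z + ω)) (σ / 64) p'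
  fN : ∃ c, SB (fun z => Tf H K (uN H K u k M ω) (kN H K u k M ω) z (z + ω) - c) (σ / 64) φ'

theorem step {H K u k : ℂ → ℂ} {M : ℕ} {ω : ℂ} {ω₀ σ μ C r p φ Λ Λ₀ lam t γ ϖ p' φ' : ℝ}
    (hH : HK H K) (hu : UK u k) (hσ : 0 < σ) (hσ1 : σ ≤ 1) (hμ : 0 < μ) (hC : 1 ≤ C) (hr : 0 < r)
    (hrσ : r ≤ σ / 16) (hp : 0 ≤ p) (hφ : 0 ≤ φ) (hΛ : 0 ≤ Λ) (hΛ₀ : 0 ≤ Λ₀) (ht0 : 0 ≤ t)
    (ht1 : t ≤ 1) (hlam : 0 < lam) (hlσ : lam ≤ σ / 32) (hMl : M * lam ≤ 1)
    (hω : ‖ω - ω₀‖ ≤ lam / 2) (hdd : ∀ m ∈ full M, lam ≤ dd m ω₀)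
    (hS : ∑ m ∈ full M, 1 / (dd m ω₀ ^ 2 + lam ^ 2) ≤ Λ ^ 2 / 144)
    (hS₀ : ∑ m ∈ full M, (1 / (m : ℝ) ^ 2) / (dd m ω₀ ^ 2 + lam ^ 2) ≤ Λ₀ ^ 2 / 144)
    (ht : Real.exp (-(M * (σ / 2))) ≤ t ^ 2 * σ / 1000)
    (hA1 : ∀ x a : ℂ, |x.im| ≤ σ → ‖a‖ ≤ r → ‖Af H u x (x + ω + a)‖ ≤ C * μ)
    (hA2 : ∀ x : ℂ, |x.im| ≤ σ → Af H u x (x + ω) ≠ 0 ∧ ‖(Af H u x (x + ω))⁻¹‖ ≤ C / μ ∧
      1 / (C * μ) ≤ ((Af H u x (x + ω))⁻¹).re)
    (hP : SB (fun z => Pf H u k z (z + ω)) σ p)
    (hF : WB (fun z => Tf H K u k z (z + ω)) σ (2 * φ ^ 2)) (h1 : Λ * φ ≤ p)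
    (h2 : 4 * C ^ 3 * p / μ ≤ γ) (h3 : Λ₀ * γ ≤ ϖ) (h4 : ϖ ≤ σ / 64) (h5 : γ ≤ r / 8)
    (h6 : 48 * C * μ * γ ^ 2 / r + 8 * C * μ * γ * ϖ / σ + 16 * p * ϖ / σ + 2 * C * μ * t * γ ≤ p')
    (h7 : t * φ + 2 * γ * (4 * C ^ 2 * p + 2 * C * μ * γ) ≤ φ') :
    StepOut H K u k M ω σ C p γ ϖ p' φ' := by
  have hγ : 0 ≤ γ := le_trans (by positivity) h2
  have hϖ : 0 ≤ ϖ := le_trans (by positivity) h3
  have hωi : |ω.im| ≤ σ / 64 := by
    have := im_le_of_near (z := ω₀) (a := 0) (by simp) hω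
    linarith
  have shift : ∀ {z : ℂ} {a : ℝ}, |z.im| ≤ a → |(z + ω).im| ≤ a + σ / 64 := fun hz => by
    rw [add_im]
    exact (abs_add_le _ _).trans (add_le_add hz hωi)
  set F : ℂ → ℂ := fun z => Tf H K u k z (z + ω) with hFd
  set Kc := kc H K u k M ω with hKc
  set κ := k1 H K u k M ω with hκ
  set c := cc H K u k M ω with hc
  set g := gg H K u k M ω with hg
  set w := ww H K u k M ω with hw
  have dKc : Differentiable ℂ Kc := diff_solve _ _ _
  have dw : Differentiable ℂ w := diff_solve _ _ _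
  have pw : Per w := per_solve _ _ _
  have hu1 : UK u κ := hu.add dKc (per_solve _ _ _).qp
  have bKc : SB (deriv Kc) σ p := (SB_deriv_solve hF hlam (Finset.Subset.refl _) hdd hω hMl hS).mono
    le_rfl ((sqrt_le_mul hΛ hφ (by linarith)).trans h1)
  set P1 : ℂ → ℂ := fun z => Pf H u κ z (z + ω) with hP1
  set a0 : ℂ → ℂ := fun z => Af H u z (z + ω) with ha0
  have dP1 : Differentiable ℂ P1 := diff_Pf hH.dH hu1 ω
  have da0 : Differentiable ℂ a0 := diff_Af hH.dH hu.du differentiable_id (by fun_prop)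
  have bP1 : SB P1 (σ / 2) (2 * p) := by
    intro z hz
    have e : P1 z = Pf H u k z (z + ω) - deriv Kc (z + ω) := by
      have : deriv κ (z + ω) = deriv k (z + ω) + deriv Kc (z + ω) := deriv_add (hu.dk _) (dKc _)
      simp only [hP1, Pf, this]
      ring
    rw [e]
    have := hP z (by linarith)
    have := bKc (z + ω) (by linarith [shift hz])
    linarith [norm_sub_le (Pf H u k z (z + ω)) (deriv Kc (z + ω))]
  have hai : Hol (fun z => (a0 z)⁻¹) σ := fun z hz => (da0 z).inv (hA2 z hz).1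
  have hden : 1 / (C * μ) ≤ ‖coef (fun z => (a0 z)⁻¹) 0‖ :=
    (re_coef_zero_ge (hai.mono hσ.le) fun x => (hA2 x (by simp [hσ.le])).2.2).trans (re_le_norm _)
  have hden0 : 0 < ‖coef (fun z => (a0 z)⁻¹) 0‖ := lt_of_lt_of_le (by positivity) hden
  have bc : ‖c‖ ≤ 2 * C ^ 2 * p := by
    have h := norm_coef_le (f := fun z => P1 z * (a0 z)⁻¹) (A := 2 * p * (C / μ)) (fun x => by
      rw [norm_mul]
      exact mul_le_mul (bP1 x (by simp; positivity)) (hA2 x (by simp [hσ.le])).2.1 (norm_nonneg _)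
        (by positivity)) 0
    rw [hc, cc, norm_div, div_le_iff₀ hden0]
    refine h.trans (le_trans (le_of_eq ?_) (mul_le_mul_of_nonneg_left hden (by positivity)))
    field_simp
  have hC2 : p ≤ C ^ 2 * p := le_mul_of_one_le_left hp (one_le_pow₀ hC)
  have bg : SB g (σ / 2) γ := by
    intro z hz
    have e : g z = (P1 z - c) * (a0 z)⁻¹ := by rw [sub_mul]; rfl
    rw [e, norm_mul]
    refine le_trans ?_ h2
    calc _ ≤ (4 * C ^ 2 * p) * (C / μ) := by
          gcongr
          · linarith [norm_sub_le (P1 z) c, bP1 z hz]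
          · exact (hA2 z (by linarith)).2.1
      _ = _ := by field_simp
  have hg1 : Hol g (σ / 2) := fun z hz =>
    ((dP1 z).mul (hai z (by linarith))).sub ((hai z (by linarith)).const_mul c)
  have pg : Per g := fun z => by
    have e1 := per_Pf hH.pH hu1 ω z
    have e2 := per_Af hH.pH hu.pu ω z
    simp only [hg, gg, ← hκ] at e1 e2 ⊢
    rw [e1, e2]
  have g0 : coef g 0 = 0 := by
    have := coef_sub_smul (f := fun z => P1 z * (a0 z)⁻¹) (g := fun z => (a0 z)⁻¹)
      (fun z hz => (dP1 z).mul (hai z (by linarith))) (hai.mono hσ.le) c 0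
    rw [show g = fun z => P1 z * (a0 z)⁻¹ - c * (a0 z)⁻¹ from rfl, this, hc, cc,
      div_mul_cancel₀ _ (norm_pos_iff.mp hden0), sub_self]
  have Wg : WB g (σ / 2) (2 * γ ^ 2) := by
    refine (WB_of_LB (c := 0) (by positivity) hg1 pg
      (LB_of_SB (A := γ) (by simpa using bg))).mono (le_of_eq ?_)
    field_simp
  have bw : SB w (σ / 2) ϖ := (SB_solve Wg hlam (Finset.Subset.refl _) hdd hω hMl hS₀).mono
    le_rfl ((sqrt_le_mul hΛ₀ hγ (by linarith)).trans h3)
  have bw1 : SB (deriv w) (σ / 4) (4 * ϖ / σ) :=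
    (SB_deriv (δ := σ / 4) (by positivity) (hol_of_diff dw _) bw).mono (by linarith)
      (le_of_eq (by field_simp))
  have tg := SB_tail (M := M) (by positivity) (by linarith) hg1 pg hγ ht0 Wg (by linarith)
  have tF := SB_tail (M := M) hσ hσ1 (hol_of_diff (diff_Ff hH hu ω) σ) (per_Ff hH hu ω) hφ ht0 hF
    ((Real.exp_le_exp.mpr (by nlinarith [Nat.cast_nonneg (α := ℝ) M])).trans
      (ht.trans (by nlinarith [mul_nonneg (sq_nonneg t) hσ.le])))
  have eα : ∀ z, w (z + ω) - w z = tp (coef g) (full M) z :=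
    solve_diff hlam (Finset.Subset.refl _) hdd hω hMl
  have eK : ∀ z, Kc (z + ω) - Kc z = tp (coef F) (full M) z :=
    solve_diff hlam (Finset.Subset.refl _) hdd hω hMl
  have tg' : ∀ z : ℂ, |z.im| ≤ σ / 16 → ‖g z - (w (z + ω) - w z)‖ ≤ t * γ := fun z hz => by
    simpa [g0, eα] using tg z (by linarith)
  have bα : SB (fun z => w (z + ω) - w z) (σ / 16) (2 * γ) := fun z hz => by
    have e1 := norm_sub_le (g z) (g z - (w (z + ω) - w z))
    rw [sub_sub_cancel] at e1
    nlinarith [tg' z hz, bg z (by linarith)]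
  have ukc : UK u fun z => κ z + c * z := hu1.add (by fun_prop) ⟨c * (2 * π), fun z => by ring⟩
  have ukN : UK (uN H K u k M ω) (kN H K u k M ω) := ukc.comp dw pw
  have ba0 : SB a0 σ (C * μ) := fun z hz => by simpa using hA1 z 0 hz (by simpa using hr.le)
  have La0 : SB (deriv a0) (σ / 2) (2 * C * μ / σ) :=
    (SB_deriv (δ := σ / 2) (by positivity) (hol_of_diff da0 _) ba0).mono (by linarith)
      (le_of_eq (by field_simp))
  have LP1 : SB (deriv P1) (σ / 4) (8 * p / σ) :=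
    (SB_deriv (δ := σ / 4) (by positivity) (hol_of_diff dP1 _) bP1).mono (by linarith)
      (le_of_eq (by field_simp; ring))
  refine ⟨ukN, bw, bw1, bα, bc, bKc, fun z hz => ?_, coef F 0 - c * ω, fun z hz => ?_⟩
  · have hα : ‖w (z + ω) - w z‖ ≤ 2 * γ := bα z (by linarith)
    have hwz := bw z (by linarith)
    have hwz' := bw (z + ω) (by linarith [shift hz])
    set α := w (z + ω) - w z with hαd
    set v := z + w z with hv
    have hvi : |v.im| ≤ σ / 64 + ϖ := im_le_of_near hz (by simpa [hv] using hwz)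
    have ey : z + ω + w (z + ω) = v + α + ω := by rw [hv, hαd]; ring
    have e : Pf H (uN H K u k M ω) (kN H K u k M ω) z (z + ω) =
        (Pf H u κ v (v + α + ω) - c) * (1 + deriv w (z + ω)) := by
      have e1 : deriv (uN H K u k M ω) (z + ω) = _ := deriv_comp_w hu.du dw (z + ω)
      have e2 : deriv (kN H K u k M ω) (z + ω) = _ := deriv_comp_w ukc.dk dw (z + ω)
      have e3 : ∀ y, deriv (fun z => κ z + c * z) y = deriv κ y + c := fun y =>
        (hasDerivAt_add_lin (hu1.dk y).hasDerivAt c).deriv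
      rw [Pf, e1, e2, e3, Pf, uN, uN, ← hw, ey]
      ring
    have t1 : ‖(Pf H u κ (v + α) (v + α + ω) - a0 z * (v + α)) -
        (Pf H u κ v (v + α + ω) - a0 z * v)‖ ≤
        (2 * (C * μ) / r * (4 * γ) + 2 * C * μ / σ * (ϖ + 2 * γ)) * ‖v + α - v‖ := by
      refine mvt_ball (φ := fun s => Pf H u κ s (v + α + ω) - a0 z * s)
        (φ' := fun s => Af H u s (v + α + ω) - a0 z) fun s hs => ⟨?_, ?_⟩
      · exact hasDerivAt_sub_lin (hasDerivAt_Pf hH.dH hu.du κ s _) (a0 z)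
      · rw [add_sub_cancel_left] at hs
        have hsi : |s.im| ≤ σ / 64 + ϖ + 2 * γ := im_le_of_near hvi (hs.trans hα)
        have ha : ‖v + α - s‖ ≤ 4 * γ := by
          have := norm_sub_le α (s - v)
          rw [show α - (s - v) = v + α - s by ring] at this
          linarith
        have l1 := lip_of_analytic (φ := fun a => Af H u s (s + ω + a)) (ω₀ := 0) (A := C * μ) hr
          (fun a _ => (diff_Af hH.dH hu.du (differentiable_const s) (by fun_prop)).analyticAt a)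
          (fun a ha => hA1 s a (by linarith) (by simpa using ha)) (ω := v + α - s)
          (by rw [sub_zero]; linarith)
        have l2 := lip_strip (hol_of_diff da0 _) La0 (a := z) (b := s) (by linarith) (by linarith)
        have hsz : ‖s - z‖ ≤ ϖ + 2 * γ := by
          have := norm_add_le (s - v) (w z)
          rw [show s - v + w z = s - z by rw [hv]; ring] at this
          linarith
        rw [show s + ω + (v + α - s) = v + α + ω by ring, add_zero, sub_zero] at l1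
        have l3 := norm_add_le (Af H u s (v + α + ω) - a0 s) (a0 s - a0 z)
        rw [sub_add_sub_cancel] at l3
        refine l3.trans (add_le_add (l1.trans ?_) (l2.trans ?_)) <;> gcongr
    have t2 : ‖P1 (v + α) - P1 z‖ ≤ 8 * p / σ * ϖ := by
      have hd : ‖v + α - z‖ ≤ ϖ := by
        rw [show v + α - z = w (z + ω) by rw [hv, hαd]; ring]
        exact hwz'
      refine (lip_strip (hol_of_diff dP1 _) LP1 (by linarith)
        (by linarith [im_le_of_near hz hd])).trans ?_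
      gcongr
    have t3 : ‖P1 z - c - a0 z * α‖ ≤ C * μ * (t * γ) := by
      have : P1 z - c - a0 z * α = a0 z * (g z - α) := by
        have e : g z = (P1 z - c) * (a0 z)⁻¹ := by rw [sub_mul]; rfl
        have : a0 z ≠ 0 := (hA2 z (by linarith)).1
        rw [e]
        field_simp
      rw [this, norm_mul]
      exact mul_le_mul (ba0 z (by linarith)) (tg' z (by linarith)) (norm_nonneg _) (by positivity)
    have e4 : Pf H u κ v (v + α + ω) - c = (P1 (v + α) - P1 z) + (P1 z - c - a0 z * α) -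
        ((Pf H u κ (v + α) (v + α + ω) - a0 z * (v + α)) - (Pf H u κ v (v + α + ω) - a0 z * v)) := by
      simp only [hP1]
      ring
    have t4 : ‖1 + deriv w (z + ω)‖ ≤ 2 := by
      have := bw1 (z + ω) (by linarith [shift hz])
      have h : 4 * ϖ / σ ≤ 1 := by rw [div_le_one hσ]; linarith
      linarith [norm_add_le 1 (deriv w (z + ω)), norm_one (α := ℂ)]
    rw [add_sub_cancel_left] at t1
    have t5 : (2 * (C * μ) / r * (4 * γ) + 2 * C * μ / σ * (ϖ + 2 * γ)) * ‖α‖ ≤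
        24 * C * μ * γ ^ 2 / r + 4 * C * μ * γ * ϖ / σ := by
      have h : 8 * C * μ * γ ^ 2 / σ ≤ 8 * C * μ * γ ^ 2 / r := by gcongr; linarith
      calc _ ≤ (2 * (C * μ) / r * (4 * γ) + 2 * C * μ / σ * (ϖ + 2 * γ)) * (2 * γ) := by gcongr
        _ = 16 * C * μ * γ ^ 2 / r + 4 * C * μ * γ * ϖ / σ + 8 * C * μ * γ ^ 2 / σ := by ring
        _ ≤ 16 * C * μ * γ ^ 2 / r + 4 * C * μ * γ * ϖ / σ + 8 * C * μ * γ ^ 2 / r := by linarith
        _ = _ := by ring
    beta_reduce
    rw [e, norm_mul]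
    refine le_trans ?_ h6
    calc _ ≤ (8 * p / σ * ϖ + C * μ * (t * γ) +
          (24 * C * μ * γ ^ 2 / r + 4 * C * μ * γ * ϖ / σ)) * 2 := by
          gcongr
          rw [e4]
          exact (norm_sub_le _ _).trans (add_le_add ((norm_add_le _ _).trans (add_le_add t2 t3))
            (t1.trans t5))
      _ = _ := by ring
  · have hα : ‖w (z + ω) - w z‖ ≤ 2 * γ := bα z (by linarith)
    have hwz := bw z (by linarith)
    set α := w (z + ω) - w z with hαd
    set v := z + w z with hv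
    have hvi : |v.im| ≤ σ / 64 + ϖ := im_le_of_near hz (by simpa [hv] using hwz)
    have ey : z + ω + w (z + ω) = v + ω + α := by rw [hv, hαd]; ring
    have t1 : ‖(Tf H K u κ v (v + ω + α) - c * (v + ω + α)) - (Tf H K u κ v (v + ω) - c * (v + ω))‖ ≤
        (4 * C ^ 2 * p + 2 * C * μ * γ) * ‖v + ω + α - (v + ω)‖ := by
      refine mvt_ball (φ := fun s => Tf H K u κ v s - c * s) (φ' := fun s => Pf H u κ v s - c)
        fun s hs => ⟨?_, ?_⟩
      · exact hasDerivAt_sub_lin (hasDerivAt_Tf hH hu1 v s) c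
      · rw [add_sub_cancel_left] at hs
        have hs' : ‖s - ω - v‖ ≤ 2 * γ := by
          rw [show s - ω - v = s - (v + ω) by ring]
          linarith
        have l1 : ‖Pf H u κ (s - ω) s - Pf H u κ v s‖ ≤ C * μ * ‖s - ω - v‖ := by
          refine mvt_ball (φ := fun x => Pf H u κ x s) (φ' := fun x => Af H u x s)
            fun x hx => ⟨hasDerivAt_Pf hH.dH hu.du κ x s, ?_⟩
          have := hA1 x (s - ω - x) (by linarith [im_le_of_near hvi (hx.trans hs')]) (by
            have := norm_sub_le (s - ω - v) (x - v)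
            rw [show s - ω - v - (x - v) = s - ω - x by ring] at this
            linarith)
          rwa [show x + ω + (s - ω - x) = s by ring] at this
        have l2 := bP1 (s - ω) (by linarith [im_le_of_near hvi hs'])
        simp only [hP1, sub_add_cancel] at l2
        have l3 := norm_sub_le (Pf H u κ (s - ω) s) (Pf H u κ (s - ω) s - Pf H u κ v s)
        rw [sub_sub_cancel] at l3
        have l4 : C * μ * ‖s - ω - v‖ ≤ C * μ * (2 * γ) := by gcongr
        linarith [norm_sub_le (Pf H u κ v s) c]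
    have t2 := tF v (by linarith)
    have e : Tf H K (uN H K u k M ω) (kN H K u k M ω) z (z + ω) - (coef F 0 - c * ω) =
        (F v - coef F 0 - tp (coef F) (full M) v) +
        ((Tf H K u κ v (v + ω + α) - c * (v + ω + α)) - (Tf H K u κ v (v + ω) - c * (v + ω))) := by
      rw [← eK]
      simp only [Tf, uN, kN, hFd, ← hw, ← hκ, ← hc, ey, ← hv]
      simp only [hκ, k1, ← hKc]
      ring
    rw [add_sub_cancel_left] at t1
    beta_reduce
    rw [e]
    refine ((norm_add_le _ _).trans (add_le_add t2 (t1.trans ?_))).trans h7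
    rw [mul_comm]
    gcongr

end Pool.Agent.Lib.MP_abef03_an
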