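import Mathlib
import Pool.Agent.Lib.MP_abef03_an.Step

/-! Pre-normalisation of a block: one step off a Bohr set, and the initial bounds. -/

namespace Pool.Agent.Lib.MP_abef03_an

open Complex Set
open scoped Real

noncomputable def pk (H K U k W : ℂ → ℂ) (A : Finset ℤ) (ω z : ℂ) : ℂ :=
  k (z + W z) + solve A (fun t => Tf H K U k t (t + ω)) ω (z + W z)

theorem RealOn.re_eq {f : ℂ → ℂ} (h : RealOn f) (x : ℝ) : ((f x).re : ℂ) = f x :=
  Complex.ext (by simp) (by simp [h x])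

theorem norm_add3_le {a b c : ℂ} {x y z : ℝ} (h1 : ‖a‖ ≤ x) (h2 : ‖b‖ ≤ y) (h3 : ‖c‖ ≤ z) :
    ‖a + b + c‖ ≤ x + y + z := norm_add₃_le.trans (by linarith)

theorem pend {H K U k W W₀ : ℂ → ℂ} {A : Finset ℤ} {M : ℕ} {ω : ℂ}
    {ω₀ s lam α πb ϱ b κ Λ ϱ' q' : ℝ} (hH : HK H K) (hu : UK U k) (dW : Differentiable ℂ W)
    (pW : Per W) (dW₀ : Differentiable ℂ W₀) (pW₀ : Per W₀) (rW₀ : RealOn W₀)
    (hW₀ : ∀ x : ℝ, ‖deriv W₀ x‖ ≤ 1 / 2) (hs : 0 < s) (hW1 : SB (deriv W) s (1 / 2))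
    (hα : SB (fun z => W (z + ω) - W z) (s / 16) α) (hW2 : ∀ x : ℝ, ‖W x - W₀ x‖ ≤ s / 16)
    (hαs : α ≤ s / 16) (hlam : 0 < lam) (hls : lam ≤ s / 8) (hMl : M * lam ≤ 1)
    (hω : ‖ω - ω₀‖ ≤ lam / 2) (hA : A ⊆ full M) (hdd : ∀ m ∈ A, lam ≤ dd m ω₀) (hΛ : 0 ≤ Λ)
    (hϱ : 0 ≤ ϱ) (hS : ∑ m ∈ full M, 1 / (dd m ω₀ ^ 2 + lam ^ 2) ≤ Λ ^ 2 / 144)
    (hPi : ∀ x a : ℂ, |x.im| ≤ s / 2 → ‖a‖ ≤ α →
      ‖Sy H (U x) (U (x + ω + a)) * deriv U (x + ω + a)‖ ≤ πb)
    (hR : WB (fun z => Tf H K U k z (z + ω)) s (2 * ϱ ^ 2))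
    (hB : ∑ m ∈ full M \ A, ‖coef (fun z => Tf H K U k z (z + ω)) m‖ ^ 2 *
      Real.exp (2 * |(m : ℝ)| * s) ≤ 2 * ϱ ^ 2 * b ^ 2)
    (ht : Real.exp (-(M * s)) ≤ b ^ 2) (hk2 : LB (deriv k) s (144 * π * (ϱ / lam) ^ 2))
    (hk : SB (deriv k) s κ)
    (h1 : 256 * ϱ ^ 2 * b ^ 2 + 8 * (πb * α) ^ 2 + 9216 * α ^ 2 * (ϱ / lam) ^ 2 ≤ 2 * ϱ' ^ 2)
    (h2 : 72 * (ϱ / lam) ^ 2 ≤ q' ^ 2) :
    UK (fun z => U (z + W z)) (pk H K U k W A ω) ∧
      WB (fun z => Tf H K (fun z => U (z + W z)) (pk H K U k W A ω) z (z + ω)) (s / 16) (2 * ϱ' ^ 2) ∧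
      LB (deriv (pk H K U k W A ω)) (s / 16) (144 * π * q' ^ 2) ∧
      SB (deriv (pk H K U k W A ω)) (s / 16) (2 * (κ + Λ * ϱ)) := by
  have hα0 : 0 ≤ α := (norm_nonneg _).trans (hα 0 (by simp; positivity))
  set R : ℂ → ℂ := fun z => Tf H K U k z (z + ω) with hRd
  set G := solve A R ω with hG
  set κ1 : ℂ → ℂ := fun z => k z + G z with hκ1
  have dG : Differentiable ℂ G := diff_solve _ _ _
  have hu1 : UK U κ1 := hu.add dG (per_solve _ _ _).qp
  have huN : UK (fun z => U (z + W z)) (pk H K U k W A ω) := hu1.comp dW pW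
  have eκ : deriv κ1 = fun z => deriv k z + deriv G z := funext fun z => deriv_add (hu.dk z) (dG z)
  have dκ := hu1.dk.deriv
  have Lκ : LB (deriv κ1) (2 * (s / 2)) (576 * π * (ϱ / lam) ^ 2) := by
    rw [eκ]
    refine (LB_add (hol_of_diff hu.dk.deriv _) (hol_of_diff dG.deriv _) hk2
      (LB_deriv_solve hR hlam hA hdd hω hMl)).mono (by linarith) (le_of_eq ?_)
    field_simp
    ring
  have Sκ : SB (deriv κ1) s (κ + Λ * ϱ) := by
    rw [eκ]
    intro z hz
    exact (norm_add_le _ _).trans (add_le_add (hk z hz)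
      ((SB_deriv_solve hR hlam hA hdd hω hMl hS z hz).trans (sqrt_le_mul hΛ hϱ (by linarith))))
  set Res : ℂ → ℂ := fun z => R z - coef R 0 - tp (coef R) A z with hRes
  have dR : Differentiable ℂ R := diff_Ff hH hu ω
  have dRes : Differentiable ℂ Res := (dR.sub_const _).sub (differentiable_tp _ _)
  have LRes : LB Res (2 * (s / 4)) (8 * π * ϱ ^ 2 * b ^ 2) := by
    refine (LB_sub_tp hs.le (hol_of_diff dR _) (per_Ff hH hu ω) hR hA hB).mono (by linarith) ?_
    have := mul_le_mul_of_nonneg_right ht (show 0 ≤ 2 * ϱ ^ 2 by positivity)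
    nlinarith [Real.pi_pos]
  have pRes : Per Res := fun z => by simp only [hRes, per_tp _ _ z, show R _ = R z from per_Ff hH hu ω z]
  have hV : ∀ c : ℂ, Differentiable ℂ (fun z => z + W₀ z + c) ∧
      (∀ z, z + 2 * π + W₀ (z + 2 * π) + c = z + W₀ z + c + 2 * π) ∧
      ∀ x : ℝ, 1 / 2 ≤ (deriv (fun z => z + W₀ z + c) x).re := by
    refine fun c => ⟨by fun_prop, fun z => by rw [pW₀ z]; ring, fun x => ?_⟩
    have : deriv (fun z => z + W₀ z + c) x = 1 + deriv W₀ x :=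
      (((hasDerivAt_id (x : ℂ)).add (dW₀ x).hasDerivAt).add_const c).deriv
    have h := abs_le.mp ((abs_re_le_norm _).trans (hW₀ x))
    rw [this, add_re, one_re]
    linarith
  have hre : ∀ x c : ℝ, (((x : ℂ) + W₀ x + c).re : ℂ) = x + W₀ x + c := fun x c =>
    Complex.ext (by simp) (by simp [rW₀ x])
  have near : ∀ x y : ℝ, |y| ≤ s / 16 →
      ‖(x + y * I + W (x + y * I)) - (x + W₀ x)‖ ≤ s / 16 + s / 32 + s / 16 := by
    intro x y hy
    have e : (x + y * I + W (x + y * I)) - (x + W₀ x) = y * I + (W (x + y * I) - W x) + (W x - W₀ x) := by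
      ring
    have hn : ‖(y : ℂ) * I‖ ≤ s / 16 := by simpa using hy
    rw [e]
    refine norm_add3_le hn ((lip_strip (hol_of_diff dW s) hW1 (by simp [hs.le])
      (by simp; linarith)).trans ?_) (hW2 x)
    rw [add_sub_cancel_left]
    linarith
  have vim : ∀ z : ℂ, |z.im| ≤ s / 16 → |(z + W z).im| ≤ s / 16 + s / 32 + s / 16 := by
    intro z hz
    have := im_le_of_near (z := z.re + W₀ z.re) (a := 0) (by simp [rW₀ z.re]) (near z.re z.im hz)
    rwa [re_add_im, zero_add] at this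
  have ey : ∀ z, z + ω + W (z + ω) = z + W z + ω + (W (z + ω) - W z) := fun z => by ring
  have hW3 : ∀ z : ℂ, |z.im| ≤ s / 16 → ‖1 + deriv W z‖ ≤ 3 / 2 := fun z hz => by
    linarith [norm_add_le 1 (deriv W z), norm_one (α := ℂ), hW1 z (by linarith)]
  refine ⟨huN, ?_, ?_, ?_⟩
  · have L1 : LB (fun z => Res (z + W z)) (s / 16) (4 * 2 * 1 ^ 2 * (8 * π * ϱ ^ 2 * b ^ 2)) := by
      refine LB_of_majorant (by positivity) (hol_of_diff dRes _) pRes LRes (hV (0 : ℝ)).1
        (hV (0 : ℝ)).2.1 two_pos (hV (0 : ℝ)).2.2 zero_le_one fun x y a hy ha => ?_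
      rw [one_mul]
      apply ha
      rw [hre]
      simp only [ofReal_zero, add_zero]
      linarith [near x y hy]
    have L2 : LB (fun z => St H K (U (z + W z)) (U (z + ω + W (z + ω))) -
        St H K (U (z + W z)) (U (z + W z + ω))) (s / 16) (2 * π * (πb * α) ^ 2) := by
      refine LB_of_SB fun z hz => ?_
      have hz' := hα z hz
      beta_reduce at hz' ⊢
      rw [ey]
      have := mvt_ball (φ := fun y => St H K (U (z + W z)) (U y))
        (φ' := fun y => Sy H (U (z + W z)) (U y) * deriv U y) (a := z + W z + ω)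
        (b := z + W z + ω + (W (z + ω) - W z)) (B := πb) fun y hy => ⟨?_, ?_⟩
      · rw [add_sub_cancel_left] at this
        refine this.trans (mul_le_mul_of_nonneg_left hz' ?_)
        exact (norm_nonneg _).trans (hPi 0 0 (by simp; positivity) (by simpa using hα0))
      · exact (hasDerivAt_St hH (hasDerivAt_const y _) (hu.du y).hasDerivAt).congr_deriv (by simp)
      · rw [add_sub_cancel_left] at hy
        have := hPi (z + W z) (y - (z + W z + ω)) (by linarith [vim z hz]) (hy.trans hz')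
        rwa [add_sub_cancel] at this
    have L3 : LB (fun z => κ1 (z + W z + ω) - κ1 (z + ω + W (z + ω))) (s / 16)
        (4 * 2 * α ^ 2 * (576 * π * (ϱ / lam) ^ 2)) := by
      refine LB_of_majorant (by positivity) (hol_of_diff dκ _) hu1.qk.per_deriv Lκ (hV ω₀).1
        (hV ω₀).2.1 two_pos (hV ω₀).2.2 hα0 fun x y a hy ha => ?_
      have hz' := hα (x + y * I) (by simpa using hy)
      beta_reduce at hz' ⊢
      rw [hre] at ha
      have hin : ∀ ζ : ℂ, ‖ζ - (x + y * I + W (x + y * I) + ω)‖ ≤ α → ‖deriv κ1 ζ‖ ≤ a := by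
        intro ζ hζ
        apply ha
        have e : ζ - (x + W₀ x + ω₀) = (ζ - (x + y * I + W (x + y * I) + ω)) +
            ((x + y * I + W (x + y * I)) - (x + W₀ x)) + (ω - ω₀) := by ring
        rw [e]
        linarith [norm_add3_le hζ (near x y hy) hω]
      have := mvt_ball (φ := κ1) (φ' := deriv κ1) (a := x + y * I + W (x + y * I) + ω)
        (b := x + y * I + W (x + y * I) + ω + (W (x + y * I + ω) - W (x + y * I))) (B := a)
        fun ζ hζ => ⟨(hu1.dk ζ).hasDerivAt, hin ζ (by rw [add_sub_cancel_left] at hζ; linarith)⟩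
      rw [add_sub_cancel_left] at this
      rw [norm_sub_rev, ey, mul_comm α]
      exact this.trans (mul_le_mul_of_nonneg_left hz'
        ((norm_nonneg _).trans (hin (x + y * I + W (x + y * I) + ω) (by simpa using hα0))))
    have d1 := hu.du
    have d2 := hH.dH
    have d3 : Differentiable ℂ K := fun z => (hH.dK z).differentiableAt
    have d4 := hu1.dk
    have L := LB_add (hol_of_diff (by unfold St; fun_prop) _) (hol_of_diff (by fun_prop) _)
      (LB_add (hol_of_diff (by fun_prop) _) (hol_of_diff (by unfold St; fun_prop) _) L1 L2) L3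
    refine (WB_of_LB (c := coef R 0) (by positivity) (hol_of_diff (diff_Ff hH huN ω) _)
      (per_Ff hH huN ω) (Q := 2 * ϱ' ^ 2 * π) ?_).mono (le_of_eq (by field_simp))
    refine fun y hy => le_trans (le_of_eq ?_) ((L y hy).trans ?_)
    · congr 1
      funext x
      congr 2
      simp only [hRes, ← solve_diff hlam hA hdd hω hMl, hRd, Tf, pk, hκ1, hG]
      ring
    · nlinarith [mul_le_mul_of_nonneg_right h1 Real.pi_pos.le]
  · refine (LB_of_majorant (B := 3 / 2) (by positivity) (hol_of_diff dκ _) hu1.qk.per_deriv Lκ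
      (hV (0 : ℝ)).1 (hV (0 : ℝ)).2.1 two_pos (hV (0 : ℝ)).2.2 (by norm_num)
      fun x y a hy ha => ?_).mono le_rfl ?_
    · rw [show deriv (pk H K U k W A ω) (x + y * I) = _ from deriv_comp_w hu1.dk dW _, norm_mul,
        mul_comm]
      have : ‖deriv κ1 (x + y * I + W (x + y * I))‖ ≤ a := by
        apply ha
        rw [hre]
        simp only [ofReal_zero, add_zero]
        linarith [near x y hy]
      exact mul_le_mul (hW3 _ (by simpa using hy)) this (norm_nonneg _) (by norm_num)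
    · nlinarith [mul_le_mul_of_nonneg_right h2 Real.pi_pos.le]
  · intro z hz
    rw [show deriv (pk H K U k W A ω) z = _ from deriv_comp_w hu1.dk dW _, norm_mul, mul_comm]
    exact mul_le_mul ((hW3 z hz).trans (by norm_num)) (Sκ _ (by linarith [vim z hz])) (norm_nonneg _)
      (by norm_num)

section block

variable {H K : ℂ → ℂ}

theorem Sy_low (hH : Differentiable ℂ H) {x y : ℂ} {m a : ℝ} (hm : m ≤ 1) (hxy : ‖x - y‖ ≤ m)
    (h : ∀ ζ, ‖ζ - y‖ ≤ m → ‖rho H ζ‖ ≤ a) : ‖Sy H x y‖ ≤ a * m ^ 2 := by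
  have hm0 : 0 ≤ m := (norm_nonneg _).trans hxy
  have ha : 0 ≤ a := (norm_nonneg _).trans (h y (by simpa using hm0))
  have := mvt_ball (φ := fun t => Sy H t y)
    (φ' := fun t => rho H ((t + y) / 2) * sin ((y - t) / 2) / 2 * 1) (a := y) (b := x) (B := a * m)
    fun t ht => ⟨hasDerivAt_Sy hH (hasDerivAt_id t) y, ?_⟩
  · have e : Sy H y y = 0 := by simp [Sy]
    rw [e, sub_zero] at this
    exact this.trans (by rw [sq, ← mul_assoc]; gcongr)
  · have h1 : ‖(y - t) / 2‖ ≤ m / 2 := by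
      rw [norm_div, norm_sub_rev, norm_ofNat]
      linarith
    have h2 := norm_sin_le (h1.trans (by linarith))
    have h3 := h ((t + y) / 2) (by
      rw [show (t + y) / 2 - y = -((y - t) / 2) by ring, norm_neg]
      linarith)
    rw [mul_one, norm_div, norm_mul, norm_ofNat]
    nlinarith [mul_le_mul h3 (show ‖sin ((y - t) / 2)‖ ≤ m by linarith) (norm_nonneg _) ha,
      mul_nonneg ha hm0]

theorem St_low (hH : HK H K) {x y : ℂ} {m a : ℝ} (hm : m ≤ 1) (hxy : ‖y - x‖ ≤ m)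
    (h : ∀ ζ, ‖ζ - x‖ ≤ 2 * m → ‖rho H ζ‖ ≤ a) : ‖St H K x y‖ ≤ a * m ^ 3 := by
  have hm0 : 0 ≤ m := (norm_nonneg _).trans hxy
  have ha : 0 ≤ a := (norm_nonneg _).trans (h x (by simpa using hm0))
  have := mvt_ball (φ := fun t => St H K x t) (φ' := fun t => Sy H x t) (a := x) (b := y)
    (B := a * m ^ 2) fun t ht => ⟨?_, ?_⟩
  · have e : St H K x x = 0 := by simp [St]
    rw [e, sub_zero] at this
    exact this.trans (by rw [pow_succ m 2, ← mul_assoc]; gcongr)
  · exact (hasDerivAt_St hH (hasDerivAt_const t x) (hasDerivAt_id t)).congr_deriv (by simp)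
  · refine Sy_low hH.dH hm (by rw [norm_sub_rev]; linarith) fun ζ hζ => h ζ ?_
    have := norm_add_le (ζ - t) (t - x)
    rw [sub_add_sub_cancel] at this
    linarith

theorem Sy_high {x y : ℂ} {m a a' r : ℝ} (hm : m ≤ 1) (hxy : ‖y - x‖ ≤ m) (hx : |x.im| ≤ r)
    (hy : |y.im| ≤ r) (h : SB H r a) (h' : SB (deriv H) r a') : ‖Sy H x y‖ ≤ a' * m + 3 * a := by
  have h1 : ‖(y - x) / 2‖ ≤ m / 2 := by
    rw [norm_div, norm_ofNat]
    linarith
  have hm0 : 0 ≤ m := (norm_nonneg _).trans hxy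
  have h2 := norm_sin_le (h1.trans (by linarith))
  have h3 := norm_cos_le (h1.trans (by linarith))
  have h4 : |((x + y) / 2).im| ≤ r := by
    rw [div_ofNat_im, add_im, abs_div, abs_two]
    linarith [abs_add_le x.im y.im]
  have h5 := mul_le_mul (h' _ h4) (show ‖sin ((y - x) / 2)‖ ≤ m by linarith) (norm_nonneg _)
    ((norm_nonneg _).trans (h' _ h4))
  have h6 := mul_le_mul (h _ h4) h3 (norm_nonneg _) ((norm_nonneg _).trans (h _ h4))
  rw [← norm_mul] at h5 h6
  have h7 := h y hy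
  refine (norm_sub_le _ _).trans ?_
  linarith [norm_add_le (deriv H ((x + y) / 2) * sin ((y - x) / 2))
    (H ((x + y) / 2) * cos ((y - x) / 2))]

variable {U U₀ : ℂ → ℂ} {ω : ℂ} {ω₀ C s τ d μ r : ℝ}

theorem near_ref (dU : Differentiable ℂ U) (hU : SB (deriv U) τ C) (hd : ∀ x : ℝ, ‖U x - U₀ x‖ ≤ d)
    {z : ℂ} {x a : ℝ} (hτ : 0 ≤ τ) (hz : |z.im| ≤ τ) (h : ‖z - x‖ ≤ a) : ‖U z - U₀ x‖ ≤ C * a + d := by
  have h1 := lip_strip (hol_of_diff dU τ) hU (a := x) (b := z) (by simpa using hτ) hz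
  have h2 := norm_add_le (U z - U x) (U x - U₀ x)
  have hC : 0 ≤ C := (norm_nonneg _).trans (hU z hz)
  rw [sub_add_sub_cancel] at h2
  linarith [hd x, mul_le_mul_of_nonneg_left h hC]

theorem im_ref (dU : Differentiable ℂ U) (hU : SB (deriv U) τ C) (hd : ∀ x : ℝ, ‖U x - U₀ x‖ ≤ d)
    (rU : RealOn U₀) {z : ℂ} {a : ℝ} (hτ : a ≤ τ) (hz : |z.im| ≤ a) : |(U z).im| ≤ C * a + d := by
  have h := near_ref dU hU hd (z := z) (x := z.re) (a := a) ((abs_nonneg _).trans (hz.trans hτ))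
    (hz.trans hτ) (by
      rw [show z - z.re = z.im * I by apply Complex.ext <;> simp]
      simpa using hz)
  simpa using im_le_of_near (a := 0) (by simp [rU z.re]) h

theorem block_low (hH : HK H K) (dU : Differentiable ℂ U) (hU : SB (deriv U) τ C)
    (dU₀ : Differentiable ℂ U₀) (pU₀ : UP U₀) (rU₀ : RealOn U₀) (hC : 0 < C)
    (hU₀ : ∀ x : ℝ, 1 / C ≤ (deriv U₀ x).re) (hd : ∀ x : ℝ, ‖U x - U₀ x‖ ≤ d) (hω : ‖ω‖ ≤ 3 * μ)
    (hωi : |ω.im| ≤ s) (hs : 2 * s ≤ τ) (hm : 3 * C * μ ≤ 1) (hr0 : 0 < r)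
    (hr : C * s + d + 6 * C * μ ≤ r) {Q : ℝ} (hQ : LB (rho H) (2 * r) Q) :
    LB (fun z => St H K (U z) (U (z + ω))) s (4 * C * ((3 * C * μ) ^ 3) ^ 2 * Q) := by
  have hs0 : 0 ≤ s := (abs_nonneg _).trans hωi
  have hμ : 0 ≤ μ := by linarith [norm_nonneg ω]
  refine LB_of_majorant (g := rho H) hr0 (hol_of_diff (hH.dH.deriv.deriv.add hH.dH) _)
    (fun z => by simp only [rho, hH.pH z, hH.pH.qp.per_deriv.qp.per_deriv z]) hQ dU₀ pU₀ hC hU₀
    (by positivity) fun x y a hy ha => ?_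
  rw [rU₀.re_eq] at ha
  have h1 := near_ref dU hU hd (z := x + y * I) (x := x) (a := s) (by linarith) (by simp; linarith)
    (by simpa using hy)
  have h2 := lip_strip (hol_of_diff dU τ) hU (a := x + y * I) (b := x + y * I + ω)
    (by simp; linarith) (by simp; linarith [abs_add_le y ω.im])
  rw [add_sub_cancel_left] at h2
  rw [mul_comm _ a]
  refine St_low hH hm (h2.trans (by nlinarith)) fun ζ hζ => ha ζ ?_
  have := norm_add_le (ζ - U (x + y * I)) (U (x + y * I) - U₀ x)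
  rw [sub_add_sub_cancel] at this
  linarith

theorem block_high (hH : HK H K) (pK : Per K) (dU : Differentiable ℂ U) (hU : SB (deriv U) τ C)
    (dU₀ : Differentiable ℂ U₀) (pU₀ : UP U₀) (rU₀ : RealOn U₀) (hC : 0 < C)
    (hU₀ : ∀ x : ℝ, 1 / C ≤ (deriv U₀ x).re) (hd : ∀ x : ℝ, ‖U x - U₀ x‖ ≤ d) (hω : ‖ω‖ ≤ 3 * μ)
    (hω' : ‖ω - ω₀‖ ≤ s) (hs : 2 * s ≤ τ) (hm : 3 * C * μ ≤ 1) (hr0 : 0 < r)
    (hr : 2 * C * s + d ≤ r) {Q Q' : ℝ} (hQ : LB H (2 * r) Q) (hQ' : LB K (2 * r) Q') :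
    LB (fun z => St H K (U z) (U (z + ω))) s (16 * C * (6 * C * μ) ^ 2 * Q + 24 * C * Q') := by
  have hs0 : 0 ≤ s := (norm_nonneg _).trans hω'
  have hμ : 0 ≤ μ := by linarith [norm_nonneg ω]
  have hωi : |ω.im| ≤ s := by simpa using im_le_of_near (z := ω₀) (a := 0) (by simp) hω'
  have dK : Differentiable ℂ K := fun z => (hH.dK z).differentiableAt
  have dH := hH.dH
  have n1 : ∀ x y : ℝ, |y| ≤ s → ‖U (x + y * I) - U₀ x‖ ≤ r := fun x y hy =>
    (near_ref dU hU hd (z := x + y * I) (x := x) (a := s) (by linarith) (by simp; linarith)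
      (by simpa using hy)).trans (by nlinarith)
  have n2 : ∀ x y : ℝ, |y| ≤ s → ‖U (x + y * I + ω) - U₀ (x + ω₀)‖ ≤ r := fun x y hy => by
    have := near_ref dU hU hd (z := x + y * I + ω) (x := x + ω₀) (a := 2 * s) (by linarith)
      (by simp; linarith [abs_add_le y ω.im]) (by
        have := norm_add_le ((y : ℂ) * I) (ω - ω₀)
        rw [show (x : ℂ) + y * I + ω - (x + ω₀ : ℝ) = y * I + (ω - ω₀) by push_cast; ring]
        have h : ‖(y : ℂ) * I‖ ≤ s := by simpa using hy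
        linarith)
    push_cast at this
    linarith
  have d1 : ∀ x : ℂ, HasDerivAt (fun z => U₀ (z + ω₀)) (deriv U₀ (x + ω₀)) x := fun x =>
    (dU₀ _).hasDerivAt.comp_add_const x ω₀
  have r1 : RealOn fun z => U₀ (z + ω₀) := fun x => by simpa using rU₀ (x + ω₀)
  have L1 : LB (fun z => 2 * H ((U z + U (z + ω)) / 2) * sin ((U (z + ω) - U z) / 2)) s
      (4 * C * (6 * C * μ) ^ 2 * Q) := by
    refine LB_of_majorant hr0 (hol_of_diff dH _) hH.pH hQ (V := fun z => (U₀ z + U₀ (z + ω₀)) / 2)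
      (by fun_prop) (fun z => by rw [add_right_comm z, pU₀, pU₀, mid_shift]) hC (fun x => ?_)
      (by positivity) fun x y a hy ha => ?_
    · rw [show deriv (fun z => (U₀ z + U₀ (z + ω₀)) / 2) x = _ from
        (((dU₀ x).hasDerivAt.add (d1 x)).div_const 2).deriv, div_ofNat_re, add_re]
      have := hU₀ (x + ω₀)
      push_cast at this
      linarith [hU₀ x]
    · have r2 : RealOn fun z => (U₀ z + U₀ (z + ω₀)) / 2 := fun x => by
        have := r1 x
        simp only [div_ofNat_im, add_im, rU₀ x] at this ⊢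
        rw [this]
        simp
      rw [r2.re_eq x] at ha
      have h1 := ha ((U (x + y * I) + U (x + y * I + ω)) / 2) (by
        rw [← sub_div, add_sub_add_comm, norm_div, norm_ofNat]
        linarith [norm_add_le (U (x + y * I) - U₀ x) (U (x + y * I + ω) - U₀ (x + ω₀)), n1 x y hy,
          n2 x y hy])
      have h2 := lip_strip (hol_of_diff dU τ) hU (a := x + y * I) (b := x + y * I + ω)
        (by simp; linarith) (by simp; linarith [abs_add_le y ω.im])
      rw [add_sub_cancel_left] at h2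
      have h3 : ‖(U (x + y * I + ω) - U (x + y * I)) / 2‖ ≤ 3 * C * μ / 2 := by
        rw [norm_div, norm_ofNat]
        nlinarith
      have h4 := norm_sin_le (h3.trans (by linarith))
      rw [norm_mul, norm_mul, norm_ofNat]
      nlinarith [mul_le_mul h1 (show ‖sin ((U (x + y * I + ω) - U (x + y * I)) / 2)‖ ≤ 3 * C * μ by
        linarith) (norm_nonneg _) ((norm_nonneg _).trans h1)]
  have L2 : LB (fun z => -K (U (z + ω))) s (4 * C * 1 ^ 2 * Q') := by
    refine LB_of_majorant hr0 (hol_of_diff dK _) pK hQ' (V := fun z => U₀ (z + ω₀)) (by fun_prop)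
      (fun z => by rw [add_right_comm z, pU₀]) hC (fun x => ?_) zero_le_one fun x y a hy ha => ?_
    · rw [(d1 x).deriv]
      simpa using hU₀ (x + ω₀)
    · rw [r1.re_eq x] at ha
      rw [one_mul, norm_neg]
      exact ha _ (n2 x y hy)
  have L3 : LB (fun z => K (U z)) s (4 * C * 1 ^ 2 * Q') := by
    refine LB_of_majorant hr0 (hol_of_diff dK _) pK hQ' dU₀ pU₀ hC hU₀ zero_le_one
      fun x y a hy ha => ?_
    rw [rU₀.re_eq x] at ha
    rw [one_mul]
    exact ha _ (n1 x y hy)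
  have L := LB_add (hol_of_diff (by fun_prop) _) (hol_of_diff (by fun_prop) _)
    (LB_add (hol_of_diff (by fun_prop) _) (hol_of_diff (by fun_prop) _) L1 L2) L3
  refine fun y hy => le_trans (le_of_eq ?_) ((L y hy).trans (le_of_eq (by ring)))
  simp only [St, sub_eq_add_neg]

end block

end Pool.Agent.Lib.MP_abef03_an
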