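import Mathlib
import Pool.Agent.Lib.MP_abef03_an.Pend

/-! The recursive scheme, its locality, analyticity in the frequency and reality. -/

namespace Pool.Agent.Lib.MP_abef03_an

open Complex Set
open scoped Real

section cut

variable (a : ℤ → ℂ)

noncomputable def Hc (N : ℕ) : ℂ → ℂ := tp a (Finset.Icc (-(N : ℤ)) N)

noncomputable def Kc (N : ℕ) (z : ℂ) : ℂ := a 0 * z + tp (fun m => a m / (I * m)) (full N) z

noncomputable def Hb (N N' : ℕ) : ℂ → ℂ := tp a (blk N N')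

noncomputable def Kb (N N' : ℕ) : ℂ → ℂ := tp (fun m => a m / (I * m)) (blk N N')

theorem deriv_tp_div {A : Finset ℤ} (hA : 0 ∉ A) (z : ℂ) :
    HasDerivAt (tp (fun m => a m / (I * m)) A) (tp a A z) z := by
  refine (differentiable_tp _ _ z).hasDerivAt.congr_deriv ?_
  rw [deriv_tp]
  refine Finset.sum_congr rfl fun m hm => ?_
  have : (m : ℂ) ≠ 0 := by
    rw [Int.cast_ne_zero]
    rintro rfl
    exact hA hm
  have := I_ne_zero
  field_simp

theorem zero_not_mem_blk (N N' : ℕ) : 0 ∉ blk N N' := by simp [blk]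

theorem zero_not_mem_full (N : ℕ) : 0 ∉ full N := by simp [full]

theorem neg_mem_blk {N N' : ℕ} : ∀ m ∈ blk N N', -m ∈ blk N N' := by
  simp only [blk, Finset.mem_sdiff, Finset.mem_Icc]
  omega

theorem neg_mem_full {N : ℕ} : ∀ m ∈ full N, -m ∈ full N := by
  simp only [full, Finset.mem_erase, Finset.mem_Icc]
  omega

theorem hk_b (N N' : ℕ) : HK (Hb a N N') (Kb a N N') :=
  ⟨differentiable_tp _ _, deriv_tp_div a (zero_not_mem_blk N N'), per_tp _ _, (per_tp _ _).qp⟩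

theorem hk_c (N : ℕ) : HK (Hc a N) (Kc a N) := by
  refine ⟨differentiable_tp _ _, fun z => ?_, per_tp _ _, a 0 * (2 * π), fun z => ?_⟩
  · refine (((hasDerivAt_id z).const_mul (a 0)).add
      (deriv_tp_div a (zero_not_mem_full N) z)).congr_deriv ?_
    rw [Hc, tp, tp, full, ← Finset.add_sum_erase (Finset.Icc (-(N : ℤ)) N) _ (a := 0) (by simp)]
    simp
  · simp only [Kc, per_tp _ _ z]
    ring

theorem Hc_add {N N' : ℕ} (h : N ≤ N') : Hc a N' = fun z => Hc a N z + Hb a N N' z := by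
  funext z
  rw [Hc, Hc, Hb, tp, tp, tp, blk, add_comm, Finset.sum_sdiff]
  exact Finset.Icc_subset_Icc (by omega) (by omega)

theorem Kc_add {N N' : ℕ} (h : N ≤ N') (z : ℂ) : Kc a N' z = Kc a N z + Kb a N N' z := by
  have : full N' = blk N N' ∪ full N := by
    ext m
    simp only [blk, full, Finset.mem_sdiff, Finset.mem_Icc, Finset.mem_erase, Finset.mem_union]
    omega
  rw [Kc, Kc, Kb, tp, tp, tp, this, Finset.sum_union, add_assoc, add_comm (Finset.sum (blk N N') _)]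
  rw [Finset.disjoint_left]
  simp only [blk, full, Finset.mem_sdiff, Finset.mem_Icc, Finset.mem_erase]
  omega

theorem Tf_add {N N' : ℕ} (h : N ≤ N') (u k k' : ℂ → ℂ) (x y : ℂ) :
    Tf (Hc a N') (Kc a N') u (fun z => k z + k' z) x y =
      Tf (Hc a N) (Kc a N) u k x y + Tf (Hb a N N') (Kb a N N') u k' x y := by
  simp only [Tf, St, Hc_add a h, Kc_add a h]
  ring

theorem Pf_add {N N' : ℕ} (h : N ≤ N') (u : ℂ → ℂ) {k k' : ℂ → ℂ} (hk : Differentiable ℂ k)
    (hk' : Differentiable ℂ k') (x y : ℂ) :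
    Pf (Hc a N') u (fun z => k z + k' z) x y =
      Pf (Hc a N) u k x y + (Sy (Hb a N N') (u x) (u y) * deriv u y - deriv k' y) := by
  have e1 : ∀ z, deriv (fun z => Hc a N z + Hb a N N' z) z = deriv (Hc a N) z + deriv (Hb a N N') z :=
    fun z => deriv_add (differentiable_tp _ _ z) (differentiable_tp _ _ z)
  have e2 : deriv (fun z => k z + k' z) y = deriv k y + deriv k' y := deriv_add (hk y) (hk' y)
  simp only [Pf, Sy, Hc_add a h, e1, e2]
  ring

theorem rho_tp (A : Finset ℤ) : rho (tp a A) = tp (fun m => (1 - m ^ 2) * a m) A := by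
  funext z
  rw [rho, deriv_tp, deriv_tp, tp, tp, tp, ← Finset.sum_add_distrib]
  refine Finset.sum_congr rfl fun m _ => ?_
  linear_combination (m : ℂ) ^ 2 * a m * exp (I * m * z) * I_sq

end cut

theorem init_bounds {H K u : ℂ → ℂ} {κ C τ r μ : ℝ} {ω : ℂ} (hH : HK H K) (du : Differentiable ℂ u)
    (hC : 1 ≤ C) (hμ : 0 < μ) (hm : 3 * C * μ ≤ 1) (hu : SB (deriv u) τ C)
    (hL : ∀ z z' : ℂ, |z.im| ≤ τ → |z'.im| ≤ τ → ‖deriv u z - deriv u z'‖ ≤ C ^ 2 * ‖z - z'‖ + μ)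
    (hκ : ∀ z : ℂ, |z.im| ≤ τ → ‖rho H (u z) * deriv u z ^ 3 - κ‖ ≤ μ)
    (hi : ∀ z : ℂ, |z.im| ≤ τ → |(u z).im| + 3 * C * μ ≤ r) (h0 : SB (rho H) r C)
    (h1 : SB (deriv (rho H)) r C) (hω : ‖ω‖ ≤ 3 * μ) (hωi : |ω.im| ≤ τ / 2) :
    SB (fun z => Pf H u (fun z => -(κ * ω ^ 2 / 8) * z) z (z + ω)) (τ / 2) (40 * C ^ 5 * μ ^ 3) ∧
    SB (fun z => Tf H K u (fun z => -(κ * ω ^ 2 / 8) * z) z (z + ω) - κ * ω ^ 3 / 12) (τ / 2)
      (120 * C ^ 5 * μ ^ 4) := by
  have dρ : Differentiable ℂ (rho H) := hH.dH.deriv.deriv.add hH.dH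
  have key : ∀ x y : ℂ, |x.im| ≤ τ → |y.im| ≤ τ → ‖y - x‖ ≤ 3 * μ →
      ‖Sy H (u x) (u y) * deriv u y + κ * (y - x) ^ 2 / 8‖ ≤ 40 * C ^ 5 * μ ^ 3 := by
    intro x y hx hy hxy
    set m := 3 * C * μ with hmd
    have hm0 : 0 < m := by positivity
    have n1 : ‖u x - u y‖ ≤ m :=
      (lip_strip (hol_of_diff du τ) hu hy hx).trans (by rw [norm_sub_rev]; nlinarith)
    have hyr : |(u y).im| ≤ r := by linarith [hi y hy]
    have t1 := mvt_ball (φ := fun t => Sy H t (u y) + rho H (u y) * (u y - t) ^ 2 / 8)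
      (φ' := fun t => (rho H ((t + u y) / 2) - rho H (u y)) * sin ((u y - t) / 2) / 2 +
        rho H (u y) * (sin ((u y - t) / 2) - (u y - t) / 2) / 2) (a := u y) (b := u x)
      (B := C * m ^ 2) fun t ht => ⟨?_, ?_⟩
    · have e0 : Sy H (u y) (u y) = 0 := by simp [Sy]
      simp only [e0, sub_self, ne_eq, OfNat.ofNat_ne_zero, not_false_eq_true, zero_pow, mul_zero,
        zero_div, add_zero, sub_zero] at t1
      have t2 : ‖(u x - deriv u y * x) - (u y - deriv u y * y)‖ ≤ (C ^ 2 * (3 * μ) + μ) * ‖x - y‖ :=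
        mvt_conv (φ := fun t => u t - deriv u y * t) (φ' := fun t => deriv u t - deriv u y)
          (convex_strip τ) hy hx fun t ht ht' => ⟨hasDerivAt_sub_lin (du t).hasDerivAt _,
            (hL t y ht hy).trans (by rw [norm_sub_rev x] at ht'; gcongr; linarith)⟩
      rw [norm_sub_rev x] at t2
      have hC2 : 1 ≤ C ^ 2 := one_le_pow₀ hC
      have t3 : ‖(u x - deriv u y * x) - (u y - deriv u y * y)‖ ≤ 12 * C ^ 2 * μ ^ 2 := by
        have h := mul_le_mul_of_nonneg_left hxy (show 0 ≤ C ^ 2 * (3 * μ) + μ by positivity)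
        have h' := mul_le_mul_of_nonneg_right hC2 (mul_pos hμ hμ).le
        refine t2.trans (h.trans ?_)
        nlinarith
      have t4 : ‖(u y - u x) + deriv u y * (y - x)‖ ≤ 2 * m := by
        refine (norm_add_le _ _).trans ?_
        rw [norm_mul, norm_sub_rev]
        nlinarith [mul_le_mul (hu y hy) hxy (norm_nonneg _) (by positivity)]
      have e : Sy H (u x) (u y) * deriv u y + κ * (y - x) ^ 2 / 8 =
          (Sy H (u x) (u y) + rho H (u y) * (u y - u x) ^ 2 / 8) * deriv u y +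
          rho H (u y) * deriv u y * ((u x - deriv u y * x) - (u y - deriv u y * y)) *
            ((u y - u x) + deriv u y * (y - x)) / 8 +
          -((rho H (u y) * deriv u y ^ 3 - κ) * (y - x) ^ 2 / 8) := by ring
      rw [e]
      refine (norm_add3_le (x := C * m ^ 2 * m * C) (y := C * C * (12 * C ^ 2 * μ ^ 2) * (2 * m) / 8)
        (z := μ * (3 * μ) ^ 2 / 8) ?_ ?_ ?_).trans ?_
      · rw [norm_mul]
        gcongr
        exacts [t1.trans (by gcongr), hu y hy]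
      · simp only [norm_mul, norm_div, norm_ofNat]
        gcongr
        exacts [h0 _ hyr, hu y hy]
      · simp only [norm_neg, norm_mul, norm_div, norm_ofNat, norm_pow]
        gcongr
        exact hκ y hy
      · have : μ ^ 3 ≤ C ^ 5 * μ ^ 3 := le_mul_of_one_le_left (by positivity) (one_le_pow₀ hC)
        rw [hmd]
        nlinarith [show 0 < μ ^ 3 by positivity]
    · have h := (hasDerivAt_Sy hH.dH (hasDerivAt_id t) (u y)).add
        (((((hasDerivAt_id t).const_sub (u y)).pow 2).const_mul (rho H (u y))).div_const 8)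
      refine HasDerivAt.congr_deriv h ?_
      simp
      ring
    · have a1 : ‖(u y - t) / 2‖ ≤ m / 2 := by
        rw [norm_div, norm_sub_rev, norm_ofNat]
        linarith
      have a2 := norm_sin_le (a1.trans (by linarith))
      have a3 := norm_sin_sub_le (a1.trans (by linarith))
      have a4 : ‖(t + u y) / 2 - u y‖ ≤ m / 2 := by
        rw [show (t + u y) / 2 - u y = -((u y - t) / 2) by ring, norm_neg]
        exact a1
      have a5 := lip_strip (hol_of_diff dρ r) h1 hyr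
        (b := (t + u y) / 2) (by linarith [im_le_of_near le_rfl a4, hi y hy])
      have a6 : ‖(u y - t) / 2‖ ^ 3 ≤ m ^ 2 := by
        calc _ ≤ m ^ 3 := by gcongr; linarith
          _ ≤ m ^ 2 := pow_le_pow_of_le_one hm0.le hm (by norm_num)
      refine (norm_add_le _ _).trans ?_
      simp only [norm_mul, norm_div (_ * _), norm_ofNat]
      have b1 := mul_le_mul (a5.trans (mul_le_mul_of_nonneg_left a4 (by positivity)))
        (show ‖sin ((u y - t) / 2)‖ ≤ m by linarith) (norm_nonneg _) (by positivity)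
      have b2 := mul_le_mul (h0 _ hyr) (show ‖sin ((u y - t) / 2) - (u y - t) / 2‖ ≤ m ^ 2 by
        nlinarith) (norm_nonneg _) (by positivity)
      nlinarith [show 0 < C * m ^ 2 by positivity]
  have sh : ∀ z : ℂ, |z.im| ≤ τ / 2 → |z.im| ≤ τ ∧ |(z + ω).im| ≤ τ := fun z hz =>
    ⟨by linarith [abs_nonneg z.im], by rw [add_im]; linarith [abs_add_le z.im ω.im]⟩
  refine ⟨fun z hz => ?_, fun z hz => ?_⟩
  · have := key z (z + ω) (sh z hz).1 (sh z hz).2 (by simpa using hω)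
    have e : deriv (fun z : ℂ => -(κ * ω ^ 2 / 8) * z) (z + ω) = -(κ * ω ^ 2 / 8) := by simp
    simpa only [Pf, e, add_sub_cancel_left, sub_neg_eq_add] using this
  · have := mvt_conv (φ := fun y => St H K (u z) (u y) + κ * (y - z) ^ 3 / 24)
      (φ' := fun y => Sy H (u z) (u y) * deriv u y + κ * (y - z) ^ 2 / 8) (B := 40 * C ^ 5 * μ ^ 3)
      (convex_strip τ) (sh z hz).1 (sh z hz).2 fun y hy hy' => ⟨?_, key z y (sh z hz).1 hy
        (by rw [add_sub_cancel_left] at hy'; linarith)⟩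
    · have e : Tf H K u (fun z => -(κ * ω ^ 2 / 8) * z) z (z + ω) - κ * ω ^ 3 / 12 =
          St H K (u z) (u (z + ω)) + κ * (z + ω - z) ^ 3 / 24 -
            (St H K (u z) (u z) + κ * (z - z) ^ 3 / 24) := by
        simp only [Tf, St, sub_self, zero_div, sin_zero]
        ring
      beta_reduce
      rw [e]
      refine this.trans ?_
      rw [add_sub_cancel_left]
      nlinarith [mul_le_mul_of_nonneg_left hω (show 0 ≤ 40 * C ^ 5 * μ ^ 3 by positivity)]
    · have h := (hasDerivAt_St hH (hasDerivAt_const y (u z)) (du y).hasDerivAt).add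
        (((((hasDerivAt_id y).sub_const z).pow 3).const_mul (κ : ℂ)).div_const 24)
      refine HasDerivAt.congr_deriv h ?_
      simp
      ring

/-- The data of the scheme. -/
structure Par where
  a : ℤ → ℂ
  u0 : ℂ → ℂ
  κ : ℝ
  N : ℕ → ℕ
  M : ℕ → ℕ
  L : ℕ

/-- One level of the scheme. -/
structure Lv where
  u : ℂ → ℂ
  k : ℂ → ℂ
  w : ℂ → ℂ
  u' : ℂ → ℂ
  k' : ℂ → ℂ

namespace Par

variable (P : Par) (B : ℕ → ℕ → Finset ℤ) (ω : ℂ)

noncomputable def H (n : ℕ) : ℂ → ℂ := Hc P.a (P.N n)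
noncomputable def K (n : ℕ) : ℂ → ℂ := Kc P.a (P.N n)
noncomputable def hb (n : ℕ) : ℂ → ℂ := Hb P.a (P.N n) (P.N (n + 1))
noncomputable def kb (n : ℕ) : ℂ → ℂ := Kb P.a (P.N n) (P.N (n + 1))
noncomputable def k0 (z : ℂ) : ℂ := -(P.κ * ω ^ 2 / 8) * z

noncomputable def Uf (f : ℕ → Lv) (j k : ℕ) : ℂ → ℂ :=
  if P.L ≤ j + k then (f (j + k - P.L)).u else P.u0

noncomputable def Wf (f : ℕ → Lv) (j k : ℕ) : ℂ → ℂ :=
  if P.L ≤ j + k then (f (j + k - P.L)).w else 0

noncomputable def pf (f : ℕ → Lv) (j : ℕ) : ℕ → ℂ → ℂ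
  | 0 => 0
  | k + 1 => pk (P.hb j) (P.kb j) (P.Uf f j k) (pf f j k) (P.Wf f j k) (B j k) ω

noncomputable def mkLv (n : ℕ) (u k : ℂ → ℂ) (kp : ℂ → ℂ) : Lv where
  u := u
  k := k
  w := ww (P.H (n + 1)) (P.K (n + 1)) u (fun z => k z + kp z) (P.M n) ω
  u' := uN (P.H (n + 1)) (P.K (n + 1)) u (fun z => k z + kp z) (P.M n) ω
  k' := kN (P.H (n + 1)) (P.K (n + 1)) u (fun z => k z + kp z) (P.M n) ω

noncomputable def nxt (f : ℕ → Lv) : ℕ → Lv
  | 0 => P.mkLv ω 0 P.u0 (P.k0 ω) (P.pf B ω f 0 P.L)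
  | n + 1 => P.mkLv ω (n + 1) (f n).u' (f n).k' (P.pf B ω f (n + 1) P.L)

noncomputable def lv : ℕ → Lv := Nat.lt_wfRel.wf.fix fun n rec =>
  P.nxt B ω (fun i => if h : i < n then rec i h else ⟨0, 0, 0, 0, 0⟩) n

variable {P B}

theorem pf_congr {B' : ℕ → ℕ → Finset ℤ} {f f' : ℕ → Lv} {j : ℕ} : ∀ {k : ℕ},
    (∀ i, i + P.L < j + k → f i = f' i) → (∀ k' < k, B j k' = B' j k') →
    P.pf B ω f j k = P.pf B' ω f' j k
  | 0, _, _ => rfl
  | k + 1, h, h' => by
    have e := pf_congr (k := k) (fun i hi => h i (by omega)) fun k' hk => h' k' (by omega)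
    have e1 : P.Uf f j k = P.Uf f' j k := by
      unfold Uf
      split_ifs with hk
      · rw [h _ (by omega)]
      · rfl
    have e2 : P.Wf f j k = P.Wf f' j k := by
      unfold Wf
      split_ifs with hk
      · rw [h _ (by omega)]
      · rfl
    rw [pf, pf, e, e1, e2, h' k (by omega)]

theorem nxt_congr {B' : ℕ → ℕ → Finset ℤ} {f f' : ℕ → Lv} {n : ℕ} (h : ∀ i < n, f i = f' i)
    (h' : ∀ k < P.L, B n k = B' n k) : P.nxt B ω f n = P.nxt B' ω f' n := by
  have e := pf_congr ω (P := P) (j := n) (k := P.L) (fun i hi => h i (by omega)) h'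
  cases n with
  | zero => rw [nxt, nxt, e]
  | succ n => rw [nxt, nxt, e, h n (by omega)]

variable (P B) in
theorem lv_eq (n : ℕ) : P.lv B ω n = P.nxt B ω (P.lv B ω) n := by
  rw [lv, WellFounded.fix_eq]
  exact nxt_congr ω (fun i hi => dif_pos hi) fun _ _ => rfl

theorem lv_congr {B' : ℕ → ℕ → Finset ℤ} (n : ℕ) (h : ∀ j ≤ n, ∀ k < P.L, B j k = B' j k) :
    P.lv B ω n = P.lv B' ω n := by
  induction n using Nat.strong_induction_on with
  | _ n ih =>
    rw [lv_eq, lv_eq P B']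
    exact nxt_congr ω (fun i hi => ih i hi fun j hj => h j (by omega)) (h n le_rfl)

variable (P B)

noncomputable def uu (n : ℕ) : ℂ → ℂ := (P.lv B ω n).u
noncomputable def kk (n : ℕ) : ℂ → ℂ := (P.lv B ω n).k
noncomputable def wn (n : ℕ) : ℂ → ℂ := (P.lv B ω n).w
noncomputable def pe (j k : ℕ) : ℂ → ℂ := P.pf B ω (P.lv B ω) j k
noncomputable def UU (j k : ℕ) : ℂ → ℂ := P.uu B ω (j + k - P.L)
noncomputable def WW (j k : ℕ) : ℂ → ℂ := if P.L ≤ j + k then P.wn B ω (j + k - P.L) else 0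
noncomputable def ka (n : ℕ) (z : ℂ) : ℂ := P.kk B ω n z + P.pe B ω n P.L z
noncomputable def RR (j k : ℕ) (z : ℂ) : ℂ :=
  Tf (P.hb j) (P.kb j) (P.UU B ω j k) (P.pe B ω j k) z (z + ω)

theorem uu_zero : P.uu B ω 0 = P.u0 := by rw [uu, lv_eq]; rfl

theorem kk_zero : P.kk B ω 0 = P.k0 ω := by rw [kk, lv_eq]; rfl

theorem lv_mk (n : ℕ) : P.lv B ω n = P.mkLv ω n (P.uu B ω n) (P.kk B ω n) (P.pe B ω n P.L) := by
  rw [uu, kk, pe, lv_eq]
  cases n <;> rfl

theorem wn_eq (n : ℕ) : P.wn B ω n =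
    ww (P.H (n + 1)) (P.K (n + 1)) (P.uu B ω n) (P.ka B ω n) (P.M n) ω := by
  rw [wn, lv_mk]
  rfl

theorem uu_succ (n : ℕ) : P.uu B ω (n + 1) =
    uN (P.H (n + 1)) (P.K (n + 1)) (P.uu B ω n) (P.ka B ω n) (P.M n) ω := by
  rw [uu, lv_eq]
  change (P.lv B ω n).u' = _
  rw [lv_mk]
  rfl

theorem kk_succ (n : ℕ) : P.kk B ω (n + 1) =
    kN (P.H (n + 1)) (P.K (n + 1)) (P.uu B ω n) (P.ka B ω n) (P.M n) ω := by
  rw [kk, lv_eq]
  change (P.lv B ω n).k' = _
  rw [lv_mk]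
  rfl

theorem uu_succ' (n : ℕ) (z : ℂ) : P.uu B ω (n + 1) z = P.uu B ω n (z + P.wn B ω n z) := by
  rw [uu_succ, wn_eq]
  rfl

theorem pe_zero (j : ℕ) : P.pe B ω j 0 = 0 := rfl

theorem pe_succ (j k : ℕ) : P.pe B ω j (k + 1) =
    pk (P.hb j) (P.kb j) (P.UU B ω j k) (P.pe B ω j k) (P.WW B ω j k) (B j k) ω := by
  have : P.Uf (P.lv B ω) j k = P.UU B ω j k := by
    unfold Uf UU
    split_ifs with h
    · rfl
    · rw [show j + k - P.L = 0 by omega, uu_zero]
  rw [pe, pf, this]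
  rfl

theorem UU_succ (j k : ℕ) :
    P.UU B ω j (k + 1) = fun z => P.UU B ω j k (z + P.WW B ω j k z) := by
  funext z
  unfold UU WW
  split_ifs with h
  · rw [show j + (k + 1) - P.L = j + k - P.L + 1 by omega, uu_succ']
  · rw [show j + (k + 1) - P.L = j + k - P.L by omega]
    simp

theorem UU_last (j : ℕ) : P.UU B ω j P.L = P.uu B ω j := by rw [UU, Nat.add_sub_cancel]

variable {P B}

theorem RR_congr {B' : ℕ → ℕ → Finset ℤ} {j k : ℕ}
    (h : ∀ i, i + P.L < j + k → ∀ k' < P.L, B i k' = B' i k') (h' : ∀ k' < k, B j k' = B' j k') :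
    P.RR B ω j k = P.RR B' ω j k := by
  have e1 : P.pe B ω j k = P.pe B' ω j k :=
    pf_congr ω (fun i hi => lv_congr ω i fun i' hi' => h i' (by omega)) h'
  have e2 : P.UU B ω j k = P.UU B' ω j k := by
    unfold UU
    rcases hn : j + k - P.L with _ | n
    · rw [uu_zero, uu_zero]
    · have := lv_congr ω (P := P) (B := B) (B' := B') n fun i' hi' => h i' (by omega)
      rw [uu, uu, lv_eq, lv_eq P B']
      change (P.lv B ω n).u' = (P.lv B' ω n).u'
      rw [this]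
  funext z
  rw [RR, RR, e1, e2]

end Par

end Pool.Agent.Lib.MP_abef03_an
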