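import Mathlib
import Pool.Agent.Lib.MP_abef03_an.Scheme

/-! Analyticity in the frequency and reality of the scheme. -/

namespace Pool.Agent.Lib.MP_abef03_an

open Complex Set
open scoped Real

/-- Joint analyticity above the frequency `ω`. -/
def An (f : ℂ → ℂ → ℂ) (ω : ℂ) : Prop := ∀ z, AnalyticAt ℂ (fun p : ℂ × ℂ => f p.1 p.2) (ω, z)

section an

variable {H K : ℂ → ℂ} {f u k W : ℂ → ℂ → ℂ} {ω z : ℂ} {g g' : ℂ × ℂ → ℂ} {M : ℕ}

theorem An.comp (hf : An f ω) (hg : AnalyticAt ℂ g (ω, z)) :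
    AnalyticAt ℂ (fun p : ℂ × ℂ => f p.1 (g p)) (ω, z) :=
  AnalyticAt.comp (f := fun p : ℂ × ℂ => (p.1, g p)) (g := fun p : ℂ × ℂ => f p.1 p.2) (hf _)
    (analyticAt_fst.prod hg)

theorem An.deriv (hf : An f ω) : An (fun ω => deriv (f ω)) ω := fun z => analyticAt_deriv (hf z)

theorem An.slice (hf : An f ω) (z : ℂ) : AnalyticAt ℂ (fun ω => f ω z) ω :=
  AnalyticAt.comp (f := fun ω : ℂ => (ω, z)) (g := fun p : ℂ × ℂ => f p.1 p.2) (hf _)
    (analyticAt_id.prod analyticAt_const)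

theorem an_ent {q : ℂ × ℂ} (hH : Differentiable ℂ H) (hg : AnalyticAt ℂ g q) :
    AnalyticAt ℂ (fun p => H (g p)) q := (hH.analyticAt _).comp hg

theorem an_half {q : ℂ × ℂ} (hg : AnalyticAt ℂ g q) : AnalyticAt ℂ (fun p => g p / 2) q :=
  hg.div analyticAt_const two_ne_zero

theorem an_shift : AnalyticAt ℂ (fun p : ℂ × ℂ => p.2 + p.1) (ω, z) := analyticAt_snd.add analyticAt_fst

theorem an_Tf (hH : HK H K) (hu : An u ω) (hk : An k ω) :
    An (fun ω t => Tf H K (u ω) (k ω) t (t + ω)) ω := fun z => by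
  have h1 := hu z
  have h2 := hu.comp (an_shift (z := z))
  have dK : Differentiable ℂ K := fun z => (hH.dK z).differentiableAt
  exact (((((analyticAt_const.mul (an_ent hH.dH (an_half (h1.add h2)))).mul
    (an_ent differentiable_sin (an_half (h2.sub h1)))).sub (an_ent dK h2)).add (an_ent dK h1)).sub
    (hk.comp an_shift)).add (hk z)

theorem an_Pf (hH : Differentiable ℂ H) (hu : An u ω) (hk : An k ω) :
    An (fun ω t => Pf H (u ω) (k ω) t (t + ω)) ω := fun z => by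
  have h1 := hu z
  have h2 := hu.comp (an_shift (z := z))
  exact (((((an_ent hH.deriv (an_half (h1.add h2))).mul
    (an_ent differentiable_sin (an_half (h2.sub h1)))).add ((an_ent hH (an_half (h1.add h2))).mul
    (an_ent differentiable_cos (an_half (h2.sub h1))))).sub (an_ent hH h2)).mul
    (hu.deriv.comp an_shift)).sub (hk.deriv.comp an_shift)

theorem an_Af (hH : Differentiable ℂ H) (hu : An u ω) :
    An (fun ω t => Af H (u ω) t (t + ω)) ω := fun z => by
  have h1 := hu z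
  have h2 := hu.comp (an_shift (z := z))
  have dρ : Differentiable ℂ (rho H) := hH.deriv.deriv.add hH
  exact ((an_half ((an_ent dρ (an_half (h1.add h2))).mul
    (an_ent differentiable_sin (an_half (h2.sub h1))))).mul (hu.deriv z)).mul (hu.deriv.comp an_shift)

theorem an_step (hH : HK H K) (hu : An u ω) (hk : An k ω)
    (hA : ∀ m ∈ full M, exp (I * m * ω) - 1 ≠ 0) (h0 : ∀ x : ℝ, Af H (u ω) x (x + ω) ≠ 0)
    (h1 : coef (fun z => (Af H (u ω) z (z + ω))⁻¹) 0 ≠ 0) :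
    An (fun ω => ww H K (u ω) (k ω) M ω) ω ∧ An (fun ω => uN H K (u ω) (k ω) M ω) ω ∧
      An (fun ω => kN H K (u ω) (k ω) M ω) ω := by
  have a1 : An (fun ω => k1 H K (u ω) (k ω) M ω) ω := fun z =>
    (hk z).add (analyticAt_solve (F := fun ω t => Tf H K (u ω) (k ω) t (t + ω))
      (fun x => an_Tf hH hu hk x) hA z)
  have a2 : ∀ x : ℝ, AnalyticAt ℂ (fun p : ℂ × ℂ => (Af H (u p.1) p.2 (p.2 + p.1))⁻¹) (ω, x) :=
    fun x => (an_Af hH.dH hu x).inv (h0 x)
  have a3 : ∀ x : ℝ, AnalyticAt ℂ (fun p : ℂ × ℂ => Pf H (u p.1) (k1 H K (u p.1) (k p.1) M p.1) p.2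
      (p.2 + p.1) * (Af H (u p.1) p.2 (p.2 + p.1))⁻¹) (ω, x) :=
    fun x => (an_Pf hH.dH hu a1 x).mul (a2 x)
  have a4 : AnalyticAt ℂ (fun ω => cc H K (u ω) (k ω) M ω) ω :=
    (analyticAt_coef (F := fun ω z => Pf H (u ω) (k1 H K (u ω) (k ω) M ω) z (z + ω) *
      (Af H (u ω) z (z + ω))⁻¹) a3 0).div
      (analyticAt_coef (F := fun ω z => (Af H (u ω) z (z + ω))⁻¹) a2 0) h1
  have a5 : ∀ z, AnalyticAt ℂ (fun p : ℂ × ℂ => cc H K (u p.1) (k p.1) M p.1) (ω, z) := fun z =>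
    AnalyticAt.comp (f := fun p : ℂ × ℂ => p.1) (g := fun ω => cc H K (u ω) (k ω) M ω) a4 analyticAt_fst
  have a6 : An (fun ω => ww H K (u ω) (k ω) M ω) ω := fun z =>
    analyticAt_solve (F := fun ω => gg H K (u ω) (k ω) M ω)
      (fun x => (a3 x).sub ((a5 x).mul (a2 x))) hA z
  have a7 : ∀ z, AnalyticAt ℂ (fun p : ℂ × ℂ => p.2 + ww H K (u p.1) (k p.1) M p.1 p.2) (ω, z) :=
    fun z => analyticAt_snd.add (a6 z)
  exact ⟨a6, fun z => hu.comp (a7 z), fun z => (a1.comp (a7 z)).add ((a5 z).mul (a7 z))⟩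

theorem an_pk {A : Finset ℤ} (hH : HK H K) (hu : An u ω) (hk : An k ω) (hW : An W ω)
    (hA : ∀ m ∈ A, exp (I * m * ω) - 1 ≠ 0) :
    An (fun ω => pk H K (u ω) (k ω) (W ω) A ω) ω := fun z => by
  have h1 : An (fun ω => solve A (fun t => Tf H K (u ω) (k ω) t (t + ω)) ω) ω := fun z =>
    analyticAt_solve (F := fun ω t => Tf H K (u ω) (k ω) t (t + ω)) (fun x => an_Tf hH hu hk x) hA z
  have h2 : AnalyticAt ℂ (fun p : ℂ × ℂ => p.2 + W p.1 p.2) (ω, z) := analyticAt_snd.add (hW z)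
  exact (hk.comp h2).add (h1.comp h2)

theorem divisor_ne {m : ℤ} {ω₀ lam : ℝ} (hlam : 0 < lam) (hm : m ∈ full M) (h1 : lam ≤ dd m ω₀)
    (h2 : ‖ω - ω₀‖ ≤ lam / 2) (h3 : M * lam ≤ 1) : exp (I * m * ω) - 1 ≠ 0 := by
  simp only [full, Finset.mem_erase, Finset.mem_Icc] at hm
  have h4 : |(m : ℝ)| ≤ M := by exact_mod_cast abs_le.mpr hm.2
  have h5 : 0 < |(m : ℝ)| := by simpa using hm.1
  have := divisor_ge hm.1 h1 h2 ((mul_le_mul_of_nonneg_right h4 hlam.le).trans h3)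
  exact norm_pos_iff.mp (lt_of_lt_of_le (by have := hlam.trans_le h1; positivity) this)

end an

section real

variable {H K u k W f : ℂ → ℂ} {a b : ℂ} {ω : ℝ} {M : ℕ}

theorem RealOn.app (hf : RealOn f) (h : a.im = 0) : (f a).im = 0 := by
  rw [show a = (a.re : ℂ) from Complex.ext rfl (by simp [h])]
  exact hf _

theorem im_add0 (ha : a.im = 0) (hb : b.im = 0) : (a + b).im = 0 := by simp [ha, hb]

theorem im_sub0 (ha : a.im = 0) (hb : b.im = 0) : (a - b).im = 0 := by simp [ha, hb]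

theorem im_mul0 (ha : a.im = 0) (hb : b.im = 0) : (a * b).im = 0 := by simp [ha, hb]

theorem im_inv0 (ha : a.im = 0) : a⁻¹.im = 0 := by simp [ha]

theorem im_div0 (ha : a.im = 0) (hb : b.im = 0) : (a / b).im = 0 := im_mul0 ha (im_inv0 hb)

theorem im_half0 (ha : a.im = 0) : (a / 2).im = 0 := by simp [ha]

theorem realOn_sin : RealOn sin := sin_ofReal_im

theorem realOn_cos : RealOn cos := cos_ofReal_im

theorem RealOn.der (hf : RealOn f) (hd : Differentiable ℂ f) : RealOn (deriv f) :=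
  realOn_deriv hf (hol_of_diff hd 0)

theorem RealOn.coef0 (hf : RealOn f) : (coef f 0).im = 0 := by
  have := coef_neg_of_realOn hf 0
  rw [neg_zero] at this
  exact conj_eq_iff_im.mp this.symm

theorem im_shift (x ω : ℝ) : ((x : ℂ) + ω).im = 0 := by simp

theorem real_Tf (rH : RealOn H) (rK : RealOn K) (ru : RealOn u) (rk : RealOn k) :
    RealOn fun t => Tf H K u k t (t + ω) := fun x => by
  have h1 := ru x
  have h2 := ru.app (im_shift x ω)
  exact im_add0 (im_sub0 (im_add0 (im_sub0 (im_mul0 (im_mul0 (by simp) (rH.app (im_half0 (im_add0 h1 h2))))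
    (realOn_sin.app (im_half0 (im_sub0 h2 h1)))) (rK.app h2)) (rK.app h1)) (rk.app (im_shift x ω))) (rk x)

theorem real_Pf (dH : Differentiable ℂ H) (rH : RealOn H) (hu : UK u k) (ru : RealOn u)
    (rk : RealOn k) : RealOn fun t => Pf H u k t (t + ω) := fun x => by
  have h1 := ru x
  have h2 := ru.app (im_shift x ω)
  exact im_sub0 (im_mul0 (im_sub0 (im_add0 (im_mul0 ((rH.der dH).app (im_half0 (im_add0 h1 h2)))
    (realOn_sin.app (im_half0 (im_sub0 h2 h1)))) (im_mul0 (rH.app (im_half0 (im_add0 h1 h2)))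
    (realOn_cos.app (im_half0 (im_sub0 h2 h1))))) (rH.app h2)) ((ru.der hu.du).app (im_shift x ω)))
    ((rk.der hu.dk).app (im_shift x ω))

theorem real_rho (dH : Differentiable ℂ H) (rH : RealOn H) : RealOn (rho H) := fun x =>
  im_add0 ((rH.der dH).der dH.deriv x) (rH x)

theorem real_Af (dH : Differentiable ℂ H) (rH : RealOn H) (du : Differentiable ℂ u) (ru : RealOn u) :
    RealOn fun t => Af H u t (t + ω) := fun x => by
  have h1 := ru x
  have h2 := ru.app (im_shift x ω)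
  exact im_mul0 (im_mul0 (im_half0 (im_mul0 ((real_rho dH rH).app (im_half0 (im_add0 h1 h2)))
    (realOn_sin.app (im_half0 (im_sub0 h2 h1))))) (ru.der du x)) ((ru.der du).app (im_shift x ω))

theorem real_step (dH : Differentiable ℂ H) (rH : RealOn H) (rK : RealOn K) (hu : UK u k)
    (ru : RealOn u) (rk : RealOn k) :
    RealOn (kc H K u k M ω) ∧ (cc H K u k M ω).im = 0 ∧ RealOn (ww H K u k M ω) ∧
      RealOn (uN H K u k M ω) ∧ RealOn (kN H K u k M ω) := by
  have r0 : RealOn (kc H K u k M ω) := realOn_solve (real_Tf rH rK ru rk) neg_mem_full ω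
  have r1 : RealOn (k1 H K u k M ω) := fun x => im_add0 (rk x) (r0 x)
  have hu1 : UK u (k1 H K u k M ω) := hu.add (diff_solve _ _ _) (per_solve _ _ _).qp
  have r2 : RealOn fun z => (Af H u z (z + ω))⁻¹ := fun x => im_inv0 (real_Af dH rH hu.du ru x)
  have r3 : RealOn fun z => Pf H u (k1 H K u k M ω) z (z + ω) * (Af H u z (z + ω))⁻¹ := fun x =>
    im_mul0 (real_Pf dH rH hu1 ru r1 x) (r2 x)
  have r4 : (cc H K u k M ω).im = 0 := im_div0 r3.coef0 r2.coef0
  have r5 : RealOn (ww H K u k M ω) :=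
    realOn_solve (f := gg H K u k M ω) (fun x => im_sub0 (r3 x) (im_mul0 r4 (r2 x))) neg_mem_full ω
  have r6 : ∀ x : ℝ, ((x : ℂ) + ww H K u k M ω x).im = 0 := fun x => im_add0 (by simp) (r5 x)
  exact ⟨r0, r4, r5, fun x => ru.app (r6 x), fun x => im_add0 (r1.app (r6 x)) (im_mul0 r4 (r6 x))⟩

theorem real_pk {A : Finset ℤ} (rH : RealOn H) (rK : RealOn K) (ru : RealOn u) (rk : RealOn k)
    (rW : RealOn W) (hA : ∀ m ∈ A, -m ∈ A) : RealOn (pk H K u k W A ω) := fun x =>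
  im_add0 (rk.app (im_add0 (by simp) (rW x)))
    ((realOn_solve (real_Tf rH rK ru rk) hA ω).app (im_add0 (by simp) (rW x)))

variable {a : ℤ → ℂ}

theorem conj_div (ha : ∀ m, a (-m) = starRingEnd ℂ (a m)) (m : ℤ) :
    a (-m) / (I * (-m : ℤ)) = starRingEnd ℂ (a m / (I * m)) := by
  simp [ha]

theorem real_Hc (ha : ∀ m, a (-m) = starRingEnd ℂ (a m)) (N : ℕ) : RealOn (Hc a N) :=
  realOn_tp (by simp only [Finset.mem_Icc]; omega) ha

theorem real_Kc (ha : ∀ m, a (-m) = starRingEnd ℂ (a m)) (N : ℕ) : RealOn (Kc a N) := fun x =>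
  im_add0 (im_mul0 (conj_eq_iff_im.mp (by simpa using (ha 0).symm)) (by simp))
    (realOn_tp neg_mem_full (conj_div ha) x)

theorem real_Hb (ha : ∀ m, a (-m) = starRingEnd ℂ (a m)) (N N' : ℕ) : RealOn (Hb a N N') :=
  realOn_tp neg_mem_blk ha

theorem real_Kb (ha : ∀ m, a (-m) = starRingEnd ℂ (a m)) (N N' : ℕ) : RealOn (Kb a N N') :=
  realOn_tp neg_mem_blk (conj_div ha)

end real

end Pool.Agent.Lib.MP_abef03_an
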