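import Mathlib
import Pool.Agent.Lib.MP_abef03_an.Basic

/-! Measure estimates for the frequencies. -/

namespace Pool.Agent.Lib.MP_abef03_an

open MeasureTheory Set
open scoped Real

theorem arith_markov {g : ℝ → ℝ} (hg0 : ∀ x, 0 ≤ g x) (hg : Integrable g) {c I : ℝ} (hc : 0 < c)
    (hI : ∫ x, g x ≤ c * I) : volume {x | c ≤ g x} ≤ ENNReal.ofReal I := by
  have h1 := mul_meas_ge_le_integral_of_nonneg (μ := volume) (Filter.Eventually.of_forall hg0) hg c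
  have h2 := hg.measure_ge_lt_top hc
  rw [← ofReal_measureReal h2.ne]
  exact ENNReal.ofReal_le_ofReal (le_of_mul_le_mul_left (h1.trans hI) hc)

theorem arith_res {m : ℤ} (hm : m ≠ 0) (ω : ℝ) :
    ∃ p : ℤ, dd m ω = abs (ω - 2 * π * p / |(m : ℝ)|) := by
  rcases lt_or_gt_of_ne hm with h | h
  · refine ⟨-round (m * ω / (2 * π)), ?_⟩
    have : (m : ℝ) < 0 := by exact_mod_cast h
    rw [dd, abs_of_neg this]
    push_cast
    rw [mul_neg, neg_div_neg_eq]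
  · refine ⟨round (m * ω / (2 * π)), ?_⟩
    have : (0 : ℝ) < m := by exact_mod_cast h
    rw [dd, abs_of_pos this]

theorem arith_one_le {m : ℤ} (hm : m ≠ 0) : (1 : ℝ) ≤ |(m : ℝ)| := by
  exact_mod_cast Int.one_le_abs hm

theorem arith_res_mem {μ : ℝ} {m : ℤ} (hm : m ≠ 0) {ω : ℝ} (hω : ω ∈ Icc μ (2 * μ))
    (h : dd m ω < μ) : ∃ p ∈ Finset.Icc 1 ⌊μ * |(m : ℝ)| / 2⌋₊,
      dd m ω = abs (ω - 2 * π * p / |(m : ℝ)|) := by
  obtain ⟨p, hp⟩ := arith_res hm ω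
  have h1 := arith_one_le hm
  have h0 : (0 : ℝ) < |(m : ℝ)| := by linarith
  have hπ := Real.pi_gt_three
  rw [hp, abs_lt] at h
  have h2 : 0 < 2 * π * p / |(m : ℝ)| := by linarith [hω.1]
  have h3 : 2 * π * p / |(m : ℝ)| < 3 * μ := by linarith [hω.2]
  have h4 : (0 : ℝ) < p := by
    have := (div_pos_iff_of_pos_right h0).1 h2
    exact (mul_pos_iff_of_pos_left (by linarith)).1 this
  have h5 : 0 < p := by exact_mod_cast h4
  obtain ⟨q, rfl⟩ := Int.eq_ofNat_of_zero_le h5.le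
  refine ⟨q, Finset.mem_Icc.2 ⟨by omega, Nat.le_floor ?_⟩, by simpa using hp⟩
  rw [div_lt_iff₀ h0] at h3
  push_cast at h3 h4
  nlinarith

theorem arith_integrable {lam : ℝ} (hlam : 0 < lam) (c : ℝ) :
    Integrable (fun x : ℝ => 1 / ((x - c) ^ 2 + lam ^ 2)) ∧
      ∫ x : ℝ, 1 / ((x - c) ^ 2 + lam ^ 2) = π / lam := by
  have e : (fun x : ℝ => 1 / ((x - c) ^ 2 + lam ^ 2)) =
      fun x : ℝ => (1 / lam ^ 2) * (1 + ((x - c) / lam) ^ 2)⁻¹ := by
    ext x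
    field_simp
    ring
  rw [e]
  constructor
  · exact ((integrable_inv_one_add_sq.comp_div hlam.ne').comp_sub_right c).const_mul _
  · rw [integral_const_mul, integral_sub_right_eq_self (fun x : ℝ => (1 + (x / lam) ^ 2)⁻¹) c,
      Measure.integral_comp_div (fun x : ℝ => (1 + x ^ 2)⁻¹) lam, integral_univ_inv_one_add_sq,
      abs_of_pos hlam, smul_eq_mul]
    field_simp

theorem arith_card {μ : ℝ} (hμ : 0 < μ) (m : ℤ) :
    ((Finset.Icc 1 ⌊μ * |(m : ℝ)| / 2⌋₊).card : ℝ) ≤ μ * |(m : ℝ)| / 2 := by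
  rw [Nat.card_Icc, Nat.add_sub_cancel]
  exact Nat.floor_le (by positivity)

/-- Markov inequality for weighted sums of inverse squared small divisors. -/
theorem meas_sum {μ lam δ : ℝ} (hμ : 0 < μ) (hlam : 0 < lam) (hδ : 0 < δ) (A : Finset ℤ)
    (hA : 0 ∉ A) (a : ℤ → ℝ) (ha : ∀ m, 0 ≤ a m) :
    volume {ω ∈ Icc μ (2 * μ) | ∑ m ∈ A, a m / μ ^ 2 + 4 / (δ * lam) * ∑ m ∈ A, a m * |(m : ℝ)| <
      ∑ m ∈ A, a m / (dd m ω ^ 2 + lam ^ 2)} ≤ ENNReal.ofReal (δ * μ) := by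
  have hne : ∀ m ∈ A, m ≠ 0 := fun m hm h => hA (h ▸ hm)
  set S := ∑ m ∈ A, a m * |(m : ℝ)| with hS
  have hS0 : 0 ≤ S := Finset.sum_nonneg fun m _ => mul_nonneg (ha m) (abs_nonneg _)
  rcases hS0.eq_or_lt with h0 | h0
  · have h1 : ∀ m ∈ A, a m = 0 := by
      intro m hm
      have h2 := (Finset.sum_eq_zero_iff_of_nonneg
        fun m _ => mul_nonneg (ha m) (abs_nonneg (m : ℝ))).1 h0.symm m hm
      have h3 := arith_one_le (hne m hm)
      exact (mul_eq_zero.1 h2).resolve_right (by linarith)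
    rw [Set.eq_empty_of_forall_notMem (s := {ω ∈ Icc μ (2 * μ) | _}), measure_empty]
    · exact zero_le
    · rintro ω ⟨_, h⟩
      rw [Finset.sum_eq_zero fun m hm => by rw [h1 m hm, zero_div],
        Finset.sum_eq_zero fun m hm => by rw [h1 m hm, zero_div], ← h0] at h
      simp at h
  let g : ℝ → ℝ := fun ω => ∑ m ∈ A, a m * ∑ p ∈ Finset.Icc 1 ⌊μ * |(m : ℝ)| / 2⌋₊,
    1 / ((ω - 2 * π * p / |(m : ℝ)|) ^ 2 + lam ^ 2)
  have hi : ∀ m : ℤ, Integrable fun ω : ℝ => a m * ∑ p ∈ Finset.Icc 1 ⌊μ * |(m : ℝ)| / 2⌋₊,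
      1 / ((ω - 2 * π * p / |(m : ℝ)|) ^ 2 + lam ^ 2) := fun m =>
    (integrable_finsetSum _ fun p _ => (arith_integrable hlam _).1).const_mul _
  refine le_trans (measure_mono ?_) (arith_markov (g := g) (c := 4 / (δ * lam) * S)
    (fun ω => Finset.sum_nonneg fun m _ => mul_nonneg (ha m)
      (Finset.sum_nonneg fun p _ => by positivity))
    (integrable_finsetSum _ fun m _ => hi m) (by positivity) ?_)
  · rintro ω ⟨hω, h⟩
    have h1 : ∑ m ∈ A, a m / (dd m ω ^ 2 + lam ^ 2) ≤ ∑ m ∈ A, a m / μ ^ 2 + g ω := by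
      simp only [g]
      rw [← Finset.sum_add_distrib]
      refine Finset.sum_le_sum fun m hm => ?_
      rw [div_eq_mul_one_div (a m), div_eq_mul_one_div (a m), ← mul_add]
      refine mul_le_mul_of_nonneg_left ?_ (ha m)
      by_cases h2 : dd m ω < μ
      · obtain ⟨p, hp, h3⟩ := arith_res_mem (hne m hm) hω h2
        have h4 := Finset.single_le_sum (f := fun p : ℕ =>
          1 / ((ω - 2 * π * p / |(m : ℝ)|) ^ 2 + lam ^ 2)) (fun p _ => by positivity) hp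
        rw [h3, sq_abs]
        exact le_add_of_nonneg_of_le (by positivity) h4
      · refine le_add_of_le_of_nonneg ?_ (Finset.sum_nonneg fun p _ => by positivity)
        have h3 : μ ^ 2 ≤ dd m ω ^ 2 := pow_le_pow_left₀ hμ.le (not_lt.1 h2) 2
        exact one_div_le_one_div_of_le (by positivity) (by nlinarith [sq_nonneg lam])
    show _ ≤ g ω
    linarith
  · simp only [g]
    rw [integral_finsetSum _ fun m _ => hi m]
    have h1 : ∀ m ∈ A, ∫ ω : ℝ, a m * ∑ p ∈ Finset.Icc 1 ⌊μ * |(m : ℝ)| / 2⌋₊,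
        1 / ((ω - 2 * π * p / |(m : ℝ)|) ^ 2 + lam ^ 2) ≤ 4 * μ / lam * (a m * |(m : ℝ)|) := by
      intro m _
      rw [integral_const_mul, integral_finsetSum _ fun p _ => (arith_integrable hlam _).1]
      simp only [(arith_integrable hlam _).2, Finset.sum_const, nsmul_eq_mul]
      have h2 := arith_card hμ m
      have h3 := ha m
      calc _ ≤ a m * ((μ * |(m : ℝ)| / 2) * (8 / lam)) := by
            gcongr
            linarith [Real.pi_lt_four]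
        _ = _ := by ring
    refine (Finset.sum_le_sum h1).trans (le_of_eq ?_)
    rw [← Finset.mul_sum, ← hS]
    field_simp

theorem arith_sum_full (f : ℤ → ℝ) (M : ℕ) :
    ∑ m ∈ full M, f m = ∑ i ∈ Finset.range M, (f ((i : ℤ) + 1) + f (-((i : ℤ) + 1))) := by
  induction M with
  | zero => simp [full]
  | succ M ih =>
    have e : full (M + 1) = insert ((M : ℤ) + 1) (insert (-((M : ℤ) + 1)) (full M)) := by
      ext m
      simp only [full, Finset.mem_erase, Finset.mem_Icc, Finset.mem_insert]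
      push_cast
      omega
    rw [e, Finset.sum_insert, Finset.sum_insert, Finset.sum_range_succ, ih]
    · ring
    · simp only [full, Finset.mem_erase, Finset.mem_Icc]; omega
    · simp only [full, Finset.mem_erase, Finset.mem_Icc, Finset.mem_insert]; omega

theorem arith_mem_full {M : ℕ} {m : ℤ} (h : m ∈ full M) : m ≠ 0 ∧ |(m : ℝ)| ≤ M := by
  simp only [full, Finset.mem_erase, Finset.mem_Icc] at h
  refine ⟨h.1, ?_⟩
  exact_mod_cast abs_le.2 h.2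

theorem sum_full_one (M : ℕ) : ∑ _m ∈ full M, (1 : ℝ) = 2 * M := by
  rw [arith_sum_full (fun _ => 1)]
  simp only [Finset.sum_const, Finset.card_range, nsmul_eq_mul]
  ring

theorem sum_full_abs (M : ℕ) : ∑ m ∈ full M, |(m : ℝ)| ≤ 2 * M ^ 2 := by
  calc _ ≤ ∑ _m ∈ full M, (M : ℝ) * 1 :=
        Finset.sum_le_sum fun m hm => by rw [mul_one]; exact (arith_mem_full hm).2
    _ = _ := by rw [← Finset.mul_sum, sum_full_one]; ring

theorem sum_full_inv_sq (M : ℕ) : ∑ m ∈ full M, 1 / (m : ℝ) ^ 2 ≤ 4 := by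
  have key : ∑ m ∈ full M, 1 / (m : ℝ) ^ 2 ≤ 4 - 4 / ((M : ℝ) + 1) := by
    rw [arith_sum_full fun m => 1 / (m : ℝ) ^ 2]
    induction M with
    | zero => simp
    | succ M ih =>
      rw [Finset.sum_range_succ]
      push_cast at ih ⊢
      have h0 : (0 : ℝ) ≤ M := Nat.cast_nonneg _
      have : 1 / ((M : ℝ) + 1) ^ 2 + 1 / (-((M : ℝ) + 1)) ^ 2 ≤
          4 / ((M : ℝ) + 1) - 4 / ((M : ℝ) + 1 + 1) := by
        rw [neg_sq, ← add_div, div_sub_div _ _ (by positivity) (by positivity),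
          div_le_div_iff₀ (by positivity) (by positivity)]
        nlinarith
      linarith
  have : 0 ≤ 4 / ((M : ℝ) + 1) := by positivity
  linarith

theorem sum_full_inv (M : ℕ) :
    ∑ m ∈ full M, 1 / (m : ℝ) ^ 2 * |(m : ℝ)| ≤ 2 * (1 + Real.log M) := by
  have h := harmonic_le_one_add_log M
  rw [arith_sum_full fun m => 1 / (m : ℝ) ^ 2 * |(m : ℝ)|]
  refine le_trans (le_of_eq ?_) (mul_le_mul_of_nonneg_left h zero_le_two)
  rw [harmonic]
  push_cast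
  rw [Finset.mul_sum]
  refine Finset.sum_congr rfl fun i _ => ?_
  have h0 : (0 : ℝ) < (i : ℝ) + 1 := by positivity
  rw [abs_neg, neg_sq, abs_of_pos h0]
  field_simp
  ring

theorem meas_dioph {μ lam : ℝ} (hμ : 0 < μ) (hlam : 0 < lam) (h : lam ≤ μ) (M : ℕ) :
    volume {ω ∈ Icc μ (2 * μ) | ∃ m ∈ full M, dd m ω < lam} ≤
      ENNReal.ofReal (4 * μ * M ^ 2 * lam) := by
  have h1 : {ω ∈ Icc μ (2 * μ) | ∃ m ∈ full M, dd m ω < lam} ⊆ ⋃ m ∈ full M,
      ⋃ p ∈ Finset.Icc 1 ⌊μ * |(m : ℝ)| / 2⌋₊,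
        Ioo (2 * π * p / |(m : ℝ)| - lam) (2 * π * p / |(m : ℝ)| + lam) := by
    rintro ω ⟨hω, m, hm, h2⟩
    obtain ⟨p, hp, h3⟩ := arith_res_mem (arith_mem_full hm).1 hω (h2.trans_le h)
    rw [h3, abs_lt] at h2
    exact mem_iUnion₂.2 ⟨m, hm, mem_iUnion₂.2 ⟨p, hp, by linarith [h2.1], by linarith [h2.2]⟩⟩
  refine (measure_mono h1).trans ((measure_biUnion_finset_le _ _).trans ?_)
  have h2 : ∀ m ∈ full M, volume (⋃ p ∈ Finset.Icc 1 ⌊μ * |(m : ℝ)| / 2⌋₊,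
      Ioo (2 * π * p / |(m : ℝ)| - lam) (2 * π * p / |(m : ℝ)| + lam)) ≤
      ENNReal.ofReal (μ * lam * |(m : ℝ)|) := by
    intro m _
    refine (measure_biUnion_finset_le _ _).trans ?_
    simp only [Real.volume_Ioo]
    rw [← ENNReal.ofReal_sum_of_nonneg fun p _ => by linarith]
    refine ENNReal.ofReal_le_ofReal ?_
    have h3 := arith_card hμ m
    calc _ = ∑ _p ∈ Finset.Icc 1 ⌊μ * |(m : ℝ)| / 2⌋₊, 2 * lam :=
          Finset.sum_congr rfl fun p _ => by ring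
      _ = ((Finset.Icc 1 ⌊μ * |(m : ℝ)| / 2⌋₊).card : ℝ) * (2 * lam) := by
          rw [Finset.sum_const, nsmul_eq_mul]
      _ ≤ μ * |(m : ℝ)| / 2 * (2 * lam) := by gcongr
      _ = _ := by ring
  refine (Finset.sum_le_sum h2).trans ?_
  rw [← ENNReal.ofReal_sum_of_nonneg fun m _ => by positivity, ← Finset.mul_sum]
  refine ENNReal.ofReal_le_ofReal ?_
  have h3 := sum_full_abs M
  calc _ ≤ μ * lam * (4 * M ^ 2) := by
        gcongr
        nlinarith [sq_nonneg (M : ℝ)]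
    _ = _ := by ring

theorem arith_cell {lam : ℝ} {n M : ℕ} (h2 : (M : ℝ) ≤ 2 ^ n) (h3 : lam ≤ 1 / 2 ^ n) (j : ℤ)
    {m : ℤ} (hm : m ∈ full M) :
    ∃ c : ℝ, ∀ ω : ℝ, ⌊2 ^ n * ω⌋ = j → dd m ω < lam → ω ∈ Ioo (c - lam) (c + lam) := by
  obtain ⟨hm0, hm1⟩ := arith_mem_full hm
  by_cases h : ∃ ω : ℝ, ⌊2 ^ n * ω⌋ = j ∧ dd m ω < lam
  · obtain ⟨ω0, k1, k2⟩ := h
    obtain ⟨p0, hp0⟩ := arith_res hm0 ω0
    refine ⟨2 * π * p0 / |(m : ℝ)|, fun ω k3 k4 => ?_⟩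
    obtain ⟨p, hp⟩ := arith_res hm0 ω
    rw [hp0, abs_lt] at k2
    rw [hp, abs_lt] at k4
    have h0 : (0 : ℝ) < |(m : ℝ)| := by linarith [arith_one_le hm0]
    have hn : (0 : ℝ) < 2 ^ n := by positivity
    rw [Int.floor_eq_iff] at k1 k3
    have l1 : ω - ω0 < 1 / 2 ^ n := by rw [lt_div_iff₀ hn]; linarith
    have l2 : ω0 - ω < 1 / 2 ^ n := by rw [lt_div_iff₀ hn]; linarith
    have l3 : 1 / (2 : ℝ) ^ n ≤ 1 / |(m : ℝ)| := one_div_le_one_div_of_le h0 (hm1.trans h2)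
    have hπ := Real.pi_gt_three
    have key : ∀ x y : ℤ, 2 * π * x / |(m : ℝ)| - 2 * π * y / |(m : ℝ)| < 3 * (1 / |(m : ℝ)|) →
        x ≤ y := by
      intro x y hxy
      rw [← sub_div, mul_one_div, div_lt_div_iff_of_pos_right h0] at hxy
      by_contra hc
      have : (y : ℝ) + 1 ≤ x := by exact_mod_cast not_le.1 hc
      nlinarith
    have e : p = p0 := le_antisymm (key p p0 (by linarith)) (key p0 p (by linarith))
    subst e
    exact ⟨by linarith, by linarith⟩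
  · exact ⟨0, fun ω k1 k2 => absurd ⟨ω, k1, k2⟩ h⟩

theorem arith_one_cell {lam δ : ℝ} (hlam : 0 < lam) (hδ : 0 < δ) {n M : ℕ}
    (h2 : (M : ℝ) ≤ 2 ^ n) (h3 : lam ≤ 1 / 2 ^ n) (b : ℤ → ℝ) (hb : ∀ m, 0 ≤ b m) (j : ℤ) :
    volume {ω : ℝ | ⌊2 ^ n * ω⌋ = j ∧ 2 * lam * 2 ^ n / δ * ∑ m ∈ full M, b m <
      ∑ m ∈ (full M).filter (fun m => dd m ω < lam), b m} ≤ ENNReal.ofReal (δ / 2 ^ n) := by
  have hS0 : 0 ≤ ∑ m ∈ full M, b m := Finset.sum_nonneg fun m _ => hb m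
  rcases hS0.eq_or_lt with h0 | h0
  · rw [Set.eq_empty_of_forall_notMem (s := {ω : ℝ | _}), measure_empty]
    · exact zero_le
    · rintro ω ⟨_, h⟩
      have := Finset.sum_le_sum_of_subset_of_nonneg (f := b)
        (Finset.filter_subset (fun m => dd m ω < lam) (full M)) fun m _ _ => hb m
      rw [← h0] at h this
      linarith
  choose! c hc using fun m (hm : m ∈ full M) => arith_cell h2 h3 j hm
  have hi : ∀ m : ℤ, Integrable ((Ioo (c m - lam) (c m + lam)).indicator fun _ : ℝ => b m) :=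
    fun m => (integrableOn_const (by simp)).integrable_indicator measurableSet_Ioo
  refine le_trans (measure_mono ?_) (arith_markov
    (g := fun ω => ∑ m ∈ full M, (Ioo (c m - lam) (c m + lam)).indicator (fun _ : ℝ => b m) ω)
    (c := 2 * lam * 2 ^ n / δ * ∑ m ∈ full M, b m)
    (fun ω => Finset.sum_nonneg fun m _ => indicator_nonneg (fun _ _ => hb m) _)
    (integrable_finsetSum _ fun m _ => hi m) (by positivity) ?_)
  · rintro ω ⟨k1, k2⟩
    refine k2.le.trans ?_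
    rw [Finset.sum_filter]
    refine Finset.sum_le_sum fun m hm => ?_
    split_ifs with k3
    · rw [indicator_of_mem (hc m hm ω k1 k3)]
    · exact indicator_nonneg (fun _ _ => hb m) _
  · rw [integral_finsetSum _ fun m _ => hi m]
    have h4 : ∀ m ∈ full M, ∫ ω : ℝ, (Ioo (c m - lam) (c m + lam)).indicator
        (fun _ : ℝ => b m) ω = 2 * lam * b m := by
      intro m _
      rw [integral_indicator_const _ measurableSet_Ioo, Real.volume_real_Ioo_of_le (by linarith),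
        smul_eq_mul]
      ring
    rw [Finset.sum_congr rfl h4, ← Finset.mul_sum]
    refine le_of_eq ?_
    field_simp

/-- Markov inequality on the dyadic cells of length `2 ^ (-n)`. -/
theorem meas_cells {μ lam δ : ℝ} (hμ : 0 < μ) (hlam : 0 < lam) (hδ : 0 < δ) (n M : ℕ)
    (h1 : 1 / 2 ^ n ≤ μ) (h2 : (M : ℝ) ≤ 2 ^ n) (h3 : lam ≤ 1 / 2 ^ n) (β : ℝ → ℤ → ℝ)
    (hβ : ∀ ω m, 0 ≤ β ω m) (hc : ∀ ω ω', ⌊2 ^ n * ω⌋ = ⌊2 ^ n * ω'⌋ → β ω = β ω') :
    volume {ω ∈ Icc μ (2 * μ) | 2 * lam * 2 ^ n / δ * ∑ m ∈ full M, β ω m <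
      ∑ m ∈ (full M).filter (fun m => dd m ω < lam), β ω m} ≤ ENNReal.ofReal (3 * δ * μ) := by
  have hn : (0 : ℝ) < 2 ^ n := by positivity
  have h4 : {ω ∈ Icc μ (2 * μ) | 2 * lam * 2 ^ n / δ * ∑ m ∈ full M, β ω m <
      ∑ m ∈ (full M).filter (fun m => dd m ω < lam), β ω m} ⊆
      ⋃ j ∈ Finset.Icc ⌊2 ^ n * μ⌋ ⌊2 ^ n * (2 * μ)⌋, {ω : ℝ | ⌊2 ^ n * ω⌋ = j ∧
        2 * lam * 2 ^ n / δ * ∑ m ∈ full M, β (j / 2 ^ n) m <
        ∑ m ∈ (full M).filter (fun m => dd m ω < lam), β (j / 2 ^ n) m} := by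
    rintro ω ⟨hω, h⟩
    refine mem_iUnion₂.2 ⟨⌊2 ^ n * ω⌋, Finset.mem_Icc.2 ⟨Int.floor_le_floor ?_,
      Int.floor_le_floor ?_⟩, rfl, ?_⟩
    · exact mul_le_mul_of_nonneg_left hω.1 hn.le
    · exact mul_le_mul_of_nonneg_left hω.2 hn.le
    · rwa [← hc ω _ (by rw [mul_div_cancel₀ _ hn.ne', Int.floor_intCast])]
  refine (measure_mono h4).trans ((measure_biUnion_finset_le _ _).trans ?_)
  refine (Finset.sum_le_sum fun j _ => arith_one_cell hlam hδ h2 h3 _ (hβ _) j).trans ?_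
  rw [← ENNReal.ofReal_sum_of_nonneg fun j _ => by positivity, Finset.sum_const, nsmul_eq_mul]
  refine ENNReal.ofReal_le_ofReal ?_
  have h5 : ((Finset.Icc ⌊2 ^ n * μ⌋ ⌊2 ^ n * (2 * μ)⌋).card : ℝ) ≤ 3 * (2 ^ n * μ) := by
    have k1 := Int.floor_le (2 ^ n * (2 * μ))
    have k2 := Int.lt_floor_add_one (2 ^ n * μ)
    have k3 : 1 ≤ 2 ^ n * μ := by rwa [div_le_iff₀' hn] at h1
    have k4 : ⌊2 ^ n * μ⌋ ≤ ⌊2 ^ n * (2 * μ)⌋ + 1 :=
      (Int.floor_le_floor (by linarith)).trans (Int.le_add_one le_rfl)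
    have k5 := Int.card_Icc_of_le _ _ k4
    have k6 : ((Finset.Icc ⌊2 ^ n * μ⌋ ⌊2 ^ n * (2 * μ)⌋).card : ℝ) =
        ⌊2 ^ n * (2 * μ)⌋ + 1 - ⌊2 ^ n * μ⌋ := by exact_mod_cast k5
    linarith
  calc _ ≤ 3 * (2 ^ n * μ) * (δ / 2 ^ n) := by gcongr
    _ = _ := by field_simp

theorem floor_two_pow_mono {n n' : ℕ} (h : n ≤ n') {ω ω' : ℝ}
    (h' : ⌊2 ^ n' * ω⌋ = ⌊2 ^ n' * ω'⌋) : ⌊2 ^ n * ω⌋ = ⌊2 ^ n * ω'⌋ := by
  obtain ⟨d, rfl⟩ := Nat.exists_eq_add_of_le h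
  have e : ∀ x : ℝ, 2 ^ n * x = 2 ^ (n + d) * x / ((2 ^ d : ℕ) : ℝ) := by
    intro x
    push_cast
    rw [pow_add]
    field_simp
  rw [e ω, e ω', Int.floor_div_natCast, Int.floor_div_natCast, h']

theorem exists_compact {μ : ℝ} (hμ : 0 < μ) (B : ℕ → Set ℝ) (b : ℕ → ℝ) (hb0 : ∀ n, 0 ≤ b n)
    (hb : ∀ n, volume (B n) ≤ ENNReal.ofReal (b n))
    (hs : ∀ N, ∑ n ∈ Finset.range N, b n ≤ μ / 2) :
    ∃ E : Set ℝ, E ⊆ Icc μ (2 * μ) ∧ IsCompact E ∧ 0 < volume E ∧ ∀ ω ∈ E, ∀ n, ω ∉ B n := by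
  have h1 : volume (⋃ n, B n) < ENNReal.ofReal μ := by
    refine lt_of_le_of_lt ((measure_iUnion_le _).trans ((ENNReal.tsum_le_tsum hb).trans
      (ENNReal.tsum_le_of_sum_range_le (c := ENNReal.ofReal (μ / 2)) fun N => ?_))) ?_
    · rw [← ENNReal.ofReal_sum_of_nonneg fun n _ => hb0 n]
      exact ENNReal.ofReal_le_ofReal (hs N)
    · exact (ENNReal.ofReal_lt_ofReal_iff hμ).2 (by linarith)
  obtain ⟨O, h2, h3, h4⟩ := Set.exists_isOpen_lt_of_lt _ _ h1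
  refine ⟨Icc μ (2 * μ) \ O, sdiff_subset, isCompact_Icc.diff h3, ?_,
    fun ω hω n hn => hω.2 (h2 (mem_iUnion.2 ⟨n, hn⟩))⟩
  rw [pos_iff_ne_zero]
  intro h5
  have h6 : volume (Icc μ (2 * μ)) ≤ volume (Icc μ (2 * μ) \ O) + volume O :=
    (measure_mono (subset_sdiff_union _ _)).trans (measure_union_le _ _)
  rw [h5, zero_add, Real.volume_Icc, show 2 * μ - μ = μ by ring] at h6
  exact absurd h4 (not_lt.2 h6)

end Pool.Agent.Lib.MP_abef03_an
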