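import Mathlib
import Pool.Agent.Lib.MP_abef03_an.Four

/-! Fourier data of the support function. -/

namespace Pool.Agent.Lib.MP_abef03_an

open Complex Set
open scoped Real

/-! ### Elementary sums -/

lemma blocks_mem_blk {N N' : ℕ} {m : ℤ} (hm : m ∈ blk N N') :
    (N : ℝ) < |(m : ℝ)| ∧ |(m : ℝ)| ≤ N' := by
  simp only [blk, Finset.mem_sdiff, Finset.mem_Icc, not_and, not_le] at hm
  obtain ⟨⟨h1, h2⟩, h3⟩ := hm
  have h4 : (N : ℤ) < |m| := by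
    rcases lt_or_ge m (-(N : ℤ)) with h | h
    · rw [lt_abs]; right; omega
    · rw [lt_abs]; left; exact h3 h
  have h5 : |m| ≤ (N' : ℤ) := abs_le.2 ⟨h1, h2⟩
  constructor
  · exact_mod_cast h4
  · exact_mod_cast h5

lemma blocks_sum_le (f : ℕ → ℝ) (hf : ∀ n, 0 ≤ f n) (N N' : ℕ) :
    ∑ m ∈ blk N N', f m.natAbs ≤ 2 * ∑ n ∈ Finset.Ioc N N', f n := by
  classical
  have hsub : blk N N' ⊆ (Finset.Ioc N N').image (fun n : ℕ => (n : ℤ)) ∪
      (Finset.Ioc N N').image (fun n : ℕ => -(n : ℤ)) := by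
    intro m hm
    simp only [blk, Finset.mem_sdiff, Finset.mem_Icc, not_and, not_le] at hm
    obtain ⟨⟨h1, h2⟩, h3⟩ := hm
    simp only [Finset.mem_union, Finset.mem_image, Finset.mem_Ioc]
    rcases lt_or_ge m (-(N : ℤ)) with h | h
    · right; exact ⟨m.natAbs, ⟨by omega, by omega⟩, by omega⟩
    · have := h3 h
      left; exact ⟨m.natAbs, ⟨by omega, by omega⟩, by omega⟩
  have h1 : ∑ m ∈ (Finset.Ioc N N').image (fun n : ℕ => (n : ℤ)), f m.natAbs =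
      ∑ n ∈ Finset.Ioc N N', f n := by
    rw [Finset.sum_image (fun a _ b _ h => by exact_mod_cast h)]
    simp
  have h2 : ∑ m ∈ (Finset.Ioc N N').image (fun n : ℕ => -(n : ℤ)), f m.natAbs =
      ∑ n ∈ Finset.Ioc N N', f n := by
    rw [Finset.sum_image (fun a _ b _ h => by simpa using h)]
    simp
  calc ∑ m ∈ blk N N', f m.natAbs
      ≤ ∑ m ∈ (Finset.Ioc N N').image (fun n : ℕ => (n : ℤ)) ∪
          (Finset.Ioc N N').image (fun n : ℕ => -(n : ℤ)), f m.natAbs :=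
        Finset.sum_le_sum_of_subset_of_nonneg hsub fun _ _ _ => hf _
    _ ≤ ∑ m ∈ (Finset.Ioc N N').image (fun n : ℕ => (n : ℤ)), f m.natAbs +
          ∑ m ∈ (Finset.Ioc N N').image (fun n : ℕ => -(n : ℤ)), f m.natAbs := by
        rw [← Finset.sum_union_inter]
        exact le_add_of_nonneg_right (Finset.sum_nonneg fun _ _ => hf _)
    _ = 2 * ∑ n ∈ Finset.Ioc N N', f n := by rw [h1, h2]; ring

lemma blocks_natAbs (m : ℤ) : ((m.natAbs : ℕ) : ℝ) = |(m : ℝ)| := by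
  rw [Nat.cast_natAbs]; push_cast; rfl

lemma blocks_inv_sq {N N' : ℕ} (hN : 1 ≤ N) :
    ∑ m ∈ blk N N', (|(m : ℝ)| ^ 2)⁻¹ ≤ 2 / N := by
  have h := blocks_sum_le (fun n => ((n : ℝ) ^ 2)⁻¹) (fun n => by positivity) N N'
  simp only [blocks_natAbs] at h
  refine h.trans ?_
  have hN' : (0 : ℝ) < N := by exact_mod_cast hN
  rcases le_or_gt N N' with hle | hlt
  · have h2 := sum_Ioc_inv_sq_le_sub (α := ℝ) (k := N) (n := N') (by omega) hle
    have h3 : (0 : ℝ) ≤ (N' : ℝ)⁻¹ := by positivity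
    rw [div_eq_mul_inv]
    linarith
  · rw [Finset.Ioc_eq_empty (by omega), Finset.sum_empty, mul_zero]
    positivity

lemma blocks_inv_sq' (N : ℕ) :
    ∑ m ∈ Finset.Icc (-(N : ℤ)) N, ((1 + |(m : ℝ)|) ^ 2)⁻¹ ≤ 3 := by
  have h := blocks_sum_le (fun n => ((1 + (n : ℝ)) ^ 2)⁻¹) (fun n => by positivity) 0 N
  simp only [blocks_natAbs] at h
  have h2 : ∑ n ∈ Finset.Ioc 0 N, ((1 + (n : ℝ)) ^ 2)⁻¹ ≤ 1 - ((N : ℝ) + 1)⁻¹ := by
    clear h
    induction N with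
    | zero => simp
    | succ n ih =>
      rw [Finset.sum_Ioc_succ_top (Nat.zero_le n)]
      push_cast
      have hn : (0 : ℝ) ≤ n := Nat.cast_nonneg n
      have : ((1 + ((n : ℝ) + 1)) ^ 2)⁻¹ ≤ ((n : ℝ) + 1)⁻¹ - ((n : ℝ) + 1 + 1)⁻¹ := by
        rw [inv_sub_inv (by positivity) (by positivity), inv_eq_one_div,
          div_le_div_iff₀ (by positivity) (by positivity)]
        nlinarith
      linarith
  have h3 : (0 : ℝ) ≤ ((N : ℝ) + 1)⁻¹ := by positivity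
  have hsub : Finset.Icc (-((0 : ℕ) : ℤ)) ((0 : ℕ) : ℤ) ⊆ Finset.Icc (-(N : ℤ)) N := by
    apply Finset.Icc_subset_Icc <;> omega
  have h4 := Finset.sum_sdiff (f := fun m : ℤ => ((1 + |(m : ℝ)|) ^ 2)⁻¹) hsub
  have h5 : ∑ m ∈ Finset.Icc (-((0 : ℕ) : ℤ)) ((0 : ℕ) : ℤ), ((1 + |(m : ℝ)|) ^ 2)⁻¹ = 1 := by
    simp
  rw [← h4, h5]
  unfold blk at h
  linarith

lemma blocks_exp_le {x r M : ℝ} (hx : 0 ≤ x) (hxM : x ≤ M) (hr : M * r ≤ 1) :
    Real.exp (x * r) ≤ 2.72 := by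
  have h1 : x * r ≤ 1 := by
    rcases le_or_gt 0 r with h | h
    · exact (mul_le_mul_of_nonneg_right hxM h).trans hr
    · nlinarith
  have h2 := Real.exp_le_exp.2 h1
  have h3 := Real.exp_one_lt_d9
  linarith

variable {Γ : ℝ} {a : ℤ → ℂ}

theorem blk_sq (hΓ : 0 ≤ Γ) (ha : ∀ A : Finset ℤ, ∑ m ∈ A, (1 + |(m : ℝ)|) ^ 8 * ‖a m‖ ^ 2 ≤ Γ ^ 2)
    {N N' q : ℕ} (hN : 1 ≤ N) {r : ℝ} (hr : N' * r ≤ 1) {c : ℤ → ℂ}
    (hc : ∀ m ∈ blk N N', ‖c m‖ * |(m : ℝ)| ^ q ≤ |(m : ℝ)| ^ 4 * ‖a m‖) :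
    ∑ m ∈ blk N N', ‖c m‖ ^ 2 * Real.exp (2 * |(m : ℝ)| * r) ≤ 8 * Γ ^ 2 / (N : ℝ) ^ (2 * q) := by
  have _ := hΓ
  have hN' : (0 : ℝ) < N := by exact_mod_cast hN
  have key : ∀ m ∈ blk N N', ‖c m‖ ^ 2 * Real.exp (2 * |(m : ℝ)| * r) ≤
      8 / (N : ℝ) ^ (2 * q) * ((1 + |(m : ℝ)|) ^ 8 * ‖a m‖ ^ 2) := by
    intro m hm
    obtain ⟨h1, h2⟩ := blocks_mem_blk hm
    have h0 : 0 ≤ |(m : ℝ)| := abs_nonneg _
    have he := blocks_exp_le h0 h2 hr
    have he0 := Real.exp_pos (|(m : ℝ)| * r)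
    have he2 : Real.exp (2 * |(m : ℝ)| * r) ≤ 8 := by
      rw [show 2 * |(m : ℝ)| * r = |(m : ℝ)| * r + |(m : ℝ)| * r by ring, Real.exp_add]
      nlinarith
    have h3 : ‖c m‖ * (N : ℝ) ^ q ≤ (1 + |(m : ℝ)|) ^ 4 * ‖a m‖ :=
      calc ‖c m‖ * (N : ℝ) ^ q ≤ ‖c m‖ * |(m : ℝ)| ^ q := by gcongr
        _ ≤ |(m : ℝ)| ^ 4 * ‖a m‖ := hc m hm
        _ ≤ (1 + |(m : ℝ)|) ^ 4 * ‖a m‖ := by gcongr; linarith
    have h4 : (‖c m‖ * (N : ℝ) ^ q) ^ 2 ≤ ((1 + |(m : ℝ)|) ^ 4 * ‖a m‖) ^ 2 := by gcongr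
    have h5 : ‖c m‖ ^ 2 ≤ (1 + |(m : ℝ)|) ^ 8 * ‖a m‖ ^ 2 / (N : ℝ) ^ (2 * q) := by
      rw [le_div_iff₀ (by positivity)]
      calc ‖c m‖ ^ 2 * (N : ℝ) ^ (2 * q) = (‖c m‖ * (N : ℝ) ^ q) ^ 2 := by ring
        _ ≤ _ := h4
        _ = _ := by ring
    calc ‖c m‖ ^ 2 * Real.exp (2 * |(m : ℝ)| * r)
        ≤ ((1 + |(m : ℝ)|) ^ 8 * ‖a m‖ ^ 2 / (N : ℝ) ^ (2 * q)) * 8 := by gcongr
      _ = _ := by ring
  calc _ ≤ ∑ m ∈ blk N N', 8 / (N : ℝ) ^ (2 * q) * ((1 + |(m : ℝ)|) ^ 8 * ‖a m‖ ^ 2) :=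
        Finset.sum_le_sum key
    _ = 8 / (N : ℝ) ^ (2 * q) * ∑ m ∈ blk N N', (1 + |(m : ℝ)|) ^ 8 * ‖a m‖ ^ 2 := by
        rw [Finset.mul_sum]
    _ ≤ 8 / (N : ℝ) ^ (2 * q) * Γ ^ 2 := by gcongr; exact ha _
    _ = _ := by ring

/-- Cauchy-Schwarz against the weights. -/
lemma blocks_cs (hΓ : 0 ≤ Γ)
    (ha : ∀ A : Finset ℤ, ∑ m ∈ A, (1 + |(m : ℝ)|) ^ 8 * ‖a m‖ ^ 2 ≤ Γ ^ 2) (A : Finset ℤ)
    (w : ℤ → ℝ) {W : ℝ} (hW : 0 ≤ W) (hw : ∑ m ∈ A, w m ^ 2 ≤ W ^ 2) :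
    ∑ m ∈ A, ((1 + |(m : ℝ)|) ^ 4 * ‖a m‖) * w m ≤ Γ * W := by
  refine (Real.sum_mul_le_sqrt_mul_sqrt A _ _).trans ?_
  have h1 : √(∑ m ∈ A, ((1 + |(m : ℝ)|) ^ 4 * ‖a m‖) ^ 2) ≤ Γ := by
    apply Real.sqrt_le_iff.2 ⟨hΓ, ?_⟩
    refine le_trans (le_of_eq (Finset.sum_congr rfl fun m _ => ?_)) (ha A)
    ring
  have h2 : √(∑ m ∈ A, w m ^ 2) ≤ W := Real.sqrt_le_iff.2 ⟨hW, hw⟩
  exact mul_le_mul h1 h2 (Real.sqrt_nonneg _) hΓ

theorem blk_abs (hΓ : 0 ≤ Γ) (ha : ∀ A : Finset ℤ, ∑ m ∈ A, (1 + |(m : ℝ)|) ^ 8 * ‖a m‖ ^ 2 ≤ Γ ^ 2)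
    {N N' q : ℕ} (hN : 1 ≤ N) (hq : 1 ≤ q) {r : ℝ} (hr : N' * r ≤ 1) {c : ℤ → ℂ}
    (hc : ∀ m ∈ blk N N', ‖c m‖ * |(m : ℝ)| ^ q ≤ |(m : ℝ)| ^ 4 * ‖a m‖) :
    ∑ m ∈ blk N N', ‖c m‖ * Real.exp (|(m : ℝ)| * r) ≤ 4 * Γ * Real.sqrt N / (N : ℝ) ^ q := by
  have hN' : (0 : ℝ) < N := by exact_mod_cast hN
  obtain ⟨p, rfl⟩ : ∃ p, q = p + 1 := ⟨q - 1, by omega⟩
  have hs : 0 < Real.sqrt N := Real.sqrt_pos.2 hN'
  have hss : Real.sqrt N ^ 2 = N := Real.sq_sqrt hN'.le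
  have key : ∀ m ∈ blk N N', ‖c m‖ * Real.exp (|(m : ℝ)| * r) ≤
      2.72 / (N : ℝ) ^ p * (((1 + |(m : ℝ)|) ^ 4 * ‖a m‖) * |(m : ℝ)|⁻¹) := by
    intro m hm
    obtain ⟨h1, h2⟩ := blocks_mem_blk hm
    have h0 : 0 < |(m : ℝ)| := hN'.trans h1
    have he := blocks_exp_le h0.le h2 hr
    have h3 : ‖c m‖ * ((N : ℝ) ^ p * |(m : ℝ)|) ≤ (1 + |(m : ℝ)|) ^ 4 * ‖a m‖ :=
      calc ‖c m‖ * ((N : ℝ) ^ p * |(m : ℝ)|) ≤ ‖c m‖ * (|(m : ℝ)| ^ p * |(m : ℝ)|) := by gcongr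
        _ = ‖c m‖ * |(m : ℝ)| ^ (p + 1) := by ring
        _ ≤ |(m : ℝ)| ^ 4 * ‖a m‖ := hc m hm
        _ ≤ (1 + |(m : ℝ)|) ^ 4 * ‖a m‖ := by gcongr; linarith
    have h5 : ‖c m‖ ≤ (1 + |(m : ℝ)|) ^ 4 * ‖a m‖ / ((N : ℝ) ^ p * |(m : ℝ)|) := by
      rw [le_div_iff₀ (by positivity)]; exact h3
    calc ‖c m‖ * Real.exp (|(m : ℝ)| * r)
        ≤ ((1 + |(m : ℝ)|) ^ 4 * ‖a m‖ / ((N : ℝ) ^ p * |(m : ℝ)|)) * 2.72 := by gcongr
      _ = _ := by field_simp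
  have hw : ∑ m ∈ blk N N', (|(m : ℝ)|⁻¹) ^ 2 ≤ (1.42 * Real.sqrt N / N) ^ 2 := by
    have h1 := blocks_inv_sq (N := N) (N' := N') hN
    simp only [inv_pow]
    refine h1.trans ?_
    rw [div_pow, mul_pow, hss, div_le_div_iff₀ hN' (by positivity)]
    nlinarith [mul_pos hN' hN']
  have hcs := blocks_cs hΓ ha (blk N N') (fun m => |(m : ℝ)|⁻¹) (by positivity) hw
  calc _ ≤ ∑ m ∈ blk N N', 2.72 / (N : ℝ) ^ p * (((1 + |(m : ℝ)|) ^ 4 * ‖a m‖) * |(m : ℝ)|⁻¹) :=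
        Finset.sum_le_sum key
    _ = 2.72 / (N : ℝ) ^ p * ∑ m ∈ blk N N', ((1 + |(m : ℝ)|) ^ 4 * ‖a m‖) * |(m : ℝ)|⁻¹ := by
        rw [Finset.mul_sum]
    _ ≤ 2.72 / (N : ℝ) ^ p * (Γ * (1.42 * Real.sqrt N / N)) := by gcongr
    _ = 3.8624 * (Γ * Real.sqrt N / (N : ℝ) ^ (p + 1)) := by field_simp; ring
    _ ≤ 4 * (Γ * Real.sqrt N / (N : ℝ) ^ (p + 1)) := by gcongr; norm_num
    _ = _ := by ring

theorem cut_abs (hΓ : 0 ≤ Γ) (ha : ∀ A : Finset ℤ, ∑ m ∈ A, (1 + |(m : ℝ)|) ^ 8 * ‖a m‖ ^ 2 ≤ Γ ^ 2)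
    {N : ℕ} {r : ℝ} (hr : N * r ≤ 1) {c : ℤ → ℂ}
    (hc : ∀ m, ‖c m‖ ≤ (1 + |(m : ℝ)|) ^ 3 * ‖a m‖) :
    ∑ m ∈ Finset.Icc (-(N : ℤ)) N, ‖c m‖ * Real.exp (|(m : ℝ)| * r) ≤ 5 * Γ := by
  have key : ∀ m ∈ Finset.Icc (-(N : ℤ)) N, ‖c m‖ * Real.exp (|(m : ℝ)| * r) ≤
      2.72 * (((1 + |(m : ℝ)|) ^ 4 * ‖a m‖) * (1 + |(m : ℝ)|)⁻¹) := by
    intro m hm
    have h0 : 0 ≤ |(m : ℝ)| := abs_nonneg _
    have h2 : |(m : ℝ)| ≤ N := by
      have : |m| ≤ (N : ℤ) := abs_le.2 (Finset.mem_Icc.1 hm)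
      exact_mod_cast this
    have he := blocks_exp_le h0 h2 hr
    calc ‖c m‖ * Real.exp (|(m : ℝ)| * r) ≤ ((1 + |(m : ℝ)|) ^ 3 * ‖a m‖) * 2.72 := by
          gcongr; exact hc m
      _ = _ := by field_simp
  have hw : ∑ m ∈ Finset.Icc (-(N : ℤ)) N, ((1 + |(m : ℝ)|)⁻¹) ^ 2 ≤ (1.74 : ℝ) ^ 2 := by
    simp only [inv_pow]
    exact (blocks_inv_sq' N).trans (by norm_num)
  have hcs := blocks_cs hΓ ha _ (fun m => (1 + |(m : ℝ)|)⁻¹) (by norm_num) hw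
  calc _ ≤ ∑ m ∈ Finset.Icc (-(N : ℤ)) N,
          2.72 * (((1 + |(m : ℝ)|) ^ 4 * ‖a m‖) * (1 + |(m : ℝ)|)⁻¹) := Finset.sum_le_sum key
    _ = 2.72 * ∑ m ∈ Finset.Icc (-(N : ℤ)) N,
          ((1 + |(m : ℝ)|) ^ 4 * ‖a m‖) * (1 + |(m : ℝ)|)⁻¹ := by rw [Finset.mul_sum]
    _ ≤ 2.72 * (Γ * 1.74) := by gcongr
    _ ≤ 5 * Γ := by nlinarith

/-! ### Fourier coefficients of a continuous periodic function -/

/-- Fourier coefficient of a function of a real variable. -/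
noncomputable def blocks_co (g : ℝ → ℂ) (m : ℤ) : ℂ :=
  (1 / (2 * π)) * ∫ x in (0 : ℝ)..(2 * π), g x * exp (-(I * m * x))

local instance blocks_fact : Fact (0 < 2 * π) := ⟨by positivity⟩

/-- The function on the circle. -/
noncomputable def blocks_lift {g : ℝ → ℂ} (hc : Continuous g) (hp : Function.Periodic g (2 * π)) :
    C(AddCircle (2 * π), ℂ) := ⟨hp.lift, hc.quotient_liftOn' _⟩

lemma blocks_lift_coe {g : ℝ → ℂ} (hc : Continuous g) (hp : Function.Periodic g (2 * π)) (x : ℝ) :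
    blocks_lift hc hp (x : AddCircle (2 * π)) = g x := rfl

lemma blocks_fourier (m : ℤ) (x : ℝ) :
    fourier m (x : AddCircle (2 * π)) = exp (I * m * x) := by
  rw [fourier_coe_apply]
  congr 1
  have : (π : ℂ) ≠ 0 := by exact_mod_cast Real.pi_ne_zero
  push_cast
  field_simp

lemma blocks_fc {g : ℝ → ℂ} (hc : Continuous g) (hp : Function.Periodic g (2 * π)) (m : ℤ) :
    fourierCoeff (blocks_lift hc hp) m = blocks_co g m := by
  rw [fourierCoeff_eq_intervalIntegral _ _ 0, zero_add, blocks_co, real_smul]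
  congr 1
  · push_cast; rfl
  · refine intervalIntegral.integral_congr fun x _ => ?_
    simp only [blocks_fourier, blocks_lift_coe, smul_eq_mul]
    rw [mul_comm]
    congr 2
    push_cast
    ring

lemma blocks_summable_sq {g : ℝ → ℂ} (hc : Continuous g) (hp : Function.Periodic g (2 * π)) :
    Summable fun m => ‖blocks_co g m‖ ^ 2 := by
  have h := (hasSum_sq_fourierCoeff
    (ContinuousMap.toLp (E := ℂ) 2 AddCircle.haarAddCircle ℂ (blocks_lift hc hp))).summable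
  simpa only [fourierCoeff_toLp, blocks_fc] using h

lemma blocks_hasSum {g : ℝ → ℂ} (hc : Continuous g) (hp : Function.Periodic g (2 * π))
    (hs : Summable (blocks_co g)) (x : ℝ) :
    HasSum (fun m : ℤ => blocks_co g m * exp (I * m * x)) (g x) := by
  have hs' : Summable (fourierCoeff (blocks_lift hc hp)) := by
    rwa [show fourierCoeff (blocks_lift hc hp) = blocks_co g from funext (blocks_fc hc hp)]
  have h := has_pointwise_sum_fourier_series_of_summable hs' (x : AddCircle (2 * π))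
  simpa only [blocks_fc, blocks_fourier, blocks_lift_coe, smul_eq_mul] using h

lemma blocks_co_deriv {g g' : ℝ → ℂ} (hd : ∀ x, HasDerivAt g (g' x) x) (hc' : Continuous g')
    (hp : Function.Periodic g (2 * π)) (m : ℤ) : blocks_co g' m = I * m * blocks_co g m := by
  have hc : Continuous g := continuous_iff_continuousAt.2 fun x => (hd x).continuousAt
  have he : ∀ x : ℝ, HasDerivAt (fun x : ℝ => exp (-(I * m * x)))
      (exp (-(I * m * x)) * -(I * m)) x := by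
    intro x
    have h1 : HasDerivAt (fun z : ℂ => -(I * m * z)) (-(I * m)) (x : ℂ) := by
      have h0 := ((hasDerivAt_id (x : ℂ)).const_mul (I * m)).neg
      rw [mul_one] at h0
      exact h0
    exact h1.cexp.comp_ofReal
  have hce : Continuous fun x : ℝ => exp (-(I * m * x)) := by fun_prop
  have hftc := intervalIntegral.integral_eq_sub_of_hasDerivAt (a := 0) (b := 2 * π)
    (fun x _ => (hd x).mul (he x))
    (((hc'.mul hce).add (hc.mul (hce.mul continuous_const))).intervalIntegrable _ _)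
  have hper : exp (-(I * m * ((2 * π : ℝ) : ℂ))) = 1 := by
    have := Complex.exp_int_mul_two_pi_mul_I (-m)
    rw [← this]
    congr 1
    push_cast
    ring
  have hg : g (2 * π) = g 0 := by simpa using hp 0
  have i1 : IntervalIntegrable (fun x : ℝ => g' x * exp (-(I * m * x))) MeasureTheory.volume
      0 (2 * π) := (hc'.mul hce).intervalIntegrable _ _
  have i2 : IntervalIntegrable (fun x : ℝ => g x * (exp (-(I * m * x)) * -(I * m)))
      MeasureTheory.volume 0 (2 * π) := (hc.mul (hce.mul continuous_const)).intervalIntegrable _ _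
  rw [intervalIntegral.integral_add i1 i2] at hftc
  simp only [Pi.mul_apply, hper, hg, ofReal_zero, mul_zero, neg_zero, exp_zero, sub_self] at hftc
  have h2 : ∫ x in (0 : ℝ)..(2 * π), g x * (exp (-(I * m * x)) * -(I * m)) =
      -(I * m) * ∫ x in (0 : ℝ)..(2 * π), g x * exp (-(I * m * x)) := by
    rw [← intervalIntegral.integral_const_mul]
    refine intervalIntegral.integral_congr fun x _ => ?_
    ring
  rw [h2] at hftc
  unfold blocks_co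
  rw [eq_neg_of_add_eq_zero_left hftc]
  ring

lemma blocks_co_add {f g : ℝ → ℂ} (hf : Continuous f) (hg : Continuous g) (m : ℤ) :
    blocks_co (fun x => f x + g x) m = blocks_co f m + blocks_co g m := by
  have hce : Continuous fun x : ℝ => exp (-(I * m * x)) := by fun_prop
  have i1 : IntervalIntegrable (fun x : ℝ => f x * exp (-(I * m * x))) MeasureTheory.volume
      0 (2 * π) := (hf.mul hce).intervalIntegrable _ _
  have i2 : IntervalIntegrable (fun x : ℝ => g x * exp (-(I * m * x))) MeasureTheory.volume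
      0 (2 * π) := (hg.mul hce).intervalIntegrable _ _
  unfold blocks_co
  rw [← mul_add, ← intervalIntegral.integral_add i1 i2]
  simp only [add_mul]

lemma blocks_co_conj (H : ℝ → ℝ) (m : ℤ) :
    blocks_co (fun x => (H x : ℂ)) (-m) = starRingEnd ℂ (blocks_co (fun x => (H x : ℂ)) m) := by
  have h2 : (0 : ℝ) ≤ 2 * π := by positivity
  unfold blocks_co
  rw [map_mul, intervalIntegral.integral_of_le h2, intervalIntegral.integral_of_le h2,
    ← integral_conj]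
  congr 1
  · simp [map_ofNat]
  · congr 1
    funext x
    rw [map_mul, conj_ofReal, ← exp_conj]
    congr 2
    simp

lemma blocks_periodic_deriv {f : ℝ → ℝ} {c : ℝ} (hp : Function.Periodic f c) :
    Function.Periodic (deriv f) c := by
  intro x
  rw [← deriv_comp_add_const, show (fun x => f (x + c)) = f from funext hp]

/-- The tail of the Fourier series. -/
lemma blocks_tail (hΓ : 0 ≤ Γ)
    (ha : ∀ A : Finset ℤ, ∑ m ∈ A, (1 + |(m : ℝ)|) ^ 8 * ‖a m‖ ^ 2 ≤ Γ ^ 2)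
    {g : ℝ → ℂ} (hc : Continuous g) (hp : Function.Periodic g (2 * π)) {c : ℤ → ℂ}
    (hcg : ∀ m, blocks_co g m = c m) (h1 : ∀ m, ‖c m‖ ≤ (1 + |(m : ℝ)|) ^ 3 * ‖a m‖)
    (h2 : ∀ m : ℤ, 1 ≤ |(m : ℝ)| → ‖c m‖ ≤ |(m : ℝ)| ^ 2 * ‖a m‖) {N : ℕ} (hN : 1 ≤ N) (x : ℝ) :
    ‖tp c (Finset.Icc (-(N : ℤ)) N) x - g x‖ ≤ 4 * Γ / N := by
  have hN' : (1 : ℝ) ≤ N := by exact_mod_cast hN
  have hco : blocks_co g = c := funext hcg
  have hs : Summable c := by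
    refine Summable.of_norm (summable_of_sum_le (c := 5 * Γ) (fun _ => norm_nonneg _) fun A => ?_)
    obtain ⟨M, hM⟩ := (Filter.tendsto_atTop.1 (Finset.tendsto_Icc_neg (R := ℤ)) A).exists
    have h := cut_abs hΓ ha (N := M) (r := 0) (by simp) h1
    simp only [mul_zero, Real.exp_zero, mul_one] at h
    exact (Finset.sum_le_sum_of_subset_of_nonneg hM fun _ _ _ => norm_nonneg _).trans h
  have hsum := blocks_hasSum hc hp (hco ▸ hs) x
  rw [hco] at hsum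
  have hlim : Filter.Tendsto (fun M : ℕ => ‖tp c (Finset.Icc (-(N : ℤ)) N) x -
      tp c (Finset.Icc (-(M : ℤ)) M) x‖) Filter.atTop
      (nhds ‖tp c (Finset.Icc (-(N : ℤ)) N) x - g x‖) :=
    (tendsto_const_nhds.sub (hsum.comp (Finset.tendsto_Icc_neg (R := ℤ)))).norm
  refine le_of_tendsto hlim (Filter.eventually_atTop.2 ⟨N, fun M hM => ?_⟩)
  have hsub : Finset.Icc (-(N : ℤ)) N ⊆ Finset.Icc (-(M : ℤ)) M := by
    apply Finset.Icc_subset_Icc <;> omega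
  have hb := blk_abs hΓ ha (N := N) (N' := M) (q := 2) (r := 0) (c := c) hN (by norm_num)
    (by simp) (fun m hm => by
      have h3 := h2 m (hN'.trans (blocks_mem_blk hm).1.le)
      calc ‖c m‖ * |(m : ℝ)| ^ 2 ≤ (|(m : ℝ)| ^ 2 * ‖a m‖) * |(m : ℝ)| ^ 2 := by gcongr
        _ = _ := by ring)
  simp only [mul_zero, Real.exp_zero, mul_one] at hb
  have hsq : Real.sqrt N ≤ N := by
    apply Real.sqrt_le_iff.2 ⟨by positivity, by nlinarith⟩
  rw [norm_sub_rev, tp, tp, ← Finset.sum_sdiff_eq_sub hsub]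
  calc _ ≤ ∑ m ∈ blk N M, ‖c m * exp (I * m * x)‖ := norm_sum_le _ _
    _ = ∑ m ∈ blk N M, ‖c m‖ := by
        refine Finset.sum_congr rfl fun m _ => ?_
        rw [norm_mul, show I * m * x = ((m * x : ℝ) : ℂ) * I by push_cast; ring,
          norm_exp_ofReal_mul_I, mul_one]
    _ ≤ 4 * Γ * Real.sqrt N / (N : ℝ) ^ 2 := hb
    _ ≤ 4 * Γ * N / (N : ℝ) ^ 2 := by gcongr
    _ = 4 * Γ / N := by field_simp

theorem exists_data {H : ℝ → ℝ} (hH : ContDiff ℝ 4 H) (hp : Function.Periodic H (2 * π))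
    (hpos : ∀ x, 0 < deriv (deriv H) x + H x) :
    ∃ (Γ : ℝ) (a : ℤ → ℂ), 1 ≤ Γ ∧ (∀ m, a (-m) = starRingEnd ℂ (a m)) ∧
      (∀ A : Finset ℤ, ∑ m ∈ A, (1 + |(m : ℝ)|) ^ 8 * ‖a m‖ ^ 2 ≤ Γ ^ 2) ∧
      (∀ x, 2 / Γ ≤ deriv (deriv H) x + H x ∧ deriv (deriv H) x + H x ≤ Γ / 2) ∧
      ∀ N : ℕ, 1 ≤ N → ∀ x : ℝ,
        ‖tp a (Finset.Icc (-(N : ℤ)) N) x - H x‖ ≤ 2 * Γ / N ∧
        ‖tp (fun m => I * m * a m) (Finset.Icc (-(N : ℤ)) N) x - deriv H x‖ ≤ 2 * Γ / N ∧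
        ‖tp (fun m => (1 - m ^ 2) * a m) (Finset.Icc (-(N : ℤ)) N) x -
          (deriv (deriv H) x + H x : ℝ)‖ ≤ 2 * Γ / N := by
  have h1 : ContDiff ℝ 3 (deriv H) := ContDiff.deriv' (n := 3) hH
  have h2 : ContDiff ℝ 2 (deriv (deriv H)) := ContDiff.deriv' (n := 2) h1
  have h3 : ContDiff ℝ 1 (deriv (deriv (deriv H))) := ContDiff.deriv' (n := 1) h2
  have h4 : Continuous (deriv (deriv (deriv (deriv H)))) := h3.continuous_deriv_one
  have p1 := blocks_periodic_deriv hp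
  have p2 := blocks_periodic_deriv p1
  have p3 := blocks_periodic_deriv p2
  have p4 := blocks_periodic_deriv p3
  have cC : ∀ {f : ℝ → ℝ}, Continuous f → Continuous fun x => (f x : ℂ) :=
    fun hf => continuous_ofReal.comp hf
  have pC : ∀ {f : ℝ → ℝ}, Function.Periodic f (2 * π) →
      Function.Periodic (fun x => (f x : ℂ)) (2 * π) := fun hf x => by simp only [hf x]
  have step : ∀ {f : ℝ → ℝ}, Differentiable ℝ f → Continuous (deriv f) →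
      Function.Periodic f (2 * π) → ∀ m, blocks_co (fun x => ((deriv f x : ℝ) : ℂ)) m =
        I * m * blocks_co (fun x => (f x : ℂ)) m := fun hf hc hp m =>
    blocks_co_deriv (fun x => (hf x).hasDerivAt.ofReal_comp) (cC hc) (pC hp) m
  set a : ℤ → ℂ := blocks_co fun x => (H x : ℂ) with ha_def
  have e1 := step (hH.differentiable (by norm_num)) h1.continuous hp
  have e2 := step (h1.differentiable (by norm_num)) h2.continuous p1
  have e3 := step (h2.differentiable (by norm_num)) h3.continuous p2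
  have e4 := step (h3.differentiable (by norm_num)) h4 p3
  have s0 : Summable fun m => ‖a m‖ ^ 2 := blocks_summable_sq (cC hH.continuous) (pC hp)
  have s4 : Summable fun m : ℤ => |(m : ℝ)| ^ 8 * ‖a m‖ ^ 2 := by
    refine (blocks_summable_sq (cC h4) (pC p4)).congr fun m => ?_
    rw [e4, e3, e2, e1]
    simp only [norm_mul, norm_I, one_mul, norm_intCast]
    ring
  have s8 : Summable fun m : ℤ => (1 + |(m : ℝ)|) ^ 8 * ‖a m‖ ^ 2 := by
    refine Summable.of_nonneg_of_le (fun m => by positivity) (fun m => ?_)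
      ((s0.add s4).mul_left 128)
    have h := add_pow_le (zero_le_one (α := ℝ)) (abs_nonneg (m : ℝ)) 8
    calc (1 + |(m : ℝ)|) ^ 8 * ‖a m‖ ^ 2 ≤ (2 ^ (8 - 1) * (1 ^ 8 + |(m : ℝ)| ^ 8)) * ‖a m‖ ^ 2 := by
          gcongr
      _ = _ := by ring
  set S : ℝ := ∑' m : ℤ, (1 + |(m : ℝ)|) ^ 8 * ‖a m‖ ^ 2 with hS
  have hS0 : 0 ≤ S := tsum_nonneg fun m => by positivity
  have hA : ∀ A : Finset ℤ, ∑ m ∈ A, (1 + |(m : ℝ)|) ^ 8 * ‖a m‖ ^ 2 ≤ (S + 1) ^ 2 := fun A =>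
    (s8.sum_le_tsum A fun m _ => by positivity).trans (by nlinarith)
  have hρc : Continuous fun x => deriv (deriv H) x + H x := h2.continuous.add hH.continuous
  have hρp : Function.Periodic (fun x => deriv (deriv H) x + H x) (2 * π) := p2.add hp
  have hK : IsCompact (range fun x => deriv (deriv H) x + H x) :=
    hρp.compact_of_continuous (by positivity) hρc
  obtain ⟨lo, ⟨x0, rfl⟩, hlo⟩ := hK.exists_isLeast (range_nonempty _)
  obtain ⟨hi, ⟨x1, rfl⟩, hhi⟩ := hK.exists_isGreatest (range_nonempty _)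
  have hlo0 := hpos x0
  have hhi0 := hpos x1
  set lo := deriv (deriv H) x0 + H x0
  set hi := deriv (deriv H) x1 + H x1
  have hlo' : 0 < 2 / lo := by positivity
  have hS1 : 0 ≤ S + 1 := by linarith
  refine ⟨2 * (S + 1) + 2 / lo + 2 * hi, a, by linarith, blocks_co_conj H, fun A => ?_,
    fun x => ⟨?_, ?_⟩, fun N hN x => ?_⟩
  · exact (hA A).trans (pow_le_pow_left₀ hS1 (by linarith) 2)
  · have h5 : lo ≤ deriv (deriv H) x + H x := hlo ⟨x, rfl⟩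
    refine le_trans ?_ h5
    rw [div_le_iff₀ (by linarith)]
    have : lo * (2 / lo) = 2 := by field_simp
    nlinarith [mul_pos hlo0 hhi0, mul_nonneg hlo0.le hS1]
  · have h5 : deriv (deriv H) x + H x ≤ hi := hhi ⟨x, rfl⟩
    linarith
  · have hN' : (0 : ℝ) < N := by exact_mod_cast hN
    have hle : 4 * (S + 1) / N ≤ 2 * (2 * (S + 1) + 2 / lo + 2 * hi) / N :=
      div_le_div_of_nonneg_right (by linarith) hN'.le
    have w1 : ∀ m : ℤ, (1 : ℝ) ≤ (1 + |(m : ℝ)|) ^ 3 := fun m =>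
      one_le_pow₀ (by linarith [abs_nonneg (m : ℝ)])
    refine ⟨le_trans ?_ hle, le_trans ?_ hle, le_trans ?_ hle⟩
    · refine blocks_tail hS1 hA (cC hH.continuous) (pC hp) (fun m => rfl) (fun m => ?_)
        (fun m hm => ?_) hN x
      · exact le_mul_of_one_le_left (norm_nonneg _) (w1 m)
      · exact le_mul_of_one_le_left (norm_nonneg _) (one_le_pow₀ hm)
    · refine blocks_tail hS1 hA (cC h1.continuous) (pC p1) e1 (fun m => ?_)
        (fun m hm => ?_) hN x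
      · simp only [norm_mul, norm_I, one_mul, norm_intCast]
        gcongr
        nlinarith [abs_nonneg (m : ℝ), pow_nonneg (abs_nonneg (m : ℝ)) 2,
          pow_nonneg (abs_nonneg (m : ℝ)) 3]
      · simp only [norm_mul, norm_I, one_mul, norm_intCast]
        gcongr
        nlinarith
    · have hn : ∀ m : ℤ, ‖(1 - (m : ℂ) ^ 2)‖ = |1 - |(m : ℝ)| ^ 2| := fun m => by
        rw [sq_abs, show (1 - (m : ℂ) ^ 2) = ((1 - (m : ℝ) ^ 2 : ℝ) : ℂ) by push_cast; ring,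
          norm_real, Real.norm_eq_abs]
      refine blocks_tail hS1 hA (cC hρc) (pC hρp) (fun m => ?_) (fun m => ?_)
        (fun m hm => ?_) hN x
      · have h5 := blocks_co_add (cC h2.continuous) (cC hH.continuous) m
        simp only [← ofReal_add] at h5
        rw [h5, e2, e1]
        linear_combination (m ^ 2 * a m) * I_mul_I
      · rw [norm_mul, hn]
        gcongr
        rw [abs_le]
        constructor <;> nlinarith [abs_nonneg (m : ℝ), pow_nonneg (abs_nonneg (m : ℝ)) 2,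
          pow_nonneg (abs_nonneg (m : ℝ)) 3]
      · rw [norm_mul, hn]
        gcongr
        rw [abs_le]
        constructor <;> nlinarith

end Pool.Agent.Lib.MP_abef03_an
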