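import Mathlib

/-! Convex billiards, caustics and Lazutkin's property (L). The plane is `ℂ`. -/

namespace Pool.Agent.Lib.MP_abef03_an

open Set MeasureTheory

/-- A bounded domain `D` whose boundary is a simple closed curve of class `C^k` and length `L`,
parametrised by arclength, with strictly positive signed curvature (so counterclockwise). -/
structure Table (k : ℕ) where
  D : Set ℂ
  L : ℝ
  γ : ℝ → ℂ
  isOpen : IsOpen D
  connected : IsConnected D
  bounded : Bornology.IsBounded D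
  length_pos : 0 < L
  smooth : ContDiff ℝ k γ
  periodic : Function.Periodic γ L
  simple : InjOn γ (Ico 0 L)
  boundary : frontier D = range γ
  unit_speed : ∀ s, ‖deriv γ s‖ = 1
  curvature_pos : ∀ s, 0 < (starRingEnd ℂ (deriv γ s) * deriv (deriv γ) s).im

/-- A closed convex curve of class `C^1`. -/
structure ConvexCurve where
  c : ℝ → ℂ
  smooth : ContDiff ℝ 1 c
  periodic : Function.Periodic c 1
  simple : InjOn c (Ico 0 1)
  regular : ∀ τ, deriv c τ ≠ 0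
  convex : ∃ K : Set ℂ, IsOpen K ∧ K.Nonempty ∧ Bornology.IsBounded K ∧ Convex ℝ K ∧
    frontier K = range c

namespace Table

variable {k : ℕ} (T : Table k)

/-- The phase space `ℝ/Lℤ × (0, π)`. -/
abbrev Phase : Type := AddCircle T.L × Ioo (0 : ℝ) Real.pi

/-- The unit vector at `γ s` making the angle `θ` with the counterclockwise tangent. -/
noncomputable def dir (s θ : ℝ) : ℂ := deriv T.γ s * Complex.exp (θ * Complex.I)

/-- The graph of the billiard map: `q` is the next impact point and next outgoing angle of `p`. -/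
def Bounce (p q : T.Phase) : Prop :=
  ∃ s s' t : ℝ, (s : AddCircle T.L) = p.1 ∧ (s' : AddCircle T.L) = q.1 ∧ 0 < t ∧
    T.γ s' = T.γ s + t * T.dir s p.2 ∧ (∀ r ∈ Ioo (0 : ℝ) t, T.γ s + r * T.dir s p.2 ∈ T.D) ∧
    T.dir s p.2 = T.dir s' (-q.2)

/-- The outgoing chord of `p` is tangent to `Γ`. -/
def Tangent (Γ : ConvexCurve) (p : T.Phase) : Prop :=
  ∃ s τ r : ℝ, (s : AddCircle T.L) = p.1 ∧ 0 < r ∧ Γ.c τ = T.γ s + r * T.dir s p.2 ∧
    (starRingEnd ℂ (T.dir s p.2) * deriv Γ.c τ).im = 0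

/-- `Γ` lies on the left of the outgoing chord of `p`. -/
def OnLeft (Γ : ConvexCurve) (p : T.Phase) : Prop :=
  ∀ s τ : ℝ, (s : AddCircle T.L) = p.1 → 0 ≤ (starRingEnd ℂ (T.dir s p.2) * (Γ.c τ - T.γ s)).im

/-- `Γ` is a caustic. -/
def IsCaustic (Γ : ConvexCurve) : Prop :=
  range Γ.c ⊆ T.D ∧ ∀ p q, T.Bounce p q → (T.Tangent Γ p ↔ T.Tangent Γ q)

/-- The set `Γ*` of phase points whose outgoing chord is tangent to `Γ` with `Γ` on its left. -/
def Star (Γ : ConvexCurve) : Set T.Phase := {p | T.Tangent Γ p ∧ T.OnLeft Γ p}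

/-- Property (L). -/
def PropertyL : Prop :=
  ∃ ε₀ > (0 : ℝ), ∃ E : Set ℝ, E ⊆ Ioo 0 ε₀ ∧
    IsClosed ((↑) ⁻¹' E : Set (Ioo (0 : ℝ) ε₀)) ∧
    (∀ δ > (0 : ℝ), 0 < volume (E ∩ Ioo 0 δ)) ∧
    ∃ Γ : E → ConvexCurve,
      (∀ ω : E, T.IsCaustic (Γ ω) ∧ ∃ e : AddCircle T.L ≃ₜ T.Star (Γ ω),
        ∀ x, T.Bounce (e x) (e (x + ((ω : ℝ) * T.L : ℝ)))) ∧
      ∀ ε > (0 : ℝ), ∃ δ > (0 : ℝ), ∀ ω : E, (ω : ℝ) < δ →
        Metric.hausdorffDist (range (Γ ω).c) (frontier T.D) < ε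

end Table

end Pool.Agent.Lib.MP_abef03_an
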