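import Mathlib
import Pool.Agent.Lib.MP_abef03_an.Defs

/-! The billiard relation is deterministic and reversible. -/

namespace Pool.Agent.Lib.MP_abef03_an

open Complex Set
open scoped Real

theorem caustic_coe_iff {L s s' : ℝ} :
    (s : AddCircle L) = (s' : AddCircle L) ↔ ∃ n : ℤ, s' = s + n * L := by
  rw [QuotientAddGroup.eq, AddSubgroup.mem_zmultiples_iff]
  constructor
  · rintro ⟨n, hn⟩
    refine ⟨n, ?_⟩
    rw [zsmul_eq_mul] at hn
    linarith
  · rintro ⟨n, hn⟩
    refine ⟨n, ?_⟩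
    rw [zsmul_eq_mul]
    linarith

theorem caustic_exp_inj {a b : ℝ} (hab : |a - b| < 2 * π) (h : exp (a * I) = exp (b * I)) :
    a = b := by
  obtain ⟨n, hn⟩ := Complex.exp_eq_exp_iff_exists_int.1 h
  have h1 : a = b + n * (2 * π) := by
    have h2 := congrArg Complex.im hn
    simpa using h2
  have h3 : |(n : ℝ)| * (2 * π) < 1 * (2 * π) := by
    have : a - b = n * (2 * π) := by linarith
    rw [this, abs_mul, abs_of_pos Real.two_pi_pos] at hab
    linarith
  have h4 : |(n : ℝ)| < 1 := lt_of_mul_lt_mul_right h3 Real.two_pi_pos.le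
  have h5 : |n| < 1 := by exact_mod_cast h4
  have h6 : n = 0 := Int.abs_lt_one_iff.1 h5
  rw [h6] at h1
  simpa using h1

namespace Table

variable {k : ℕ} (T : Table k)

theorem caustic_gamma_eq {s s' : ℝ} (h : (s : AddCircle T.L) = (s' : AddCircle T.L)) :
    T.γ s = T.γ s' := by
  obtain ⟨n, rfl⟩ := caustic_coe_iff.1 h
  exact (T.periodic.int_mul n s).symm

theorem caustic_deriv_periodic : Function.Periodic (deriv T.γ) T.L := by
  intro s
  have h : (fun x => T.γ (x + T.L)) = T.γ := funext T.periodic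
  rw [← deriv_comp_add_const, h]

theorem caustic_dir_eq {s s' : ℝ} (h : (s : AddCircle T.L) = (s' : AddCircle T.L)) (θ : ℝ) :
    T.dir s θ = T.dir s' θ := by
  obtain ⟨n, rfl⟩ := caustic_coe_iff.1 h
  unfold dir
  rw [T.caustic_deriv_periodic.int_mul n s]

theorem caustic_coe_eq {s s' : ℝ} (h : T.γ s = T.γ s') :
    (s : AddCircle T.L) = (s' : AddCircle T.L) := by
  have hL := T.length_pos
  have key : ∀ x : ℝ, ∃ y ∈ Ico 0 T.L, (x : AddCircle T.L) = (y : AddCircle T.L) := by
    intro x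
    refine ⟨toIcoMod hL 0 x, by simpa using toIcoMod_mem_Ico hL 0 x, ?_⟩
    refine caustic_coe_iff.2 ⟨-toIcoDiv hL 0 x, ?_⟩
    have := toIcoMod_add_toIcoDiv_zsmul hL 0 x
    rw [zsmul_eq_mul] at this
    push_cast
    linarith
  obtain ⟨y, hy, hsy⟩ := key s
  obtain ⟨y', hy', hsy'⟩ := key s'
  have : y = y' := by
    apply T.simple hy hy'
    rw [← T.caustic_gamma_eq hsy, ← T.caustic_gamma_eq hsy', h]
  rw [hsy, hsy', this]

theorem caustic_notMem (s : ℝ) : T.γ s ∉ T.D := by
  have h : T.γ s ∈ frontier T.D := by rw [T.boundary]; exact ⟨s, rfl⟩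
  rw [T.isOpen.frontier_eq] at h
  exact h.2

theorem caustic_deriv_ne (s : ℝ) : deriv T.γ s ≠ 0 := by
  intro h
  have := T.unit_speed s
  rw [h] at this
  simp at this

theorem caustic_norm_dir (s θ : ℝ) : ‖T.dir s θ‖ = 1 := by
  unfold dir
  rw [norm_mul, T.unit_speed, Complex.norm_exp_ofReal_mul_I, one_mul]

theorem caustic_dir_inj {s θ θ' : ℝ} (hθ : |θ - θ'| < 2 * π) (h : T.dir s θ = T.dir s θ') :
    θ = θ' :=
  caustic_exp_inj hθ (mul_left_cancel₀ (T.caustic_deriv_ne s) h)

theorem caustic_abs_lt (a b : Ioo (0 : ℝ) π) : |(a : ℝ) - b| < 2 * π := by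
  have h1 := a.2.1
  have h2 := a.2.2
  have h3 := b.2.1
  have h4 := b.2.2
  rw [abs_lt]
  constructor <;> linarith

theorem caustic_right_unique {p q q' : T.Phase} (h : T.Bounce p q) (h' : T.Bounce p q') :
    q = q' := by
  obtain ⟨s, s₁, t, hs, hs₁, ht, hγ, hin, hdir⟩ := h
  obtain ⟨s', s₂, t', hs', hs₂, ht', hγ', hin', hdir'⟩ := h'
  have hss : (s' : AddCircle T.L) = (s : AddCircle T.L) := hs'.trans hs.symm
  rw [T.caustic_gamma_eq hss, T.caustic_dir_eq hss] at hγ' hin'
  rw [T.caustic_dir_eq hss] at hdir'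
  have htt : t = t' := by
    rcases lt_trichotomy t t' with hlt | heq | hlt
    · exact absurd (hγ ▸ hin' t ⟨ht, hlt⟩) (T.caustic_notMem s₁)
    · exact heq
    · exact absurd (hγ' ▸ hin t' ⟨ht', hlt⟩) (T.caustic_notMem s₂)
  subst htt
  have h12 : (s₁ : AddCircle T.L) = (s₂ : AddCircle T.L) := T.caustic_coe_eq (hγ.trans hγ'.symm)
  have hd : T.dir s₂ (-q.2) = T.dir s₂ (-q'.2) := by
    rw [← hdir', hdir, T.caustic_dir_eq h12]
  have hθ : -(q.2 : ℝ) = -(q'.2 : ℝ) := by
    refine T.caustic_dir_inj ?_ hd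
    have := caustic_abs_lt q'.2 q.2
    rwa [show -(q.2 : ℝ) - -(q'.2 : ℝ) = q'.2 - q.2 by ring]
  refine Prod.ext (hs₁.symm.trans (h12.trans hs₂)) (Subtype.ext ?_)
  linarith

theorem caustic_left_unique {p p' q : T.Phase} (h : T.Bounce p q) (h' : T.Bounce p' q) :
    p = p' := by
  obtain ⟨s, s₁, t, hs, hs₁, ht, hγ, hin, hdir⟩ := h
  obtain ⟨s', s₂, t', hs', hs₂, ht', hγ', hin', hdir'⟩ := h'
  have hss : (s₂ : AddCircle T.L) = (s₁ : AddCircle T.L) := hs₂.trans hs₁.symm
  rw [T.caustic_gamma_eq hss] at hγ'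
  rw [T.caustic_dir_eq hss, ← hdir] at hdir'
  rw [hdir'] at hγ' hin'
  have htt : t = t' := by
    rcases lt_trichotomy t t' with hlt | heq | hlt
    · refine absurd ?_ (T.caustic_notMem s)
      have h1 := hin' (t' - t) ⟨by linarith, by linarith⟩
      have h2 : T.γ s' + ((t' - t : ℝ) : ℂ) * T.dir s p.2 = T.γ s := by
        push_cast
        linear_combination hγ - hγ'
      rwa [h2] at h1
    · exact heq
    · refine absurd ?_ (T.caustic_notMem s')
      have h1 := hin (t - t') ⟨by linarith, by linarith⟩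
      have h2 : T.γ s + ((t - t' : ℝ) : ℂ) * T.dir s p.2 = T.γ s' := by
        push_cast
        linear_combination hγ' - hγ
      rwa [h2] at h1
  subst htt
  have h12 : (s' : AddCircle T.L) = (s : AddCircle T.L) :=
    T.caustic_coe_eq (by linear_combination hγ - hγ')
  rw [T.caustic_dir_eq h12] at hdir'
  have hθ : (p'.2 : ℝ) = (p.2 : ℝ) := T.caustic_dir_inj (caustic_abs_lt p'.2 p.2) hdir'
  exact Prod.ext (hs.symm.trans (h12.symm.trans hs')) (Subtype.ext hθ.symm)

end Table

/-- A continuous degree-one lift is onto. -/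
theorem caustic_surj {u : ℝ → ℝ} {a b : ℝ} (hb : 0 < b) (huc : Continuous u)
    (hup : ∀ x, u (x + a) = u x + b) : Function.Surjective u := by
  have h1 : ∀ n : ℕ, ∀ x, u (x + n * a) = u x + n * b := by
    intro n
    induction n with
    | zero => intro x; simp
    | succ n ih =>
      intro x
      have := hup (x + n * a)
      rw [ih] at this
      push_cast
      rw [show x + (n + 1) * a = x + n * a + a by ring, this]
      ring
  intro y
  obtain ⟨n, hn⟩ := exists_nat_ge (|y - u 0| / b)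
  rw [div_le_iff₀ hb] at hn
  have h2 := h1 n 0
  have h3 := h1 n (-(n * a))
  rw [neg_add_cancel] at h3
  have h4 := abs_le.1 hn
  have h5 : y ∈ Icc (u (-(n * a))) (u (0 + n * a)) := ⟨by linarith [h4.1], by linarith [h4.2]⟩
  exact intermediate_value_univ _ _ huc h5

theorem caustic_int {u : ℝ → ℝ} {a b : ℝ} (hup : ∀ x, u (x + a) = u x + b) (n : ℤ) (x : ℝ) :
    u (x + n * a) = u x + n * b := by
  induction n using Int.induction_on generalizing x with
  | zero => simp
  | succ n ih =>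
    have := hup (x + ((n : ℤ) : ℝ) * a)
    rw [ih] at this
    push_cast at this ⊢
    rw [show x + (n + 1) * a = x + n * a + a by ring, this]
    ring
  | pred n ih =>
    have h1 := hup (x + ((-(n : ℤ) - 1 : ℤ) : ℝ) * a)
    have h2 := ih x
    push_cast at h1 h2 ⊢
    rw [show x + (-n - 1) * a + a = x + -n * a by ring, h2] at h1
    linarith

end Pool.Agent.Lib.MP_abef03_an
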