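import Mathlib

/-! Convex bodies given by a `C^2` support function. -/

namespace Pool.Agent.Lib.MP_abef03_an

open Complex Set
open scoped Real

/-- The open convex body with support function `h`. -/
def body (h : ℝ → ℝ) : Set ℂ := {z | ∀ φ : ℝ, (z * exp (-(φ * I))).re < h φ}

/-- The boundary point with outer normal `exp (ψ I)`. -/
noncomputable def curve (h : ℝ → ℝ) (ψ : ℝ) : ℂ := (h ψ + deriv h ψ * I) * exp (ψ * I)

/-- Support function of a strictly convex body. -/
structure Supp (h : ℝ → ℝ) : Prop where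
  smooth : ContDiff ℝ 2 h
  per : Function.Periodic h (2 * π)
  pos : ∀ x, 0 < deriv (deriv h) x + h x

variable {h : ℝ → ℝ}

theorem supp_re (z : ℂ) (φ : ℝ) :
    (z * exp (-(φ * I))).re = z.re * Real.cos φ + z.im * Real.sin φ := by
  rw [show -((φ : ℂ) * I) = ((-φ : ℝ) : ℂ) * I by push_cast; ring, mul_re, exp_ofReal_mul_I_re,
    exp_ofReal_mul_I_im, Real.cos_neg, Real.sin_neg]
  ring

theorem Supp.hasDerivAt_one (hh : Supp h) (x : ℝ) : HasDerivAt h (deriv h x) x :=
  (hh.smooth.differentiable (by norm_num) x).hasDerivAt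

theorem Supp.hasDerivAt_two (hh : Supp h) (x : ℝ) :
    HasDerivAt (deriv h) (deriv (deriv h) x) x :=
  ((hh.smooth.differentiable_deriv_two) x).hasDerivAt

theorem Supp.hasDerivAt_curve (hh : Supp h) (ψ : ℝ) :
    HasDerivAt (curve h) ((deriv (deriv h) ψ + h ψ : ℝ) * (I * exp (ψ * I))) ψ := by
  have h1 := (hh.hasDerivAt_one ψ).ofReal_comp
  have h2 := (hh.hasDerivAt_two ψ).ofReal_comp
  have h3 : HasDerivAt (fun x : ℝ => exp (x * I)) (exp (ψ * I) * (1 * I)) ψ :=
    ((hasDerivAt_id ψ).ofReal_comp.mul_const I).cexp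
  refine ((h1.add (h2.mul_const I)).mul h3).congr_deriv ?_
  simp only [Pi.add_apply]
  push_cast
  linear_combination ((deriv h ψ : ℝ) * exp (ψ * I)) * I_mul_I

theorem Supp.deriv_periodic (hh : Supp h) : Function.Periodic (deriv h) (2 * π) := fun x => by
  rw [← deriv_comp_add_const, show (fun y => h (y + 2 * π)) = h from funext hh.per]

theorem Supp.curve_periodic (hh : Supp h) : Function.Periodic (curve h) (2 * π) := fun x => by
  simp only [curve, hh.per x, hh.deriv_periodic x]
  rw [show ((x + 2 * π : ℝ) : ℂ) * I = x * I + 2 * π * I by push_cast; ring, exp_add,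
    exp_two_pi_mul_I, mul_one]

theorem curve_re (h : ℝ → ℝ) (ψ φ : ℝ) : (curve h ψ * exp (-(φ * I))).re =
    h ψ * Real.cos (ψ - φ) - deriv h ψ * Real.sin (ψ - φ) := by
  rw [curve, mul_assoc, ← exp_add, show (ψ : ℂ) * I + -(φ * I) = ((ψ - φ : ℝ) : ℂ) * I by
    push_cast; ring, mul_re, exp_ofReal_mul_I_re, exp_ofReal_mul_I_im]
  simp

theorem curve_re_self (h : ℝ → ℝ) (ψ : ℝ) : (curve h ψ * exp (-(ψ * I))).re = h ψ := by
  rw [curve_re]
  simp

theorem Supp.curve_lt (hh : Supp h) {ψ φ : ℝ} (hne : ∀ n : ℤ, ψ ≠ φ + n * (2 * π)) :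
    (curve h ψ * exp (-(φ * I))).re < h φ := by
  set F : ℝ → ℝ := fun x => h x * Real.cos (x - φ) - deriv h x * Real.sin (x - φ) with hF
  have hd : ∀ x, HasDerivAt F (-((deriv (deriv h) x + h x) * Real.sin (x - φ))) x := fun x => by
    have a := ((hh.hasDerivAt_one x).mul ((hasDerivAt_id x).sub_const φ).cos).sub
      ((hh.hasDerivAt_two x).mul ((hasDerivAt_id x).sub_const φ).sin)
    refine a.congr_deriv ?_
    simp only [id]
    ring
  have hc : Continuous F := continuous_iff_continuousAt.2 fun x => (hd x).continuousAt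
  have anti : StrictAntiOn F (Icc φ (φ + π)) := by
    refine strictAntiOn_of_deriv_neg (convex_Icc _ _) hc.continuousOn fun x hx => ?_
    rw [interior_Icc] at hx
    rw [(hd x).deriv, neg_lt_zero]
    exact mul_pos (hh.pos x) (Real.sin_pos_of_pos_of_lt_pi (by linarith [hx.1]) (by linarith [hx.2]))
  have mono : StrictMonoOn F (Icc (φ - π) φ) := by
    refine strictMonoOn_of_deriv_pos (convex_Icc _ _) hc.continuousOn fun x hx => ?_
    rw [interior_Icc] at hx
    rw [(hd x).deriv, neg_pos]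
    exact mul_neg_of_pos_of_neg (hh.pos x)
      (Real.sin_neg_of_neg_of_neg_pi_lt (by linarith [hx.2]) (by linarith [hx.1]))
  have hp := Real.two_pi_pos
  have hpi := Real.pi_pos
  set x := toIocMod hp (φ - π) ψ with hx
  have hm := toIocMod_mem_Ioc hp (φ - π) ψ
  have he : x + toIocDiv hp (φ - π) ψ • (2 * π) = ψ := toIocMod_add_toIocDiv_zsmul hp _ _
  have hcur : curve h ψ = curve h x := by
    rw [← he]
    exact hh.curve_periodic.zsmul _ x
  have hxφ : x ≠ φ := fun e => hne (toIocDiv hp (φ - π) ψ) (by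
    rw [← zsmul_eq_mul]
    linarith)
  have hFφ : F φ = h φ := by simp [hF]
  rw [hcur, curve_re, ← hFφ]
  rw [← hx] at hm
  rcases lt_or_gt_of_ne hxφ with hlt | hgt
  · exact mono ⟨hm.1.le, hlt.le⟩ ⟨by linarith, le_rfl⟩ hlt
  · exact anti ⟨le_rfl, by linarith⟩ ⟨hgt.le, by linarith [hm.2]⟩ hgt

theorem Supp.curve_le (hh : Supp h) (ψ φ : ℝ) : (curve h ψ * exp (-(φ * I))).re ≤ h φ := by
  by_cases hne : ∀ n : ℤ, ψ ≠ φ + n * (2 * π)
  · exact (hh.curve_lt hne).le
  · push Not at hne
    obtain ⟨n, rfl⟩ := hne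
    rw [hh.curve_periodic.int_mul n φ, curve_re_self]

theorem Supp.injOn_curve (hh : Supp h) : InjOn (curve h) (Ico 0 (2 * π)) := by
  intro a ha b hb e
  by_contra hab
  have := hh.curve_lt (ψ := a) (φ := b) fun n hn => by
    have hp := Real.two_pi_pos
    have h1 : (n : ℝ) < 1 := by nlinarith [ha.2, hb.1]
    have h2 : (-1 : ℝ) < n := by nlinarith [ha.1, hb.2]
    have h3 : n = 0 := by
      have : n < 1 := by exact_mod_cast h1
      have : -1 < n := by exact_mod_cast h2
      omega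
    exact hab (by simpa [h3] using hn)
  rw [e, curve_re_self] at this
  exact lt_irrefl _ this

theorem supp_re_le (z : ℂ) (φ : ℝ) : (z * exp (-(φ * I))).re ≤ ‖z‖ := by
  refine (re_le_norm _).trans ?_
  rw [norm_mul, show -((φ : ℂ) * I) = ((-φ : ℝ) : ℂ) * I by push_cast; ring,
    norm_exp_ofReal_mul_I, mul_one]

theorem Supp.isOpen_body (hh : Supp h) : IsOpen (body h) := by
  refine Metric.isOpen_iff.2 fun z hz => ?_
  set G : ℝ → ℝ := fun φ => h φ - (z * exp (-(φ * I))).re with hG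
  have hc : Continuous G := by
    have := hh.smooth.continuous
    simp only [hG]
    fun_prop
  have hp : Function.Periodic G (2 * π) := fun x => by
    simp only [hG, supp_re, hh.per x, Real.cos_add_two_pi, Real.sin_add_two_pi]
  obtain ⟨x, -, hx⟩ := (isCompact_Icc (a := 0) (b := 0 + 2 * π)).exists_isMinOn
    ⟨0, le_rfl, by linarith [Real.two_pi_pos]⟩ hc.continuousOn
  refine ⟨G x, sub_pos.2 (hz x), fun w hw φ => ?_⟩
  obtain ⟨y, hy, e⟩ := hp.exists_mem_Ico Real.two_pi_pos φ 0
  have h1 : G x ≤ G φ := by rw [e]; exact hx (Ico_subset_Icc_self hy)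
  have h2 := supp_re_le (w - z) φ
  rw [Metric.mem_ball, dist_eq_norm] at hw
  rw [sub_mul, sub_re] at h2
  simp only [hG] at h1 hw
  linarith

theorem convex_body (h : ℝ → ℝ) : Convex ℝ (body h) := by
  intro z hz w hw a b ha hb hab φ
  have h1 := hz φ
  have h2 := hw φ
  simp only [supp_re, add_re, add_im, smul_re, smul_im, smul_eq_mul] at h1 h2 ⊢
  have := (convex_Iio (𝕜 := ℝ) (h φ)) h1 h2 ha hb hab
  simp only [smul_eq_mul, mem_Iio] at this
  linarith

theorem Supp.isBounded_body (hh : Supp h) : Bornology.IsBounded (body h) := by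
  refine isBounded_iff_forall_norm_le.2
    ⟨|h 0| + |h π| + |h (π / 2)| + |h (-(π / 2))|, fun z hz => ?_⟩
  have h1 := hz 0
  have h2 := hz π
  have h3 := hz (π / 2)
  have h4 := hz (-(π / 2))
  simp only [supp_re, Real.cos_zero, Real.sin_zero, Real.cos_pi, Real.sin_pi, Real.cos_neg,
    Real.sin_neg, Real.cos_pi_div_two, Real.sin_pi_div_two] at h1 h2 h3 h4
  have a1 : |z.re| ≤ |h 0| + |h π| := abs_le.2 ⟨by linarith [le_abs_self (h π), abs_nonneg (h 0)],
    by linarith [le_abs_self (h 0), abs_nonneg (h π)]⟩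
  have a2 : |z.im| ≤ |h (π / 2)| + |h (-(π / 2))| :=
    abs_le.2 ⟨by linarith [le_abs_self (h (-(π / 2))), abs_nonneg (h (π / 2))],
      by linarith [le_abs_self (h (π / 2)), abs_nonneg (h (-(π / 2)))]⟩
  linarith [norm_le_abs_re_add_abs_im z]

theorem Supp.eq_curve (hh : Supp h) {z : ℂ} (hz : ∀ ψ : ℝ, (z * exp (-(ψ * I))).re ≤ h ψ) {φ : ℝ}
    (he : (z * exp (-(φ * I))).re = h φ) : z = curve h φ := by
  simp only [supp_re] at hz he
  have hd : HasDerivAt (fun ψ => h ψ - (z.re * Real.cos ψ + z.im * Real.sin ψ))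
      (deriv h φ - (z.re * -Real.sin φ + z.im * Real.cos φ)) φ :=
    (hh.hasDerivAt_one φ).sub (((Real.hasDerivAt_cos φ).const_mul _).add
      ((Real.hasDerivAt_sin φ).const_mul _))
  have hm : IsLocalMin (fun ψ => h ψ - (z.re * Real.cos ψ + z.im * Real.sin ψ)) φ :=
    Filter.Eventually.of_forall fun ψ => by
      simp only
      linarith [hz ψ]
  have h0 := hm.hasDerivAt_eq_zero hd
  have h1 : deriv h φ = z.re * -Real.sin φ + z.im * Real.cos φ := by linarith
  have hs := Real.sin_sq_add_cos_sq φ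
  apply Complex.ext
  · rw [curve, mul_re, exp_ofReal_mul_I_re, exp_ofReal_mul_I_im, h1, ← he]
    simp only [add_re, add_im, mul_re, mul_im, ofReal_re, ofReal_im, I_re, I_im]
    linear_combination (-z.re) * hs
  · rw [curve, mul_im, exp_ofReal_mul_I_re, exp_ofReal_mul_I_im, h1, ← he]
    simp only [add_re, add_im, mul_re, mul_im, ofReal_re, ofReal_im, I_re, I_im]
    linear_combination (-z.im) * hs

theorem Supp.combo_mem (hh : Supp h) {p q : ℂ} (hp : p ∈ range (curve h))
    (hq : q ∈ range (curve h)) (hne : p ≠ q) {a b : ℝ} (ha : 0 < a) (hb : 0 < b)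
    (hab : a + b = 1) : a * p + b * q ∈ body h := by
  intro φ
  have lp : ∀ ψ : ℝ, (p * exp (-(ψ * I))).re ≤ h ψ := by
    obtain ⟨x, rfl⟩ := hp
    exact hh.curve_le x
  have lq : ∀ ψ : ℝ, (q * exp (-(ψ * I))).re ≤ h ψ := by
    obtain ⟨x, rfl⟩ := hq
    exact hh.curve_le x
  rw [add_mul, add_re, mul_assoc, mul_assoc, re_ofReal_mul, re_ofReal_mul]
  have e : h φ = a * h φ + b * h φ := by rw [← add_mul, hab, one_mul]
  rcases (lp φ).lt_or_eq with h1 | h1
  · nlinarith [lq φ]
  · rcases (lq φ).lt_or_eq with h2 | h2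
    · nlinarith
    · exact absurd ((hh.eq_curve lp h1).trans (hh.eq_curve lq h2).symm) hne

theorem Supp.nonempty_body (hh : Supp h) : (body h).Nonempty := by
  have hpi := Real.pi_pos
  refine ⟨_, hh.combo_mem (a := 1 / 2) (b := 1 / 2) ⟨0, rfl⟩ ⟨π, rfl⟩ (fun e => ?_) (by norm_num)
    (by norm_num) (by norm_num)⟩
  have := hh.injOn_curve ⟨le_rfl, by linarith⟩ ⟨hpi.le, by linarith⟩ e
  linarith

theorem Supp.closure_body (hh : Supp h) :
    closure (body h) = {z | ∀ φ : ℝ, (z * exp (-(φ * I))).re ≤ h φ} := by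
  refine Subset.antisymm (closure_minimal (fun z hz φ => (hz φ).le) ?_) fun z hz => ?_
  · rw [ofPred_forall]
    exact isClosed_iInter fun φ => isClosed_le (by fun_prop) continuous_const
  · obtain ⟨w, hw⟩ := hh.nonempty_body
    have ht : Filter.Tendsto (fun t : ℝ => z + t * (w - z)) (nhdsWithin 0 (Ioi 0)) (nhds z) := by
      have : Continuous fun t : ℝ => z + t * (w - z) := by fun_prop
      simpa using (this.tendsto 0).mono_left nhdsWithin_le_nhds
    refine mem_closure_of_tendsto ht ?_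
    filter_upwards [Ioo_mem_nhdsGT (zero_lt_one' ℝ)] with t ht φ
    have h1 := hz φ
    have h2 := hw φ
    rw [add_mul, add_re, mul_assoc, re_ofReal_mul, sub_mul, sub_re]
    nlinarith [ht.1, ht.2]

theorem Supp.frontier_body (hh : Supp h) : frontier (body h) = range (curve h) := by
  rw [hh.isOpen_body.frontier_eq, hh.closure_body]
  ext z
  constructor
  · rintro ⟨h1, h2⟩
    simp only [body, mem_ofPred_eq, not_forall, not_lt] at h1 h2
    obtain ⟨φ, hφ⟩ := h2
    exact ⟨φ, (hh.eq_curve h1 ((h1 φ).antisymm hφ)).symm⟩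
  · rintro ⟨ψ, rfl⟩
    exact ⟨hh.curve_le ψ, fun h2 => (h2 ψ).ne (curve_re_self h ψ)⟩

/-- A bounded domain whose boundary is that of the body is the body. -/
theorem Supp.eq_body (hh : Supp h) {D : Set ℂ} (ho : IsOpen D) (hc : IsConnected D)
    (hb : Bornology.IsBounded D) (hf : frontier D = range (curve h)) : D = body h := by
  have key : ∀ S : Set ℂ, IsPreconnected S → (S ∩ D).Nonempty → Disjoint S (range (curve h)) →
      S ⊆ D := fun S hS hn hd => by
    refine hS.subset_of_closure_inter_subset ho hn fun z hz => ?_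
    by_contra hzD
    refine disjoint_left.1 hd hz.2 ?_
    rw [← hf, ho.frontier_eq]
    exact ⟨hz.1, hzD⟩
  have hD : D ⊆ closure (body h) := fun z hz => by
    by_contra hn
    rw [hh.closure_body] at hn
    simp only [mem_ofPred_eq, not_forall, not_le] at hn
    obtain ⟨φ, hφ⟩ := hn
    have hre : ∀ t : ℝ, ((z + t * exp (φ * I)) * exp (-(φ * I))).re
        = (z * exp (-(φ * I))).re + t := fun t => by
      rw [add_mul, add_re, mul_assoc, ← exp_add, add_neg_cancel, exp_zero, mul_one, ofReal_re]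
    have hS := key ((fun t : ℝ => z + t * exp (φ * I)) '' Ici 0)
      (isPreconnected_Ici.image _ (by fun_prop)) ⟨z, ⟨0, self_mem_Ici, by simp⟩, hz⟩ (by
        refine disjoint_left.2 ?_
        rintro _ ⟨t, ht, rfl⟩ ⟨ψ, e⟩
        have h1 := hh.curve_le ψ φ
        simp only at e
        rw [e, hre] at h1
        linarith [mem_Ici.1 ht])
    obtain ⟨M, hM⟩ := isBounded_iff_forall_norm_le.1 hb
    have h1 := hM _ (hS ⟨M + ‖z‖ + 1, ?_, rfl⟩)
    · have h2 := supp_re_le (z + (M + ‖z‖ + 1 : ℝ) * exp (φ * I)) φ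
      have h3 := supp_re_le (-z) φ
      rw [hre] at h2
      rw [neg_mul, neg_re, norm_neg] at h3
      simp only at h1
      linarith
    · have := hM z hz
      exact mem_Ici.2 (by linarith [norm_nonneg z])
  have hD' : D ⊆ body h := fun z hz => by
    by_contra hn
    have : z ∈ frontier D := by
      rw [hf, ← hh.frontier_body, hh.isOpen_body.frontier_eq]
      exact ⟨hD hz, hn⟩
    rw [ho.frontier_eq] at this
    exact this.2 hz
  refine hD'.antisymm (key _ (convex_body h).isPreconnected ?_ ?_)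
  · obtain ⟨z, hz⟩ := hc.nonempty
    exact ⟨z, hD' hz, hz⟩
  · rw [← hh.frontier_body, hh.isOpen_body.frontier_eq]
    exact disjoint_sdiff_right

/-- A line meets the boundary in at most two points. -/
theorem Supp.not_three (hh : Supp h) {a v : ℂ} (hv : v ≠ 0) {r₁ r₂ r₃ : ℝ} (h12 : r₁ < r₂)
    (h23 : r₂ < r₃) (h1 : a + r₁ * v ∈ range (curve h)) (h3 : a + r₃ * v ∈ range (curve h)) :
    a + r₂ * v ∈ body h := by
  have hd : 0 < r₃ - r₁ := by linarith
  have := hh.combo_mem h1 h3 (fun e => by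
    have : (r₁ : ℂ) = r₃ := mul_right_cancel₀ hv (add_left_cancel e)
    have : r₁ = r₃ := by exact_mod_cast this
    linarith) (a := (r₃ - r₂) / (r₃ - r₁)) (b := (r₂ - r₁) / (r₃ - r₁))
    (div_pos (by linarith) hd) (div_pos (by linarith) hd) (by field_simp; ring)
  have hd' : (r₃ : ℂ) - r₁ ≠ 0 := by exact_mod_cast hd.ne'
  have e : (((r₃ - r₂) / (r₃ - r₁) : ℝ) : ℂ) * (a + r₁ * v)
      + (((r₂ - r₁) / (r₃ - r₁) : ℝ) : ℂ) * (a + r₃ * v) = a + r₂ * v := by
    push_cast
    field_simp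
    ring
  rwa [e] at this

end Pool.Agent.Lib.MP_abef03_an
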