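import Mathlib
import Pool.Agent.Lib.MP_abef03_an.Defs
import Pool.Agent.Lib.MP_abef03_an.Supp
import Pool.Agent.Lib.MP_abef03_an.CausticAux

/-! From an invariant curve to a caustic. -/

namespace Pool.Agent.Lib.MP_abef03_an

open Complex Set
open scoped Real

theorem caustic_hasDerivAt {h : ℝ → ℝ} (hh : Supp h) (τ : ℝ) :
    HasDerivAt (fun τ : ℝ => curve h (2 * π * τ))
      (((2 * π * (deriv (deriv h) (2 * π * τ) + h (2 * π * τ)) : ℝ) : ℂ) *
        (I * exp (((2 * π * τ : ℝ) : ℂ) * I))) τ := by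
  have h1 : HasDerivAt (fun τ : ℝ => 2 * π * τ) (2 * π) τ := by
    simpa using (hasDerivAt_id τ).const_mul (2 * π)
  have h2 := (hh.hasDerivAt_curve (2 * π * τ)).scomp τ h1
  have h3 : (((2 * π * (deriv (deriv h) (2 * π * τ) + h (2 * π * τ)) : ℝ) : ℂ) *
      (I * exp (((2 * π * τ : ℝ) : ℂ) * I))) = (2 * π : ℝ) •
      (((deriv (deriv h) (2 * π * τ) + h (2 * π * τ) : ℝ) : ℂ) *
        (I * exp (((2 * π * τ : ℝ) : ℂ) * I))) := by
    rw [Complex.real_smul, Complex.ofReal_mul (2 * π), mul_assoc]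
  rw [h3]
  exact h2

theorem caustic_contDiff {h : ℝ → ℝ} (hh : Supp h) : ContDiff ℝ 1 (curve h) := by
  have h1 : ContDiff ℝ 1 h := hh.smooth.of_le (by norm_num)
  have h2 : ContDiff ℝ 1 (deriv h) := by
    have : ContDiff ℝ (1 + 1) h := by
      rw [one_add_one_eq_two]
      exact hh.smooth
    exact this.deriv'
  have h3 : ContDiff ℝ 1 (fun x : ℝ => (x : ℂ)) := Complex.ofRealCLM.contDiff
  unfold curve
  exact ((h3.comp h1).add ((h3.comp h2).mul contDiff_const)).mul (h3.mul contDiff_const).cexp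

theorem caustic_range (h : ℝ → ℝ) : range (fun τ : ℝ => curve h (2 * π * τ)) = range (curve h) := by
  ext z
  constructor
  · rintro ⟨τ, rfl⟩
    exact ⟨_, rfl⟩
  · rintro ⟨ψ, rfl⟩
    refine ⟨ψ / (2 * π), ?_⟩
    have : 2 * π * (ψ / (2 * π)) = ψ := by field_simp
    simp only [this]

/-- The boundary of `body h` as a convex curve. -/
noncomputable def causticCurve {h : ℝ → ℝ} (hh : Supp h) : ConvexCurve where
  c := fun τ => curve h (2 * π * τ)
  smooth := (caustic_contDiff hh).comp (contDiff_const.mul contDiff_id)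
  periodic := by
    intro τ
    have := hh.curve_periodic (2 * π * τ)
    simpa only [mul_add, mul_one] using this
  simple := by
    intro a ha b hb hab
    have hp := Real.two_pi_pos
    have h1 : 2 * π * a = 2 * π * b :=
      hh.injOn_curve ⟨mul_nonneg hp.le ha.1, by nlinarith [ha.2]⟩
        ⟨mul_nonneg hp.le hb.1, by nlinarith [hb.2]⟩ hab
    exact mul_left_cancel₀ hp.ne' h1
  regular := by
    intro τ
    rw [(caustic_hasDerivAt hh τ).deriv]
    refine mul_ne_zero ?_ (mul_ne_zero I_ne_zero (exp_ne_zero _))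
    exact Complex.ofReal_ne_zero.2 (mul_pos Real.two_pi_pos (hh.pos _)).ne'
  convex := ⟨body h, hh.isOpen_body, hh.nonempty_body, hh.isBounded_body, convex_body h, by
    rw [hh.frontier_body, caustic_range]⟩

theorem caustic_re_self (h : ℝ → ℝ) (ψ : ℝ) : (curve h ψ * exp (-(ψ * I))).re = h ψ := by
  rw [curve_re]
  simp

theorem caustic_re_dir (t φ ψ : ℝ) :
    ((t : ℂ) * (I * exp (φ * I)) * exp (-(ψ * I))).re = t * Real.sin (ψ - φ) := by
  have h1 : (t : ℂ) * (I * exp (φ * I)) * exp (-(ψ * I)) =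
      t * (I * exp (((φ - ψ : ℝ) : ℂ) * I)) := by
    rw [mul_assoc, mul_assoc, ← Complex.exp_add]
    congr 3
    push_cast
    ring
  rw [h1, re_ofReal_mul, I_mul_re, Complex.exp_ofReal_mul_I_im, ← Real.sin_neg, neg_sub]

/-- Points of the support line. -/
theorem caustic_line (h : ℝ → ℝ) {z : ℂ} {φ : ℝ} (hz : (z * exp (-(φ * I))).re = h φ) :
    ∃ t : ℝ, z = curve h φ + t * (I * exp (φ * I)) := by
  refine ⟨(z * exp (-(φ * I))).im - deriv h φ, ?_⟩
  have h1 : exp (-(φ * I)) * exp (φ * I) = 1 := by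
    rw [← Complex.exp_add]
    simp
  have h2 : z * exp (-(φ * I)) = h φ + (z * exp (-(φ * I))).im * I := by
    rw [← hz]
    exact (re_add_im _).symm
  unfold curve
  push_cast
  linear_combination exp (φ * I) * h2 - z * h1

theorem caustic_sign {H : ℝ → ℝ} {Q : ℂ} (hQ : Q ∈ body H) {a ψ φ : ℝ}
    (h : curve H ψ = Q + a * (I * exp (φ * I))) : 0 < a * Real.sin (ψ - φ) := by
  have h1 := caustic_re_self H ψ
  rw [h, add_mul, add_re, caustic_re_dir] at h1
  have h2 := hQ ψ
  linarith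

theorem caustic_left_im (φ : ℝ) (z : ℂ) :
    (starRingEnd ℂ (I * exp (φ * I)) * z).im = -(z * exp (-(φ * I))).re := by
  have h1 : starRingEnd ℂ (I * exp (φ * I)) = -I * exp (-(φ * I)) := by
    rw [map_mul, conj_I, ← Complex.exp_conj, map_mul, conj_ofReal, conj_I, mul_neg]
  rw [h1, show -I * exp (-(φ * I)) * z = -(I * (z * exp (-(φ * I)))) by ring, neg_im, I_mul_im]

theorem caustic_pm {w v : ℂ} (hw : ‖w‖ = 1) (hv : ‖v‖ = 1) (h : (starRingEnd ℂ w * v).im = 0) :
    w = v ∨ w = -v := by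
  have h1 : ‖starRingEnd ℂ w * v‖ = 1 := by rw [norm_mul, Complex.norm_conj, hw, hv, one_mul]
  have h2 : starRingEnd ℂ w * v = ((starRingEnd ℂ w * v).re : ℂ) := by
    apply Complex.ext
    · simp
    · rw [h, ofReal_im]
  have h3 : |(starRingEnd ℂ w * v).re| = 1 := by
    rw [h2, Complex.norm_real, Real.norm_eq_abs] at h1
    exact h1
  have h4 : w * starRingEnd ℂ w = 1 := by
    rw [Complex.mul_conj, Complex.normSq_eq_norm_sq, hw]
    simp
  rcases (abs_eq zero_le_one).1 h3 with h5 | h5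
  · left
    rw [h5] at h2
    push_cast at h2
    linear_combination v * h4 - w * h2
  · right
    rw [h5] at h2
    push_cast at h2
    linear_combination w * h2 - v * h4

theorem caustic_v_ne (φ : ℝ) : I * exp (φ * I) ≠ 0 := mul_ne_zero I_ne_zero (exp_ne_zero _)

/-- The hypotheses of the caustic theorem. -/
structure CData {k : ℕ} (T : Table k) (H σ : ℝ → ℝ) (ω : ℝ) (u h : ℝ → ℝ) : Prop where
  hH : Supp H
  hσc : Continuous σ
  hσm : StrictMono σ
  hσp : ∀ ψ, σ (ψ + 2 * π) = σ ψ + T.L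
  hγ : ∀ ψ, T.γ (σ ψ) = curve H ψ
  hγ' : ∀ ψ, deriv T.γ (σ ψ) = I * exp (ψ * I)
  hD : T.D = body H
  hω : 0 < ω
  hh : Supp h
  huc : Continuous u
  hum : StrictMono u
  hup : ∀ x, u (x + 2 * π) = u x + 2 * π
  hs : ∀ x, u (x + ω) - u x ≤ 1
  h1 : ∀ x, h (u x) = H ((u x + u (x + ω)) / 2) * Real.cos ((u (x + ω) - u x) / 2) -
      deriv H ((u x + u (x + ω)) / 2) * Real.sin ((u (x + ω) - u x) / 2)
  h2 : ∀ x, h (u (x + ω)) = H ((u x + u (x + ω)) / 2) * Real.cos ((u (x + ω) - u x) / 2) +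
      deriv H ((u x + u (x + ω)) / 2) * Real.sin ((u (x + ω) - u x) / 2)

/-- Normal angle at the impact point. -/
noncomputable def causticM (u : ℝ → ℝ) (ω x : ℝ) : ℝ := (u x + u (x + ω)) / 2

/-- Reflection angle. -/
noncomputable def causticD (u : ℝ → ℝ) (ω x : ℝ) : ℝ := (u (x + ω) - u x) / 2

namespace CData

variable {k : ℕ} {T : Table k} {H σ : ℝ → ℝ} {ω : ℝ} {u h : ℝ → ℝ} (c : CData T H σ ω u h)
include c

theorem d_pos (x : ℝ) : 0 < causticD u ω x := by
  have := c.hum (show x < x + ω by linarith [c.hω])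
  unfold causticD
  linarith

theorem d_le (x : ℝ) : causticD u ω x ≤ 1 / 2 := by
  have := c.hs x
  unfold causticD
  linarith

theorem d_lt (x : ℝ) : causticD u ω x < π := by
  linarith [c.d_le x, Real.pi_gt_three]

theorem sin_pos (x : ℝ) : 0 < Real.sin (causticD u ω x) :=
  Real.sin_pos_of_pos_of_lt_pi (c.d_pos x) (c.d_lt x)

theorem line1 (x : ℝ) : (curve H (causticM u ω x) * exp (-(u x * I))).re = h (u x) := by
  rw [curve_re, c.h1, show causticM u ω x - u x = (u (x + ω) - u x) / 2 by unfold causticM; ring]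
  rfl

theorem line2 (x : ℝ) :
    (curve H (causticM u ω x) * exp (-(u (x + ω) * I))).re = h (u (x + ω)) := by
  rw [curve_re, c.h2,
    show causticM u ω x - u (x + ω) = -((u (x + ω) - u x) / 2) by unfold causticM; ring,
    Real.cos_neg, Real.sin_neg]
  unfold causticM
  ring

theorem surj : Function.Surjective u := caustic_surj Real.two_pi_pos c.huc c.hup

theorem lt (φ : ℝ) : h φ < H φ := by
  obtain ⟨x, rfl⟩ := c.surj φ
  rw [← c.line1]
  apply c.hH.curve_lt
  intro n hn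
  have h1 : causticD u ω x = n * (2 * π) := by
    unfold causticM at hn
    unfold causticD
    linarith
  have h2 := c.d_pos x
  have h3 := c.d_lt x
  have hp := Real.pi_pos
  rw [h1] at h2 h3
  have h4 : (0 : ℝ) < n := (pos_iff_pos_of_mul_pos h2).2 Real.two_pi_pos
  have h5 : (1 : ℝ) ≤ n := by exact_mod_cast (show (0 : ℤ) < n by exact_mod_cast h4)
  nlinarith

theorem mem_body (ψ : ℝ) : curve h ψ ∈ body H := fun φ => (c.hh.curve_le ψ φ).trans_lt (c.lt φ)

theorem notMem_body (ψ : ℝ) : curve H ψ ∉ body H := by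
  rw [← c.hγ, ← c.hD]
  exact T.caustic_notMem _

theorem gamma_mem (s : ℝ) : T.γ s ∈ range (curve H) := by
  rw [← c.hH.frontier_body, ← c.hD, T.boundary]
  exact ⟨s, rfl⟩

theorem chord (x : ℝ) : ∃ a b : ℝ, a < 0 ∧ 0 < b ∧
    curve H (causticM u ω x) = curve h (u (x + ω)) + a * (I * exp (u (x + ω) * I)) ∧
    curve H (causticM u ω (x + ω)) = curve h (u (x + ω)) + b * (I * exp (u (x + ω) * I)) := by
  obtain ⟨a, ha⟩ := caustic_line h (c.line2 x)
  obtain ⟨b, hb⟩ := caustic_line h (c.line1 (x + ω))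
  have h1 := caustic_sign (c.mem_body _) ha
  have h2 := caustic_sign (c.mem_body _) hb
  rw [show causticM u ω x - u (x + ω) = -causticD u ω x by unfold causticM causticD; ring,
    Real.sin_neg] at h1
  rw [show causticM u ω (x + ω) - u (x + ω) = causticD u ω (x + ω) by
    unfold causticM causticD; ring] at h2
  refine ⟨a, b, ?_, (pos_iff_pos_of_mul_pos h2).2 (c.sin_pos _), ha, hb⟩
  have := c.sin_pos x
  nlinarith

theorem dir_fwd (x : ℝ) :
    T.dir (σ (causticM u ω x)) (causticD u ω x) = I * exp (u (x + ω) * I) := by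
  unfold Table.dir
  rw [c.hγ', mul_assoc, ← Complex.exp_add]
  congr 2
  unfold causticM causticD
  push_cast
  ring

theorem dir_bwd (x : ℝ) : T.dir (σ (causticM u ω x)) (-causticD u ω x) = I * exp (u x * I) := by
  unfold Table.dir
  rw [c.hγ', mul_assoc, ← Complex.exp_add]
  congr 2
  unfold causticM causticD
  push_cast
  ring

theorem dir_rev (x : ℝ) :
    T.dir (σ (causticM u ω x)) (π - causticD u ω x) = -(I * exp (u x * I)) := by
  unfold Table.dir
  rw [c.hγ', mul_assoc, ← Complex.exp_add, ← mul_neg, ← Complex.exp_add_pi_mul_I]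
  congr 2
  unfold causticM causticD
  push_cast
  ring

theorem dir_rev' (x : ℝ) :
    T.dir (σ (causticM u ω x)) (-(π - causticD u ω x)) = -(I * exp (u (x + ω) * I)) := by
  unfold Table.dir
  rw [c.hγ', mul_assoc, ← Complex.exp_add, ← mul_neg, ← Complex.exp_sub_pi_mul_I]
  congr 2
  unfold causticM causticD
  push_cast
  ring

/-- The phase points with the caustic on the left. -/
noncomputable def e (x : ℝ) : T.Phase :=
  ((σ (causticM u ω x) : ℝ), ⟨causticD u ω x, c.d_pos x, c.d_lt x⟩)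

/-- The phase points with the caustic on the right. -/
noncomputable def e' (x : ℝ) : T.Phase :=
  ((σ (causticM u ω x) : ℝ), ⟨π - causticD u ω x, by linarith [c.d_lt x],
    by linarith [c.d_pos x]⟩)

theorem bounce (x : ℝ) : T.Bounce (c.e x) (c.e (x + ω)) := by
  obtain ⟨a, b, ha, hb, h1, h2⟩ := c.chord x
  have h3 : T.γ (σ (causticM u ω (x + ω))) = T.γ (σ (causticM u ω x)) +
      ((b - a : ℝ) : ℂ) * T.dir (σ (causticM u ω x)) (causticD u ω x) := by
    rw [c.hγ, c.hγ, c.dir_fwd, h1, h2]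
    push_cast
    ring
  refine ⟨σ (causticM u ω x), σ (causticM u ω (x + ω)), b - a, rfl, rfl, by linarith, h3, ?_, ?_⟩
  · intro r hr
    rw [c.hD]
    refine c.hH.not_three (r₁ := 0) (r₃ := b - a) ?_ hr.1 hr.2 ?_ ?_
    · exact c.dir_fwd x ▸ caustic_v_ne _
    · simpa using c.gamma_mem _
    · exact h3 ▸ c.gamma_mem _
  · exact (c.dir_fwd x).trans (c.dir_bwd (x + ω)).symm

theorem bounce' (x : ℝ) : T.Bounce (c.e' (x + ω)) (c.e' x) := by
  obtain ⟨a, b, ha, hb, h1, h2⟩ := c.chord x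
  have h3 : T.γ (σ (causticM u ω x)) = T.γ (σ (causticM u ω (x + ω))) +
      ((b - a : ℝ) : ℂ) * T.dir (σ (causticM u ω (x + ω))) (π - causticD u ω (x + ω)) := by
    rw [c.hγ, c.hγ, c.dir_rev, h1, h2]
    push_cast
    ring
  refine ⟨σ (causticM u ω (x + ω)), σ (causticM u ω x), b - a, rfl, rfl, by linarith, h3, ?_, ?_⟩
  · intro r hr
    rw [c.hD]
    refine c.hH.not_three (r₁ := 0) (r₃ := b - a) ?_ hr.1 hr.2 ?_ ?_
    · exact c.dir_rev (x + ω) ▸ neg_ne_zero.2 (caustic_v_ne _)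
    · simpa using c.gamma_mem _
    · exact h3 ▸ c.gamma_mem _
  · exact (c.dir_rev (x + ω)).trans (c.dir_rev' x).symm

theorem par (φ : ℝ) : (starRingEnd ℂ (I * exp (φ * I)) *
    deriv (causticCurve c.hh).c (φ / (2 * π))).im = 0 := by
  have h1 : 2 * π * (φ / (2 * π)) = φ := by field_simp
  have h2 := (caustic_hasDerivAt c.hh (φ / (2 * π))).deriv
  rw [h1] at h2
  have h3 : deriv (causticCurve c.hh).c (φ / (2 * π)) = _ := h2
  rw [h3, caustic_left_im, caustic_re_dir]
  simp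

theorem tangent (x : ℝ) : T.Tangent (causticCurve c.hh) (c.e x) := by
  obtain ⟨a, b, ha, hb, h1, h2⟩ := c.chord x
  have h3 : 2 * π * (u (x + ω) / (2 * π)) = u (x + ω) := by field_simp
  refine ⟨σ (causticM u ω x), u (x + ω) / (2 * π), -a, rfl, by linarith, ?_, ?_⟩
  · change curve h (2 * π * (u (x + ω) / (2 * π))) = T.γ (σ (causticM u ω x)) +
      ((-a : ℝ) : ℂ) * T.dir (σ (causticM u ω x)) (causticD u ω x)
    rw [h3, c.hγ, c.dir_fwd, h1]
    push_cast
    ring
  · change (starRingEnd ℂ (T.dir (σ (causticM u ω x)) (causticD u ω x)) * _).im = 0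
    rw [c.dir_fwd]
    exact c.par _

theorem tangent' (x : ℝ) : T.Tangent (causticCurve c.hh) (c.e' x) := by
  obtain ⟨a, b, ha, hb, h1, h2⟩ := c.chord (x - ω)
  rw [sub_add_cancel] at h2
  have h3 : 2 * π * (u x / (2 * π)) = u x := by field_simp
  refine ⟨σ (causticM u ω x), u x / (2 * π), b, rfl, hb, ?_, ?_⟩
  · change curve h (2 * π * (u x / (2 * π))) = T.γ (σ (causticM u ω x)) +
      (b : ℂ) * T.dir (σ (causticM u ω x)) (π - causticD u ω x)
    rw [h3, c.hγ, c.dir_rev, h2]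
    ring
  · change (starRingEnd ℂ (T.dir (σ (causticM u ω x)) (π - causticD u ω x)) * _).im = 0
    rw [c.dir_rev, map_neg, neg_mul, neg_im, c.par, neg_zero]

theorem classify {p : T.Phase} (hp : T.Tangent (causticCurve c.hh) p) :
    ∃ x, p = c.e x ∨ p = c.e' x := by
  obtain ⟨s, τ, r, hs, hr, hc, hpar⟩ := hp
  obtain ⟨y, hy⟩ := c.surj (2 * π * τ)
  obtain ⟨x, rfl⟩ : ∃ x, y = x + ω := ⟨y - ω, by ring⟩
  obtain ⟨a, b, ha, hb, h1, h2⟩ := c.chord x
  have hc' : curve h (u (x + ω)) = T.γ s + r * T.dir s p.2 := by rw [hy]; exact hc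
  have hd : deriv (causticCurve c.hh).c τ = _ := (caustic_hasDerivAt c.hh τ).deriv
  rw [hd, ← hy, mul_left_comm, im_ofReal_mul] at hpar
  have hpar' := (mul_eq_zero.1 hpar).resolve_left (mul_pos Real.two_pi_pos (c.hh.pos _)).ne'
  have hv : ‖I * exp (u (x + ω) * I)‖ = 1 := by
    rw [norm_mul, norm_I, Complex.norm_exp_ofReal_mul_I, one_mul]
  have two : ∀ t : ℝ, curve h (u (x + ω)) + t * (I * exp (u (x + ω) * I)) ∈ range (curve H) →
      t = a ∨ t = b := by
    intro t ht
    have ha' : curve h (u (x + ω)) + a * (I * exp (u (x + ω) * I)) ∈ range (curve H) := ⟨_, h1⟩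
    have hb' : curve h (u (x + ω)) + b * (I * exp (u (x + ω) * I)) ∈ range (curve H) := ⟨_, h2⟩
    by_contra hcon
    rw [not_or] at hcon
    rcases lt_or_gt_of_ne hcon.1 with h3 | h3
    · exact c.notMem_body _ (h1 ▸ c.hH.not_three (caustic_v_ne _) h3 (ha.trans hb) ht hb')
    · rcases lt_or_gt_of_ne hcon.2 with h4 | h4
      · obtain ⟨ψ, hψ⟩ := ht
        exact c.notMem_body _ (hψ ▸ c.hH.not_three (caustic_v_ne _) h3 h4 ha' hb')
      · exact c.notMem_body _ (h2 ▸ c.hH.not_three (caustic_v_ne _) (ha.trans hb) h4 ha' ht)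
  rcases caustic_pm (T.caustic_norm_dir s p.2) hv hpar' with h3 | h3
  · have h4 : T.γ s = curve h (u (x + ω)) + ((-r : ℝ) : ℂ) * (I * exp (u (x + ω) * I)) := by
      rw [hc', h3]
      push_cast
      ring
    have h5 : -r = a := (two (-r) (h4 ▸ c.gamma_mem s)).resolve_right (by linarith)
    rw [h5, ← h1, ← c.hγ] at h4
    have h6 := T.caustic_coe_eq h4
    refine ⟨x, Or.inl (Prod.ext (hs.symm.trans h6) (Subtype.ext ?_))⟩
    refine T.caustic_dir_inj (s := σ (causticM u ω x)) (Table.caustic_abs_lt p.2 (c.e x).2) ?_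
    rw [← T.caustic_dir_eq h6, h3]
    exact (c.dir_fwd x).symm
  · have h4 : T.γ s = curve h (u (x + ω)) + (r : ℂ) * (I * exp (u (x + ω) * I)) := by
      rw [hc', h3]
      ring
    have h5 : r = b := (two r (h4 ▸ c.gamma_mem s)).resolve_left (by linarith)
    rw [h5, ← h2, ← c.hγ] at h4
    have h6 := T.caustic_coe_eq h4
    refine ⟨x + ω, Or.inr (Prod.ext (hs.symm.trans h6) (Subtype.ext ?_))⟩
    refine T.caustic_dir_inj (s := σ (causticM u ω (x + ω)))
      (Table.caustic_abs_lt p.2 (c.e' (x + ω)).2) ?_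
    rw [← T.caustic_dir_eq h6, h3]
    exact (c.dir_rev (x + ω)).symm

theorem isCaustic : T.IsCaustic (causticCurve c.hh) := by
  refine ⟨?_, fun p q hpq => ⟨fun hp => ?_, fun hq => ?_⟩⟩
  · rintro z ⟨τ, rfl⟩
    rw [c.hD]
    exact c.mem_body _
  · obtain ⟨x, rfl | rfl⟩ := c.classify hp
    · rw [T.caustic_right_unique hpq (c.bounce x)]
      exact c.tangent _
    · have h1 := c.bounce' (x - ω)
      rw [sub_add_cancel] at h1
      rw [T.caustic_right_unique hpq h1]
      exact c.tangent' _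
  · obtain ⟨x, rfl | rfl⟩ := c.classify hq
    · have h1 := c.bounce (x - ω)
      rw [sub_add_cancel] at h1
      rw [T.caustic_left_unique hpq h1]
      exact c.tangent _
    · rw [T.caustic_left_unique hpq (c.bounce' x)]
      exact c.tangent' _

theorem onLeft (x : ℝ) : T.OnLeft (causticCurve c.hh) (c.e x) := by
  intro s τ hs
  have hs' : (s : AddCircle T.L) = ((σ (causticM u ω x) : ℝ) : AddCircle T.L) := hs
  change 0 ≤ (starRingEnd ℂ (T.dir s (causticD u ω x)) * (curve h (2 * π * τ) - T.γ s)).im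
  rw [T.caustic_dir_eq hs', T.caustic_gamma_eq hs', c.dir_fwd, caustic_left_im, c.hγ, sub_mul,
    sub_re, c.line2]
  linarith [c.hh.curve_le (2 * π * τ) (u (x + ω))]

theorem not_onLeft (x : ℝ) : ¬T.OnLeft (causticCurve c.hh) (c.e' x) := by
  intro hl
  have h1 := hl (σ (causticM u ω x)) ((u x + π) / (2 * π)) rfl
  change 0 ≤ (starRingEnd ℂ (T.dir (σ (causticM u ω x)) (π - causticD u ω x)) *
    (curve h (2 * π * ((u x + π) / (2 * π))) - T.γ (σ (causticM u ω x)))).im at h1
  have h3 : 2 * π * ((u x + π) / (2 * π)) = u x + π := by field_simp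
  rw [h3, c.dir_rev, map_neg, neg_mul, neg_im, caustic_left_im, c.hγ, sub_mul, sub_re,
    c.line1] at h1
  have h2 : (curve h (u x + π) * exp (-(u x * I))).re < h (u x) := by
    apply c.hh.curve_lt
    intro n hn
    have h4 : π * (1 - 2 * n) = 0 := by linarith
    have h5 : (1 : ℝ) - 2 * n = 0 := (mul_eq_zero.1 h4).resolve_left Real.pi_pos.ne'
    have h6 : (1 : ℤ) - 2 * n = 0 := by exact_mod_cast h5
    omega
  linarith

theorem m_per (x : ℝ) : causticM u ω (x + 2 * π) = causticM u ω x + 2 * π := by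
  unfold causticM
  rw [show x + 2 * π + ω = x + ω + 2 * π by ring, c.hup, c.hup]
  ring

theorem d_per (x : ℝ) : causticD u ω (x + 2 * π) = causticD u ω x := by
  unfold causticD
  rw [show x + 2 * π + ω = x + ω + 2 * π by ring, c.hup, c.hup]
  ring

theorem e_per (x : ℝ) : c.e (x + 2 * π) = c.e x := by
  refine Prod.ext ?_ (Subtype.ext (c.d_per x))
  change ((σ (causticM u ω (x + 2 * π)) : ℝ) : AddCircle T.L) = (σ (causticM u ω x) : ℝ)
  rw [c.m_per, c.hσp, AddCircle.coe_add_period]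

theorem m_mono : StrictMono (causticM u ω) := by
  intro x y hxy
  have h1 := c.hum hxy
  have h2 := c.hum (show x + ω < y + ω by linarith)
  unfold causticM
  linarith

theorem e_inj {x y : ℝ} (hxy : c.e x = c.e y) : ∃ n : ℤ, y = x + n * (2 * π) := by
  have h1 : ((σ (causticM u ω x) : ℝ) : AddCircle T.L) = (σ (causticM u ω y) : ℝ) :=
    congrArg Prod.fst hxy
  obtain ⟨n, hn⟩ := caustic_coe_iff.1 h1
  refine ⟨n, c.m_mono.injective (c.hσm.injective ?_)⟩
  rw [caustic_int c.m_per, caustic_int c.hσp, hn]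

theorem e_cont : Continuous c.e := by
  have h1 := c.huc
  have h2 := c.hσc
  refine Continuous.prodMk ((AddCircle.continuous_mk' T.L).comp ?_) (Continuous.subtype_mk ?_ _)
  · unfold causticM
    fun_prop
  · unfold causticD
    fun_prop

theorem conj : ∃ e : AddCircle T.L ≃ₜ T.Star (causticCurve c.hh),
    ∀ x, T.Bounce (e x) (e (x + (ω / (2 * π) * T.L : ℝ))) := by
  have hL := T.length_pos
  have hp := Real.pi_pos
  have : Fact (0 < T.L) := ⟨hL⟩
  let f : ℝ → T.Star (causticCurve c.hh) := fun x =>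
    ⟨c.e (2 * π / T.L * x), c.tangent _, c.onLeft _⟩
  have hf : Function.Periodic f T.L := by
    intro x
    apply Subtype.ext
    change c.e (2 * π / T.L * (x + T.L)) = c.e (2 * π / T.L * x)
    rw [show 2 * π / T.L * (x + T.L) = 2 * π / T.L * x + 2 * π by field_simp, c.e_per]
  have hfc : Continuous f := (c.e_cont.comp (continuous_const.mul continuous_id)).subtype_mk _
  let g : AddCircle T.L → T.Star (causticCurve c.hh) := hf.lift
  have hg : ∀ x : ℝ, g x = f x := fun x => hf.lift_coe x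
  have hgc : Continuous g := by
    rw [(QuotientAddGroup.isQuotientMap_mk (AddSubgroup.zmultiples T.L)).continuous_iff]
    exact hfc
  have hgi : Function.Injective g := by
    intro a b hab
    obtain ⟨x, rfl⟩ := QuotientAddGroup.mk_surjective a
    obtain ⟨y, rfl⟩ := QuotientAddGroup.mk_surjective b
    rw [hg, hg] at hab
    obtain ⟨n, hn⟩ := c.e_inj (congrArg Subtype.val hab)
    refine caustic_coe_iff.2 ⟨n, ?_⟩
    field_simp at hn
    linarith
  have hgs : Function.Surjective g := by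
    rintro ⟨p, hp1, hp2⟩
    obtain ⟨x, rfl | rfl⟩ := c.classify hp1
    · refine ⟨(T.L / (2 * π) * x : ℝ), ?_⟩
      rw [hg]
      apply Subtype.ext
      change c.e (2 * π / T.L * (T.L / (2 * π) * x)) = c.e x
      rw [show 2 * π / T.L * (T.L / (2 * π) * x) = x by field_simp]
    · exact absurd hp2 (c.not_onLeft x)
  refine ⟨Continuous.homeoOfEquivCompactToT2 (f := Equiv.ofBijective g ⟨hgi, hgs⟩) hgc, ?_⟩
  intro a
  obtain ⟨x, rfl⟩ := QuotientAddGroup.mk_surjective a
  change T.Bounce (g x) (g ((x + ω / (2 * π) * T.L : ℝ) : AddCircle T.L))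
  rw [hg, hg]
  change T.Bounce (c.e (2 * π / T.L * x)) (c.e (2 * π / T.L * (x + ω / (2 * π) * T.L)))
  rw [show 2 * π / T.L * (x + ω / (2 * π) * T.L) = 2 * π / T.L * x + ω by field_simp]
  exact c.bounce _

end CData

/-- One caustic. The curve is `τ ↦ curve h (2 π τ)`. -/
theorem Table.exists_caustic {k : ℕ} (T : Table k) {H σ : ℝ → ℝ} (hH : Supp H) (hσc : Continuous σ)
    (hσm : StrictMono σ) (hσp : ∀ ψ, σ (ψ + 2 * π) = σ ψ + T.L)
    (hγ : ∀ ψ, T.γ (σ ψ) = curve H ψ) (hγ' : ∀ ψ, deriv T.γ (σ ψ) = I * exp (ψ * I))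
    (hD : T.D = body H) {ω : ℝ} (hω : 0 < ω) {u h : ℝ → ℝ} (hh : Supp h) (huc : Continuous u)
    (hum : StrictMono u) (hup : ∀ x, u (x + 2 * π) = u x + 2 * π) (hs : ∀ x, u (x + ω) - u x ≤ 1)
    (h1 : ∀ x, h (u x) = H ((u x + u (x + ω)) / 2) * Real.cos ((u (x + ω) - u x) / 2) -
      deriv H ((u x + u (x + ω)) / 2) * Real.sin ((u (x + ω) - u x) / 2))
    (h2 : ∀ x, h (u (x + ω)) = H ((u x + u (x + ω)) / 2) * Real.cos ((u (x + ω) - u x) / 2) +
      deriv H ((u x + u (x + ω)) / 2) * Real.sin ((u (x + ω) - u x) / 2)) :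
    ∃ Γ : ConvexCurve, range Γ.c = range (curve h) ∧ T.IsCaustic Γ ∧
      ∃ e : AddCircle T.L ≃ₜ T.Star Γ,
        ∀ x, T.Bounce (e x) (e (x + (ω / (2 * π) * T.L : ℝ))) := by
  have c : CData T H σ ω u h :=
    ⟨hH, hσc, hσm, hσp, hγ, hγ', hD, hω, hh, huc, hum, hup, hs, h1, h2⟩
  exact ⟨causticCurve c.hh, caustic_range h, c.isCaustic, c.conj⟩

end Pool.Agent.Lib.MP_abef03_an
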