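import Mathlib
import Pool.Agent.Lib.MP_abef03_an.Coho

/-! Passage to the limit at a real frequency. -/

namespace Pool.Agent.Lib.MP_abef03_an

open Complex Set Filter Topology
open scoped Real

/-- The real derivative of the real part of a holomorphic function along a real map. -/
theorem limit_re_comp {f : ℂ → ℂ} {v : ℝ → ℝ} {v' x : ℝ} (hf : DifferentiableAt ℂ f (v x))
    (hv : HasDerivAt v v' x) :
    HasDerivAt (fun t => (f (v t)).re) ((deriv f (v x) * v').re) x := by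
  have h1 : HasDerivAt (fun t : ℝ => ((v t : ℝ) : ℂ)) (v' : ℂ) x := hv.ofReal_comp
  have h2 : HasDerivAt (fun t : ℝ => f (v t)) ((v' : ℂ) • deriv f (v x)) x :=
    (hf.hasDerivAt.hasFDerivAt.restrictScalars ℝ).comp_hasDerivAt x h1 |>.congr_deriv (by simp)
  have h3 := (Complex.reCLM.hasFDerivAt.comp_hasDerivAt x h2)
  refine h3.congr_deriv ?_
  simp [mul_comm]

theorem limit_deriv_im {U : ℂ → ℂ} (hU : Differentiable ℂ U) (hr : RealOn U) (x : ℝ) :
    (deriv U x).im = 0 := by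
  have h1 : HasDerivAt (fun t : ℝ => U t) (deriv U x) x := (hU x).hasDerivAt.comp_ofReal
  have h2 := Complex.imCLM.hasFDerivAt.comp_hasDerivAt x h1
  have h3 : HasDerivAt (fun _ : ℝ => (0 : ℝ)) (Complex.imCLM (deriv U x)) x := by
    refine h2.congr_of_eventuallyEq (Eventually.of_forall fun t => ?_)
    simp [hr t]
  simpa using h3.unique (hasDerivAt_const x 0)

theorem limit_bilip {U : ℂ → ℂ} {C : ℝ} (hU : Differentiable ℂ U)
    (hb : ∀ x : ℝ, 1 / C ≤ (deriv U x).re ∧ ‖deriv U x‖ ≤ C) {a b : ℝ} (hab : a ≤ b) :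
    1 / C * (b - a) ≤ (U b).re - (U a).re ∧ (U b).re - (U a).re ≤ C * (b - a) := by
  have hd : ∀ x : ℝ, HasDerivAt (fun t : ℝ => (U t).re) (deriv U x).re x := fun x => by
    simpa using limit_re_comp (v := fun t => t) (hU x) (hasDerivAt_id x)
  have hdiff : Differentiable ℝ (fun t : ℝ => (U t).re) := fun x => (hd x).differentiableAt
  constructor
  · exact mul_sub_le_image_sub_of_le_deriv hdiff (fun x => by rw [(hd x).deriv]; exact (hb x).1) hab
  · exact image_sub_le_mul_sub_of_deriv_le hdiff (fun x => by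
      rw [(hd x).deriv]; exact (Complex.re_le_norm _).trans (hb x).2) hab

theorem limit_inverse {U : ℂ → ℂ} {C : ℝ} (hC : 1 ≤ C) (hU : Differentiable ℂ U)
    (hp : ∀ x, U (x + 2 * π) = U x + 2 * π)
    (hb : ∀ x : ℝ, 1 / C ≤ (deriv U x).re ∧ ‖deriv U x‖ ≤ C) :
    ∃ v : ℝ → ℝ, (∀ x : ℝ, v (U x).re = x) ∧ (∀ x, v (x + 2 * π) = v x + 2 * π) ∧
      ∀ x, HasDerivAt v ((deriv U (v x)).re)⁻¹ x := by
  have hC0 : 0 < 1 / C := by positivity
  have hd : ∀ x : ℝ, HasDerivAt (fun t : ℝ => (U t).re) (deriv U x).re x := fun x => by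
    simpa using limit_re_comp (v := fun t => t) (hU x) (hasDerivAt_id x)
  have hmono : StrictMono (fun t : ℝ => (U t).re) := by
    intro a b hab
    have := (limit_bilip hU hb hab.le).1
    have h2 : 0 < 1 / C * (b - a) := mul_pos hC0 (sub_pos.mpr hab)
    simp only
    linarith
  have hcont : Continuous (fun t : ℝ => (U t).re) :=
    continuous_iff_continuousAt.mpr fun x => (hd x).continuousAt
  have hsurj : Function.Surjective (fun t : ℝ => (U t).re) := by
    refine hcont.surjective ?_ ?_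
    · have h1 : Tendsto (fun t : ℝ => (U (0 : ℝ)).re + 1 / C * t) atTop atTop :=
        tendsto_atTop_add_const_left _ _ (tendsto_id.const_mul_atTop hC0)
      refine tendsto_atTop_mono' _ ?_ h1
      filter_upwards [eventually_ge_atTop 0] with t ht
      have := (limit_bilip hU hb ht).1
      rw [sub_zero] at this
      linarith
    · have h1 : Tendsto (fun t : ℝ => (U (0 : ℝ)).re + 1 / C * t) atBot atBot :=
        tendsto_atBot_add_const_left _ _ (tendsto_id.const_mul_atBot hC0)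
      refine tendsto_atBot_mono' _ ?_ h1
      filter_upwards [eventually_le_atBot 0] with t ht
      have := (limit_bilip hU hb ht).1
      have h2 : 1 / C * (0 - t) = -(1 / C * t) := by ring
      linarith
  let e : ℝ ≃o ℝ := hmono.orderIsoOfSurjective _ hsurj
  have he : ∀ x : ℝ, e x = (U x).re := fun x => rfl
  refine ⟨e.symm, fun x => by rw [← he, e.symm_apply_apply], fun x => ?_, fun x => ?_⟩
  · apply e.injective
    rw [e.apply_symm_apply, he]
    push_cast
    rw [hp, Complex.add_re, ← he, e.apply_symm_apply]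
    simp
  · refine HasDerivAt.of_local_left_inverse (f := fun t : ℝ => (U t).re)
      e.symm.continuous.continuousAt (hd _) (hC0.trans_le (hb _).1).ne'
      (Eventually.of_forall fun y => ?_)
    exact e.apply_symm_apply y

/-- A holomorphic function read in the coordinate `U`, with two derivatives. -/
theorem limit_pull {U f : ℂ → ℂ} {C s ζ : ℝ} (hC : 1 ≤ C) (hs : 0 < s) (hs1 : s ≤ 1)
    (hU : Differentiable ℂ U) (hr : RealOn U) (hp : ∀ x, U (x + 2 * π) = U x + 2 * π)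
    (hb : ∀ x : ℂ, |x.im| ≤ s → 1 / C ≤ (deriv U x).re ∧ ‖deriv U x‖ ≤ C)
    (hf : Hol f s) (hfp : Per f) (hfb : SB f s ζ) :
    ∃ q q1 q2 : ℝ → ℝ, (∀ x : ℝ, q (U x).re = (f x).re) ∧ (∀ x, q (x + 2 * π) = q x) ∧
      (∀ x, HasDerivAt q (q1 x) x) ∧ (∀ x, HasDerivAt q1 (q2 x) x) ∧ Continuous q2 ∧
      ∀ x, |q x| ≤ 4 * C ^ 2 * (ζ / s ^ 2) ∧ |q1 x| ≤ 4 * C ^ 2 * (ζ / s ^ 2) ∧
        |q2 x| ≤ 4 * C ^ 2 * (ζ / s ^ 2) := by
  have hC0 : 0 < 1 / C := by positivity
  have him : ∀ (x : ℝ) {t : ℝ}, 0 ≤ t → |(x : ℂ).im| ≤ t := fun x t ht => by simpa using ht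
  obtain ⟨v, hv1, hv2, hv3⟩ := limit_inverse hC hU hp (fun x => hb x (him x hs.le))
  have hU' : Differentiable ℂ (deriv U) :=
    differentiableOn_univ.mp (hU.differentiableOn.deriv isOpen_univ)
  have hne : ∀ x : ℂ, |x.im| ≤ s → deriv U x ≠ 0 := by
    intro x hx h0
    have := (hb x hx).1
    rw [h0, Complex.zero_re] at this
    linarith
  have hinv : ∀ x : ℂ, |x.im| ≤ s → ‖(deriv U x)⁻¹‖ ≤ C := by
    intro x hx
    have h1 : 1 / C ≤ ‖deriv U x‖ := (hb x hx).1.trans (Complex.re_le_norm _)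
    rw [norm_inv]
    exact inv_le_of_inv_le₀ (by linarith) (by rwa [← one_div])
  have hζ : 0 ≤ ζ := (norm_nonneg _).trans (hfb 0 (by simpa using hs.le))
  have hhol : ∀ {g : ℂ → ℂ} {σ σ' : ℝ}, σ' < σ → σ' ≤ s → Hol g σ →
      Hol (fun x => deriv g x * (deriv U x)⁻¹) σ' := by
    intro g σ σ' h1 h2 hg x hx
    exact (Hol_deriv h1 hg x hx).mul ((hU' x).inv (hne x (hx.trans h2)))
  have hsb : ∀ {g : ℂ → ℂ} {σ δ A : ℝ}, 0 < δ → σ - δ ≤ s → Hol g σ → SB g σ A →
      SB (fun x => deriv g x * (deriv U x)⁻¹) (σ - δ) (A / δ * C) := by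
    intro g σ δ A h1 h2 hg hA x hx
    have h3 := SB_deriv h1 hg hA x hx
    simp only [norm_mul]
    exact mul_le_mul h3 (hinv x (hx.trans h2)) (norm_nonneg _) ((norm_nonneg _).trans h3)
  have hder : ∀ {g : ℂ → ℂ} {σ : ℝ}, 0 ≤ σ → Hol g σ → ∀ x : ℝ,
      HasDerivAt (fun t => (g (v t)).re) ((deriv g (v x) * (deriv U (v x))⁻¹).re) x := by
    intro g σ hσ hg x
    have h1 := limit_re_comp (hg (v x) (him _ hσ)) (hv3 x)
    have h2 : deriv U (v x) = ((deriv U (v x)).re : ℂ) := by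
      apply Complex.ext
      · simp
      · simpa using limit_deriv_im hU hr (v x)
    rw [h2]
    simpa using h1
  set f1 : ℂ → ℂ := fun x => deriv f x * (deriv U x)⁻¹ with hf1
  set f2 : ℂ → ℂ := fun x => deriv f1 x * (deriv U x)⁻¹ with hf2
  have H1 : Hol f1 (s / 2) := hhol (by linarith) (by linarith) hf
  have H2 : Hol f2 0 := hhol (by linarith) hs.le H1
  have B1 : SB f1 (s / 2) (ζ / (s / 2) * C) := by
    have := hsb (δ := s / 2) (by linarith) (by linarith) hf hfb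
    rwa [show s - s / 2 = s / 2 by ring] at this
  have B2 : SB f2 0 (ζ / (s / 2) * C / (s / 2) * C) := by
    have := hsb (δ := s / 2) (by linarith) (by linarith) H1 B1
    rwa [sub_self] at this
  have hvc : Continuous v := continuous_iff_continuousAt.mpr fun x => (hv3 x).continuousAt
  refine ⟨fun t => (f (v t)).re, fun t => (f1 (v t)).re, fun t => (f2 (v t)).re,
    fun x => by simp only [hv1], fun x => ?_, hder hs.le hf, hder (by linarith) H1, ?_,
    fun x => ?_⟩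
  · simp only [hv2]
    push_cast
    rw [hfp]
  · refine continuous_iff_continuousAt.mpr fun x => ?_
    have h1 : ContinuousAt f2 ((v x : ℝ) : ℂ) := (H2 _ (him _ le_rfl)).continuousAt
    have h2 : ContinuousAt (fun t : ℝ => ((v t : ℝ) : ℂ)) x :=
      (Complex.continuous_ofReal.comp hvc).continuousAt
    exact Complex.continuous_re.continuousAt.comp (ContinuousAt.comp (f := fun t : ℝ => ((v t : ℝ) : ℂ)) h1 h2)
  · have e0 : ζ = ζ / s ^ 2 * s ^ 2 := by field_simp
    have e1 : ζ / (s / 2) * C = ζ / s ^ 2 * (2 * C * s) := by field_simp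
    have e2 : ζ / (s / 2) * C / (s / 2) * C = 4 * C ^ 2 * (ζ / s ^ 2) := by field_simp; ring
    have hq : 0 ≤ ζ / s ^ 2 := by positivity
    refine ⟨(Complex.abs_re_le_norm _).trans ((hfb _ (him _ hs.le)).trans ?_),
      (Complex.abs_re_le_norm _).trans ((B1 _ (him _ (by linarith))).trans ?_),
      (Complex.abs_re_le_norm _).trans ((B2 _ (him _ le_rfl)).trans e2.le)⟩
    · rw [mul_comm (4 * C ^ 2)]
      refine e0.le.trans (mul_le_mul_of_nonneg_left ?_ hq)
      nlinarith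
    · rw [mul_comm (4 * C ^ 2), e1]
      refine mul_le_mul_of_nonneg_left ?_ hq
      nlinarith

theorem limit_zero {a : ℕ → ℝ} {e : ℕ → ℝ} {l : ℝ} (he : Tendsto e atTop (𝓝 0))
    (ha : Tendsto a atTop (𝓝 l)) (h : ∀ n, 1 ≤ n → |a n| ≤ 4 * e n) : l = 0 := by
  have h1 : Tendsto (fun n => 4 * e n) atTop (𝓝 0) := by simpa using he.const_mul 4
  have h2 : |l| ≤ 0 := by
    refine le_of_tendsto_of_tendsto ha.abs h1 ?_
    filter_upwards [eventually_ge_atTop 1] with n hn using h n hn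
  exact abs_nonpos_iff.mp h2

theorem limit_est {A B D P A' B' D' : ℂ} {a b d κ t e : ℝ} (σ τ : ℝ) (hσ : |σ| = 1) (hτ : |τ| = 1)
    (hA : ‖A - a‖ ≤ e) (hB : ‖B - b‖ ≤ e) (hD : ‖D - d‖ ≤ e) (hP : ‖P‖ ≤ e)
    (hA' : A' = A * (Real.sin t : ℂ)) (hB' : B' = B * (Real.cos t : ℂ)) (hD' : D' = D + κ)
    (h : P = A' + σ * B' + τ * D') :
    |a * Real.sin t + σ * (b * Real.cos t) + τ * (d + κ)| ≤ 4 * e := by
  have e1 : ((a * Real.sin t + σ * (b * Real.cos t) + τ * (d + κ) : ℝ) : ℂ)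
      = P - (A - a) * (Real.sin t : ℂ) - σ * ((B - b) * (Real.cos t : ℂ)) - τ * (D - d) := by
    rw [h, hA', hB', hD']
    simp only [Complex.ofReal_add, Complex.ofReal_mul]
    ring
  rw [← Real.norm_eq_abs, ← Complex.norm_real, e1]
  have n1 : ‖(A - a) * (Real.sin t : ℂ)‖ ≤ e := by
    rw [norm_mul, Complex.norm_real, Real.norm_eq_abs]
    exact (mul_le_of_le_one_right (norm_nonneg _) (Real.abs_sin_le_one t)).trans hA
  have n2 : ‖(σ : ℂ) * ((B - b) * (Real.cos t : ℂ))‖ ≤ e := by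
    rw [norm_mul, norm_mul, Complex.norm_real, Complex.norm_real, Real.norm_eq_abs,
      Real.norm_eq_abs, hσ, one_mul]
    exact (mul_le_of_le_one_right (norm_nonneg _) (Real.abs_cos_le_one t)).trans hB
  have n3 : ‖(τ : ℂ) * (D - d)‖ ≤ e := by
    rwa [norm_mul, Complex.norm_real, Real.norm_eq_abs, hτ, one_mul]
  have t1 := norm_sub_le (P - (A - a) * (Real.sin t : ℂ) - σ * ((B - b) * (Real.cos t : ℂ)))
    (τ * (D - d))
  have t2 := norm_sub_le (P - (A - a) * (Real.sin t : ℂ)) (σ * ((B - b) * (Real.cos t : ℂ)))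
  have t3 := norm_sub_le P ((A - a) * (Real.sin t : ℂ))
  linarith

theorem limit {H : ℝ → ℝ} (hH : ContDiff ℝ 2 H) (hp : Function.Periodic H (2 * π)) {ω C ε : ℝ}
    (hω : 0 < ω) (hC : 1 ≤ C) (Hn : ℕ → ℂ → ℂ) (e : ℕ → ℝ) (he : Tendsto e atTop (𝓝 0))
    (hH0 : ∀ n (x : ℝ), ‖Hn n x - H x‖ ≤ e n) (hH1 : ∀ n (x : ℝ), ‖deriv (Hn n) x - deriv H x‖ ≤ e n)
    (u w k z : ℕ → ℂ → ℂ) (s ϖ ζ : ℕ → ℝ) (hu : ∀ n, Differentiable ℂ (u n))
    (hup : ∀ n x, u n (x + 2 * π) = u n x + 2 * π) (hur : ∀ n, RealOn (u n))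
    (hs : ∀ n, 0 < s n ∧ s n ≤ 1)
    (hbox : ∀ n (x : ℂ), |x.im| ≤ s n → 1 / C ≤ (deriv (u n) x).re ∧ ‖deriv (u n) x‖ ≤ C)
    (hw : ∀ n, RealOn (w n)) (hstep : ∀ n x, u (n + 1) x = u n (x + w n x))
    (hϖ : ∀ n (x : ℝ), ‖w n x‖ ≤ ϖ n) (hsum : Summable ϖ)
    (hz : ∀ n, Hol (z n) (s n) ∧ Per (z n) ∧ RealOn (z n) ∧ SB (z n) (s n) (ζ n))
    (hζ : ∀ N, ∑ n ∈ Finset.range N, ζ n / s n ^ 2 ≤ ε) (hk0 : ∀ x : ℝ, k 0 x = 0)
    (hk : ∀ n (x : ℝ), k (n + 1) x = k n (x + w n x) + z n (x + w n x))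
    (hP : ∀ n, 1 ≤ n → ∀ x : ℝ, ‖Sy (Hn n) (u n x) (u n (x + ω)) - k n (x + ω)‖ ≤ e n)
    (hQ : ∀ n, 1 ≤ n → ∀ x : ℝ, ‖Sx (Hn n) (u n x) (u n (x + ω)) + k n x‖ ≤ e n) :
    ∃ U h : ℝ → ℝ, Continuous U ∧ StrictMono U ∧ (∀ x, U (x + 2 * π) = U x + 2 * π) ∧
      ContDiff ℝ 2 h ∧ Function.Periodic h (2 * π) ∧
      (∀ x, |h x - H x| ≤ 100 * C ^ 4 * ε ∧ |deriv h x - deriv H x| ≤ 100 * C ^ 4 * ε ∧
        |deriv (deriv h) x - deriv (deriv H) x| ≤ 100 * C ^ 4 * ε) ∧
      ∀ x, U (x + ω) - U x ≤ C * ω ∧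
        h (U x) = H ((U x + U (x + ω)) / 2) * Real.cos ((U (x + ω) - U x) / 2) -
          deriv H ((U x + U (x + ω)) / 2) * Real.sin ((U (x + ω) - U x) / 2) ∧
        h (U (x + ω)) = H ((U x + U (x + ω)) / 2) * Real.cos ((U (x + ω) - U x) / 2) +
          deriv H ((U x + U (x + ω)) / 2) * Real.sin ((U (x + ω) - U x) / 2) := by
  have hC0 : 0 < 1 / C := by positivity
  have him : ∀ (x : ℝ) {t : ℝ}, 0 ≤ t → |(x : ℂ).im| ≤ t := fun x t ht => by simpa using ht
  have hb : ∀ n (x : ℝ), 1 / C ≤ (deriv (u n) x).re ∧ ‖deriv (u n) x‖ ≤ C :=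
    fun n x => hbox n x (him x (hs n).1.le)
  have hreal : ∀ {f : ℂ → ℂ}, RealOn f → ∀ x : ℝ, f x = ((f x).re : ℂ) := by
    intro f hf x
    apply Complex.ext
    · simp
    · simpa using hf x
  choose q q1 q2 hq hqp hd1 hd2 hc2 hbd using fun n =>
    limit_pull hC (hs n).1 (hs n).2 (hu n) (hur n) (hup n) (hbox n) (hz n).1 (hz n).2.1
      (hz n).2.2.2
  have hε : 0 ≤ ε := by simpa using hζ 0
  have hζ0 : ∀ n, 0 ≤ ζ n / s n ^ 2 := fun n =>
    div_nonneg ((norm_nonneg _).trans ((hz n).2.2.2 0 (by simpa using (hs n).1.le))) (sq_nonneg _)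
  have hS0 : Summable (fun n => ζ n / s n ^ 2) := summable_of_sum_range_le hζ0 hζ
  have hS : Summable (fun n => 4 * C ^ 2 * (ζ n / s n ^ 2)) := hS0.mul_left _
  have hT : ∑' n, 4 * C ^ 2 * (ζ n / s n ^ 2) ≤ 100 * C ^ 4 * ε := by
    rw [tsum_mul_left]
    have h1 := Real.tsum_le_of_sum_range_le hζ0 hζ
    have h2 : 4 * C ^ 2 ≤ 100 * C ^ 4 := by nlinarith [sq_nonneg C, one_le_pow₀ (n := 2) hC]
    exact mul_le_mul h2 h1 (tsum_nonneg hζ0) (by positivity)
  have hG : ∀ {g : ℕ → ℝ}, (∀ n, |g n| ≤ 4 * C ^ 2 * (ζ n / s n ^ 2)) →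
      |∑' n, g n| ≤ 100 * C ^ 4 * ε := by
    intro g hg
    exact (tsum_of_norm_bounded (f := g) hS.hasSum hg).trans hT
  have hG1 : ∀ x, HasDerivAt (fun t => ∑' n, q n t) (∑' n, q1 n x) x := fun x =>
    hasDerivAt_tsum hS hd1 (fun n y => (hbd n y).2.1)
      (Summable.of_norm_bounded hS (fun n => (hbd n 0).1)) x
  have hG2 : ∀ x, HasDerivAt (fun t => ∑' n, q1 n t) (∑' n, q2 n x) x := fun x =>
    hasDerivAt_tsum hS hd2 (fun n y => (hbd n y).2.2)
      (Summable.of_norm_bounded hS (fun n => (hbd n 0).2.1)) x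
  have hG3 : Continuous (fun x => ∑' n, q2 n x) :=
    continuous_tsum hc2 hS (fun n y => (hbd n y).2.2)
  have hGd1 : deriv (fun t => ∑' n, q n t) = fun t => ∑' n, q1 n t := funext fun x => (hG1 x).deriv
  have hGd2 : deriv (fun t => ∑' n, q1 n t) = fun t => ∑' n, q2 n t := funext fun x => (hG2 x).deriv
  have hGC : ContDiff ℝ 2 (fun t => ∑' n, q n t) := by
    rw [show (2 : WithTop ℕ∞) = 1 + 1 from rfl, contDiff_succ_iff_deriv]
    refine ⟨fun x => (hG1 x).differentiableAt, by simp, ?_⟩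
    rw [hGd1, contDiff_one_iff_deriv, hGd2]
    exact ⟨fun x => (hG2 x).differentiableAt, hG3⟩
  have hH' : Differentiable ℝ H ∧ ContDiff ℝ 1 (deriv H) := by
    rw [show (2 : WithTop ℕ∞) = 1 + 1 from rfl, contDiff_succ_iff_deriv] at hH
    exact ⟨hH.1, hH.2.2⟩
  have hH'' : Differentiable ℝ (deriv H) := (contDiff_one_iff_deriv.mp hH'.2).1
  have hD1 : deriv (fun t => H t + ∑' n, q n t) = fun t => deriv H t + ∑' n, q1 n t :=
    funext fun x => ((hH'.1 x).hasDerivAt.add (hG1 x)).deriv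
  have hD2 : deriv (fun t => deriv H t + ∑' n, q1 n t)
      = fun t => deriv (deriv H) t + ∑' n, q2 n t :=
    funext fun x => ((hH'' x).hasDerivAt.add (hG2 x)).deriv
  have hxw : ∀ n (x : ℝ), (x : ℂ) + w n x = ((x + (w n x).re : ℝ) : ℂ) := by
    intro n x
    rw [Complex.ofReal_add, ← hreal (hw n) x]
  have hkq : ∀ n (x : ℝ), k n x = ((∑ i ∈ Finset.range n, q i (u n x).re : ℝ) : ℂ) := by
    intro n
    induction n with
    | zero => intro x; simp [hk0]
    | succ n ih =>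
      intro x
      rw [hk, hstep, hxw, ih, Finset.sum_range_succ, hq, Complex.ofReal_add (∑ i ∈ _, _),
        ← hreal (hz n).2.2.1]
  have hlip : ∀ n (a b : ℝ), |(u n b).re - (u n a).re| ≤ C * |b - a| := by
    intro n a b
    rcases le_total a b with h | h
    · have h1 := limit_bilip (hu n) (hb n) h
      have h2 : 0 ≤ 1 / C * (b - a) := mul_nonneg hC0.le (sub_nonneg.mpr h)
      rw [abs_of_nonneg (by linarith [h1.1]), abs_of_nonneg (sub_nonneg.mpr h)]
      exact h1.2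
    · have h1 := limit_bilip (hu n) (hb n) h
      have h2 : 0 ≤ 1 / C * (a - b) := mul_nonneg hC0.le (sub_nonneg.mpr h)
      rw [abs_sub_comm, abs_sub_comm b, abs_of_nonneg (by linarith [h1.1]),
        abs_of_nonneg (sub_nonneg.mpr h)]
      exact h1.2
  have hcau : ∀ x : ℝ, ∃ l, Tendsto (fun n => (u n x).re) atTop (𝓝 l) := by
    intro x
    refine cauchySeq_tendsto_of_complete
      (cauchySeq_of_dist_le_of_summable (fun n => C * ϖ n) (fun n => ?_) (hsum.mul_left C))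
    rw [dist_comm, Real.dist_eq, Nat.succ_eq_add_one, hstep, hxw]
    refine (hlip n _ _).trans (mul_le_mul_of_nonneg_left ?_ (by linarith))
    rw [add_sub_cancel_left]
    exact (Complex.abs_re_le_norm _).trans (hϖ n x)
  choose U hU using hcau
  have hUb : ∀ {a b : ℝ}, a ≤ b → 1 / C * (b - a) ≤ U b - U a ∧ U b - U a ≤ C * (b - a) := by
    intro a b hab
    exact ⟨ge_of_tendsto' ((hU b).sub (hU a)) (fun n => (limit_bilip (hu n) (hb n) hab).1),
      le_of_tendsto' ((hU b).sub (hU a)) (fun n => (limit_bilip (hu n) (hb n) hab).2)⟩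
  have hUlip : ∀ a b : ℝ, |U b - U a| ≤ C * |b - a| := fun a b =>
    le_of_tendsto' ((hU b).sub (hU a)).abs (fun n => hlip n a b)
  have hUc : Continuous U := by
    refine (LipschitzWith.of_dist_le_mul (K := ⟨C, by linarith⟩) (fun a b => ?_)).continuous
    rw [Real.dist_eq, Real.dist_eq]
    exact hUlip b a
  have hunif := tendstoUniformly_tsum_nat hS (f := q) (fun n x => (hbd n x).1)
  have hsumlim : ∀ x : ℝ, Tendsto (fun n => ∑ i ∈ Finset.range n, q i (u n x).re) atTop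
      (𝓝 (∑' i, q i (U x))) := fun x =>
    hunif.tendsto_comp (hG1 (U x)).continuousAt (hU x)
  refine ⟨U, fun t => H t + ∑' n, q n t, hUc, fun a b hab => ?_, fun x => ?_, hH.add hGC,
    fun x => ?_, fun x => ?_, fun x => ?_⟩
  · have h1 := (hUb hab.le).1
    have h2 : 0 < 1 / C * (b - a) := mul_pos hC0 (sub_pos.mpr hab)
    linarith
  · refine tendsto_nhds_unique (hU (x + 2 * π)) (((hU x).add_const (2 * π)).congr fun n => ?_)
    push_cast
    rw [hup, Complex.add_re]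
    simp
  · simp only [hp x, hqp]
  · rw [hD1, hD2]
    simp only [add_sub_cancel_left]
    exact ⟨hG fun n => (hbd n x).1, hG fun n => (hbd n x).2.1, hG fun n => (hbd n x).2.2⟩
  · have hm : Tendsto (fun n => ((u n x).re + (u n (x + ω : ℝ)).re) / 2) atTop
        (𝓝 ((U x + U (x + ω)) / 2)) := ((hU x).add (hU (x + ω))).div_const 2
    have hd : Tendsto (fun n => ((u n (x + ω : ℝ)).re - (u n x).re) / 2) atTop
        (𝓝 ((U (x + ω) - U x) / 2)) := ((hU (x + ω)).sub (hU x)).div_const 2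
    have l1 := ((hH''.continuous.tendsto _).comp hm).mul ((Real.continuous_sin.tendsto _).comp hd)
    have l2 := ((hH'.1.continuous.tendsto _).comp hm).mul ((Real.continuous_cos.tendsto _).comp hd)
    have l3 := fun y => ((hH'.1.continuous.tendsto _).comp (hU y)).add (hsumlim y)
    have em : ∀ n, (u n x + u n (x + ω : ℝ)) / 2
        = ((((u n x).re + (u n (x + ω : ℝ)).re) / 2 : ℝ) : ℂ) := by
      intro n
      rw [Complex.ofReal_div, Complex.ofReal_add (u n x).re, ← hreal (hur n), ← hreal (hur n)]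
      simp
    have ed : ∀ n, (u n (x + ω : ℝ) - u n x) / 2
        = ((((u n (x + ω : ℝ)).re - (u n x).re) / 2 : ℝ) : ℂ) := by
      intro n
      rw [Complex.ofReal_div, Complex.ofReal_sub, ← hreal (hur n), ← hreal (hur n)]
      simp
    have Z1 := limit_zero he ((l1.add (l2.const_mul (-1))).add ((l3 x).const_mul 1)) (fun n hn => by
      have h1 := hQ n hn x
      rw [← Complex.ofReal_add] at h1
      refine limit_est (-1) 1 (by simp) (by simp) (hH1 n _) (hH0 n _) (hH0 n (u n x).re) h1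
        rfl rfl rfl ?_
      rw [Sx, em, ed, ← Complex.ofReal_sin, ← Complex.ofReal_cos, ← hreal (hur n), ← hkq]
      push_cast
      ring)
    have Z2 := limit_zero he ((l1.add (l2.const_mul 1)).add ((l3 (x + ω)).const_mul (-1)))
      (fun n hn => by
      have h1 := hP n hn x
      rw [← Complex.ofReal_add] at h1
      refine limit_est 1 (-1) (by simp) (by simp) (hH1 n _) (hH0 n _)
        (hH0 n (u n (x + ω : ℝ)).re) h1 rfl rfl rfl ?_
      rw [Sy, em, ed, ← Complex.ofReal_sin, ← Complex.ofReal_cos, ← hreal (hur n), ← hkq]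
      push_cast
      ring)
    refine ⟨?_, by linarith, by linarith⟩
    have := (hUb (a := x) (b := x + ω) (by linarith)).2
    rwa [add_sub_cancel_left] at this

end Pool.Agent.Lib.MP_abef03_an
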