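import Mathlib

/-! The parameters of the scheme and the inequalities they have to satisfy. -/

namespace Pool.Agent.Lib.MP_abef03_an

open Real

structure Nums where
  G : ℝ
  μ : ℝ
  ε : ℝ
  L : ℕ
  N : ℕ → ℕ
  M : ℕ → ℕ
  σ : ℕ → ℝ
  lam : ℕ → ℝ
  r : ℕ → ℝ
  p : ℕ → ℝ
  φ : ℕ → ℝ
  Λ : ℕ → ℝ
  Λ₀ : ℕ → ℝ
  t : ℕ → ℝ
  γ : ℕ → ℝ
  ϖ : ℕ → ℝ
  D : ℕ → ℝ
  πb : ℕ → ℝ
  b : ℕ → ℝ
  δ : ℕ → ℝ
  nn : ℕ → ℕ → ℕ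
  ϱ : ℕ → ℕ → ℝ
  Λp : ℕ → ℕ → ℝ

namespace Nums

variable (S : Nums)

noncomputable def C : ℝ := 200 * S.G ^ 4

noncomputable def l (j k : ℕ) : ℝ := 1 / 2 ^ S.nn j k

noncomputable def τ : ℕ → ℝ
  | 0 => 1 / (200 * S.G ^ 2 * S.N 0)
  | n + 1 => S.σ n / 64

noncomputable def h : ℕ → ℝ
  | 0 => S.μ / 100
  | n + 1 => S.lam n / 4

/-- Conditions for the main step. -/
structure OkA : Prop where
  G1 : 1 ≤ S.G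
  μ0 : 0 < S.μ
  pos : ∀ n, 0 < S.σ n ∧ 0 < S.lam n ∧ 0 < S.r n ∧ 0 < S.p n ∧ 0 < S.φ n ∧ 0 < S.Λ n ∧
    0 < S.Λ₀ n ∧ 0 < S.t n ∧ 0 < S.δ n
  t1 : ∀ n, S.t n ≤ 1
  r1 : ∀ n, S.r n ≤ S.σ n / 16
  r2 : ∀ n, S.r n ≤ S.μ / 2
  s5 : ∀ n, exp (-(S.M n * (S.σ n / 2))) ≤ S.t n ^ 2 * S.σ n / 1000
  s6a : ∀ n, S.Λ n * S.φ n ≤ S.p n
  s6b : ∀ n, 4 * S.C ^ 3 * S.p n / S.μ ≤ S.γ n
  s6c : ∀ n, S.Λ₀ n * S.γ n ≤ S.ϖ n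
  s6d : ∀ n, S.γ n ≤ S.r n / 8
  s6e : ∀ n, 48 * S.C * S.μ * S.γ n ^ 2 / S.r n + 8 * S.C * S.μ * S.γ n * S.ϖ n / S.σ n +
    16 * S.p n * S.ϖ n / S.σ n + 2 * S.C * S.μ * S.t n * S.γ n ≤ S.p (n + 1) / 3
  s6f : ∀ n, S.t n * S.φ n + 2 * S.γ n * (4 * S.C ^ 2 * S.p n + 2 * S.C * S.μ * S.γ n) ≤
    S.φ (n + 1) / 2
  s7a : ∀ n, S.πb n ≤ S.p n / 3
  s7b : ∀ n, S.ϱ n S.L ≤ S.φ n / 2
  s9a : ∀ n, 3200 * S.G ^ 2 * S.ϖ n / S.σ n ≤ (1 / 2) ^ n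
  s9b : ∀ n, S.D n + 8 * S.G * S.ϖ n / S.lam n ≤ S.D (n + 1)
  D0 : S.D 0 = 0
  s10 : ∀ n, S.lam n ≤ 6 * S.l n S.L

/-- Conditions for the pending blocks. -/
structure OkB : Prop where
  pos : ∀ j k, 0 ≤ S.ϱ j k ∧ 0 ≤ S.Λp j k
  p1 : ∀ j k, k ≤ S.L → 3 * S.l j k ≤ S.h (j + k - S.L)
  p2 : ∀ j k, k ≤ S.L → 4 * 16 ^ S.L * S.σ j ≤ S.τ (j + k - S.L)
  p3 : ∀ j k, k ≤ S.L →
    8 * S.G * 16 ^ S.L * S.σ j + 3 * S.l j k * S.D (j + k - S.L) ≤ 1 / (4 * S.N (j + 1))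
  p4 : ∀ j k, k ≤ S.L → 192 * S.l j k ≤ S.σ j
  p5 : ∀ j k, k < S.L → 8 * S.l j (k + 1) ≤ S.l j k
  p6 : ∀ j k, k ≤ S.L → 6 * S.M j * S.l j k ≤ 1
  p7 : ∀ j k, k < S.L → S.L ≤ j + k →
    6 * S.ϖ (j + k - S.L) * S.l j (k + 1) / S.lam (j + k - S.L) ≤ S.σ j
  p8 : ∀ j k, k < S.L → S.γ (j + k - S.L) ≤ S.σ j
  p9 : ∀ j, exp (-(S.M j * S.σ j)) ≤ S.b j ^ 2
  p10 : ∀ j k, k < S.L → 64 * S.l j (k + 1) / (S.l j k * S.δ j) ≤ S.b j ^ 2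
  p11 : ∀ j k, k < S.L → 256 * S.ϱ j k ^ 2 * S.b j ^ 2 + 8 * (S.πb j * (2 * S.γ (j + k - S.L))) ^ 2 +
    9216 * (2 * S.γ (j + k - S.L)) ^ 2 * (S.ϱ j k / (6 * S.l j (k + 1))) ^ 2 ≤ 2 * S.ϱ j (k + 1) ^ 2
  p12 : ∀ j k, k < S.L →
    72 * (S.ϱ j k / (6 * S.l j (k + 1))) ^ 2 ≤ (S.ϱ j (k + 1) / (6 * S.l j (k + 2))) ^ 2
  p13 : ∀ j k, k < S.L → 2 * S.M j / S.μ ^ 2 + 4 / (S.δ j * (6 * S.l j (k + 1))) * (2 * S.M j ^ 2) ≤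
    S.Λp j k ^ 2 / 144
  p14 : ∀ j k, k < S.L → 3 * 4 ^ S.L * (S.Λp j k * S.ϱ j k) ≤ S.p j

/-- Conditions for the blocks, the start, the limit and the measure. -/
structure OkC : Prop where
  n1 : ∀ n, 10 ^ 6 * S.G ^ 8 ≤ S.N n
  n2 : ∀ n, S.N n ≤ S.N (n + 1)
  n3 : ∀ n, n ≤ S.N n
  n4 : 60 * S.G ^ 3 * S.μ * S.N 0 ≤ 1
  bl1 : ∀ n, 48 * S.G * S.μ * S.N (n + 1) ≤ 1 →
    64 * S.G ^ 3 * (6 * S.G * S.μ) ^ 6 / S.N n ^ 4 ≤ S.ϱ n 0 ^ 2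
  bl2 : ∀ n, 1 ≤ 48 * S.G * S.μ * S.N (n + 1) →
    256 * S.G ^ 3 * (12 * S.G * S.μ) ^ 2 / S.N n ^ 8 + 384 * S.G ^ 3 / S.N n ^ 10 ≤ S.ϱ n 0 ^ 2
  bl3 : ∀ n, 48 * S.G * S.μ * S.N (n + 1) ≤ 1 →
    4 * S.G * sqrt (S.N n) / S.N n ^ 2 * (6 * S.G * S.μ) ^ 2 * (2 * S.G) ≤ S.πb n
  bl4 : ∀ n, 1 ≤ 48 * S.G * S.μ * S.N (n + 1) →
    (4 * S.G * sqrt (S.N n) / S.N n ^ 3 * (6 * S.G * S.μ) +
      3 * (4 * S.G * sqrt (S.N n) / S.N n ^ 4)) * (2 * S.G) ≤ S.πb n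
  in1 : 12 * 10 ^ 6 * S.G ^ 15 * S.μ ^ 3 ≤ S.p 0
  in2 : 24 * 10 ^ 6 * S.G ^ 15 * S.μ ^ 4 ≤ S.φ 0
  l1 : ∀ n, 8 * S.G * S.C ^ 2 * S.p n / S.σ n ^ 2 ≤ S.ε / 4 * (1 / 2) ^ n
  l2 : 2 * S.G ^ 2 * S.μ ^ 2 / S.σ 0 ^ 2 ≤ S.ε / 2
  l3 : ∀ n, S.φ n ≤ S.σ n * S.p n
  m1 : ∀ n, 4 * S.M n ^ 2 * S.lam n + (2 + 4 * S.L) * S.δ n ≤ 1 / 4 * (1 / 2) ^ n
  m2 : ∀ n, 2 * S.M n / S.μ ^ 2 + 4 / (S.δ n * S.lam n) * (2 * S.M n ^ 2) ≤ S.Λ n ^ 2 / 144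
  m3 : ∀ n, 4 / S.μ ^ 2 + 4 / (S.δ n * S.lam n) * (2 * (1 + log (S.M n))) ≤ S.Λ₀ n ^ 2 / 144

end Nums

/-! The concrete choice: `a = 1/10^4`, `κ = 1/10^7`, `g = 1/100`, `ξ = 16/10^5`, `L = 150`. -/

noncomputable def ee (E : ℝ) (n : ℕ) : ℝ := (1 + 1 / 10 ^ 4) ^ n * E

noncomputable def et (E : ℝ) (n : ℕ) : ℝ := max (ee E (n + 1)) (19 / 10 * E)

noncomputable def lx (E : ℝ) (j k : ℕ) : ℝ :=
  (2 + 6 / 10 ^ 7 - 16 / 10 ^ 5 * (150 - k)) * ee E (j + 1)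

noncomputable def la (E : ℝ) (n : ℕ) : ℝ :=
  max ((1 / 2 + 6 / 10 ^ 7) * ee E (n + 1) + et E n) ((2 + 6 / 10 ^ 7) * ee E (n + 1))

noncomputable def conc (G ε E : ℝ) : Nums where
  G := G
  μ := exp (-(19 / 10 * E))
  ε := ε
  L := 150
  N n := ⌊exp (ee E n)⌋₊
  M n := ⌈exp ((1 + 2 / 10 ^ 7) * ee E (n + 1))⌉₊
  σ n := exp (-((1 + 1 / 10 ^ 7) * ee E (n + 1)))
  lam n := exp (-((2 + 6 / 10 ^ 7) * ee E (n + 1)))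
  r n := exp (-(et E n + 2 / 10 ^ 7 * ee E (n + 1)))
  p n := exp (-(19 / 10 * E + 101 / 100 * ee E (n + 1) + et E n))
  φ n := exp (-(19 / 10 * E + 101 / 100 * ee E (n + 1) + et E n + la E n))
  Λ n := exp (la E n)
  Λ₀ n := exp (et E n + 4 / 10 ^ 7 * ee E (n + 1))
  t n := exp (-ee E (n + 1))
  γ n := exp (-((101 / 100 - 1 / 10 ^ 7) * ee E (n + 1) + et E n))
  ϖ n := exp (-((101 / 100 - 5 / 10 ^ 7) * ee E (n + 1)))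
  D n := if n = 0 then 0 else exp ((99 / 100 + 13 / 10 ^ 7) * ee E n)
  πb n := exp (-(19 / 10 * E + 5 / 4 * ee E (n + 1) + et E n))
  b n := exp (-((8 / 10 ^ 5 - 75 / 10 ^ 9) * ee E (n + 1)))
  δ n := exp (-(1 / 10 ^ 7 * ee E (n + 1)))
  nn j k := ⌈lx E j k / log 2⌉₊
  ϱ j k := exp (-(19 / 10 * E + 2 * et E j +
    (2 - 5 / 10 ^ 4 - 1 / 10 ^ 7 + k * (8 / 10 ^ 5 - 1 / 10 ^ 7)) * ee E (j + 1)))
  Λp j k := exp (max ((1 / 2 + 6 / 10 ^ 7) * ee E (j + 1) + et E j)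
    ((2 + 6 / 10 ^ 7 - 8 / 10 ^ 5 * (149 - k)) * ee E (j + 1)))

/-- The size condition. -/
structure Big (G ε E : ℝ) : Prop where
  G1 : 1 ≤ G
  ε0 : 0 < ε
  ε1 : ε ≤ 1
  E1 : 10 ^ 12 ≤ E
  big : 10 ^ 200 * G ^ 20 / ε ≤ exp (E / 10 ^ 8)

section basic

variable {G ε E : ℝ}

theorem ee_zero : ee E 0 = E := by simp [ee]

theorem ee_succ (n : ℕ) : ee E (n + 1) = (1 + 1 / 10 ^ 4) * ee E n := by
  rw [ee, ee, pow_succ]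
  ring

theorem ee_ge (hE : 0 ≤ E) (n : ℕ) : (1 + n / 10 ^ 4) * E ≤ ee E n := by
  have := one_add_mul_le_pow (a := (1 / 10 ^ 4 : ℝ)) (by norm_num) n
  rw [ee]
  gcongr
  simpa [div_eq_mul_inv] using this

theorem le_ee (hE : 0 ≤ E) (n : ℕ) : E ≤ ee E n :=
  le_trans (le_mul_of_one_le_left hE (le_add_of_nonneg_right (by positivity))) (ee_ge hE n)

theorem ee_mono (hE : 0 ≤ E) {m n : ℕ} (h : m ≤ n) : ee E m ≤ ee E n := by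
  unfold ee
  gcongr
  norm_num

theorem ee_add (n t : ℕ) : ee E (n + t) = (1 + 1 / 10 ^ 4) ^ t * ee E n := by
  rw [ee, ee, pow_add]
  ring

/-- Lower bound going back `t` levels. -/
theorem ee_back_ge (hE : 0 ≤ E) (n t : ℕ) : (1 - t / 10 ^ 4) * ee E (n + t) ≤ ee E n := by
  have h0 := hE.trans (le_ee hE n)
  induction t with
  | zero => simp
  | succ t ih =>
    have h1 := hE.trans (le_ee hE (n + t))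
    rw [← add_assoc, ee_succ]
    push_cast
    nlinarith [mul_nonneg (Nat.cast_nonneg (α := ℝ) t) h1]

/-- Upper bound going back `t` levels. -/
theorem ee_back_le (hE : 0 ≤ E) (n : ℕ) {t : ℕ} (ht : t ≤ 151) :
    ee E n ≤ (1 - 98 / 10 ^ 6 * t) * ee E (n + t) := by
  have h0 := hE.trans (le_ee hE n)
  have h1 := ee_ge h0 t
  have h2 : ee E (n + t) = ee (ee E n) t := by rw [ee_add]; rfl
  have h3 : (t : ℝ) ≤ 151 := by exact_mod_cast ht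
  have h4 : (0 : ℝ) ≤ t := Nat.cast_nonneg t
  rw [h2]
  refine le_trans ?_ (mul_le_mul_of_nonneg_left h1 (by linarith))
  rw [← mul_assoc]
  exact le_mul_of_one_le_left h0 (by nlinarith)

theorem N_le (n : ℕ) : ((conc G ε E).N n : ℝ) ≤ exp (ee E n) := Nat.floor_le (exp_pos _).le

theorem le_N (hE : 0 ≤ E) (n : ℕ) : exp (ee E n) / 2 ≤ (conc G ε E).N n := by
  have h1 : 1 ≤ exp (ee E n) := one_le_exp (hE.trans (le_ee hE n))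
  have h2 := Nat.lt_floor_add_one (exp (ee E n))
  have h3 : (1 : ℝ) ≤ ⌊exp (ee E n)⌋₊ := by exact_mod_cast Nat.one_le_floor_iff _ |>.mpr h1
  change _ ≤ (⌊exp (ee E n)⌋₊ : ℝ)
  linarith

theorem le_M (n : ℕ) : exp ((1 + 2 / 10 ^ 7) * ee E (n + 1)) ≤ (conc G ε E).M n := Nat.le_ceil _

theorem M_le (hE : 0 ≤ E) (n : ℕ) :
    ((conc G ε E).M n : ℝ) ≤ 2 * exp ((1 + 2 / 10 ^ 7) * ee E (n + 1)) := by
  have h1 : 1 ≤ exp ((1 + 2 / 10 ^ 7) * ee E (n + 1)) :=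
    one_le_exp (mul_nonneg (by norm_num) (hE.trans (le_ee hE _)))
  have h2 := Nat.ceil_lt_add_one (exp_pos ((1 + 2 / 10 ^ 7) * ee E (n + 1))).le
  change (⌈exp ((1 + 2 / 10 ^ 7) * ee E (n + 1))⌉₊ : ℝ) ≤ _
  linarith

theorem l_eq (j k : ℕ) : (conc G ε E).l j k = exp (-(⌈lx E j k / log 2⌉₊ * log 2)) := by
  rw [exp_neg, exp_nat_mul, exp_log two_pos, ← one_div]
  rfl

theorem l_le (j k : ℕ) : (conc G ε E).l j k ≤ exp (-lx E j k) := by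
  rw [l_eq, exp_le_exp, neg_le_neg_iff, ← div_le_iff₀ (log_pos one_lt_two)]
  exact Nat.le_ceil _

theorem le_l (hE : 0 ≤ E) (j k : ℕ) : exp (-lx E j k) / 2 ≤ (conc G ε E).l j k := by
  have h0 : 0 ≤ lx E j k := mul_nonneg (by nlinarith [Nat.cast_nonneg (α := ℝ) k])
    (hE.trans (le_ee hE _))
  have h1 := (Nat.ceil_lt_add_one (div_nonneg h0 (log_pos one_lt_two).le)).le
  have h2 := mul_le_mul_of_nonneg_right h1 (log_pos one_lt_two).le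
  rw [add_mul, div_mul_cancel₀ _ (log_pos one_lt_two).ne', one_mul] at h2
  rw [l_eq, ← exp_log two_pos, ← exp_sub, exp_log two_pos, exp_le_exp]
  linarith

/-- Absorbing a constant. -/
theorem Big.absorb (h : Big G ε E) {c x y : ℝ} (hc : c ≤ 10 ^ 200 * G ^ 20 / ε)
    (hxy : x + E / 10 ^ 8 ≤ y) : c * exp x ≤ exp y :=
  (mul_le_mul_of_nonneg_right (hc.trans h.big) (exp_pos x).le).trans
    (by rw [← exp_add, exp_le_exp]; linarith)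

theorem Big.le_const (h : Big G ε E) {c : ℝ} {i : ℕ} (hc : c ≤ 10 ^ 200) (hi : i ≤ 20) :
    c * G ^ i ≤ 10 ^ 200 * G ^ 20 / ε := by
  have h1 := h.G1
  have h2 : G ^ i ≤ G ^ 20 := pow_le_pow_right₀ h1 hi
  have h3 : c * G ^ i ≤ 10 ^ 200 * G ^ 20 := mul_le_mul hc h2 (by positivity) (by positivity)
  exact h3.trans (le_div_self (by positivity) h.ε0 h.ε1)

theorem Big.geom (h : Big G ε E) (n : ℕ) :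
    exp (-(n / 10 ^ 11 * E)) ≤ (1 / 2) ^ n := by
  have h1 : exp (-(n / 10 ^ 11 * E)) ≤ exp (-1) ^ n := by
    rw [← exp_nat_mul, exp_le_exp]
    nlinarith [Nat.cast_nonneg (α := ℝ) n, h.E1]
  refine h1.trans (pow_le_pow_left₀ (exp_pos _).le ?_ n)
  rw [exp_neg, ← one_div]
  exact one_div_le_one_div_of_le two_pos (by linarith [add_one_le_exp (1 : ℝ)])

end basic

end Pool.Agent.Lib.MP_abef03_an
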