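import Mathlib
import Pool.Agent.Lib.MP_abef03_an.An
import Pool.Agent.Lib.MP_abef03_an.Num
import Pool.Agent.Lib.MP_abef03_an.Blocks

/-! The setting of the induction, and bounds for the blocks. -/

namespace Pool.Agent.Lib.MP_abef03_an

open Complex Set
open scoped Real

theorem WB.strip {f : ℂ → ℂ} {σ σ' A : ℝ} (h : WB f σ A) (h1 : σ' ≤ σ) : WB f σ' A := fun B hB =>
  le_trans (Finset.sum_le_sum fun m _ => by gcongr) (h B hB)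

theorem WB_add {f g : ℂ → ℂ} {σ A A' : ℝ} (hf : Differentiable ℂ f) (hg : Differentiable ℂ g)
    (h : WB f σ A) (h' : WB g σ A') : WB (fun z => f z + g z) σ (2 * A + 2 * A') := by
  intro B hB
  have e : ∀ m, coef (fun z => f z + g z) m = coef f m + coef g m := fun m => by
    simpa using coef_sub_smul (hol_of_diff hf 0) (hol_of_diff hg 0) (-1) m
  refine le_trans ?_ (add_le_add (mul_le_mul_of_nonneg_left (h B hB) zero_le_two)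
    (mul_le_mul_of_nonneg_left (h' B hB) zero_le_two))
  rw [Finset.mul_sum, Finset.mul_sum, ← Finset.sum_add_distrib]
  refine Finset.sum_le_sum fun m _ => ?_
  have h1 : ‖coef f m + coef g m‖ ^ 2 ≤ 2 * ‖coef f m‖ ^ 2 + 2 * ‖coef g m‖ ^ 2 := by
    have := pow_le_pow_left₀ (norm_nonneg _) (norm_add_le (coef f m) (coef g m)) 2
    nlinarith [sq_nonneg (‖coef f m‖ - ‖coef g m‖)]
  rw [e]
  nlinarith [mul_le_mul_of_nonneg_right h1 (Real.exp_pos (2 * |(m : ℝ)| * σ)).le]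

theorem norm_coef_rho (a : ℂ) (m : ℤ) : ‖(1 - (m : ℂ) ^ 2) * a‖ = |1 - (m : ℝ) ^ 2| * ‖a‖ := by
  rw [norm_mul, ← Real.norm_eq_abs, ← norm_real]
  push_cast
  rfl

theorem one_le_abs_of_blk {N N' : ℕ} {m : ℤ} (h : m ∈ blk N N') : 1 ≤ |(m : ℝ)| := by
  have : m ≠ 0 := by
    rintro rfl
    exact zero_not_mem_blk _ _ h
  exact_mod_cast Int.one_le_abs this

theorem rho_Hc {a : ℤ → ℂ} {G : ℝ} (hG : 0 ≤ G)
    (ha : ∀ A : Finset ℤ, ∑ m ∈ A, (1 + |(m : ℝ)|) ^ 8 * ‖a m‖ ^ 2 ≤ (G / 5) ^ 2) {N : ℕ}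
    (hN : (0 : ℝ) < N) : SB (rho (Hc a N)) (1 / N) G ∧ SB (deriv (rho (Hc a N))) (1 / N) G := by
  rw [Hc, rho_tp, deriv_tp]
  constructor <;> refine (SB_tp _ _ _).mono le_rfl ((cut_abs (by linarith) ha
    (by rw [mul_one_div_cancel hN.ne']) fun m => ?_).trans (by linarith))
  · rw [norm_coef_rho]
    gcongr
    have h0 := abs_nonneg (m : ℝ)
    rw [abs_le, ← sq_abs (m : ℝ)]
    constructor <;> nlinarith [mul_nonneg h0 (mul_nonneg h0 h0)]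
  · rw [norm_mul, norm_coef_rho, norm_mul, norm_I, one_mul, norm_intCast, ← mul_assoc]
    gcongr
    have h0 := abs_nonneg (m : ℝ)
    have h1 : |1 - (m : ℝ) ^ 2| ≤ 1 + |(m : ℝ)| ^ 2 := by
      rw [abs_le, sq_abs]
      constructor <;> nlinarith [sq_nonneg (m : ℝ)]
    nlinarith [mul_le_mul_of_nonneg_left h1 h0]

noncomputable def Nums.s (S : Nums) (j k : ℕ) : ℝ := 2 * S.σ j * 16 ^ (S.L - k)

/-- All the data and hypotheses at a fixed real frequency. -/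
structure Ctx where
  S : Nums
  P : Par
  B : ℕ → ℕ → Finset ℤ
  ω₀ : ℝ
  A : S.OkA
  Bo : S.OkB
  Co : S.OkC
  eN : P.N = S.N
  eM : P.M = S.M
  eL : P.L = S.L
  sym : ∀ m, P.a (-m) = starRingEnd ℂ (P.a m)
  sum : ∀ A : Finset ℤ, ∑ m ∈ A, (1 + |(m : ℝ)|) ^ 8 * ‖P.a m‖ ^ 2 ≤ (S.G / 5) ^ 2
  pos : ∀ n (x : ℝ), 9 / S.G ≤ (rho (P.H n) x).re
  du : Differentiable ℂ P.u0
  pu : UP P.u0
  ru : RealOn P.u0
  hκ : |P.κ| ≤ S.G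
  i1 : ∀ z : ℂ, |z.im| ≤ 2 * S.τ 0 → Box (deriv P.u0 z) (3 / (4 * S.G)) (3 * S.G / 2) (1 / (1000 * S.G)) ∧
    ‖rho (P.H 0) (P.u0 z) * deriv P.u0 z ^ 3 - P.κ‖ ≤ S.μ
  i2 : ∀ z z' : ℂ, |z.im| ≤ 2 * S.τ 0 → |z'.im| ≤ 2 * S.τ 0 →
    ‖deriv P.u0 z - deriv P.u0 z'‖ ≤ 100 * S.G ^ 6 * ‖z - z'‖ + S.μ
  hω₀ : ω₀ ∈ Icc S.μ (2 * S.μ)
  g1 : ∀ n, ∀ m ∈ full (S.M n), S.lam n ≤ dd m ω₀
  g2 : ∀ n, ∑ m ∈ full (S.M n), 1 / (dd m ω₀ ^ 2 + S.lam n ^ 2) ≤ S.Λ n ^ 2 / 144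
  g3 : ∀ n, ∑ m ∈ full (S.M n), (1 / (m : ℝ) ^ 2) / (dd m ω₀ ^ 2 + S.lam n ^ 2) ≤ S.Λ₀ n ^ 2 / 144
  g4 : ∀ j k, B j k ⊆ full (S.M j) ∧ (∀ m ∈ B j k, -m ∈ B j k) ∧
    ∀ m ∈ B j k, 6 * S.l j (k + 1) ≤ dd m ω₀
  g5 : ∀ j k, k < S.L →
    ∑ m ∈ full (S.M j), 1 / (dd m ω₀ ^ 2 + (6 * S.l j (k + 1)) ^ 2) ≤ S.Λp j k ^ 2 / 144
  g6 : ∀ j k, k < S.L → ∃ c : ℝ, |ω₀ - c| ≤ S.l j k / 2 ∧
    ∑ m ∈ full (S.M j) \ B j k, beta (fun ω => P.RR B ω j k) c (S.l j k) (S.s j k) m ≤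
      S.b j ^ 2 / 4 * ∑ m ∈ full (S.M j), beta (fun ω => P.RR B ω j k) c (S.l j k) (S.s j k) m

namespace Nums

variable {S : Nums}

theorem l_pos (j k : ℕ) : 0 < S.l j k := by
  unfold l
  positivity

theorem N_pos (A : S.OkA) (C : S.OkC) (n : ℕ) : (1 : ℝ) ≤ S.N n :=
  le_trans (by nlinarith [one_le_pow₀ (n := 8) A.G1]) (C.n1 n)

theorem N_ge (A : S.OkA) (C : S.OkC) (n : ℕ) : 100 * S.G ^ 2 ≤ S.N n := by
  have := pow_le_pow_right₀ A.G1 (show 2 ≤ 8 by norm_num)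
  nlinarith [C.n1 n, sq_nonneg S.G]

theorem Gμ3 (A : S.OkA) (C : S.OkC) : 1000 * S.G ^ 3 * S.μ ≤ 1 := by
  have h1 := A.G1
  have h2 := A.μ0
  have h3 : (100 : ℝ) ≤ S.N 0 := le_trans (by nlinarith) (N_ge A C 0)
  nlinarith [C.n4, mul_le_mul_of_nonneg_left h3 (show 0 ≤ S.G ^ 3 * S.μ by positivity)]

theorem Gμ (A : S.OkA) (C : S.OkC) : 1000 * S.G * S.μ ≤ 1 := by
  have := pow_le_pow_right₀ A.G1 (show 1 ≤ 3 by norm_num)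
  nlinarith [Gμ3 A C, A.μ0]

theorem h_succ (A : S.OkA) (B : S.OkB) (n : ℕ) : 2 * S.h (n + 1) ≤ S.h n := by
  have h1 := B.p1 n S.L le_rfl
  rw [Nat.add_sub_cancel] at h1
  have := A.s10 n
  change 2 * (S.lam n / 4) ≤ _
  linarith

theorem h_pos (A : S.OkA) : ∀ n, 0 < S.h n
  | 0 => by have := A.μ0; unfold h; positivity
  | n + 1 => by have := (A.pos n).2.1; unfold h; positivity

theorem h_anti (A : S.OkA) (B : S.OkB) : Antitone S.h :=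
  antitone_nat_of_succ_le fun n => by linarith [h_succ A B n, h_pos A (n + 1)]

theorem l_le_μ (A : S.OkA) (B : S.OkB) {j k : ℕ} (hk : k ≤ S.L) : 3 * S.l j k ≤ S.μ / 100 :=
  (B.p1 j k hk).trans (h_anti A B (Nat.zero_le _))

theorem s_ge (A : S.OkA) (j k : ℕ) : 2 * S.σ j ≤ S.s j k :=
  le_mul_of_one_le_right (by linarith [(A.pos j).1]) (one_le_pow₀ (by norm_num))

theorem s_le (A : S.OkA) (j k : ℕ) : S.s j k ≤ 2 * S.σ j * 16 ^ S.L :=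
  mul_le_mul_of_nonneg_left (pow_le_pow_right₀ (by norm_num) (Nat.sub_le _ _))
    (by linarith [(A.pos j).1])

theorem s_succ {j k : ℕ} (hk : k < S.L) : S.s j (k + 1) = S.s j k / 16 := by
  rw [s, s, show S.L - k = S.L - (k + 1) + 1 by omega, pow_succ]
  ring

theorem s_last (j : ℕ) : S.s j S.L = 2 * S.σ j := by simp [s]

theorem s_τ (A : S.OkA) (B : S.OkB) {j k k' : ℕ} (hk : k ≤ S.L) :
    2 * S.s j k' ≤ S.τ (j + k - S.L) := by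
  linarith [B.p2 j k hk, s_le A j k']

theorem σ_τ (A : S.OkA) (B : S.OkB) (n : ℕ) : 4 * S.σ n ≤ S.τ n := by
  have := s_τ A B (j := n) (k' := S.L) le_rfl
  rw [Nat.add_sub_cancel, s_last] at this
  linarith

theorem γ_pos (A : S.OkA) (n : ℕ) : 0 ≤ S.γ n := by
  have := A.G1
  have := A.μ0
  have := (A.pos n).2.2.2.1
  exact le_trans (by unfold C; positivity) (A.s6b n)

theorem ϖ_pos (A : S.OkA) (n : ℕ) : 0 ≤ S.ϖ n :=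
  le_trans (mul_nonneg (A.pos n).2.2.2.2.2.2.1.le (γ_pos A n)) (A.s6c n)

theorem D_pos (A : S.OkA) : ∀ n, 0 ≤ S.D n
  | 0 => A.D0.ge
  | n + 1 => by
    have := A.G1
    have := ϖ_pos A n
    have := (A.pos n).2.1
    have := D_pos A n
    exact le_trans (by positivity) (A.s9b n)

theorem s_N (A : S.OkA) (B : S.OkB) {j k : ℕ} (hk : k ≤ S.L) :
    4 * S.G * S.s j k + S.D (j + k - S.L) * (3 * S.l j k) ≤ 1 / (4 * S.N (j + 1)) := by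
  have := mul_le_mul_of_nonneg_left (s_le A j k) (show 0 ≤ 4 * S.G by linarith [A.G1])
  linarith [B.p3 j k hk]

theorem σ_le (A : S.OkA) (B : S.OkB) (C : S.OkC) (n : ℕ) : S.σ n ≤ 1 := by
  have h1 := s_N A B (j := n) le_rfl
  have h2 : 1 / (4 * (S.N (n + 1) : ℝ)) ≤ 1 := by
    rw [div_le_one (by linarith [N_pos A C (n + 1)])]
    linarith [N_pos A C (n + 1)]
  have h3 := mul_nonneg (D_pos A (n + S.L - S.L)) (show 0 ≤ 3 * S.l n S.L by linarith [l_pos (S := S) n S.L])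
  rw [s_last] at h1
  nlinarith [A.G1, (A.pos n).1]

theorem ϖ_le (A : S.OkA) (n : ℕ) : 3200 * S.ϖ n ≤ (1 / 2) ^ n * S.σ n := by
  have h1 := A.s9a n
  rw [div_le_iff₀ (A.pos n).1] at h1
  nlinarith [mul_le_mul_of_nonneg_right (one_le_pow₀ (n := 2) A.G1) (ϖ_pos A n)]

theorem ϖ_le' (A : S.OkA) (n : ℕ) : 3200 * S.ϖ n ≤ S.σ n :=
  (ϖ_le A n).trans (mul_le_of_le_one_left (A.pos n).1.le (pow_le_one₀ (by norm_num) (by norm_num)))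

theorem C_ge (A : S.OkA) : 1 ≤ S.C := by
  unfold C
  nlinarith [one_le_pow₀ (n := 4) A.G1]

end Nums

namespace Ctx

variable (X : Ctx)

theorem G0 : 0 < X.S.G := one_pos.trans_le X.A.G1

theorem N0 (n : ℕ) : (0 : ℝ) < X.S.N n := one_pos.trans_le (Nums.N_pos X.A X.Co n)

theorem N1 (n : ℕ) : 1 ≤ X.S.N n := by exact_mod_cast Nums.N_pos X.A X.Co n

theorem sum' (A : Finset ℤ) : ∑ m ∈ A, (1 + |(m : ℝ)|) ^ 8 * ‖X.P.a m‖ ^ 2 ≤ X.S.G ^ 2 :=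
  (X.sum A).trans (by nlinarith [sq_nonneg X.S.G])

theorem hkH (n : ℕ) : HK (X.P.H n) (X.P.K n) := hk_c _ _

theorem hkb (n : ℕ) : HK (X.P.hb n) (X.P.kb n) := hk_b _ _ _

theorem Nle (n : ℕ) : X.P.N n ≤ X.P.N (n + 1) := by rw [X.eN]; exact X.Co.n2 n

theorem norm_le {ω : ℂ} (h : ‖ω - X.ω₀‖ ≤ X.S.μ / 100) : ‖ω‖ ≤ 5 / 2 * X.S.μ := by
  have := norm_add_le (ω - X.ω₀) X.ω₀
  rw [sub_add_cancel, norm_real, Real.norm_eq_abs, abs_of_pos (X.A.μ0.trans_le X.hω₀.1)] at this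
  linarith [X.hω₀.2, X.A.μ0]

theorem im_le {ω : ℂ} {a : ℝ} (h : ‖ω - X.ω₀‖ ≤ a) : |ω.im| ≤ a := by
  simpa using im_le_of_near (z := X.ω₀) (a := 0) (by simp) h

theorem rho_SB (n : ℕ) : SB (rho (X.P.H n)) (1 / X.S.N n) X.S.G := by
  rw [Par.H, X.eN]
  exact (rho_Hc X.G0.le X.sum (X.N0 n)).1

theorem drho_SB (n : ℕ) : SB (deriv (rho (X.P.H n))) (1 / X.S.N n) X.S.G := by
  rw [Par.H, X.eN]
  exact (rho_Hc X.G0.le X.sum (X.N0 n)).2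

theorem rho_box (n : ℕ) {ζ : ℂ} (h : |ζ.im| ≤ 1 / X.S.N n) :
    Box (rho (X.P.H n) ζ) (1 / (2 * X.S.G)) (2 * X.S.G) (1 / (100 * X.S.G)) := by
  have hG := X.G0
  have hN := X.N0 n
  have dρ : Differentiable ℂ (rho (X.P.H n)) := (X.hkH n).dH.deriv.deriv.add (X.hkH n).dH
  have h0 : |((ζ.re : ℝ) : ℂ).im| ≤ 1 / X.S.N n := by simp
  have h1 : Box (rho (X.P.H n) ζ.re) (9 / X.S.G) X.S.G 0 :=
    ⟨X.pos n _, X.rho_SB n _ h0, by rw [real_rho (X.hkH n).dH (real_Hc X.sym _) ζ.re]; simp⟩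
  have h2 := lip_strip (hol_of_diff dρ _) (X.drho_SB n) h0 h
  have h3 : ‖ζ - ζ.re‖ ≤ 1 / X.S.N n := by
    rw [show ζ - ζ.re = ζ.im * I by apply Complex.ext <;> simp]
    simpa using h
  have h4 : X.S.G * (1 / X.S.N n) ≤ 1 / (100 * X.S.G) := by
    rw [mul_one_div, div_le_div_iff₀ hN (by positivity)]
    nlinarith [Nums.N_ge X.A X.Co n]
  have h5 : 1 / (100 * X.S.G) ≤ X.S.G := by
    rw [div_le_iff₀ (by positivity)]
    nlinarith [X.A.G1]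
  refine (h1.near (h2.trans ((mul_le_mul_of_nonneg_left h3 hG.le).trans h4))).mono ?_ (by linarith)
    (by linarith)
  have e1 : 1 / (2 * X.S.G) = 1 / 2 * X.S.G⁻¹ := by field_simp
  have e2 : 1 / (100 * X.S.G) = 1 / 100 * X.S.G⁻¹ := by field_simp
  rw [e1, e2, div_eq_mul_inv 9]
  linarith [inv_pos.mpr hG]

theorem c_rho {N N' : ℕ} : ∀ m ∈ blk N N',
    ‖(1 - (m : ℂ) ^ 2) * X.P.a m‖ * |(m : ℝ)| ^ 2 ≤ |(m : ℝ)| ^ 4 * ‖X.P.a m‖ := fun m hm => by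
  have h0 := one_le_abs_of_blk hm
  have h1 : |1 - (m : ℝ) ^ 2| ≤ |(m : ℝ)| ^ 2 := by
    rw [abs_le, ← sq_abs (m : ℝ)]
    constructor <;> nlinarith
  rw [norm_coef_rho]
  calc _ ≤ |(m : ℝ)| ^ 2 * ‖X.P.a m‖ * |(m : ℝ)| ^ 2 := by gcongr
    _ = _ := by ring

theorem c_der {N N' : ℕ} : ∀ m ∈ blk N N',
    ‖I * m * X.P.a m‖ * |(m : ℝ)| ^ 3 ≤ |(m : ℝ)| ^ 4 * ‖X.P.a m‖ := fun m _ => by
  rw [norm_mul, norm_mul, norm_I, one_mul, norm_intCast]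
  exact le_of_eq (by ring)

theorem c_prim {N N' : ℕ} : ∀ m ∈ blk N N',
    ‖X.P.a m / (I * m)‖ * |(m : ℝ)| ^ 5 ≤ |(m : ℝ)| ^ 4 * ‖X.P.a m‖ := fun m hm => by
  have h0 := one_pos.trans_le (one_le_abs_of_blk hm)
  rw [norm_div, norm_mul, norm_I, one_mul, norm_intCast]
  exact le_of_eq (by field_simp)

theorem inv_N (n : ℕ) : X.S.N n * (1 / (X.S.N n : ℝ)) ≤ 1 := by rw [mul_one_div_cancel (X.N0 n).ne']

theorem hb_bounds (n : ℕ) :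
    LB (rho (X.P.hb n)) (1 / X.S.N (n + 1)) (2 * π * (8 * X.S.G ^ 2 / X.S.N n ^ 4)) ∧
    LB (X.P.hb n) (1 / X.S.N (n + 1)) (2 * π * (8 * X.S.G ^ 2 / X.S.N n ^ 8)) ∧
    LB (X.P.kb n) (1 / X.S.N (n + 1)) (2 * π * (8 * X.S.G ^ 2 / X.S.N n ^ 10)) ∧
    SB (rho (X.P.hb n)) (1 / X.S.N (n + 1)) (4 * X.S.G * Real.sqrt (X.S.N n) / X.S.N n ^ 2) ∧
    SB (deriv (X.P.hb n)) (1 / X.S.N (n + 1)) (4 * X.S.G * Real.sqrt (X.S.N n) / X.S.N n ^ 3) ∧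
    SB (X.P.hb n) (1 / X.S.N (n + 1)) (4 * X.S.G * Real.sqrt (X.S.N n) / X.S.N n ^ 4) := by
  rw [Par.hb, Par.kb, Hb, Kb, rho_tp, deriv_tp, X.eN]
  have hG := X.G0.le
  exact ⟨LB_tp (blk_sq (q := 2) hG X.sum' (X.N1 n) (X.inv_N _) X.c_rho),
    LB_tp (blk_sq (q := 4) hG X.sum' (X.N1 n) (X.inv_N _) fun m _ => (mul_comm _ _).le),
    LB_tp (blk_sq (q := 5) hG X.sum' (X.N1 n) (X.inv_N _) X.c_prim),
    (SB_tp _ _ _).mono le_rfl (blk_abs hG X.sum' (X.N1 n) (by norm_num) (X.inv_N _) X.c_rho),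
    (SB_tp _ _ _).mono le_rfl (blk_abs hG X.sum' (X.N1 n) (by norm_num) (X.inv_N _) X.c_der),
    (SB_tp _ _ _).mono le_rfl
      (blk_abs hG X.sum' (X.N1 n) (by norm_num) (X.inv_N _) fun m _ => (mul_comm _ _).le)⟩

end Ctx

end Pool.Agent.Lib.MP_abef03_an
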