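import Mathlib
import Pool.Agent.Lib.MP_abef03_an.Ctx

/-! The invariants; propagation along a pending block. -/

namespace Pool.Agent.Lib.MP_abef03_an

open Complex Set
open scoped Real

namespace Ctx

variable (X : Ctx)

noncomputable def eps (n : ℕ) : ℝ := (1 - (1 / 2) ^ n) / (200 * X.S.G)

structure Inv (n : ℕ) : Prop where
  an : ∀ ω : ℂ, ‖ω - X.ω₀‖ ≤ X.S.h n → An (fun ω => X.P.uu X.B ω n) ω ∧ An (fun ω => X.P.kk X.B ω n) ω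
  uk : ∀ ω : ℂ, ‖ω - X.ω₀‖ ≤ X.S.h n → UK (X.P.uu X.B ω n) (X.P.kk X.B ω n)
  box : ∀ ω : ℂ, ‖ω - X.ω₀‖ ≤ X.S.h n → ∀ z : ℂ, |z.im| ≤ X.S.τ n → Box (deriv (X.P.uu X.B ω n) z)
    (3 / (4 * X.S.G) - X.eps n) (3 * X.S.G / 2 + X.eps n) (1 / (1000 * X.S.G) + X.eps n)
  lip : ∀ ω : ℂ, ‖ω - X.ω₀‖ ≤ X.S.h n → ∀ x : ℝ,
    ‖X.P.uu X.B ω n x - X.P.uu X.B X.ω₀ n x‖ ≤ X.S.D n * ‖ω - X.ω₀‖
  pb : ∀ ω : ℂ, ‖ω - X.ω₀‖ ≤ X.S.h n →
    SB (fun z => Pf (X.P.H n) (X.P.uu X.B ω n) (X.P.kk X.B ω n) z (z + ω)) (X.S.τ n) (X.S.p n / 3)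
  fb : ∀ ω : ℂ, ‖ω - X.ω₀‖ ≤ X.S.h n → ∃ c, SB (fun z =>
    Tf (X.P.H n) (X.P.K n) (X.P.uu X.B ω n) (X.P.kk X.B ω n) z (z + ω) - c) (X.S.τ n) (X.S.φ n / 2)
  ru : RealOn (X.P.uu X.B X.ω₀ n)
  rk : RealOn (X.P.kk X.B X.ω₀ n)

structure Stp (n : ℕ) : Prop where
  an : ∀ ω : ℂ, ‖ω - X.ω₀‖ ≤ X.S.h (n + 1) → An (fun ω => X.P.wn X.B ω n) ω
  w0 : ∀ ω : ℂ, ‖ω - X.ω₀‖ ≤ X.S.h (n + 1) → SB (X.P.wn X.B ω n) (X.S.σ n / 2) (X.S.ϖ n)
  w1 : ∀ ω : ℂ, ‖ω - X.ω₀‖ ≤ X.S.h (n + 1) → SB (deriv (X.P.wn X.B ω n)) (X.S.σ n / 4) (1 / 2)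
  al : ∀ ω : ℂ, ‖ω - X.ω₀‖ ≤ X.S.h (n + 1) →
    SB (fun z => X.P.wn X.B ω n (z + ω) - X.P.wn X.B ω n z) (X.S.σ n / 16) (2 * X.S.γ n)
  lip : ∀ ω : ℂ, ‖ω - X.ω₀‖ ≤ X.S.h (n + 1) → ∀ x : ℝ,
    ‖X.P.wn X.B ω n x - X.P.wn X.B X.ω₀ n x‖ ≤ 4 * X.S.ϖ n / X.S.lam n * ‖ω - X.ω₀‖
  rw : RealOn (X.P.wn X.B X.ω₀ n)
  zz : ∃ y : ℂ → ℂ, Differentiable ℂ y ∧ Per y ∧ RealOn y ∧
    SB y (X.S.σ n) (4 * X.S.C ^ 2 * X.S.p n) ∧ ∀ x, deriv (X.P.kk X.B X.ω₀ (n + 1)) x =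
      (deriv (X.P.kk X.B X.ω₀ n) (x + X.P.wn X.B X.ω₀ n x) + y (x + X.P.wn X.B X.ω₀ n x)) *
        (1 + deriv (X.P.wn X.B X.ω₀ n) x)

structure Pd (j k : ℕ) : Prop where
  an : ∀ ω : ℂ, ‖ω - X.ω₀‖ ≤ 3 * X.S.l j k → An (fun ω => X.P.pe X.B ω j k) ω
  uk : ∀ ω : ℂ, ‖ω - X.ω₀‖ ≤ 3 * X.S.l j k → UK (X.P.UU X.B ω j k) (X.P.pe X.B ω j k)
  wb : ∀ ω : ℂ, ‖ω - X.ω₀‖ ≤ 3 * X.S.l j k → WB (X.P.RR X.B ω j k) (X.S.s j k) (2 * X.S.ϱ j k ^ 2)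
  lb : ∀ ω : ℂ, ‖ω - X.ω₀‖ ≤ 3 * X.S.l j k →
    LB (deriv (X.P.pe X.B ω j k)) (X.S.s j k) (144 * π * (X.S.ϱ j k / (6 * X.S.l j (k + 1))) ^ 2)
  sb : ∀ ω : ℂ, ‖ω - X.ω₀‖ ≤ 3 * X.S.l j k →
    SB (deriv (X.P.pe X.B ω j k)) (X.S.s j k) (4 ^ k * (X.S.p j / (3 * 4 ^ X.S.L)))
  re : RealOn (X.P.pe X.B X.ω₀ j k)

theorem diff_wn (ω : ℂ) (n : ℕ) : Differentiable ℂ (X.P.wn X.B ω n) := by
  rw [Par.wn_eq]
  exact diff_solve _ _ _

theorem per_wn (ω : ℂ) (n : ℕ) : Per (X.P.wn X.B ω n) := by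
  rw [Par.wn_eq]
  exact per_solve _ _ _

theorem self_mem {a : ℝ} (h : 0 < a) : ‖(X.ω₀ : ℂ) - X.ω₀‖ ≤ a := by simp [h.le]

theorem UU_eq (ω : ℂ) (j k : ℕ) : X.P.UU X.B ω j k = X.P.uu X.B ω (j + k - X.S.L) := by
  rw [Par.UU, X.eL]

variable {X}

theorem Inv.box' {n : ℕ} (h : X.Inv n) {ω : ℂ} (hω : ‖ω - X.ω₀‖ ≤ X.S.h n) (z : ℂ)
    (hz : |z.im| ≤ X.S.τ n) :
    Box (deriv (X.P.uu X.B ω n) z) (1 / (2 * X.S.G)) (2 * X.S.G) (1 / (100 * X.S.G)) := by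
  have hG := X.G0
  have h1 : X.eps n ≤ 1 / 200 * X.S.G⁻¹ := by
    rw [eps, ← div_eq_mul_inv, div_div]
    gcongr
    linarith [show (0 : ℝ) < (1 / 2) ^ n by positivity]
  have h2 : X.S.G⁻¹ ≤ X.S.G := (inv_le_one_of_one_le₀ X.A.G1).trans X.A.G1
  have h3 := inv_pos.mpr hG
  have e : ∀ a b : ℝ, a / (b * X.S.G) = a / b * X.S.G⁻¹ := fun a b => by
    rw [← div_eq_mul_inv, div_div]
  refine (h.box ω hω z hz).mono ?_ ?_ ?_ <;> (try simp only [e]) <;> linarith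

theorem Inv.sb {n : ℕ} (h : X.Inv n) {ω : ℂ} (hω : ‖ω - X.ω₀‖ ≤ X.S.h n) :
    SB (deriv (X.P.uu X.B ω n)) (X.S.τ n) (2 * X.S.G) := fun z hz => (h.box' hω z hz).2.1

theorem τ_pos (n : ℕ) : 0 < X.S.τ n := by linarith [Nums.σ_τ X.A X.Bo n, (X.A.pos n).1]

theorem Inv.re_ge {n : ℕ} (h : X.Inv n) (x : ℝ) :
    1 / (2 * X.S.G) ≤ (deriv (X.P.uu X.B X.ω₀ n) x).re :=
  (h.box' (X.self_mem (Nums.h_pos X.A n)) x (by simpa using (τ_pos n).le)).1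

theorem Inv.lip' {j k : ℕ} (hk : k ≤ X.S.L) (h : X.Inv (j + k - X.S.L)) {ω : ℂ}
    (hω : ‖ω - X.ω₀‖ ≤ 3 * X.S.l j k) (x : ℝ) :
    ‖X.P.uu X.B ω (j + k - X.S.L) x - X.P.uu X.B X.ω₀ (j + k - X.S.L) x‖ ≤
      X.S.D (j + k - X.S.L) * (3 * X.S.l j k) :=
  (h.lip ω (hω.trans (X.Bo.p1 j k hk)) x).trans (mul_le_mul_of_nonneg_left hω (Nums.D_pos X.A _))

theorem Inv.im {j k : ℕ} (hk : k ≤ X.S.L) (h : X.Inv (j + k - X.S.L)) {ω : ℂ}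
    (hω : ‖ω - X.ω₀‖ ≤ 3 * X.S.l j k) {z : ℂ} (hz : |z.im| ≤ X.S.s j k) :
    |(X.P.uu X.B ω (j + k - X.S.L) z).im| ≤ 1 / (4 * X.S.N (j + 1)) := by
  have hb := hω.trans (X.Bo.p1 j k hk)
  have h0 : 0 ≤ X.S.s j k := (abs_nonneg _).trans hz
  have h1 := im_ref (h.uk ω hb).du (h.sb hb) (h.lip' hk hω) h.ru
    (by linarith [Nums.s_τ X.A X.Bo (j := j) (k' := k) hk]) hz
  nlinarith [Nums.s_N X.A X.Bo (j := j) hk, X.G0]

theorem quarter (n : ℕ) : 1 / (4 * (X.S.N n : ℝ)) = 1 / X.S.N n / 4 := by rw [div_div, mul_comm]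

theorem low_case {n : ℕ} (h : 48 * X.S.G * X.S.μ * X.S.N n ≤ 1) :
    12 * X.S.G * X.S.μ ≤ 1 / X.S.N n / 4 := by
  rw [div_div, le_div_iff₀ (by linarith [X.N0 n])]
  linarith

theorem pi_bound {j k : ℕ} (hk : k ≤ X.S.L) (h : X.Inv (j + k - X.S.L)) {ω : ℂ}
    (hω : ‖ω - X.ω₀‖ ≤ 3 * X.S.l j k) {x a : ℂ} (hx : |x.im| ≤ X.S.s j k / 2)
    (ha : ‖a‖ ≤ X.S.s j k / 16) (ha' : ‖a‖ ≤ X.S.μ / 2) :
    ‖Sy (X.P.hb j) (X.P.UU X.B ω j k x) (X.P.UU X.B ω j k (x + ω + a)) *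
      deriv (X.P.UU X.B ω j k) (x + ω + a)‖ ≤ X.S.πb j := by
  have hb := hω.trans (X.Bo.p1 j k hk)
  have hG := X.G0
  have hμ := X.A.μ0
  have hs := Nums.s_ge X.A j k
  have hσ := (X.A.pos j).1
  have hτ := Nums.s_τ X.A X.Bo (j := j) (k' := k) hk
  have hy : |(x + ω + a).im| ≤ X.S.s j k := by
    have h1 := X.im_le hω
    have h2 := (abs_im_le_norm a).trans ha
    have := X.Bo.p4 j k hk
    rw [add_im, add_im]
    linarith [abs_add_three x.im ω.im a.im]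
  have hxy : ‖x + ω + a - x‖ ≤ 3 * X.S.μ := by
    rw [show x + ω + a - x = ω + a by ring]
    linarith [norm_add_le ω a, X.norm_le (hω.trans (Nums.l_le_μ X.A X.Bo hk))]
  rw [X.UU_eq, norm_mul]
  have h1 := (lip_strip (hol_of_diff (h.uk ω hb).du _) (h.sb hb) (a := x) (b := x + ω + a)
    (by linarith) (by linarith)).trans (mul_le_mul_of_nonneg_left hxy (by positivity))
  have h2 := h.sb hb (x + ω + a) (by linarith)
  have h3 := h.im hk hω hy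
  have h4 := h.im hk hω (z := x) (by linarith)
  have hm : 6 * X.S.G * X.S.μ ≤ 1 := by nlinarith [Nums.Gμ X.A X.Co]
  have hN : 0 < 1 / (X.S.N (j + 1) : ℝ) := by have := X.N0 (j + 1); positivity
  obtain ⟨-, -, -, b1, b2, b3⟩ := X.hb_bounds j
  rw [quarter] at h3 h4
  rcases le_total (48 * X.S.G * X.S.μ * X.S.N (j + 1)) 1 with hc | hc
  · refine le_trans (mul_le_mul (Sy_low (X.hkb j).dH hm (by rw [norm_sub_rev]; linarith)
      fun ζ hζ => b1 ζ ?_) h2 (norm_nonneg _) (by positivity)) (X.Co.bl3 j hc)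
    linarith [im_le_of_near h3 hζ, low_case hc, mul_pos hG hμ]
  · exact le_trans (mul_le_mul (Sy_high hm (by linarith) (by linarith) (by linarith) b3 b2) h2
      (norm_nonneg _) (by positivity)) (X.Co.bl4 j hc)

theorem pd_zero {j : ℕ} (h : X.Inv (j + 0 - X.S.L)) : X.Pd j 0 := by
  have hk := Nat.zero_le X.S.L
  have hG := X.G0
  have hμ := X.A.μ0
  have uk : ∀ ω : ℂ, ‖ω - X.ω₀‖ ≤ 3 * X.S.l j 0 → UK (X.P.UU X.B ω j 0) (X.P.pe X.B ω j 0) := by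
    intro ω hω
    have := h.uk ω (hω.trans (X.Bo.p1 j 0 hk))
    rw [X.UU_eq, Par.pe_zero]
    exact ⟨this.du, differentiable_const _, this.pu, 0, by simp⟩
  refine ⟨fun ω _ z => analyticAt_const, uk, fun ω hω => ?_, fun ω _ y _ => ?_, fun ω _ z _ => ?_,
    fun x => rfl⟩
  · have hb := hω.trans (X.Bo.p1 j 0 hk)
    have h0 := h.uk _ (X.self_mem (Nums.h_pos X.A _))
    have hs := Nums.s_ge X.A j 0
    have hσ := (X.A.pos j).1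
    have hτ := Nums.s_τ X.A X.Bo (j := j) (k' := 0) hk
    have hn : ‖ω‖ ≤ 3 * X.S.μ := by linarith [X.norm_le (hω.trans (Nums.l_le_μ X.A X.Bo hk))]
    have hω' : ‖ω - X.ω₀‖ ≤ X.S.s j 0 := by linarith [X.Bo.p4 j 0 hk]
    have hm : 3 * (2 * X.S.G) * X.S.μ ≤ 1 := by nlinarith [Nums.Gμ X.A X.Co]
    have hN : 0 < 1 / (X.S.N (j + 1) : ℝ) := by have := X.N0 (j + 1); positivity
    have hN' := X.N0 j
    have hsN := Nums.s_N X.A X.Bo (j := j) hk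
    rw [quarter] at hsN
    obtain ⟨b1, b2, b3, -⟩ := X.hb_bounds j
    have key : LB (fun z => St (X.P.hb j) (X.P.kb j) (X.P.uu X.B ω (j + 0 - X.S.L) z)
        (X.P.uu X.B ω (j + 0 - X.S.L) (z + ω))) (X.S.s j 0) (2 * X.S.ϱ j 0 ^ 2 * π) := by
      rcases le_total (48 * X.S.G * X.S.μ * X.S.N (j + 1)) 1 with hc | hc
      · refine (block_low (r := 1 / X.S.N (j + 1) / 2) (X.hkb j) (h.uk ω hb).du (h.sb hb) h0.du h0.pu
          h.ru (by positivity) h.re_ge (h.lip' hk hω) hn (X.im_le hω') hτ hm (by positivity)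
          (by nlinarith [low_case hc, mul_pos hG hσ]) (b1.mono (by linarith) le_rfl)).mono le_rfl ?_
        refine le_trans (le_of_eq ?_) (mul_le_mul_of_nonneg_right
          (mul_le_mul_of_nonneg_left (X.Co.bl1 j hc) zero_le_two) Real.pi_pos.le)
        field_simp
        ring
      · refine (block_high (r := 1 / X.S.N (j + 1) / 2) (X.hkb j)
          (by unfold Par.kb Kb; exact per_tp _ _) (h.uk ω hb).du (h.sb hb) h0.du h0.pu h.ru (by positivity) h.re_ge (h.lip' hk hω) hn hω' hτ hm (by positivity)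
          (by linarith) (b2.mono (by linarith) le_rfl) (b3.mono (by linarith) le_rfl)).mono le_rfl ?_
        refine le_trans (le_of_eq ?_) (mul_le_mul_of_nonneg_right
          (mul_le_mul_of_nonneg_left (X.Co.bl2 j hc) zero_le_two) Real.pi_pos.le)
        field_simp
        ring
    refine (WB_of_LB (c := 0) (by linarith) (hol_of_diff (diff_Ff (X.hkb j) (uk ω hω) ω) _)
      (per_Ff (X.hkb j) (uk ω hω) ω) (Q := 2 * X.S.ϱ j 0 ^ 2 * π) ?_).mono (le_of_eq (by field_simp))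
    simpa only [Tf, Par.pe_zero, X.UU_eq, Pi.zero_apply, sub_zero, add_zero] using key
  · simp only [Par.pe_zero, deriv_zero, Pi.zero_apply, norm_zero]
    simp
    positivity
  · have := (X.A.pos j).2.2.2.1
    simp only [Par.pe_zero, deriv_zero, Pi.zero_apply, norm_zero]
    positivity

theorem diff_WW (ω : ℂ) (j k : ℕ) : Differentiable ℂ (X.P.WW X.B ω j k) ∧ Per (X.P.WW X.B ω j k) := by
  unfold Par.WW
  split_ifs
  · exact ⟨X.diff_wn _ _, X.per_wn _ _⟩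
  · exact ⟨differentiable_const _, fun _ => rfl⟩

theorem ww_facts {j k : ℕ} (hk : k < X.S.L) (h : X.S.L ≤ j + k → X.Stp (j + k - X.S.L)) :
    RealOn (X.P.WW X.B X.ω₀ j k) ∧ ∀ ω : ℂ, ‖ω - X.ω₀‖ ≤ 3 * X.S.l j (k + 1) →
      An (fun ω => X.P.WW X.B ω j k) ω ∧ SB (deriv (X.P.WW X.B ω j k)) (X.S.s j k) (1 / 2) ∧
      SB (fun z => X.P.WW X.B ω j k (z + ω) - X.P.WW X.B ω j k z) (X.S.s j k / 16)
        (2 * X.S.γ (j + k - X.S.L)) ∧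
      ∀ x : ℝ, ‖X.P.WW X.B ω j k x - X.P.WW X.B X.ω₀ j k x‖ ≤ X.S.s j k / 16 := by
  have hs := Nums.s_ge X.A j (k + 1)
  rw [Nums.s_succ hk] at hs
  have hσ := (X.A.pos j).1
  unfold Par.WW
  rw [X.eL]
  split_ifs with hL
  · have h := h hL
    have e : j + (k + 1) - X.S.L = j + k - X.S.L + 1 := by omega
    have h1 := X.Bo.p1 j (k + 1) hk
    have h2 := Nums.s_τ X.A X.Bo (j := j) (k := k + 1) (k' := k) hk
    rw [e] at h1 h2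
    change _ ≤ X.S.σ _ / 64 at h2
    refine ⟨h.rw, fun ω hω => ⟨h.an ω (hω.trans h1), (h.w1 ω (hω.trans h1)).mono (by linarith) le_rfl,
      (h.al ω (hω.trans h1)).mono (by linarith) le_rfl, fun x => (h.lip ω (hω.trans h1) x).trans ?_⟩⟩
    have h3 := X.Bo.p7 j k hk hL
    have h4 := Nums.ϖ_pos X.A (j + k - X.S.L)
    have h5 := (X.A.pos (j + k - X.S.L)).2.1
    calc _ ≤ 4 * X.S.ϖ (j + k - X.S.L) / X.S.lam (j + k - X.S.L) * (3 * X.S.l j (k + 1)) := by gcongr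
      _ = 2 * (6 * X.S.ϖ (j + k - X.S.L) * X.S.l j (k + 1) / X.S.lam (j + k - X.S.L)) := by ring
      _ ≤ _ := by linarith
  · have := Nums.γ_pos X.A (j + k - X.S.L)
    refine ⟨fun _ => rfl, fun ω _ => ⟨fun _ => analyticAt_const, fun z _ => by simp, fun z _ => ?_,
      fun x => ?_⟩⟩
    · simpa using this
    · simp only [sub_self, norm_zero]
      linarith

theorem pd_succ {j k : ℕ} (hk : k < X.S.L) (h : X.Inv (j + k - X.S.L)) (hp : X.Pd j k)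
    (hs : X.S.L ≤ j + k → X.Stp (j + k - X.S.L)) : X.Pd j (k + 1) := by
  obtain ⟨rW, hW⟩ := ww_facts hk hs
  have hl := Nums.l_pos (S := X.S) j k
  have hl' := Nums.l_pos (S := X.S) j (k + 1)
  have h5 := X.Bo.p5 j k hk
  have hσ := (X.A.pos j).1
  have hsg := Nums.s_ge X.A j (k + 1)
  rw [Nums.s_succ hk] at hsg
  have hγ := X.Bo.p8 j k hk
  obtain ⟨g1, g2, g3⟩ := X.g4 j k
  have hMl : X.S.M j * (6 * X.S.l j (k + 1)) ≤ 1 := by linarith [X.Bo.p6 j (k + 1) hk]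
  have anR : ∀ ω : ℂ, ‖ω - X.ω₀‖ ≤ 3 * X.S.l j k → An (fun ω => X.P.RR X.B ω j k) ω := fun ω hω => by
    have h1 := (h.an ω (hω.trans (X.Bo.p1 j k hk.le))).1
    simp only [← X.UU_eq] at h1
    exact an_Tf (X.hkb j) h1 (hp.an ω hω)
  have key : ∀ ω : ℂ, ‖ω - X.ω₀‖ ≤ 3 * X.S.l j (k + 1) → _ := fun ω hω => by
    have hω' : ‖ω - X.ω₀‖ ≤ 3 * X.S.l j k := by linarith
    refine pend (M := X.S.M j) (A := X.B j k) (ω₀ := X.ω₀) (lam := 6 * X.S.l j (k + 1))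
      (πb := X.S.πb j) (b := X.S.b j) (Λ := X.S.Λp j k) (X.hkb j) (hp.uk ω hω') (diff_WW ω j k).1
      (diff_WW ω j k).2 (diff_WW X.ω₀ j k).1 (diff_WW X.ω₀ j k).2 rW
      (fun x => (hW _ (X.self_mem (by positivity))).2.1 x (by simp; linarith)) (by linarith)
      (hW ω hω).2.1 (hW ω hω).2.2.1 (hW ω hω).2.2.2 (by linarith) (by positivity)
      (by linarith [X.Bo.p4 j (k + 1) hk]) hMl (by linarith) g1 g3 (X.Bo.pos j k).2 (X.Bo.pos j k).1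
      (X.g5 j k hk) (fun x a hx ha => pi_bound hk.le h hω' hx (by linarith)
        (by linarith [X.A.s6d (j + k - X.S.L), X.A.r2 (j + k - X.S.L), X.A.μ0]))
      (hp.wb ω hω') ?_ ?_ (hp.lb ω hω') (hp.sb ω hω') (X.Bo.p11 j k hk) (X.Bo.p12 j k hk)
    · obtain ⟨c, hc, hsum⟩ := X.g6 j k hk
      have hc' : ‖(X.ω₀ : ℂ) - c‖ ≤ X.S.l j k / 2 := by
        rwa [← ofReal_sub, norm_real, Real.norm_eq_abs]
      have hin : ∀ ω' : ℂ, ‖ω' - c‖ ≤ 2 * X.S.l j k → ‖ω' - X.ω₀‖ ≤ 3 * X.S.l j k := fun ω' h' => by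
        have := norm_sub_le (ω' - c) (X.ω₀ - c)
        rw [sub_sub_sub_cancel_right] at this
        linarith
      have hωc : ‖ω - c‖ ≤ X.S.l j k := by
        have := norm_add_le (ω - X.ω₀) (X.ω₀ - c)
        rw [sub_add_sub_cancel] at this
        linarith
      refine (Finset.sum_le_sum fun m _ => le_beta (F := fun ω => X.P.RR X.B ω j k) hl
        (fun ω' h' x => anR ω' (hin ω' h') x) hωc m).trans (hsum.trans ?_)
      have := sum_beta_le (F := fun ω => X.P.RR X.B ω j k) hl (fun ω' h' x => anR ω' (hin ω' h') x)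
        (fun ω' h' => hp.wb ω' (hin ω' h')) (zero_not_mem_full (X.S.M j))
      nlinarith [mul_le_mul_of_nonneg_left this (sq_nonneg (X.S.b j))]
    · refine le_trans (Real.exp_le_exp.mpr ?_) (X.Bo.p9 j)
      nlinarith [Nat.cast_nonneg (α := ℝ) (X.S.M j)]
  refine ⟨fun ω hω => ?_, fun ω hω => ?_, fun ω hω => ?_, fun ω hω => ?_, fun ω hω => ?_, ?_⟩
  · have h1 := (h.an ω (le_trans (by linarith) (X.Bo.p1 j k hk.le))).1
    simp only [← X.UU_eq] at h1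
    simp only [Par.pe_succ]
    exact an_pk (X.hkb j) h1 (hp.an ω (by linarith)) (hW ω hω).1 fun m hm =>
      divisor_ne (by positivity) (g1 hm) (g3 m hm) (by linarith) hMl
  · rw [Par.UU_succ, Par.pe_succ]
    exact (key ω hω).1
  · unfold Par.RR
    rw [Par.UU_succ, Par.pe_succ, Nums.s_succ hk]
    exact (key ω hω).2.1
  · rw [Par.pe_succ, Nums.s_succ hk]
    exact (key ω hω).2.2.1
  · rw [Par.pe_succ, Nums.s_succ hk]
    refine (key ω hω).2.2.2.mono le_rfl ?_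
    have h1 : X.S.Λp j k * X.S.ϱ j k ≤ X.S.p j / (3 * 4 ^ X.S.L) := by
      rw [le_div_iff₀ (by positivity)]
      linarith [X.Bo.p14 j k hk]
    have h2 : 0 ≤ X.S.p j / (3 * 4 ^ X.S.L) := by have := (X.A.pos j).2.2.2.1; positivity
    have h3 := mul_le_mul_of_nonneg_right (one_le_pow₀ (n := k) (show (1 : ℝ) ≤ 4 by norm_num)) h2
    rw [pow_succ]
    linarith
  · rw [Par.pe_succ]
    exact real_pk (real_Hb X.sym _ _) (real_Kb X.sym _ _) (X.UU_eq _ j k ▸ h.ru) hp.re rW g2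

theorem pd_all {n : ℕ} (h : ∀ i ≤ n, X.Inv i) (hs : ∀ i < n, X.Stp i) : ∀ k ≤ X.S.L, X.Pd n k
  | 0, _ => pd_zero (h _ (by omega))
  | k + 1, hk => pd_succ hk (h _ (by omega)) (pd_all h hs k (by omega)) fun _ => hs _ (by omega)

end Ctx

end Pool.Agent.Lib.MP_abef03_an
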