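import Mathlib
import Pool.Agent.Lib.MP_abef03_an.Induct

/-! The main induction. -/

namespace Pool.Agent.Lib.MP_abef03_an

open Complex Set
open scoped Real

namespace Ctx

variable {X : Ctx}

theorem WB_of_SB {f : ℂ → ℂ} {c : ℂ} {σ A : ℝ} (hσ : 0 ≤ σ) (hf : Differentiable ℂ f) (hp : Per f)
    (h : SB (fun z => f z - c) σ A) : WB f σ (2 * A ^ 2) :=
  (WB_of_LB hσ (hol_of_diff hf _) hp (LB_of_SB h)).mono (le_of_eq (by field_simp))

theorem step_out {n : ℕ} (h : X.Inv n) (hp : X.Pd n X.S.L) {ω : ℂ} (hω : ‖ω - X.ω₀‖ ≤ X.S.lam n / 2) :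
    StepOut (X.P.H (n + 1)) (X.P.K (n + 1)) (X.P.uu X.B ω n) (X.P.ka X.B ω n) (X.P.M n) ω (X.S.σ n)
      X.S.C (X.S.p n) (X.S.γ n) (X.S.ϖ n) (X.S.p (n + 1) / 3) (X.S.φ (n + 1) / 2) ∧
    An (fun ω => X.P.wn X.B ω n) ω ∧ An (fun ω => X.P.uu X.B ω (n + 1)) ω ∧
      An (fun ω => X.P.kk X.B ω (n + 1)) ω := by
  obtain ⟨hσ, hlam, hr, hp0, hφ, hΛ, hΛ₀, ht, -⟩ := X.A.pos n
  have hG := X.G0
  have hμ := X.A.μ0
  have hl : ‖ω - X.ω₀‖ ≤ 3 * X.S.l n X.S.L := by linarith [X.A.s10 n]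
  have hb : ‖ω - X.ω₀‖ ≤ X.S.h n := by
    have := X.Bo.p1 n X.S.L le_rfl
    rw [Nat.add_sub_cancel] at this
    linarith
  have hμ' := hl.trans (Nums.l_le_μ X.A X.Bo le_rfl)
  have hi := X.im_le hl
  have h4 := X.Bo.p4 n X.S.L le_rfl
  have hτ := Nums.σ_τ X.A X.Bo n
  have hGμ : 100 * X.S.G * X.S.μ ≤ 1 := by nlinarith [Nums.Gμ X.A X.Co]
  have hMl : X.S.M n * X.S.lam n ≤ 1 := by
    nlinarith [X.Bo.p6 n X.S.L le_rfl, mul_le_mul_of_nonneg_left (X.A.s10 n) (Nat.cast_nonneg (X.S.M n))]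
  have u0 := h.uk ω hb
  have u1 := hp.uk ω hl
  rw [← X.eL, Par.UU_last] at u1
  have hu : UK (X.P.uu X.B ω n) (X.P.ka X.B ω n) := u0.add u1.dk u1.qk
  have him : ∀ z : ℂ, |z.im| ≤ 2 * X.S.σ n → |(X.P.uu X.B ω n z).im| ≤ 1 / X.S.N (n + 1) := by
    intro z hz
    have := Inv.im (j := n) le_rfl (by rwa [Nat.add_sub_cancel]) hl (z := z) (by rwa [Nums.s_last])
    rw [Nat.add_sub_cancel, quarter] at this
    have h1 : 0 < 1 / (X.S.N (n + 1) : ℝ) := by have := X.N0 (n + 1); positivity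
    linarith
  have hρ : ∀ x y : ℂ, |x.im| ≤ 2 * X.S.σ n → |y.im| ≤ 2 * X.S.σ n →
      Box (rho (X.P.H (n + 1)) ((X.P.uu X.B ω n x + X.P.uu X.B ω n y) / 2)) (1 / (2 * X.S.G))
        (2 * X.S.G) (1 / (100 * X.S.G)) := fun x y hx hy => X.rho_box _ (by
    rw [div_ofNat_im, add_im, abs_div, abs_two]
    linarith [abs_add_le (X.P.uu X.B ω n x).im (X.P.uu X.B ω n y).im, him x hx, him y hy])
  have sh : ∀ x : ℂ, |x.im| ≤ X.S.σ n → |(x + ω).im| ≤ 3 / 2 * X.S.σ n := fun x hx => by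
    rw [add_im]
    linarith [abs_add_le x.im ω.im]
  have hA2 : ∀ x : ℂ, |x.im| ≤ X.S.σ n → Af (X.P.H (n + 1)) (X.P.uu X.B ω n) x (x + ω) ≠ 0 ∧
      ‖(Af (X.P.H (n + 1)) (X.P.uu X.B ω n) x (x + ω))⁻¹‖ ≤ X.S.C / X.S.μ ∧
      1 / (X.S.C * X.S.μ) ≤ ((Af (X.P.H (n + 1)) (X.P.uu X.B ω n) x (x + ω))⁻¹).re := fun x hx => by
    have := Af_ge u0.du X.A.G1 hμ hGμ (h.box' hb) X.hω₀ hμ' (x := x) (by linarith)
      (by linarith [sh x hx]) (hρ _ _ (by linarith) (by linarith [sh x hx]))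
    refine ⟨this.1, this.2.1.trans ?_, this.2.2⟩
    unfold Nums.C
    gcongr
    norm_num
  refine ⟨?_, ?_⟩
  · rw [X.eM]
    refine step (X.hkH _) hu hσ (Nums.σ_le X.A X.Bo X.Co n) hμ (Nums.C_ge X.A) hr (X.A.r1 n) hp0.le
      hφ.le hΛ.le hΛ₀.le ht.le (X.A.t1 n) hlam (by linarith [X.A.s10 n]) hMl hω (X.g1 n) (X.g2 n)
      (X.g3 n) (X.A.s5 n) (fun x a hx ha => ?_) hA2 (fun z hz => ?_) ?_ (X.A.s6a n) (X.A.s6b n)
      (X.A.s6c n) (by linarith [Nums.ϖ_le' X.A n, Nums.ϖ_pos X.A n]) (X.A.s6d n) (X.A.s6e n) (X.A.s6f n)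
    · have hy : |(x + ω + a).im| ≤ 2 * X.S.σ n := by
        rw [add_im]
        linarith [abs_add_le (x + ω).im a.im, sh x hx, abs_im_le_norm a, X.A.r1 n]
      refine (Af_le u0.du X.A.G1 hμ hGμ (h.box' hb) (by linarith) (by linarith) ?_
        (hρ _ _ (by linarith) hy)).trans ?_
      · rw [show x + ω + a - x = ω + a by ring]
        linarith [norm_add_le ω a, X.norm_le hμ', X.A.r2 n]
      · unfold Nums.C
        gcongr
        norm_num
    · have e := Pf_add X.P.a (X.Nle n) (X.P.uu X.B ω n) u0.dk u1.dk z (z + ω)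
      have b1 := h.pb ω hb z (by linarith)
      have b2 := pi_bound (j := n) le_rfl (by rwa [Nat.add_sub_cancel]) hl (x := z) (a := 0)
        (by rw [Nums.s_last]; linarith) (by rw [Nums.s_last]; simp; positivity) (by simp; positivity)
      have b3 := hp.sb ω hl (z + ω) (by rw [Nums.s_last]; linarith [sh z hz])
      rw [← X.eL, Par.UU_last, add_zero] at b2
      rw [show (4 : ℝ) ^ X.S.L * (X.S.p n / (3 * 4 ^ X.S.L)) = X.S.p n / 3 by field_simp, ← X.eL] at b3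
      refine le_trans (le_of_eq (congrArg _ e)) ((norm_add_le _ _).trans
        ((add_le_add b1 ((norm_sub_le _ _).trans (add_le_add b2 b3))).trans ?_))
      linarith [X.A.s7a n]
    · obtain ⟨c, hc⟩ := h.fb ω hb
      have b1 := WB_of_SB hσ.le (diff_Ff (X.hkH n) u0 ω) (per_Ff (X.hkH n) u0 ω)
        (hc.mono (by linarith) le_rfl)
      have b2 := (hp.wb ω hl).strip (σ' := X.S.σ n) (by rw [Nums.s_last]; linarith)
      unfold Par.RR at b2
      rw [← X.eL, Par.UU_last] at b2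
      have b3 := WB_add (diff_Ff (X.hkH n) u0 ω) (diff_Ff (X.hkb n) u1 ω) b1 b2
      have e : (fun z => Tf (X.P.H (n + 1)) (X.P.K (n + 1)) (X.P.uu X.B ω n) (X.P.ka X.B ω n) z (z + ω))
          = _ := funext fun z => Tf_add X.P.a (X.Nle n) _ _ _ z (z + ω)
      rw [e]
      refine b3.mono ?_
      have b4 := pow_le_pow_left₀ (X.Bo.pos n X.S.L).1 (X.A.s7b n) 2
      rw [X.eL]
      linarith
  · simp only [Par.wn_eq, Par.uu_succ, Par.kk_succ]
    have a1 := hp.an ω hl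
    rw [← X.eL] at a1
    refine an_step (X.hkH _) (h.an ω hb).1 (fun z => ((h.an ω hb).2 z).add (a1 z))
      (fun m hm => ?_) (fun x => (hA2 x (by simp [hσ.le])).1) (norm_pos_iff.mp (lt_of_lt_of_le ?_
        ((re_coef_zero_ge (A := 1 / (X.S.C * X.S.μ)) (fun z hz => ?_)
          fun x => (hA2 x (by simp [hσ.le])).2.2).trans (re_le_norm _))))
    · rw [X.eM] at hm
      exact divisor_ne hlam hm (X.g1 n m hm) hω hMl
    · have := Nums.C_ge X.A
      positivity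
    · exact (diff_Af (X.hkH _).dH u0.du differentiable_id (by fun_prop) z).inv (hA2 z (by linarith)).1

theorem step_succ {n : ℕ} (h : X.Inv n) (hp : X.Pd n X.S.L) : X.Stp n ∧ X.Inv (n + 1) := by
  obtain ⟨hσ, hlam, hr, hp0, hφ, hΛ, hΛ₀, ht, -⟩ := X.A.pos n
  have hG := X.G0
  have hϖ := Nums.ϖ_pos X.A n
  have hϖ' := Nums.ϖ_le' X.A n
  have hτ := Nums.σ_τ X.A X.Bo n
  have eh : X.S.h (n + 1) = X.S.lam n / 4 := rfl
  have eτ : X.S.τ (n + 1) = X.S.σ n / 64 := rfl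
  have in1 : ∀ {ω : ℂ}, ‖ω - X.ω₀‖ ≤ X.S.h (n + 1) → ‖ω - X.ω₀‖ ≤ X.S.lam n / 2 := fun h => by linarith
  have in2 : ∀ {ω : ℂ}, ‖ω - X.ω₀‖ ≤ X.S.h (n + 1) → ‖ω - X.ω₀‖ ≤ X.S.h n := fun h =>
    h.trans (Nums.h_anti X.A X.Bo (Nat.le_succ n))
  have i0 := X.self_mem (Nums.h_pos X.A (n + 1))
  have w0 : ∀ ω : ℂ, ‖ω - X.ω₀‖ ≤ X.S.lam n / 2 → SB (X.P.wn X.B ω n) (X.S.σ n / 2) (X.S.ϖ n) :=
    fun ω hω => by rw [Par.wn_eq]; exact (step_out h hp hω).1.w0
  have w1 : ∀ ω : ℂ, ‖ω - X.ω₀‖ ≤ X.S.h (n + 1) →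
      SB (deriv (X.P.wn X.B ω n)) (X.S.σ n / 4) (4 * X.S.ϖ n / X.S.σ n) :=
    fun ω hω => by rw [Par.wn_eq]; exact (step_out h hp (in1 hω)).1.w1
  have lw : ∀ ω : ℂ, ‖ω - X.ω₀‖ ≤ X.S.h (n + 1) → ∀ x : ℝ,
      ‖X.P.wn X.B ω n x - X.P.wn X.B X.ω₀ n x‖ ≤ 4 * X.S.ϖ n / X.S.lam n * ‖ω - X.ω₀‖ := by
    intro ω hω x
    refine (lip_of_analytic (φ := fun ω => X.P.wn X.B ω n x) (h := X.S.lam n / 2) (by positivity)
      (fun ω hω => (step_out h hp hω).2.1.slice x) (fun ω hω => w0 ω hω x (by simp; positivity))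
      (by linarith)).trans (le_of_eq ?_)
    field_simp
    ring
  have l0 := X.self_mem (a := 3 * X.S.l n X.S.L) (by linarith [Nums.l_pos (S := X.S) n X.S.L])
  have u0 := h.uk _ (in2 i0)
  have u1 := hp.uk _ l0
  have r1 := hp.re
  have b3 := hp.sb _ l0
  rw [← X.eL] at u1 r1
  rw [Par.UU_last] at u1
  rw [show (4 : ℝ) ^ X.S.L * (X.S.p n / (3 * 4 ^ X.S.L)) = X.S.p n / 3 by field_simp, Nums.s_last,
    ← X.eL] at b3
  have hu : UK (X.P.uu X.B X.ω₀ n) (X.P.ka X.B X.ω₀ n) := u0.add u1.dk u1.qk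
  obtain ⟨q1, q2, q3, q4, q5⟩ := real_step (ω := X.ω₀) (M := X.P.M n) (X.hkH (n + 1)).dH
    (real_Hc X.sym _) (real_Kc X.sym _) hu h.ru fun x => im_add0 (h.rk x) (r1 x)
  have rw' : RealOn (X.P.wn X.B X.ω₀ n) := by rw [Par.wn_eq]; exact q3
  refine ⟨⟨fun ω hω => (step_out h hp (in1 hω)).2.1, fun ω hω => w0 ω (in1 hω),
    fun ω hω => (w1 ω hω).mono le_rfl (by rw [div_le_iff₀ hσ]; linarith),
    fun ω hω => by rw [Par.wn_eq]; exact (step_out h hp (in1 hω)).1.al, lw, rw', ?_⟩,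
    fun ω hω => (step_out h hp (in1 hω)).2.2,
    fun ω hω => by rw [Par.uu_succ, Par.kk_succ]; exact (step_out h hp (in1 hω)).1.uk,
    fun ω hω z hz => ?_, fun ω hω x => ?_,
    fun ω hω => by rw [Par.uu_succ, Par.kk_succ]; exact (step_out h hp (in1 hω)).1.pN,
    fun ω hω => by rw [Par.uu_succ, Par.kk_succ]; exact (step_out h hp (in1 hω)).1.fN,
    by rw [Par.uu_succ]; exact q4, by rw [Par.kk_succ]; exact q5⟩
  · have so := (step_out h hp (in1 i0)).1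
    set Kc := kc (X.P.H (n + 1)) (X.P.K (n + 1)) (X.P.uu X.B X.ω₀ n) (X.P.ka X.B X.ω₀ n) (X.P.M n) X.ω₀
      with hKc
    set c := cc (X.P.H (n + 1)) (X.P.K (n + 1)) (X.P.uu X.B X.ω₀ n) (X.P.ka X.B X.ω₀ n) (X.P.M n) X.ω₀
      with hc
    have dK : Differentiable ℂ Kc := diff_solve _ _ _
    have pK : Per Kc := per_solve _ _ _
    refine ⟨fun z => deriv (X.P.pe X.B X.ω₀ n X.P.L) z + deriv Kc z + c,
      (u1.dk.deriv.add dK.deriv).add_const c,
      fun z => by simp only [u1.qk.per_deriv z, pK.qp.per_deriv z],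
      fun x => im_add0 (im_add0 (r1.der u1.dk x) (q1.der dK x)) q2, fun z hz => ?_, fun x => ?_⟩
    · have := le_mul_of_one_le_left hp0.le (one_le_pow₀ (n := 2) (Nums.C_ge X.A))
      linarith [norm_add3_le (b3 z (by linarith)) (so.kc1 z hz) so.c0]
    · have d : ∀ z, HasDerivAt (fun z => X.P.kk X.B X.ω₀ n z + X.P.pe X.B X.ω₀ n X.P.L z + Kc z + c * z)
          (deriv (X.P.kk X.B X.ω₀ n) z + deriv (X.P.pe X.B X.ω₀ n X.P.L) z + deriv Kc z + c) z :=
        fun z => hasDerivAt_add_lin (((u0.dk z).hasDerivAt.add (u1.dk z).hasDerivAt).add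
          (dK z).hasDerivAt) c
      have e := deriv_comp_w (fun z => (d z).differentiableAt) (X.diff_wn X.ω₀ n) x
      rw [(d _).deriv] at e
      rw [Par.kk_succ]
      refine Eq.trans ?_ (e.trans (by ring))
      rw [Par.wn_eq]
      rfl
  · have e := deriv_comp_w (h.uk ω (in2 hω)).du (X.diff_wn ω n) z
    rw [← funext (X.P.uu_succ' X.B ω n)] at e
    have hv : |(z + X.P.wn X.B ω n z).im| ≤ X.S.τ n := by
      have := im_le_of_near (ζ := z + X.P.wn X.B ω n z) hz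
        (by simpa using w0 ω (in1 hω) z (by linarith))
      linarith
    have hd : ‖deriv (X.P.uu X.B ω (n + 1)) z - deriv (X.P.uu X.B ω n) (z + X.P.wn X.B ω n z)‖ ≤
        (1 / 2) ^ n / (400 * X.S.G) := by
      rw [e, mul_add, mul_one, add_sub_cancel_left, norm_mul]
      refine (mul_le_mul (h.sb (in2 hω) _ hv) (w1 ω hω z (by linarith)) (norm_nonneg _)
        (by positivity)).trans ?_
      rw [le_div_iff₀ (by positivity)]
      exact le_trans (le_of_eq (by ring)) (X.A.s9a n)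
    have ee : X.eps (n + 1) = X.eps n + (1 / 2) ^ n / (400 * X.S.G) := by
      unfold eps
      field_simp
      ring
    refine ((h.box ω (in2 hω) _ hv).near hd).mono ?_ ?_ ?_ <;> rw [ee] <;> linarith
  · rw [Par.uu_succ', Par.uu_succ']
    have hx : ((x + X.P.wn X.B X.ω₀ n x).re : ℂ) = x + X.P.wn X.B X.ω₀ n x :=
      Complex.ext (by simp) (by simp [rw' x])
    have h1 := h.lip ω (in2 hω) (x + X.P.wn X.B X.ω₀ n x).re
    rw [hx] at h1
    have h2 := lip_strip (hol_of_diff (h.uk ω (in2 hω)).du _) (h.sb (in2 hω))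
      (a := x + X.P.wn X.B X.ω₀ n x) (b := x + X.P.wn X.B ω n x) (by simp [rw' x]; linarith) (by
        have := (abs_im_le_norm _).trans (w0 ω (in1 hω) x (by simp; positivity))
        simp only [add_im, ofReal_im, zero_add]
        linarith)
    rw [add_sub_add_left_eq_sub] at h2
    have h3 := mul_le_mul_of_nonneg_left (lw ω hω x) (show 0 ≤ 2 * X.S.G by positivity)
    have h4 := mul_le_mul_of_nonneg_right (X.A.s9b n) (norm_nonneg (ω - X.ω₀))
    have h5 := norm_add_le (X.P.uu X.B ω n (x + X.P.wn X.B ω n x) -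
      X.P.uu X.B ω n (x + X.P.wn X.B X.ω₀ n x)) (X.P.uu X.B ω n (x + X.P.wn X.B X.ω₀ n x) -
      X.P.uu X.B X.ω₀ n (x + X.P.wn X.B X.ω₀ n x))
    rw [sub_add_sub_cancel] at h5
    refine h5.trans ((add_le_add (h2.trans h3) h1).trans (le_trans (le_of_eq ?_) h4))
    ring

theorem inv_zero : X.Inv 0 := by
  have hG := X.G0
  have hG1 := X.A.G1
  have hμ := X.A.μ0
  have hN := X.N0 0
  have hτ := τ_pos (X := X) 0
  have eτ : X.S.τ 0 = 1 / (200 * X.S.G ^ 2 * X.S.N 0) := rfl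
  have h3 : X.S.G ≤ X.S.G ^ 3 := le_self_pow₀ hG1 (by norm_num)
  have sb : SB (deriv X.P.u0) (2 * X.S.τ 0) (3 * X.S.G / 2) := fun z hz => (X.i1 z hz).1.2.1
  have key : ∀ ω : ℂ, ‖ω - X.ω₀‖ ≤ X.S.h 0 → _ := fun ω hω =>
    init_bounds (κ := X.P.κ) (C := 10 * X.S.G ^ 3) (τ := 2 * X.S.τ 0) (r := 1 / X.S.N 0) (ω := ω)
      (X.hkH 0) X.du (by linarith) hμ (by linarith [Nums.Gμ3 X.A X.Co]) (sb.mono le_rfl (by linarith))
      (fun z z' hz hz' => (X.i2 z z' hz hz').trans (le_of_eq (by ring))) (fun z hz => (X.i1 z hz).2)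
      (fun z hz => by
        have h1 := im_ref (d := 0) X.du sb (by simp) X.ru le_rfl hz
        have h2 : 3 * X.S.G / 2 * (2 * X.S.τ 0) ≤ 1 / X.S.N 0 / 2 := by
          rw [eτ]
          field_simp
          linarith
        have h4 : 3 * (10 * X.S.G ^ 3) * X.S.μ ≤ 1 / X.S.N 0 / 2 := by
          rw [div_div, le_div_iff₀ (by positivity)]
          linarith [X.Co.n4]
        linarith)
      ((X.rho_SB 0).mono le_rfl (by linarith)) ((X.drho_SB 0).mono le_rfl (by linarith))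
      (by linarith [X.norm_le hω]) ((X.im_le hω).trans (by
        change X.S.μ / 100 ≤ _
        rw [eτ, mul_div_cancel_left₀ _ two_ne_zero, div_le_div_iff₀ (by norm_num) (by positivity)]
        have := pow_le_pow_right₀ hG1 (show 2 ≤ 3 by norm_num)
        nlinarith [X.Co.n4, mul_le_mul_of_nonneg_right this (mul_pos hμ hN).le]))
  refine ⟨fun ω _ => ?_, fun ω _ => ?_, fun ω _ z hz => ?_, fun ω _ x => ?_, fun ω hω => ?_,
    fun ω hω => ⟨X.P.κ * ω ^ 3 / 12, ?_⟩, ?_, ?_⟩ <;> simp only [Par.uu_zero, Par.kk_zero]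
  · refine ⟨fun z => an_ent X.du analyticAt_snd, fun z => ?_⟩
    exact ((analyticAt_const.mul (analyticAt_fst.pow 2)).div analyticAt_const
      (by norm_num)).neg.mul analyticAt_snd
  · refine ⟨X.du, ?_, X.pu, -(X.P.κ * ω ^ 2 / 8) * (2 * π), fun z => ?_⟩
    · unfold Par.k0
      fun_prop
    · unfold Par.k0
      ring
  · simpa [eps] using (X.i1 z (by linarith)).1
  · simp [X.A.D0]
  · exact (key ω hω).1.mono (by linarith) (by linarith [X.Co.in1])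
  · exact (key ω hω).2.mono (by linarith) (by linarith [X.Co.in2])
  · exact X.ru
  · intro x
    unfold Par.k0
    norm_cast

theorem all_aux : ∀ n, (∀ i ≤ n, X.Inv i) ∧ ∀ i < n, X.Stp i
  | 0 => ⟨fun i hi => by rw [Nat.le_zero.mp hi]; exact inv_zero, fun i hi => by omega⟩
  | n + 1 => by
    obtain ⟨h1, h2⟩ := all_aux n
    have h3 := step_succ (h1 n le_rfl) (pd_all h1 h2 _ le_rfl)
    refine ⟨fun i hi => ?_, fun i hi => ?_⟩
    · rcases Nat.of_le_succ hi with h | rfl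
      exacts [h1 i h, h3.2]
    · rcases Nat.lt_succ_iff_lt_or_eq.mp hi with h | rfl
      exacts [h2 i h, h3.1]

theorem inv (n : ℕ) : X.Inv n := (all_aux n).1 n le_rfl

theorem stp (n : ℕ) : X.Stp n := (all_aux (n + 1)).2 n n.lt_succ_self

end Ctx

end Pool.Agent.Lib.MP_abef03_an
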