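import Mathlib
import Pool.Agent.Lib.MP_abef03_an.Succ
import Pool.Agent.Lib.MP_abef03_an.Limit

/-! The invariant curve at a good frequency. -/

namespace Pool.Agent.Lib.MP_abef03_an

open Complex Set Filter Topology
open scoped Real

namespace Ctx

variable (X : Ctx)

theorem p_le (n : ℕ) : X.S.p n ≤ X.S.ε / 4 * (1 / 2) ^ n := by
  have hσ := (X.A.pos n).1
  have hp := (X.A.pos n).2.2.2.1
  refine le_trans ?_ (X.Co.l1 n)
  rw [le_div_iff₀ (by positivity)]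
  have h1 : X.S.σ n ^ 2 ≤ 1 := pow_le_one₀ hσ.le (Nums.σ_le X.A X.Bo X.Co n)
  have h2 : 1 ≤ X.S.G * X.S.C ^ 2 := one_le_mul_of_one_le_of_one_le X.A.G1 (one_le_pow₀ (Nums.C_ge X.A))
  nlinarith [mul_le_mul_of_nonneg_left h1 hp.le, mul_le_mul_of_nonneg_left h2 hp.le]

theorem conclude {H : ℝ → ℝ} (hH : ContDiff ℝ 2 H) (hp : Function.Periodic H (2 * π))
    (h0 : ∀ n (x : ℝ), ‖X.P.H n x - H x‖ ≤ 2 * X.S.G / X.S.N n)
    (h1 : ∀ n (x : ℝ), ‖deriv (X.P.H n) x - deriv H x‖ ≤ 2 * X.S.G / X.S.N n) :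
    ∃ U h : ℝ → ℝ, Continuous U ∧ StrictMono U ∧ (∀ x, U (x + 2 * π) = U x + 2 * π) ∧
      ContDiff ℝ 2 h ∧ Function.Periodic h (2 * π) ∧
      (∀ x, |h x - H x| ≤ 100 * (2 * X.S.G) ^ 4 * X.S.ε ∧
        |deriv h x - deriv H x| ≤ 100 * (2 * X.S.G) ^ 4 * X.S.ε ∧
        |deriv (deriv h) x - deriv (deriv H) x| ≤ 100 * (2 * X.S.G) ^ 4 * X.S.ε) ∧
      ∀ x, U (x + X.ω₀) - U x ≤ 2 * X.S.G * X.ω₀ ∧
        h (U x) = H ((U x + U (x + X.ω₀)) / 2) * Real.cos ((U (x + X.ω₀) - U x) / 2) -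
          deriv H ((U x + U (x + X.ω₀)) / 2) * Real.sin ((U (x + X.ω₀) - U x) / 2) ∧
        h (U (x + X.ω₀)) = H ((U x + U (x + X.ω₀)) / 2) * Real.cos ((U (x + X.ω₀) - U x) / 2) +
          deriv H ((U x + U (x + X.ω₀)) / 2) * Real.sin ((U (x + X.ω₀) - U x) / 2) := by
  have hG := X.G0
  have hμ := X.A.μ0
  have hσ := fun n => (X.A.pos n).1
  have hp0 := fun n => (X.A.pos n).2.2.2.1
  have hN := X.N0
  have hτ := Nums.σ_τ X.A X.Bo
  have i0 := fun n => X.self_mem (Nums.h_pos X.A n)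
  have uk := fun n => (inv (X := X) n).uk _ (i0 n)
  have bx : ∀ n (z : ℂ), |z.im| ≤ X.S.σ n → _ := fun n z hz =>
    (inv (X := X) n).box' (i0 n) z (by linarith [hτ n, hσ n])
  have ne : ∀ n (z : ℂ), |z.im| ≤ X.S.σ n → deriv (X.P.uu X.B X.ω₀ n) z ≠ 0 := fun n z hz =>
    norm_pos_iff.mp (lt_of_lt_of_le (by positivity) (bx n z hz).norm_ge)
  have dv : ∀ n (z a : ℂ) (A : ℝ), |z.im| ≤ X.S.σ n → ‖a‖ ≤ A →
      ‖a / deriv (X.P.uu X.B X.ω₀ n) z‖ ≤ 2 * X.S.G * A := fun n z a A hz ha => by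
    rw [norm_div, div_le_iff₀ (norm_pos_iff.mpr (ne n z hz))]
    have := (bx n z hz).norm_ge
    rw [div_le_iff₀ (by positivity)] at this
    nlinarith [mul_le_mul_of_nonneg_left this ((norm_nonneg _).trans ha)]
  choose y dy py ry by' ey using fun n => (stp (X := X) n).zz
  set c : ℕ → ℂ := fun n => if n = 0 then -(X.P.κ * X.ω₀ ^ 2 / 8) else 0 with hc
  have bc : ∀ n, ‖c n‖ ≤ if n = 0 then X.S.G * X.S.μ ^ 2 else 0 := fun n => by
    simp only [hc]
    split_ifs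
    · simp only [norm_neg, norm_div, norm_mul, norm_pow, norm_real, Real.norm_eq_abs, norm_ofNat, sq_abs]
      have := pow_le_pow_left₀ (hμ.le.trans X.hω₀.1) X.hω₀.2 2
      nlinarith [mul_le_mul X.hκ this (sq_nonneg _) hG.le, mul_pos hG (pow_pos hμ 2)]
    · simp
  have hε : 0 ≤ X.S.ε := by
    have := (hp0 0).le.trans (X.p_le 0)
    linarith
  refine limit hH hp (hμ.trans_le X.hω₀.1) (by linarith [X.A.G1]) X.P.H
    (fun n => 2 * X.S.G / X.S.N n + 2 * X.S.G * X.S.p n) ?_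
    (fun n x => (h0 n x).trans (le_add_of_nonneg_right (by have := hp0 n; positivity)))
    (fun n x => (h1 n x).trans (le_add_of_nonneg_right (by have := hp0 n; positivity)))
    (X.P.uu X.B X.ω₀) (X.P.wn X.B X.ω₀)
    (fun n z => (deriv (X.P.kk X.B X.ω₀ n) z - c n) / deriv (X.P.uu X.B X.ω₀ n) z)
    (fun n z => (y n z + c n) / deriv (X.P.uu X.B X.ω₀ n) z) X.S.σ X.S.ϖ
    (fun n => 2 * X.S.G * (4 * X.S.C ^ 2 * X.S.p n + if n = 0 then X.S.G * X.S.μ ^ 2 else 0))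
    (fun n => (uk n).du) (fun n => (uk n).pu) (fun n => (inv n).ru)
    (fun n => ⟨hσ n, Nums.σ_le X.A X.Bo X.Co n⟩) (fun n z hz => ⟨(bx n z hz).1, (bx n z hz).2.1⟩)
    (fun n => (stp n).rw) (fun n => X.P.uu_succ' X.B X.ω₀ n)
    (fun n x => (stp n).w0 _ (i0 _) x (by simp; linarith [hσ n])) ?_ (fun n => ⟨?_, ?_, ?_, ?_⟩)
    (fun N => ?_) (fun x => ?_) (fun n x => ?_) (fun n hn x => ?_) (fun n hn x => ?_)
  · have t1 : Tendsto (fun n => 2 * X.S.G / X.S.N n) atTop (𝓝 0) :=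
      tendsto_const_nhds.div_atTop (tendsto_natCast_atTop_atTop.comp
        (tendsto_atTop_mono X.Co.n3 tendsto_id))
    have t2 : Tendsto X.S.p atTop (𝓝 0) := squeeze_zero (fun n => (hp0 n).le) X.p_le (by
      simpa using (tendsto_pow_atTop_nhds_zero_of_lt_one (r := (1 / 2 : ℝ)) (by norm_num)
        (by norm_num)).const_mul (X.S.ε / 4))
    simpa using t1.add (t2.const_mul (2 * X.S.G))
  · refine Summable.of_nonneg_of_le (Nums.ϖ_pos X.A) (fun n => ?_) summable_geometric_two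
    nlinarith [Nums.ϖ_le X.A n, Nums.σ_le X.A X.Bo X.Co n, Nums.ϖ_pos X.A n,
      show (0 : ℝ) < (1 / 2) ^ n by positivity]
  · exact fun z hz => ((dy n z).add_const _).div ((uk n).du.deriv z) (ne n z hz)
  · exact fun z => by simp only [py n z, (uk n).pu.qp.per_deriv z]
  · refine fun x => im_div0 (im_add0 (ry n x) ?_) ((inv n).ru.der (uk n).du x)
    simp only [hc]
    split_ifs
    · norm_cast
    · rfl
  · exact fun z hz => dv n z _ _ hz ((norm_add_le _ _).trans (add_le_add (by' n z hz) (bc n)))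
  · have : ∀ n, 2 * X.S.G * (4 * X.S.C ^ 2 * X.S.p n + if n = 0 then X.S.G * X.S.μ ^ 2 else 0) /
        X.S.σ n ^ 2 ≤ X.S.ε / 4 * (1 / 2) ^ n + if n = 0 then X.S.ε / 2 else 0 := fun n => by
      rw [mul_add, add_div]
      refine add_le_add (le_trans (le_of_eq (by ring)) (X.Co.l1 n)) ?_
      split_ifs with hn
      · subst hn
        exact le_trans (le_of_eq (by ring)) X.Co.l2
      · simp
    refine (Finset.sum_le_sum fun n _ => this n).trans ?_
    rw [Finset.sum_add_distrib, ← Finset.mul_sum, Finset.sum_ite_eq']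
    have h2 := mul_le_mul_of_nonneg_left (sum_geometric_two_le N) hε
    split_ifs <;> linarith
  · have : deriv (X.P.k0 X.ω₀) x = -(X.P.κ * X.ω₀ ^ 2 / 8) := by
      unfold Par.k0
      simp
    simp only [Par.kk_zero, this, hc, if_true, sub_self, zero_div]
  · have e := deriv_comp_w (uk n).du (X.diff_wn X.ω₀ n) x
    rw [← funext (X.P.uu_succ' X.B X.ω₀ n)] at e
    have hw : 1 + deriv (X.P.wn X.B X.ω₀ n) x ≠ 0 := by
      have h2 := (stp n).w1 _ (i0 _) x (by simp; linarith [hσ n])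
      intro h3
      rw [eq_neg_of_add_eq_zero_right h3] at h2
      norm_num at h2
    have : c (n + 1) = 0 := by simp [hc]
    simp only [this, sub_zero, e, ey, mul_div_mul_right _ _ hw]
    ring
  · have : c n = 0 := if_neg (by omega)
    have hx : |((x : ℂ) + X.ω₀).im| ≤ X.S.σ n := by simpa using (hσ n).le
    have e : Sy (X.P.H n) (X.P.uu X.B X.ω₀ n x) (X.P.uu X.B X.ω₀ n (x + X.ω₀)) -
        (deriv (X.P.kk X.B X.ω₀ n) (x + X.ω₀) - c n) / deriv (X.P.uu X.B X.ω₀ n) (x + X.ω₀) =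
        Pf (X.P.H n) (X.P.uu X.B X.ω₀ n) (X.P.kk X.B X.ω₀ n) x (x + X.ω₀) /
          deriv (X.P.uu X.B X.ω₀ n) (x + X.ω₀) := by
      have := ne n _ hx
      rw [Pf, ‹c n = 0›]
      field_simp
      ring
    rw [e]
    refine (dv n _ _ _ hx ((inv n).pb _ (i0 n) x (by simpa using (τ_pos n).le))).trans ?_
    have := div_pos (mul_pos two_pos hG) (hN n)
    nlinarith [mul_pos hG (hp0 n)]
  · have : c n = 0 := if_neg (by omega)
    have hx : |(x : ℂ).im| ≤ X.S.σ n := by simpa using (hσ n).le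
    obtain ⟨c', hc'⟩ := (inv (X := X) n).fb _ (i0 n)
    have b1 := SB_deriv (hσ n) (hol_of_diff ((diff_Ff (X.hkH n) (uk n) X.ω₀).sub_const c') _)
      (hc'.mono (σ' := X.S.σ n) (by linarith [hτ n, hσ n]) le_rfl) x (by simp)
    rw [((hasDerivAt_Ff (X.hkH n) (uk n) X.ω₀ x).sub_const c').deriv] at b1
    have b2 := (inv n).pb _ (i0 n) x (by simpa using (τ_pos (X := X) n).le)
    have b3 := (norm_sub_le _ _).trans (add_le_add b1 b2)
    rw [add_sub_cancel_right] at b3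
    have e : Sx (X.P.H n) (X.P.uu X.B X.ω₀ n x) (X.P.uu X.B X.ω₀ n (x + X.ω₀)) +
        (deriv (X.P.kk X.B X.ω₀ n) x - c n) / deriv (X.P.uu X.B X.ω₀ n) x =
        (Sx (X.P.H n) (X.P.uu X.B X.ω₀ n x) (X.P.uu X.B X.ω₀ n (x + X.ω₀)) *
          deriv (X.P.uu X.B X.ω₀ n) x + deriv (X.P.kk X.B X.ω₀ n) x) / deriv (X.P.uu X.B X.ω₀ n) x := by
      have := ne n _ hx
      rw [‹c n = 0›]
      field_simp
      ring
    rw [e]
    refine (dv n _ _ _ hx b3).trans ?_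
    have h2 : X.S.φ n / 2 / X.S.σ n ≤ X.S.p n / 2 := by
      rw [div_le_iff₀ (hσ n)]
      linarith [X.Co.l3 n]
    have := div_pos (mul_pos two_pos hG) (hN n)
    nlinarith [mul_pos hG (hp0 n), mul_le_mul_of_nonneg_left h2 hG.le]

end Ctx

end Pool.Agent.Lib.MP_abef03_an
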