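import Mathlib
import Pool.Agent.Lib.MP_abef03_an.Defs

/-! Hopf's Umlaufsatz for the boundary of a table. -/

namespace Pool.Agent.Lib.MP_abef03_an

open Complex Set
open scoped Real

theorem umlauf_const {f : ℝ → ℂ} (hf : Continuous f) {s : Set ℝ} (hs : IsPreconnected s) {c : ℂ}
    (he : ∀ x ∈ s, exp (f x) = c) {a b : ℝ} (ha : a ∈ s) (hb : b ∈ s) : f a = f b :=
  Complex.isCoveringMap_exp.constOn_of_comp hs hf.continuousOn
    (fun x hx y hy => Subtype.ext ((he x hx).trans (he y hy).symm)) ha hb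

/-- The mean of the tangent vector along an arc. -/
noncomputable def umlaufA (γ : ℝ → ℂ) (s u : ℝ) : ℂ := ∫ r in (0 : ℝ)..1, deriv γ (s + r * u)

theorem umlaufA_cont {γ : ℝ → ℂ} (hγ : ContDiff ℝ 1 γ) :
    Continuous (fun p : ℝ × ℝ => umlaufA γ p.1 p.2) := by
  have h := hγ.continuous_deriv_one
  unfold umlaufA
  refine intervalIntegral.continuous_parametric_intervalIntegral_of_continuous'
    (f := fun (p : ℝ × ℝ) (r : ℝ) => deriv γ (p.1 + r * p.2)) ?_ 0 1
  exact h.comp (by fun_prop)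

theorem umlaufA_mul {γ : ℝ → ℂ} (hγ : ContDiff ℝ 1 γ) (s u : ℝ) :
    (u : ℂ) * umlaufA γ s u = γ (s + u) - γ s := by
  have h := hγ.continuous_deriv_one
  have hd : Differentiable ℝ γ := hγ.differentiable one_ne_zero
  unfold umlaufA
  rw [← intervalIntegral.integral_const_mul]
  have h1 : ∀ r ∈ uIcc (0 : ℝ) 1,
      HasDerivAt (fun r : ℝ => γ (s + r * u)) ((u : ℂ) * deriv γ (s + r * u)) r := by
    intro r _
    have h2 : HasDerivAt (fun r : ℝ => s + r * u) u r := by
      simpa using ((hasDerivAt_id r).mul_const u).const_add s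
    have h3 := (hd (s + r * u)).hasDerivAt.scomp r h2
    rw [real_smul] at h3
    exact h3
  rw [intervalIntegral.integral_eq_sub_of_hasDerivAt h1
    (Continuous.intervalIntegrable (by fun_prop) _ _)]
  simp

theorem umlaufA_zero (γ : ℝ → ℂ) (s : ℝ) : umlaufA γ s 0 = deriv γ s := by
  simp [umlaufA]

theorem umlauf_deriv_periodic {γ : ℝ → ℂ} {L : ℝ} (hp : Function.Periodic γ L) :
    Function.Periodic (deriv γ) L := by
  intro s
  rw [← deriv_comp_add_const]
  congr 1
  funext x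
  exact hp x

theorem umlaufA_periodic {γ : ℝ → ℂ} {L : ℝ} (hp : Function.Periodic γ L) (s u : ℝ) :
    umlaufA γ (s + L) u = umlaufA γ s u := by
  unfold umlaufA
  congr 1
  funext r
  rw [show s + L + r * u = s + r * u + L by ring]
  exact umlauf_deriv_periodic hp _

theorem umlauf_ne {γ : ℝ → ℂ} {L : ℝ} (hL : 0 < L) (hp : Function.Periodic γ L)
    (hs : InjOn γ (Ico 0 L)) (s : ℝ) {u : ℝ} (h0 : 0 < u) (h1 : u < L) : γ (s + u) ≠ γ s := by
  intro h
  have hm : ∀ x, γ (toIcoMod hL 0 x) = γ x := fun x => by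
    unfold toIcoMod
    exact hp.sub_zsmul_eq _
  have hi : ∀ x, toIcoMod hL 0 x ∈ Ico 0 L := fun x => toIcoMod_mem_Ico' hL x
  have h2 : toIcoMod hL 0 s = toIcoMod hL 0 (s + u) := hs (hi _) (hi _) (by rw [hm, hm, h])
  obtain ⟨n, hn⟩ := (toIcoMod_eq_toIcoMod hL).1 h2
  rw [add_sub_cancel_left, zsmul_eq_mul] at hn
  have h3 : (0 : ℝ) < n := by
    by_contra hc
    push Not at hc
    nlinarith
  have h4 : (n : ℝ) < 1 := by
    by_contra hc
    push Not at hc
    nlinarith
  have h5 : 0 < n := by exact_mod_cast h3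
  have h6 : n < 1 := by exact_mod_cast h4
  omega

/-- The secant map, extended to the ends of the interval. -/
noncomputable def umlaufG (γ : ℝ → ℂ) (L s u : ℝ) : ℂ := umlaufA γ s u - umlaufA γ (s + u) (L - u)

theorem umlaufG_cont {γ : ℝ → ℂ} (hγ : ContDiff ℝ 1 γ) (L : ℝ) :
    Continuous (fun p : ℝ × ℝ => umlaufG γ L p.1 p.2) := by
  have h := umlaufA_cont hγ
  unfold umlaufG
  exact h.sub (h.comp (f := fun p : ℝ × ℝ => (p.1 + p.2, L - p.2)) (by fun_prop))

theorem umlaufG_symm {γ : ℝ → ℂ} {L : ℝ} (hp : Function.Periodic γ L) (s u : ℝ) :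
    umlaufG γ L (s + u) (L - u) = -umlaufG γ L s u := by
  unfold umlaufG
  rw [show s + u + (L - u) = s + L by ring, sub_sub_cancel, umlaufA_periodic hp]
  ring

theorem umlaufG_zero {γ : ℝ → ℂ} {L : ℝ} (hL : 0 < L) (hγ : ContDiff ℝ 1 γ)
    (hp : Function.Periodic γ L) (s : ℝ) : umlaufG γ L s 0 = deriv γ s := by
  have h := umlaufA_mul hγ s L
  rw [hp s, sub_self] at h
  have h2 : umlaufA γ s L = 0 := (mul_eq_zero.1 h).resolve_left (by exact_mod_cast hL.ne')
  unfold umlaufG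
  rw [umlaufA_zero, add_zero, sub_zero, h2, sub_zero]

theorem umlaufG_end {γ : ℝ → ℂ} {L : ℝ} (hL : 0 < L) (hγ : ContDiff ℝ 1 γ)
    (hp : Function.Periodic γ L) (s : ℝ) : umlaufG γ L s L = -deriv γ s := by
  have h := umlaufG_symm hp s 0
  rwa [add_zero, sub_zero, umlaufG_zero hL hγ hp] at h

theorem umlaufG_mid {γ : ℝ → ℂ} {L : ℝ} (hγ : ContDiff ℝ 1 γ) (hp : Function.Periodic γ L)
    (s : ℝ) {u : ℝ} (h0 : 0 < u) (h1 : u < L) :
    umlaufG γ L s u = ((1 / u + 1 / (L - u) : ℝ) : ℂ) * (γ (s + u) - γ s) := by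
  have e1 := umlaufA_mul hγ s u
  have e2 := umlaufA_mul hγ (s + u) (L - u)
  rw [show s + u + (L - u) = s + L by ring, hp s] at e2
  have n1 : (u : ℂ) ≠ 0 := by exact_mod_cast h0.ne'
  have n2 : ((L - u : ℝ) : ℂ) ≠ 0 := by exact_mod_cast (sub_pos.2 h1).ne'
  have f1 : umlaufA γ s u = (γ (s + u) - γ s) / u := by rw [← e1]; field_simp
  have f2 : umlaufA γ (s + u) (L - u) = (γ s - γ (s + u)) / ((L - u : ℝ) : ℂ) := by
    rw [← e2]; field_simp
  unfold umlaufG
  rw [f1, f2, ofReal_add, ofReal_div, ofReal_div, ofReal_one]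
  ring

theorem umlauf_core {γ : ℝ → ℂ} {L : ℝ} (hL : 0 < L) (hγ : ContDiff ℝ 1 γ)
    (hp : Function.Periodic γ L) (hs : InjOn γ (Ico 0 L)) {α : ℝ → ℝ} (hα : Continuous α)
    (he : ∀ s, deriv γ s = exp (α s * I)) {Δ : ℝ} (hΔ : ∀ s, α (s + L) = α s + Δ) :
    Δ < 4 * π := by
  have hd : Differentiable ℝ γ := hγ.differentiable one_ne_zero
  have hne : ∀ s u, u ∈ Icc 0 L → umlaufG γ L s u ≠ 0 := by
    intro s u hu
    rcases hu.1.eq_or_lt with h0 | h0
    · rw [← h0, umlaufG_zero hL hγ hp, he]; exact exp_ne_zero _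
    rcases hu.2.eq_or_lt with h1 | h1
    · rw [h1, umlaufG_end hL hγ hp, he]; exact neg_ne_zero.2 (exp_ne_zero _)
    rw [umlaufG_mid hγ hp s h0 h1]
    refine mul_ne_zero ?_ (sub_ne_zero.2 (umlauf_ne hL hp hs s h0 h1))
    have : 0 < 1 / u + 1 / (L - u) := by
      have := sub_pos.2 h1
      positivity
    exact_mod_cast this.ne'
  -- the lift of the secant map
  have hcl : ∀ u : ℝ, max 0 (min u L) ∈ Icc 0 L := fun u =>
    ⟨le_max_left _ _, max_le hL.le (min_le_right _ _)⟩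
  have hcl' : ∀ u ∈ Icc 0 L, max 0 (min u L) = u := fun u hu => by
    rw [min_eq_left hu.2, max_eq_right hu.1]
  have hG : Continuous fun p : ℝ × ℝ => umlaufG γ L p.1 (max 0 (min p.2 L)) :=
    (umlaufG_cont hγ L).comp (f := fun p : ℝ × ℝ => (p.1, max 0 (min p.2 L))) (by fun_prop)
  obtain ⟨F, ⟨-, hF⟩, -⟩ := isCoveringMapOn_exp.existsUnique_continuousMap_lifts
    (A := ℝ × ℝ) ⟨_, hG⟩ (a₀ := 0) (exp_log (hne _ _ (hcl _))) (fun p => hne _ _ (hcl _))
  have hFe : ∀ s, ∀ u ∈ Icc 0 L, exp (F (s, u)) = umlaufG γ L s u := by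
    intro s u hu
    have := congrFun hF (s, u)
    simp only [Function.comp_apply, ContinuousMap.coe_mk, hcl' u hu] at this
    exact this
  have hFc := F.continuous
  have m0 : (0 : ℝ) ∈ Icc 0 L := ⟨le_rfl, hL.le⟩
  have mL : L ∈ Icc 0 L := ⟨hL.le, le_rfl⟩
  -- a lowest point
  obtain ⟨s₀, hs₀⟩ : ∃ s₀, ∀ s, (γ s₀).im ≤ (γ s).im := by
    have hc : Continuous fun s => (γ s).im := continuous_im.comp hγ.continuous
    obtain ⟨s₀, -, h⟩ := isCompact_Icc.exists_isMinOn ⟨0, m0⟩ hc.continuousOn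
    refine ⟨s₀, fun s => ?_⟩
    obtain ⟨y, hy, e⟩ := hp.exists_mem_Ico₀ hL s
    rw [e]
    exact h (Ico_subset_Icc_self hy)
  have hd0 : (deriv γ s₀).im = 0 := by
    have h1 : HasDerivAt (fun s => (γ s).im) (deriv γ s₀).im s₀ :=
      imCLM.hasFDerivAt.comp_hasDerivAt s₀ (hd s₀).hasDerivAt
    exact IsLocalMin.hasDerivAt_eq_zero (Filter.Eventually.of_forall hs₀) h1
  have hup : ∀ u ∈ Icc 0 L, 0 ≤ (umlaufG γ L s₀ u).im := by
    intro u hu
    rcases hu.1.eq_or_lt with h0 | h0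
    · rw [← h0, umlaufG_zero hL hγ hp, hd0]
    rcases hu.2.eq_or_lt with h1 | h1
    · rw [h1, umlaufG_end hL hγ hp, neg_im, hd0, neg_zero]
    rw [umlaufG_mid hγ hp s₀ h0 h1, im_ofReal_mul, sub_im]
    have := sub_pos.2 h1
    exact mul_nonneg (by positivity) (sub_nonneg.2 (hs₀ _))
  -- along the diagonal
  have e1 : F (s₀ + L, 0) - α (s₀ + L) * I = F (s₀, 0) - α s₀ * I := by
    refine umlauf_const (f := fun s => F (s, 0) - α s * I) (by fun_prop) isPreconnected_univ
      (c := 1) (fun x _ => ?_) (mem_univ _) (mem_univ _)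
    rw [exp_sub, hFe x 0 m0, umlaufG_zero hL hγ hp, he, div_self (exp_ne_zero _)]
  -- the antipodal symmetry
  have e2 : F (s₀ + 0, L - 0) - F (s₀, 0) = F (s₀ + L, L - L) - F (s₀, L) := by
    refine umlauf_const (f := fun v => F (s₀ + v, L - v) - F (s₀, v)) (by fun_prop)
      isPreconnected_Icc (c := -1) (fun x hx => ?_) m0 mL
    rw [exp_sub, hFe _ _ hx, hFe _ (L - x) ⟨by linarith [hx.2], by linarith [hx.1]⟩,
      umlaufG_symm hp, neg_div, div_self (hne _ _ hx)]
  rw [add_zero, sub_zero, sub_self] at e2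
  have e3 := congrArg im e1
  have e4 := congrArg im e2
  simp only [sub_im, mul_im, ofReal_re, I_im, ofReal_im, I_re, mul_one, mul_zero, add_zero,
    hΔ] at e3 e4
  by_contra hc
  push Not at hc
  have e5 : (F (s₀, 0)).im + 2 * π ≤ (F (s₀, L)).im := by linarith
  have hπ := Real.two_pi_pos
  set t := toIcoMod hπ (F (s₀, 0)).im (-(π / 2)) with ht
  have t1 : t ∈ Ico (F (s₀, 0)).im ((F (s₀, 0)).im + 2 * π) := toIcoMod_mem_Ico hπ _ _
  have t2 : Real.sin t = -1 := by
    rw [ht]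
    unfold toIcoMod
    rw [Real.sin_periodic.sub_zsmul_eq, Real.sin_neg, Real.sin_pi_div_two]
  have hc2 : ContinuousOn (fun u => (F (s₀, u)).im) (Icc 0 L) := by fun_prop
  obtain ⟨u, hu, hu2⟩ := intermediate_value_Icc hL.le hc2 ⟨t1.1, t1.2.le.trans e5⟩
  have h5 := hup u hu
  rw [← hFe s₀ u hu, exp_im] at h5
  simp only at hu2
  rw [hu2, t2] at h5
  linarith [Real.exp_pos (F (s₀, u)).re]

theorem Table.exists_angle (T : Table 4) : ∃ α : ℝ → ℝ, ContDiff ℝ 3 α ∧ (∀ s, 0 < deriv α s) ∧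
    (∀ s, deriv T.γ s = exp (α s * I)) ∧ ∀ s, α (s + T.L) = α s + 2 * π := by
  have h4 : ContDiff ℝ (3 + 1) T.γ := by
    have := T.smooth
    norm_num at this ⊢
    exact this
  have h3 : ContDiff ℝ (2 + 1) (deriv T.γ) := by
    have := h4.deriv'
    norm_num at this ⊢
    exact this
  have h2 : ContDiff ℝ 2 (deriv (deriv T.γ)) := h3.deriv'
  have h1 : ContDiff ℝ 1 T.γ := h4.of_le (by norm_num)
  have hd : Differentiable ℝ (deriv T.γ) := h3.differentiable (by norm_num)
  set κ : ℝ → ℝ := fun s => (starRingEnd ℂ (deriv T.γ s) * deriv (deriv T.γ) s).im with hκ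
  have hκ2 : ContDiff ℝ 2 κ := by
    have a1 : ContDiff ℝ 2 (fun s => starRingEnd ℂ (deriv T.γ s)) :=
      conjCLE.contDiff.comp (h3.of_le (by norm_num))
    exact imCLM.contDiff.comp (a1.mul h2)
  have hκc : Continuous κ := hκ2.continuous
  have hunit : ∀ s, deriv T.γ s * starRingEnd ℂ (deriv T.γ s) = 1 := fun s => by
    rw [mul_conj, normSq_eq_norm_sq, T.unit_speed]; simp
  have hre : ∀ s, (starRingEnd ℂ (deriv T.γ s) * deriv (deriv T.γ) s).re = 0 := by
    intro s
    have a1 := (hd s).hasDerivAt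
    have a2 : HasDerivAt (fun s => starRingEnd ℂ (deriv T.γ s))
        (starRingEnd ℂ (deriv (deriv T.γ) s)) s :=
      conjCLE.hasFDerivAt.comp_hasDerivAt s a1
    have a3 := a1.mul a2
    have a4 : (deriv T.γ * fun s => starRingEnd ℂ (deriv T.γ s)) = fun _ => 1 := funext hunit
    rw [a4] at a3
    have a5 := congrArg re (a3.unique (hasDerivAt_const s 1))
    simp only [add_re, mul_re, conj_re, conj_im, zero_re] at a5 ⊢
    linarith
  have hfr : ∀ s, deriv (deriv T.γ) s = (κ s : ℂ) * I * deriv T.γ s := by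
    intro s
    have a1 : starRingEnd ℂ (deriv T.γ s) * deriv (deriv T.γ) s = (κ s : ℂ) * I := by
      apply Complex.ext
      · rw [hre]; simp
      · simp [hκ]
    rw [← a1]
    linear_combination (-deriv (deriv T.γ) s) * hunit s
  set α : ℝ → ℝ := fun s => arg (deriv T.γ 0) + ∫ r in (0 : ℝ)..s, κ r with hαdef
  have hα : ∀ s, HasDerivAt α (κ s) s := fun s =>
    (hκc.deriv_integral κ 0 s ▸ (intervalIntegral.integral_hasDerivAt_right
      (hκc.intervalIntegrable _ _) (hκc.stronglyMeasurableAtFilter _ _)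
      hκc.continuousAt).differentiableAt.hasDerivAt).const_add _
  have hdα : deriv α = κ := funext fun s => (hα s).deriv
  have hα3 : ContDiff ℝ (2 + 1) α :=
    contDiff_succ_iff_deriv.2 ⟨fun s => (hα s).differentiableAt, by simp, hdα ▸ hκ2⟩
  have hexp : ∀ s, deriv T.γ s = exp (α s * I) := by
    have a1 : ∀ s, HasDerivAt (fun s => deriv T.γ s * exp (-(α s * I))) 0 s := by
      intro s
      have b1 : HasDerivAt (fun s => exp (-((α s : ℂ) * I)))
          (exp (-((α s : ℂ) * I)) * -((κ s : ℂ) * I)) s :=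
        ((hα s).ofReal_comp.mul_const I).neg.cexp
      have b2 := (hd s).hasDerivAt.mul b1
      rw [hfr s] at b2
      refine b2.congr_deriv ?_
      ring
    intro s
    have a2 := is_const_of_deriv_eq_zero (fun s => (a1 s).differentiableAt)
      (fun s => (a1 s).deriv) s 0
    have a3 : α 0 = arg (deriv T.γ 0) := by simp [hαdef]
    have a4 := norm_mul_exp_arg_mul_I (deriv T.γ 0)
    rw [T.unit_speed, ofReal_one, one_mul, ← a3] at a4
    rw [← a4, exp_neg, exp_neg, mul_inv_cancel₀ (exp_ne_zero _)] at a2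
    exact (mul_inv_eq_one₀ (exp_ne_zero _)).1 a2
  have hpos : ∀ s, 0 < deriv α s := fun s => by rw [hdα]; exact T.curvature_pos s
  have hper := umlauf_deriv_periodic T.periodic
  have hΔ : ∀ s, α (s + T.L) = α s + (α T.L - α 0) := by
    intro s
    have hc := hα3.continuous
    have a1 := umlauf_const (f := fun s => (α (s + T.L) : ℂ) * I - α s * I) (by fun_prop)
      isPreconnected_univ (c := 1) (fun x _ => by
        rw [exp_sub, ← hexp, ← hexp, hper x, hexp, div_self (exp_ne_zero _)])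
      (mem_univ s) (mem_univ 0)
    have a2 := congrArg im a1
    simp only [sub_im, mul_im, ofReal_re, I_im, ofReal_im, I_re, mul_one, mul_zero, add_zero,
      zero_add] at a2
    linarith
  have hlt := umlauf_core T.length_pos h1 T.periodic T.simple hα3.continuous hexp hΔ
  have hgt : 0 < α T.L - α 0 := sub_pos.2 (strictMono_of_deriv_pos hpos T.length_pos)
  obtain ⟨n, hn⟩ : ∃ n : ℤ, (α T.L : ℂ) * I = α 0 * I + n * (2 * π * I) := by
    rw [← exp_eq_exp_iff_exists_int, ← hexp, ← hexp]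
    simpa using hper 0
  have hn2 := congrArg im hn
  simp only [add_im, mul_im, mul_re, ofReal_re, I_im, ofReal_im, I_re, mul_one, mul_zero, add_zero,
    intCast_re, intCast_im, re_ofNat, im_ofNat, zero_mul, sub_zero] at hn2
  have hπ := Real.pi_pos
  have n1 : (0 : ℝ) < n := by
    by_contra hc
    push Not at hc
    nlinarith
  have n2 : (n : ℝ) < 2 := by
    by_contra hc
    push Not at hc
    nlinarith
  have n3 : 0 < n := by exact_mod_cast n1
  have n4 : n < 2 := by exact_mod_cast n2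
  have n5 : n = 1 := by omega
  refine ⟨α, ?_, hpos, hexp, fun s => ?_⟩
  · norm_num at hα3
    exact hα3
  · rw [hΔ s, hn2, n5]
    push_cast
    ring

end Pool.Agent.Lib.MP_abef03_an
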