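import Mathlib
import Pool.Agent.Lib.MP_abef03_an.Umlauf
import Pool.Agent.Lib.MP_abef03_an.Supp

/-! The support function of a table. -/

namespace Pool.Agent.Lib.MP_abef03_an

open Complex
open scoped Real

theorem support_surj {β : ℝ → ℝ} (hc : Continuous β) {L : ℝ}
    (hp : ∀ s, β (s + L) = β s + 2 * π) : Function.Surjective β := by
  have h1 : ∀ n : ℕ, ∀ s, β (s + n * L) = β s + n * (2 * π) := by
    intro n
    induction n with
    | zero => intro s; simp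
    | succ n ih =>
      intro s
      rw [Nat.cast_succ, add_mul, one_mul, ← add_assoc, hp, ih]
      ring
  intro y
  obtain ⟨n, hn⟩ := exists_nat_ge (|y - β 0| / (2 * π))
  rw [div_le_iff₀ Real.two_pi_pos, abs_le] at hn
  have a1 := h1 n 0
  have a2 := h1 n (-(n * L))
  rw [neg_add_cancel] at a2
  exact intermediate_value_univ (-(n * L)) (0 + n * L) hc ⟨by linarith [hn.1], by linarith [hn.2]⟩

theorem support_inv {β : ℝ → ℝ} (hβ : ContDiff ℝ 3 β) (hpos : ∀ s, 0 < deriv β s)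
    (hs : Function.Surjective β) :
    ∃ σ : ℝ → ℝ, ContDiff ℝ 3 σ ∧ StrictMono σ ∧ (∀ ψ, β (σ ψ) = ψ) ∧ (∀ s, σ (β s) = s) ∧
      ∀ ψ, 0 < deriv σ ψ := by
  have hm : StrictMono β := strictMono_of_deriv_pos hpos
  have hd : Differentiable ℝ β := hβ.differentiable (by norm_num)
  set e := hm.orderIsoOfSurjective β hs with he
  have h3 : ContDiff ℝ 3 (e.toHomeomorph.symm : ℝ → ℝ) :=
    e.toHomeomorph.contDiff_symm_deriv (f' := deriv β) (fun s => (hpos s).ne')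
      (fun s => (hd s).hasDerivAt) hβ
  have hr : ∀ ψ, β (e.symm ψ) = ψ := fun ψ => e.apply_symm_apply ψ
  refine ⟨e.symm, h3, e.symm.strictMono, hr, fun s => e.symm_apply_apply s, fun ψ => ?_⟩
  have h4 : HasDerivAt e.symm (deriv β (e.symm ψ))⁻¹ ψ :=
    HasDerivAt.of_local_left_inverse h3.continuous.continuousAt (hd _).hasDerivAt (hpos _).ne'
      (Filter.Eventually.of_forall hr)
  rw [h4.deriv]
  exact inv_pos.2 (hpos _)

theorem Table.exists_support (T : Table 4) : ∃ H σ : ℝ → ℝ, ContDiff ℝ 4 H ∧ Supp H ∧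
    Continuous σ ∧ StrictMono σ ∧ (∀ ψ, σ (ψ + 2 * π) = σ ψ + T.L) ∧
    (∀ ψ, T.γ (σ ψ) = curve H ψ) ∧ (∀ ψ, deriv T.γ (σ ψ) = I * exp (ψ * I)) ∧
    T.D = body H := by
  obtain ⟨α, hα, hpos, hexp, hper⟩ := T.exists_angle
  have hβ : ContDiff ℝ 3 (fun s => α s - π / 2) := hα.sub contDiff_const
  obtain ⟨σ, hσ, hm, hr, hl, hσpos⟩ := support_inv hβ (fun s => by
    rw [deriv_sub_const]; exact hpos s)
    (support_surj (L := T.L) hβ.continuous (fun s => by rw [hper]; ring))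
  have hγ3 : ContDiff ℝ 3 T.γ := T.smooth.of_le (by norm_num)
  have hγd : Differentiable ℝ T.γ := hγ3.differentiable (by norm_num)
  have hσd : Differentiable ℝ σ := hσ.differentiable (by norm_num)
  have hσp : ∀ ψ, σ (ψ + 2 * π) = σ ψ + T.L := by
    intro ψ
    rw [← hl (σ ψ + T.L), hper]
    congr 1
    linarith [hr ψ]
  have htan : ∀ ψ, deriv T.γ (σ ψ) = I * exp (ψ * I) := by
    intro ψ
    have e : α (σ ψ) = ψ + π / 2 := by linarith [hr ψ]
    rw [hexp, e]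
    push_cast
    rw [add_mul, exp_add, exp_pi_div_two_mul_I, mul_comm]
  set W : ℝ → ℂ := fun ψ => T.γ (σ ψ) * exp (-(ψ * I)) with hW
  have hW3 : ContDiff ℝ 3 W := by
    refine (hγ3.comp hσ).mul ?_
    exact ((ofRealCLM.contDiff.mul contDiff_const).neg).cexp
  have hee : ∀ ψ : ℝ, exp (ψ * I) * exp (-(ψ * I)) = 1 := fun ψ => by
    rw [← exp_add, add_neg_cancel, exp_zero]
  have hWd : ∀ ψ, HasDerivAt W (I * (deriv σ ψ : ℝ) - I * W ψ) ψ := by
    intro ψ
    have b1 : HasDerivAt (fun ψ : ℝ => exp (-((ψ : ℂ) * I)))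
        (exp (-((ψ : ℂ) * I)) * -(((1 : ℝ) : ℂ) * I)) ψ :=
      ((hasDerivAt_id ψ).ofReal_comp.mul_const I).neg.cexp
    have b2 := (hγd (σ ψ)).hasDerivAt.scomp ψ (hσd ψ).hasDerivAt
    rw [real_smul, htan] at b2
    refine (b2.mul b1).congr_deriv ?_
    simp only [hW, Function.comp_apply, ofReal_one]
    linear_combination ((deriv σ ψ : ℝ) : ℂ) * I * hee ψ
  set H : ℝ → ℝ := fun ψ => (W ψ).re with hH
  have hHd : ∀ ψ, HasDerivAt H (W ψ).im ψ := by
    intro ψ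
    have b1 : HasDerivAt H (I * (deriv σ ψ : ℝ) - I * W ψ).re ψ :=
      reCLM.hasFDerivAt.comp_hasDerivAt ψ (hWd ψ)
    refine b1.congr_deriv ?_
    simp
  have hKd : ∀ ψ, HasDerivAt (fun ψ => (W ψ).im) (deriv σ ψ - H ψ) ψ := by
    intro ψ
    have b1 : HasDerivAt (fun ψ => (W ψ).im) (I * (deriv σ ψ : ℝ) - I * W ψ).im ψ :=
      imCLM.hasFDerivAt.comp_hasDerivAt ψ (hWd ψ)
    refine b1.congr_deriv ?_
    simp [hH]
  have hdH : deriv H = fun ψ => (W ψ).im := funext fun ψ => (hHd ψ).deriv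
  have hH4 : ContDiff ℝ (3 + 1) H :=
    contDiff_succ_iff_deriv.2 ⟨fun ψ => (hHd ψ).differentiableAt, by simp,
      hdH ▸ imCLM.contDiff.comp hW3⟩
  have hH4' : ContDiff ℝ 4 H := by
    norm_num at hH4
    exact hH4
  have hWp : ∀ ψ, W (ψ + 2 * π) = W ψ := by
    intro ψ
    simp only [hW]
    rw [hσp, T.periodic]
    push_cast
    rw [add_mul, neg_add, exp_add, exp_neg (2 * π * I), exp_two_pi_mul_I, inv_one, mul_one]
  have hS : Supp H := by
    refine ⟨hH4'.of_le (by norm_num), fun ψ => by simp only [hH, hWp], fun ψ => ?_⟩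
    rw [hdH, (hKd ψ).deriv, sub_add_cancel]
    exact hσpos ψ
  have hcurve : ∀ ψ, T.γ (σ ψ) = curve H ψ := by
    intro ψ
    unfold curve
    rw [hdH]
    simp only [hH]
    rw [re_add_im]
    simp only [hW]
    linear_combination (-T.γ (σ ψ)) * hee ψ
  refine ⟨H, σ, hH4', hS, hσ.continuous, hm, hσp, hcurve, htan, ?_⟩
  refine hS.eq_body T.isOpen T.connected T.bounded ?_
  rw [T.boundary]
  ext z
  constructor
  · rintro ⟨s, rfl⟩
    exact ⟨α s - π / 2, by rw [← hcurve, hl]⟩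
  · rintro ⟨ψ, rfl⟩
    exact ⟨σ ψ, hcurve ψ⟩

end Pool.Agent.Lib.MP_abef03_an
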