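import Mathlib
import Pool.Agent.Lib.MP_abef03_an.Basic
import Pool.Agent.Lib.MP_abef03_an.Support
import Pool.Agent.Lib.MP_abef03_an.Caustic

/-! Reduction of property (L) to the analytic theorem. -/

namespace Pool.Agent.Lib.MP_abef03_an

open Set MeasureTheory
open scoped Real

theorem geom_lower {H : ℝ → ℝ} (hH : Supp H) : ∃ c > (0 : ℝ), ∀ x, c ≤ deriv (deriv H) x + H x := by
  have h1 : Continuous (deriv (deriv H)) := by
    have h2 : ContDiff ℝ (1 + 1) H := by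
      rw [one_add_one_eq_two]
      exact hH.smooth
    exact h2.deriv'.continuous_deriv le_rfl
  have h3 : Continuous fun x => deriv (deriv H) x + H x := h1.add hH.smooth.continuous
  have hd : ∀ f : ℝ → ℝ, Function.Periodic f (2 * π) → Function.Periodic (deriv f) (2 * π) := by
    intro f hf s
    have h : (fun x => f (x + 2 * π)) = f := funext hf
    rw [← deriv_comp_add_const, h]
  have h4 : Function.Periodic (fun x => deriv (deriv H) x + H x) (2 * π) :=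
    (hd _ (hd _ hH.per)).add hH.per
  obtain ⟨x₀, -, hx₀⟩ := (isCompact_Icc (a := (0 : ℝ)) (b := 2 * π)).exists_isMinOn
    ⟨0, le_rfl, Real.two_pi_pos.le⟩ h3.continuousOn
  refine ⟨_, hH.pos x₀, fun x => ?_⟩
  obtain ⟨y, hy, hxy⟩ := h4.exists_mem_Ico₀ Real.two_pi_pos x
  have h5 : deriv (deriv H) x + H x = deriv (deriv H) y + H y := hxy
  rw [h5]
  exact hx₀ (Ico_subset_Icc_self hy)

theorem geom_dist {h H : ℝ → ℝ} {ε : ℝ} (hε : 0 ≤ ε)
    (hc : ∀ x, |h x - H x| ≤ ε ∧ |deriv h x - deriv H x| ≤ ε) :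
    Metric.hausdorffDist (range (curve h)) (range (curve H)) ≤ 2 * ε := by
  have key : ∀ ψ, dist (curve h ψ) (curve H ψ) ≤ 2 * ε := by
    intro ψ
    have h1 : curve h ψ - curve H ψ = (((h ψ - H ψ : ℝ) : ℂ) +
        ((deriv h ψ - deriv H ψ : ℝ) : ℂ) * Complex.I) * Complex.exp (ψ * Complex.I) := by
      unfold curve
      push_cast
      ring
    rw [dist_eq_norm, h1, norm_mul, Complex.norm_exp_ofReal_mul_I, mul_one]
    refine (norm_add_le _ _).trans ?_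
    rw [norm_mul, Complex.norm_I, mul_one, Complex.norm_real, Complex.norm_real, Real.norm_eq_abs,
      Real.norm_eq_abs]
    linarith [(hc ψ).1, (hc ψ).2]
  refine Metric.hausdorffDist_le_of_mem_dist (by linarith) ?_ ?_
  · rintro _ ⟨ψ, rfl⟩
    exact ⟨_, ⟨ψ, rfl⟩, key ψ⟩
  · rintro _ ⟨ψ, rfl⟩
    exact ⟨_, ⟨ψ, rfl⟩, dist_comm (curve h ψ) _ ▸ key ψ⟩

/-- One scale. -/
theorem geom_scale (hK : KAMStmt) (T : Table 4) {η : ℝ} (hη : 0 < η) :
    ∃ μ > (0 : ℝ), μ < η ∧ ∃ E : Set ℝ, E ⊆ Icc μ (2 * μ) ∧ IsClosed E ∧ 0 < volume E ∧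
      ∀ ω ∈ E, ∃ Γ : ConvexCurve, Metric.hausdorffDist (range Γ.c) (frontier T.D) ≤ η ∧
        T.IsCaustic Γ ∧ ∃ e : AddCircle T.L ≃ₜ T.Star Γ,
          ∀ x, T.Bounce (e x) (e (x + (ω * T.L : ℝ))) := by
  obtain ⟨H, σ, hH4, hH, hσc, hσm, hσp, hγ, hγ', hD⟩ := T.exists_support
  obtain ⟨c, hc, hcle⟩ := geom_lower hH
  have hp := Real.two_pi_pos
  set ε := min (min (η / 2) (c / 3)) 1 with hεdef
  have hε : 0 < ε := lt_min (lt_min (by linarith) (by linarith)) one_pos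
  have hε1 : ε ≤ η / 2 := (min_le_left _ _).trans (min_le_left _ _)
  have hε2 : ε ≤ c / 3 := (min_le_left _ _).trans (min_le_right _ _)
  have hε3 : ε ≤ 1 := min_le_right _ _
  obtain ⟨μ₀, hμ₀, hμ⟩ := hK H hH4 hH.per hH.pos ε hε
  set μ := min (μ₀ / 2) η with hμdef
  have hμ1 : 0 < μ := lt_min (by linarith) hη
  have hμ2 : μ ≤ μ₀ / 2 := min_le_left _ _
  have hμ3 : μ ≤ η := min_le_right _ _
  obtain ⟨E, hE1, hE2, hE3, hE4⟩ := hμ μ ⟨hμ1, by linarith⟩
  refine ⟨μ / (2 * π), div_pos hμ1 hp, ?_, (fun ω => 2 * π * ω) ⁻¹' E, ?_, ?_, ?_, ?_⟩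
  · rw [div_lt_iff₀ hp]
    nlinarith [Real.pi_gt_three]
  · intro ω hω
    have h1 := hE1 hω
    refine ⟨?_, ?_⟩
    · rw [div_le_iff₀ hp]
      linarith [h1.1]
    · rw [← mul_div_assoc, le_div_iff₀ hp]
      linarith [h1.2]
  · exact hE2.isClosed.preimage (continuous_const.mul continuous_id)
  · rw [Real.volume_preimage_mul_left hp.ne']
    refine ENNReal.mul_pos (ENNReal.ofReal_pos.2 ?_).ne' hE3.ne'
    exact abs_pos.2 (inv_ne_zero hp.ne')
  · intro ω hω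
    obtain ⟨u, h, huc, hum, hup, hh2, hhp, hclose, heq⟩ := hE4 _ hω
    have hh : Supp h := by
      refine ⟨hh2, hhp, fun x => ?_⟩
      have h1 := abs_le.1 (hclose x).1
      have h2 := abs_le.1 (hclose x).2.2
      linarith [hcle x, h1.1, h2.1]
    have hω0 : 0 < 2 * π * ω := hμ1.trans_le (hE1 hω).1
    obtain ⟨Γ, hΓ1, hΓ2, e, he⟩ := T.exists_caustic hH hσc hσm hσp hγ hγ' hD hω0 hh huc hum hup
      (fun x => (heq x).1.trans hε3) (fun x => (heq x).2.1) (fun x => (heq x).2.2)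
    refine ⟨Γ, ?_, hΓ2, e, ?_⟩
    · rw [hΓ1, hD, hH.frontier_body]
      have := geom_dist hε.le fun x => ⟨(hclose x).1, (hclose x).2.1⟩
      linarith
    · have h1 : 2 * π * ω / (2 * π) = ω := by field_simp
      rw [h1] at he
      exact he

theorem propertyL_of_KAM (h : KAMStmt) (T : Table 4) : T.PropertyL := by
  have hpos : ∀ n : ℕ, (0 : ℝ) < 1 / (n + 1) := fun n => Nat.one_div_pos_of_nat
  choose μ hμ0 hμ1 E hE1 hE2 hE3 hE4 using fun n : ℕ => geom_scale h T (hpos n)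
  have hle : ∀ n : ℕ, (1 : ℝ) / (n + 1) ≤ 1 := fun n => by
    rw [div_le_one (by positivity)]
    linarith [(Nat.cast_nonneg n : (0 : ℝ) ≤ n)]
  refine ⟨2, two_pos, ⋃ n, E n, ?_, ?_, ?_, ?_⟩
  · intro ω hω
    obtain ⟨n, hn⟩ := mem_iUnion.1 hω
    have h1 := hE1 n hn
    exact ⟨(hμ0 n).trans_le h1.1, by linarith [h1.2, hμ1 n, hle n]⟩
  · rw [preimage_iUnion]
    refine LocallyFinite.isClosed_iUnion ?_ fun n => (hE2 n).preimage continuous_subtype_val
    intro x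
    have hx : (0 : ℝ) < x := x.2.1
    refine ⟨{y | (x : ℝ) / 2 < y}, (isOpen_lt continuous_const continuous_subtype_val).mem_nhds
      (show (x : ℝ) / 2 < x by linarith), ?_⟩
    obtain ⟨N, hN⟩ := exists_nat_one_div_lt (show (0 : ℝ) < x / 4 by linarith)
    refine (Set.finite_lt_nat N).subset ?_
    rintro n ⟨y, hy1, hy2⟩
    have h1 := (hE1 n hy1).2
    have h2 : (x : ℝ) / 2 < y := hy2
    have h3 : (1 : ℝ) / (N + 1) < 1 / (n + 1) := by linarith [hμ1 n]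
    have h4 : (n : ℝ) + 1 < N + 1 := lt_of_one_div_lt_one_div (by positivity) h3
    have h5 : (n : ℝ) < N := by linarith
    exact_mod_cast h5
  · intro δ hδ
    obtain ⟨n, hn⟩ := exists_nat_one_div_lt (show (0 : ℝ) < δ / 2 by linarith)
    refine (hE3 n).trans_le (measure_mono fun ω hω => ⟨mem_iUnion.2 ⟨n, hω⟩, ?_⟩)
    have h1 := hE1 n hω
    exact ⟨(hμ0 n).trans_le h1.1, by linarith [h1.2, hμ1 n]⟩
  · choose m hm using fun ω : (⋃ n, E n : Set ℝ) => mem_iUnion.1 ω.2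
    choose Γ hΓ1 hΓ2 using fun ω : (⋃ n, E n : Set ℝ) => hE4 (m ω) ω (hm ω)
    refine ⟨Γ, hΓ2, fun ε hε => ?_⟩
    obtain ⟨N, hN⟩ := exists_nat_one_div_lt hε
    obtain ⟨n₀, -, hn₀⟩ := (Finset.range (N + 1)).exists_min_image μ ⟨0, by simp⟩
    refine ⟨μ n₀, hμ0 n₀, fun ω hω => (hΓ1 ω).trans_lt (lt_of_le_of_lt ?_ hN)⟩
    have h1 : N < m ω := by
      by_contra hcon
      have h2 := hn₀ (m ω) (Finset.mem_range.2 (by omega))
      linarith [(hE1 _ (hm ω)).1]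
    have h2 : (N : ℝ) < m ω := by exact_mod_cast h1
    exact one_div_le_one_div_of_le (by positivity) (by linarith)

end Pool.Agent.Lib.MP_abef03_an
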