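import Mathlib
import Pool.Agent.Lib.MP_abef03_an.Four

/-! The complexified Lazutkin coordinate. -/

namespace Pool.Agent.Lib.MP_abef03_an

open Complex Set
open scoped Real

theorem init_convex (σ : ℝ) : Convex ℝ {z : ℂ | |z.im| ≤ σ} := by
  have : {z : ℂ | |z.im| ≤ σ} = {z : ℂ | z.im ≤ σ} ∩ {z : ℂ | -σ ≤ z.im} := by
    ext z
    simp only [mem_ofPred_eq, mem_inter_iff, abs_le]
    tauto
  rw [this]
  exact (convex_halfSpace_im_le σ).inter (convex_halfSpace_im_ge (-σ))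

theorem init_lip {f f' : ℂ → ℂ} {σ C : ℝ} (hf : ∀ z : ℂ, |z.im| ≤ σ → HasDerivAt f (f' z) z)
    (hC : ∀ z : ℂ, |z.im| ≤ σ → ‖f' z‖ ≤ C) {a b : ℂ} (ha : |a.im| ≤ σ) (hb : |b.im| ≤ σ) :
    ‖f a - f b‖ ≤ C * ‖a - b‖ :=
  (init_convex σ).norm_image_sub_le_of_norm_hasDerivWithin_le
    (fun z hz => (hf z hz).hasDerivWithinAt) hC hb ha

theorem init_lower {X F : ℂ → ℂ} {σ c : ℝ} (hX : ∀ z : ℂ, |z.im| ≤ σ → HasDerivAt X (F z) z)
    (hF : ∀ z : ℂ, |z.im| ≤ σ → c ≤ (F z).re) {a b : ℂ} (ha : |a.im| ≤ σ) (hb : |b.im| ≤ σ) :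
    c * ‖a - b‖ ≤ ‖X a - X b‖ := by
  have hmem : ∀ t ∈ Icc (0 : ℝ) 1, |(b + t * (a - b)).im| ≤ σ := by
    intro t ht
    have := (init_convex σ).add_smul_sub_mem hb ha ht
    simpa using this
  have hd : ∀ t ∈ Icc (0 : ℝ) 1,
      HasDerivAt (fun s : ℝ => ((starRingEnd ℂ) (a - b) * X (b + s * (a - b))).re)
        ((starRingEnd ℂ) (a - b) * (F (b + t * (a - b)) * (a - b))).re t := by
    intro t ht
    have h1 : HasDerivAt (fun s : ℂ => b + s * (a - b)) (a - b) (t : ℂ) := by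
      simpa using ((hasDerivAt_id (t : ℂ)).mul_const (a - b)).const_add b
    have h2 := ((hX _ (hmem t ht)).comp (t : ℂ) h1).const_mul ((starRingEnd ℂ) (a - b))
    exact h2.real_of_complex
  obtain ⟨t, ht, e⟩ := exists_hasDerivAt_eq_slope _ _ zero_lt_one
    (fun t ht => (hd t ht).continuousAt.continuousWithinAt)
    (fun t ht => hd t (Ioo_subset_Icc_self ht))
  have e1 : ((starRingEnd ℂ) (a - b) * (F (b + t * (a - b)) * (a - b))).re =
      (F (b + t * (a - b))).re * ‖a - b‖ ^ 2 := by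
    have : (starRingEnd ℂ) (a - b) * (F (b + t * (a - b)) * (a - b)) =
        F (b + t * (a - b)) * ((‖a - b‖ ^ 2 : ℝ) : ℂ) := by
      rw [← Complex.normSq_eq_norm_sq, Complex.normSq_eq_conj_mul_self]
      ring
    rw [this, Complex.re_mul_ofReal]
  have e2 : ((starRingEnd ℂ) (a - b) * (X a - X b)).re ≤ ‖a - b‖ * ‖X a - X b‖ := by
    refine (Complex.re_le_norm _).trans ?_
    rw [norm_mul, Complex.norm_conj]
  have e3 : (F (b + t * (a - b))).re * ‖a - b‖ ^ 2 =
      ((starRingEnd ℂ) (a - b) * (X a - X b)).re := by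
    rw [← e1, e, mul_sub _ (X a), Complex.sub_re]
    simp
  have e4 := hF _ (hmem t (Ioo_subset_Icc_self ht))
  rcases (norm_nonneg (a - b)).eq_or_lt with h | h
  · rw [← h, mul_zero]
    exact norm_nonneg _
  · have : ‖a - b‖ * (c * ‖a - b‖) ≤ ‖a - b‖ * ‖X a - X b‖ := by
      nlinarith [mul_le_mul_of_nonneg_right e4 (sq_nonneg ‖a - b‖)]
    exact le_of_mul_le_mul_left this h

theorem init_prim {F : ℂ → ℂ} {τ : ℝ} (hτ : 0 < τ) (hF : Hol F τ) (hp : Per F) (hr : RealOn F)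
    (hm : (∫ x in (0 : ℝ)..(2 * π), F x) = 2 * π) :
    ∃ X : ℂ → ℂ, (∀ z : ℂ, |z.im| < τ → HasDerivAt X (F z) z) ∧
      (∀ z, X (z + 2 * π) = X z + 2 * π) ∧ RealOn X := by
  have hc : Continuous (fun x : ℝ => F x) := by
    rw [continuous_iff_continuousAt]
    intro x
    exact (hF x (by simpa using hτ.le)).continuousAt.comp (f := fun x : ℝ => (x : ℂ))
      continuous_ofReal.continuousAt
  have hpr : Function.Periodic (fun x : ℝ => F x) (2 * π) := by
    intro x
    simpa using hp x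
  refine ⟨fun z => wedgeIntegral 0 z F, ?_, ?_, ?_⟩
  · intro z hz
    have hd : DifferentiableOn ℂ F (Metric.ball (z.re : ℂ) τ) := by
      intro w hw
      refine (hF w ?_).differentiableWithinAt
      have h1 := abs_im_le_norm (w - z.re)
      rw [mem_ball_iff_norm] at hw
      simp only [sub_im, ofReal_im, sub_zero] at h1
      linarith
    have hz' : z ∈ Metric.ball (z.re : ℂ) τ := by
      rw [mem_ball_iff_norm]
      have : z - z.re = z.im * I := by
        apply Complex.ext <;> simp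
      rw [this]
      simpa using hz
    have h1 := (hd.isConservativeOn.hasDerivAt_wedgeIntegral hd.continuousOn hz').const_add
      (∫ x in (0 : ℝ)..z.re, F x)
    have h2 : (fun w => wedgeIntegral 0 w F) =
        fun w => (∫ x in (0 : ℝ)..z.re, F x) + wedgeIntegral (z.re : ℂ) w F := by
      funext w
      simp only [wedgeIntegral, zero_re, zero_im, ofReal_zero, zero_mul, add_zero, ofReal_re,
        ofReal_im]
      rw [← add_assoc, intervalIntegral.integral_add_adjacent_intervals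
        (hc.intervalIntegrable _ _) (hc.intervalIntegrable _ _)]
    rw [h2]
    exact h1
  · intro z
    have e1 : (z + 2 * π).re = z.re + 2 * π := by simp
    have e2 : (z + 2 * π).im = z.im := by simp
    simp only [wedgeIntegral, zero_re, zero_im, ofReal_zero, zero_mul, add_zero, e1, e2]
    have e3 : (∫ x in (0 : ℝ)..(z.re + 2 * π), F x) = (∫ x in (0 : ℝ)..z.re, F x) + 2 * π := by
      rw [← intervalIntegral.integral_add_adjacent_intervals (b := z.re)
        (hc.intervalIntegrable _ _) (hc.intervalIntegrable _ _),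
        hpr.intervalIntegral_add_eq z.re 0, zero_add, hm]
    have e4 : (∫ y in (0 : ℝ)..z.im, F ((z.re + 2 * π : ℝ) + y * I)) =
        ∫ y in (0 : ℝ)..z.im, F (z.re + y * I) := by
      congr 1
      funext y
      rw [← hp (z.re + y * I)]
      congr 1
      push_cast
      ring
    rw [e3, e4]
    ring
  · intro x
    simp only [wedgeIntegral, zero_re, zero_im, ofReal_zero, zero_mul, add_zero, ofReal_re,
      ofReal_im, intervalIntegral.integral_same, smul_zero]
    have : (fun t : ℝ => F t) = fun t : ℝ => (((F t).re : ℝ) : ℂ) := by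
      funext t
      apply Complex.ext <;> simp [hr t]
    rw [this, intervalIntegral.integral_ofReal, ofReal_im]

theorem init_inv {X F : ℂ → ℂ} {τ c : ℝ} (hτ : 0 < τ) (hc : 0 < c)
    (hX : ∀ z : ℂ, |z.im| < τ → HasDerivAt X (F z) z) (hp : ∀ z, X (z + 2 * π) = X z + 2 * π)
    (hr : RealOn X) (hF : ∀ z : ℂ, |z.im| ≤ τ / 2 → c ≤ (F z).re) :
    ∃ v : ℂ → ℂ, (∀ w : ℂ, |w.im| < c * τ / 4 →
        |(v w).im| ≤ τ / 2 ∧ HasDerivAt v (F (v w))⁻¹ w) ∧
      (∀ w, v (w + 2 * π) = v w + 2 * π) ∧ RealOn v ∧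
      ∀ w w' : ℂ, |w.im| < c * τ / 4 → |w'.im| < c * τ / 4 → c * ‖v w - v w'‖ ≤ ‖w - w'‖ := by
  classical
  have hX' : ∀ z : ℂ, |z.im| ≤ τ / 2 → HasDerivAt X (F z) z := fun z hz => hX z (by linarith)
  have hlow : ∀ a b : ℂ, |a.im| ≤ τ / 2 → |b.im| ≤ τ / 2 → c * ‖a - b‖ ≤ ‖X a - X b‖ :=
    fun a b ha hb => init_lower hX' hF ha hb
  have hinj : ∀ a b : ℂ, |a.im| ≤ τ / 2 → |b.im| ≤ τ / 2 → X a = X b → a = b := by
    intro a b ha hb e
    have h1 := hlow a b ha hb
    rw [e, sub_self, norm_zero] at h1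
    have h2 : ‖a - b‖ ≤ 0 := by
      by_contra h
      push Not at h
      nlinarith
    exact sub_eq_zero.1 (norm_le_zero_iff.1 h2)
  have hre : ∀ x : ℝ, |(x : ℂ).im| ≤ τ / 2 := fun x => by
    simp only [ofReal_im, abs_zero]
    linarith
  -- surjectivity on the real line
  have hsr : ∀ y : ℝ, ∃ x : ℝ, X x = y := by
    intro y
    have hcont : Continuous (fun x : ℝ => (X x).re) := by
      rw [continuous_iff_continuousAt]
      intro x
      exact ((hX' x (hre x)).real_of_complex).continuousAt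
    have hn : ∀ n : ℕ, ∀ z, X (z + n * (2 * π)) = X z + n * (2 * π) := by
      intro n
      induction n with
      | zero => simp
      | succ n ih =>
        intro z
        have : z + ((n + 1 : ℕ) : ℂ) * (2 * π) = z + n * (2 * π) + 2 * π := by
          push_cast
          ring
        rw [this, hp, ih]
        push_cast
        ring
    obtain ⟨n, hn1⟩ := exists_nat_ge (|y - (X 0).re| / (2 * π))
    rw [div_le_iff₀ (by positivity)] at hn1
    have h1 : (X ((n * (2 * π) : ℝ) : ℂ)).re = (X 0).re + n * (2 * π) := by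
      have := hn n 0
      rw [zero_add] at this
      push_cast
      rw [this]
      simp
    have h2 : (X ((-(n * (2 * π)) : ℝ) : ℂ)).re = (X 0).re - n * (2 * π) := by
      have := hn n (-(n * (2 * π)))
      rw [neg_add_cancel] at this
      push_cast
      rw [this]
      simp
    have h3 := abs_le.1 hn1
    have h4 : y ∈ Icc (X ((-(n * (2 * π)) : ℝ) : ℂ)).re (X ((n * (2 * π) : ℝ) : ℂ)).re := by
      rw [h1, h2]
      constructor <;> linarith [h3.1, h3.2]
    obtain ⟨x, hx⟩ := intermediate_value_univ _ _ hcont h4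
    refine ⟨x, Complex.ext ?_ ?_⟩
    · simpa using hx
    · simp [hr x]
  -- surjectivity onto the thin strip
  have hs : ∀ w : ℂ, |w.im| < c * τ / 4 → ∃ z : ℂ, |z.im| ≤ τ / 2 ∧ X z = w := by
    intro w hw
    obtain ⟨x, hx⟩ := hsr w.re
    have hin : ∀ z ∈ Metric.closedBall (x : ℂ) (τ / 2), |z.im| ≤ τ / 2 := by
      intro z hz
      have h1 := abs_im_le_norm (z - x)
      rw [mem_closedBall_iff_norm] at hz
      simp only [sub_im, ofReal_im, sub_zero] at h1
      linarith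
    have hd : DiffContOnCl ℂ X (Metric.ball (x : ℂ) (τ / 2)) := by
      apply DifferentiableOn.diffContOnCl
      rw [closure_ball _ (by positivity)]
      exact fun z hz => (hX' z (hin z hz)).differentiableAt.differentiableWithinAt
    have hb := hd.ball_subset_image_closedBall (ε := c * (τ / 2)) (by positivity) (by
      intro z hz
      have h1 := hlow z x (hin z (Metric.sphere_subset_closedBall hz)) (hre x)
      rwa [mem_sphere_iff_norm.1 hz] at h1) (by
      have h1 : ∀ᶠ z in nhdsWithin (x : ℂ) {(x : ℂ)}ᶜ, X z ≠ X x := by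
        filter_upwards [self_mem_nhdsWithin, mem_nhdsWithin_of_mem_nhds
          (Metric.closedBall_mem_nhds (x : ℂ) (by positivity : 0 < τ / 2))] with z hz1 hz2
        exact fun e => hz1 (hinj z x (hin z hz2) (hre x) e)
      exact h1.frequently.filter_mono nhdsWithin_le_nhds)
    have hw' : w ∈ Metric.ball (X x) (c * (τ / 2) / 2) := by
      rw [mem_ball_iff_norm, hx]
      have : w - w.re = w.im * I := by
        apply Complex.ext <;> simp
      rw [this]
      simp only [norm_mul, norm_real, Real.norm_eq_abs, norm_I, mul_one]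
      linarith
    obtain ⟨z, hz, e⟩ := hb hw'
    exact ⟨z, hin z hz, e⟩
  let v : ℂ → ℂ := fun w => if h : ∃ z : ℂ, |z.im| ≤ τ / 2 ∧ X z = w then h.choose else w
  have hv : ∀ w : ℂ, (∃ z : ℂ, |z.im| ≤ τ / 2 ∧ X z = w) → |(v w).im| ≤ τ / 2 ∧ X (v w) = w := by
    intro w h
    simp only [v, dif_pos h]
    exact h.choose_spec
  have hvl : ∀ w w' : ℂ, |w.im| < c * τ / 4 → |w'.im| < c * τ / 4 →
      c * ‖v w - v w'‖ ≤ ‖w - w'‖ := by
    intro w w' hw hw'
    have h1 := hlow _ _ (hv w (hs w hw)).1 (hv w' (hs w' hw')).1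
    rwa [(hv w (hs w hw)).2, (hv w' (hs w' hw')).2] at h1
  refine ⟨v, ?_, ?_, ?_, hvl⟩
  · intro w hw
    refine ⟨(hv w (hs w hw)).1, ?_⟩
    have hnb : ∀ᶠ y in nhds w, |y.im| < c * τ / 4 :=
      (continuous_abs.comp continuous_im).continuousAt.eventually_lt continuousAt_const hw
    have hct : ContinuousAt v w := by
      rw [ContinuousAt, tendsto_iff_norm_sub_tendsto_zero]
      have h1 : Filter.Tendsto (fun y => ‖y - w‖ / c) (nhds w) (nhds 0) := by
        have : Continuous (fun y : ℂ => ‖y - w‖ / c) := by fun_prop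
        simpa using this.tendsto w
      refine squeeze_zero' (Filter.Eventually.of_forall fun _ => norm_nonneg _) ?_ h1
      filter_upwards [hnb] with y hy
      rw [le_div_iff₀ hc, mul_comm]
      exact hvl y w hy hw
    refine HasDerivAt.of_local_left_inverse hct (hX' _ (hv w (hs w hw)).1) ?_ ?_
    · intro e
      have := hF _ (hv w (hs w hw)).1
      rw [e, zero_re] at this
      linarith
    · filter_upwards [hnb] with y hy
      exact (hv y (hs y hy)).2
  · intro w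
    by_cases h : ∃ z : ℂ, |z.im| ≤ τ / 2 ∧ X z = w
    · have h1 := hv w h
      have h2 : |(v w + 2 * π).im| ≤ τ / 2 := by simpa using h1.1
      have h3 : X (v w + 2 * π) = w + 2 * π := by rw [hp, h1.2]
      have h4 := hv (w + 2 * π) ⟨_, h2, h3⟩
      exact hinj _ _ h4.1 h2 (h4.2.trans h3.symm)
    · have h' : ¬ ∃ z : ℂ, |z.im| ≤ τ / 2 ∧ X z = w + 2 * π := by
        rintro ⟨z, hz, e⟩
        refine h ⟨z - 2 * π, by simpa using hz, ?_⟩
        have := hp (z - 2 * π)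
        rw [sub_add_cancel, e] at this
        exact (add_right_cancel this).symm
      simp only [v, dif_neg h, dif_neg h']
  · intro y
    obtain ⟨x, hx⟩ := hsr y
    have h1 := hv y ⟨x, hre x, hx⟩
    rw [hinj _ _ h1.1 (hre x) (h1.2.trans hx.symm), ofReal_im]

theorem init_approx {G : ℂ → ℂ} {σ δ : ℝ} (hσ : 0 < σ) (hσ1 : σ ≤ 1) (hδ : 0 < δ) (hG : Hol G σ)
    (hp : Per G) (hr : RealOn G) : ∃ P : ℂ → ℂ, Differentiable ℂ P ∧ Per P ∧ RealOn P ∧
      SB (fun z => G z - P z) (σ / 8) δ := by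
  have hK : IsCompact (Icc (0 : ℝ) (2 * π) ×ℂ Icc (-σ) σ) := isCompact_Icc.reProdIm isCompact_Icc
  obtain ⟨A, hA⟩ := hK.exists_bound_of_continuousOn (f := G) (fun z hz =>
    (hG z (abs_le.2 (mem_reProdIm.1 hz).2)).continuousAt.continuousWithinAt)
  have hL : LB (fun z => G z - 0) σ (A ^ 2 * (2 * π)) := by
    intro y hy
    refine (le_abs_self _).trans ?_
    have := intervalIntegral.norm_integral_le_of_norm_le_const (a := 0) (b := 2 * π) (C := A ^ 2)
      (f := fun x : ℝ => ‖G (x + y * I) - 0‖ ^ 2) (by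
        intro x hx
        rw [uIoc_of_le (by positivity)] at hx
        have h1 := hA (x + y * I) (by
          rw [mem_reProdIm]
          constructor
          · simpa using Ioc_subset_Icc_self hx
          · simpa using abs_le.1 hy)
        rw [sub_zero, Real.norm_eq_abs, abs_of_nonneg (by positivity)]
        exact pow_le_pow_left₀ (norm_nonneg _) h1 2)
    rwa [sub_zero, abs_of_pos (by positivity : 0 < 2 * π), Real.norm_eq_abs] at this
  have hW := WB_of_LB hσ.le hG hp hL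
  set W := A ^ 2 * (2 * π) / π with hWd
  have hW0 : 0 ≤ W := by positivity
  have ht : Filter.Tendsto (fun M : ℕ => Real.sqrt (8 * (2 * π * (0 + Real.exp (-(M * σ)) * W)) /
      (σ / 4))) Filter.atTop (nhds 0) := by
    have h1 : Filter.Tendsto (fun M : ℕ => Real.exp (-(M * σ))) Filter.atTop (nhds 0) :=
      Real.tendsto_exp_neg_atTop_nhds_zero.comp
        (tendsto_natCast_atTop_atTop.atTop_mul_const hσ)
    have h2 : Continuous (fun t : ℝ => Real.sqrt (8 * (2 * π * (0 + t * W)) / (σ / 4))) := by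
      fun_prop
    simpa [Function.comp_def] using (h2.tendsto 0).comp h1
  obtain ⟨M, hM⟩ := (ht.eventually (ge_mem_nhds hδ)).exists
  have hL2 := LB_sub_tp (M := M) (A := full M) (WA := 0) hσ.le hG hp hW (Finset.Subset.refl _)
    (by simp)
  have hconj : ∀ m : ℤ, coef G (-m) = starRingEnd ℂ (coef G m) := by
    intro m
    simp only [coef, map_mul]
    rw [← intervalIntegral.intervalIntegral_conj]
    congr 1
    · simp [map_ofNat]
    · congr 1
      funext x
      rw [map_mul, ← Complex.exp_conj, Complex.conj_eq_iff_im.2 (hr x)]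
      congr 2
      simp
  refine ⟨fun z => coef G 0 + tp (coef G) (full M) z, (differentiable_tp _ _).const_add _, ?_, ?_,
    ?_⟩
  · intro z
    simp only [per_tp (coef G) (full M) z]
  · intro x
    have h1 : (coef G 0).im = 0 := Complex.conj_eq_iff_im.1 (by simpa using (hconj 0).symm)
    have h2 := realOn_tp (c := coef G) (A := full M) (by
      intro m hm
      simp only [full, Finset.mem_erase, Finset.mem_Icc] at hm ⊢
      omega) hconj x
    simp [h1, h2]
  · have e1 : σ / 2 = 2 * (σ / 4) := by ring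
    rw [e1] at hL2
    have h3 := SB_of_LB (r := σ / 4) (by positivity) (by linarith) (by
      intro z hz
      exact ((hG z (by linarith)).sub_const _).sub (differentiable_tp _ _ z)) (by
      intro z
      simp only [per_tp (coef G) (full M) z, hp z]) hL2
    intro z hz
    have h4 := (h3 z (by linarith)).trans hM
    simpa [sub_sub] using h4

theorem init_root {Γ τ : ℝ} (hΓ : 1 ≤ Γ) (hτ : 0 < τ) (hτ' : 10 ^ 6 * Γ ^ 8 * τ ≤ 1)
    {ρ : ℂ → ℂ} (hρ : Differentiable ℂ ρ) (hp : Per ρ) (hr : RealOn ρ)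
    (h0 : ∀ x : ℝ, 1 / Γ ≤ (ρ x).re ∧ (ρ x).re ≤ Γ) (h1 : SB (deriv ρ) τ Γ) :
    ∃ (F : ℂ → ℂ) (κ : ℝ), Hol F τ ∧ Per F ∧ RealOn F ∧ |κ| ≤ Γ ∧
      (∫ x in (0 : ℝ)..(2 * π), F x) = 2 * π ∧ (∀ x : ℝ, 1 / Γ ≤ (F x).re ∧ (F x).re ≤ Γ) ∧
      (∀ a b : ℂ, |a.im| ≤ τ → |b.im| ≤ τ → ‖F a - F b‖ ≤ 2 * Γ ^ 3 * ‖a - b‖) ∧
      ∀ z : ℂ, |z.im| ≤ τ → ρ z = κ * F z ^ 3 ∧ ‖ρ z‖ ≤ 2 * Γ := by
  have hΓ0 : 0 < Γ := by linarith
  have hsm : Γ * τ ≤ 1 / (2 * Γ) := by
    rw [le_div_iff₀ (by positivity)]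
    have h2 : Γ ^ 2 ≤ Γ ^ 8 := pow_le_pow_right₀ hΓ (by norm_num)
    nlinarith [mul_le_mul_of_nonneg_right h2 hτ.le, mul_pos (pow_pos hΓ0 8) hτ]
  have hhalf : 1 / Γ = 1 / (2 * Γ) + 1 / (2 * Γ) := by
    field_simp
    ring
  have hle : 1 / (2 * Γ) ≤ Γ := by
    rw [div_le_iff₀ (by positivity)]
    nlinarith
  have hnear : ∀ z : ℂ, |z.im| ≤ τ → ‖ρ z - ρ z.re‖ ≤ 1 / (2 * Γ) := by
    intro z hz
    have h2 := init_lip (f := ρ) (f' := deriv ρ) (fun w _ => (hρ w).hasDerivAt) h1 hz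
      (b := z.re) (by simpa using hτ.le)
    have h3 : z - z.re = z.im * I := by
      apply Complex.ext <;> simp
    rw [h3] at h2
    simp only [norm_mul, norm_real, Real.norm_eq_abs, norm_I, mul_one] at h2
    exact h2.trans ((mul_le_mul_of_nonneg_left hz hΓ0.le).trans hsm)
  have hre : ∀ z : ℂ, |z.im| ≤ τ → 1 / (2 * Γ) ≤ (ρ z).re := by
    intro z hz
    have h2 := (abs_re_le_norm _).trans (hnear z hz)
    rw [sub_re] at h2
    linarith [(abs_le.1 h2).1, (h0 z.re).1]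
  have hup : ∀ z : ℂ, |z.im| ≤ τ → ‖ρ z‖ ≤ 2 * Γ := by
    intro z hz
    have h2 : ‖ρ z.re‖ ≤ Γ := by
      have h3 : ρ z.re = ((ρ z.re).re : ℝ) := by
        apply Complex.ext <;> simp [hr z.re]
      rw [h3, norm_real, Real.norm_eq_abs, abs_of_pos (lt_of_lt_of_le (by positivity) (h0 _).1)]
      exact (h0 _).2
    have h4 := norm_add_le (ρ z - ρ z.re) (ρ z.re)
    rw [sub_add_cancel] at h4
    linarith [hnear z hz]
  have hpos : ∀ z : ℂ, |z.im| ≤ τ → 0 < (ρ z).re := fun z hz =>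
    lt_of_lt_of_le (by positivity) (hre z hz)
  have hne : ∀ z : ℂ, |z.im| ≤ τ → ρ z ≠ 0 := by
    intro z hz e
    have := hpos z hz
    rw [e, zero_re] at this
    exact lt_irrefl _ this
  obtain ⟨a, ha1, ha3⟩ : ∃ a : ℝ, 1 ≤ a ∧ a ^ 3 = Γ := by
    refine ⟨Real.exp (Real.log Γ / 3), Real.one_le_exp (by
      have := Real.log_nonneg hΓ
      positivity), ?_⟩
    rw [← Real.exp_nat_mul]
    have : ((3 : ℕ) : ℝ) * (Real.log Γ / 3) = Real.log Γ := by
      push_cast
      ring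
    rw [this, Real.exp_log hΓ0]
  have ha0 : 0 < a := by linarith
  have ha2 : a ^ 2 ≤ Γ := ha3 ▸ pow_le_pow_right₀ ha1 (by norm_num)
  let f : ℂ → ℂ := fun z => exp (log (ρ z) / 3)
  have hf3 : ∀ z : ℂ, |z.im| ≤ τ → f z ^ 3 = ρ z := by
    intro z hz
    simp only [f]
    rw [← Complex.exp_nat_mul]
    have : ((3 : ℕ) : ℂ) * (log (ρ z) / 3) = log (ρ z) := by
      push_cast
      ring
    rw [this, Complex.exp_log (hne z hz)]
  have hfd : ∀ z : ℂ, |z.im| ≤ τ → HasDerivAt f (f z * (deriv ρ z / ρ z / 3)) z := by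
    intro z hz
    exact (((hρ z).hasDerivAt.clog (Or.inl (hpos z hz))).div_const 3).cexp
  have hfn : ∀ z : ℂ, |z.im| ≤ τ → ‖f z‖ ≤ 2 * a := by
    intro z hz
    refine le_of_pow_le_pow_left₀ (n := 3) (by norm_num) (by positivity) ?_
    rw [← norm_pow, hf3 z hz, mul_pow, ha3]
    linarith [hup z hz]
  have hfd' : ∀ z : ℂ, |z.im| ≤ τ → ‖f z * (deriv ρ z / ρ z / 3)‖ ≤ 2 * a * Γ ^ 2 := by
    intro z hz
    have h2 : 1 / (2 * Γ) ≤ ‖ρ z‖ := (hre z hz).trans (re_le_norm _)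
    have h3 : ‖deriv ρ z / ρ z / 3‖ ≤ Γ ^ 2 := by
      rw [norm_div, norm_div, div_le_iff₀ (by simp), div_le_iff₀ (norm_pos_iff.2 (hne z hz))]
      have h4 := h1 z hz
      rw [div_le_iff₀ (by positivity)] at h2
      have h5 : ‖(3 : ℂ)‖ = 3 := by simp
      rw [h5]
      nlinarith [mul_le_mul_of_nonneg_left h2 hΓ0.le, mul_nonneg (sq_nonneg Γ) (norm_nonneg (ρ z))]
    rw [norm_mul]
    exact mul_le_mul (hfn z hz) h3 (norm_nonneg _) (by positivity)
  have hx0 : ∀ x : ℝ, |(x : ℂ).im| ≤ τ := fun x => by simpa using hτ.le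
  let φ : ℝ → ℝ := fun x => Real.exp (Real.log (ρ x).re / 3)
  have hfφ : ∀ x : ℝ, f x = φ x := by
    intro x
    have h3 : ρ x = ((ρ x).re : ℝ) := by
      apply Complex.ext <;> simp [hr x]
    simp only [f, φ]
    rw [h3, ← Complex.ofReal_log (hpos x (hx0 x)).le]
    push_cast
    simp
  have hφ3 : ∀ x : ℝ, φ x ^ 3 = (ρ x).re := by
    intro x
    rw [← hf3 x (hx0 x), hfφ, ← ofReal_pow, ofReal_re]
  have hφ0 : ∀ x : ℝ, 0 < φ x := fun x => Real.exp_pos _
  have hφ : ∀ x : ℝ, 1 / a ≤ φ x ∧ φ x ≤ a := by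
    intro x
    constructor
    · refine le_of_pow_le_pow_left₀ (n := 3) (by norm_num) (hφ0 x).le ?_
      rw [hφ3, div_pow, one_pow, ha3]
      exact (h0 x).1
    · refine le_of_pow_le_pow_left₀ (n := 3) (by norm_num) ha0.le ?_
      rw [hφ3, ha3]
      exact (h0 x).2
  have hφc : Continuous φ := by
    have : φ = fun x : ℝ => (f x).re := by
      funext x
      rw [hfφ, ofReal_re]
    rw [this, continuous_iff_continuousAt]
    exact fun x => (hfd x (hx0 x)).real_of_complex.continuousAt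
  obtain ⟨m, hm, hm1, hm2⟩ : ∃ m : ℝ, (∫ x in (0 : ℝ)..(2 * π), φ x) = 2 * π * m ∧ 1 / a ≤ m ∧
      m ≤ a := by
    refine ⟨(∫ x in (0 : ℝ)..(2 * π), φ x) / (2 * π), by field_simp, ?_, ?_⟩
    · rw [le_div_iff₀ (by positivity)]
      have := intervalIntegral.integral_mono_on (μ := MeasureTheory.volume) (a := 0) (b := 2 * π)
        (by positivity) (continuous_const.intervalIntegrable _ _) (hφc.intervalIntegrable _ _)
        (fun x _ => (hφ x).1)
      simpa [mul_comm] using this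
    · rw [div_le_iff₀ (by positivity)]
      have := intervalIntegral.integral_mono_on (μ := MeasureTheory.volume) (a := 0) (b := 2 * π)
        (by positivity) (hφc.intervalIntegrable _ _) (continuous_const.intervalIntegrable _ _)
        (fun x _ => (hφ x).2)
      simpa [mul_comm] using this
  have hm0 : 0 < m := lt_of_lt_of_le (by positivity) hm1
  have hmc : (m : ℂ) ≠ 0 := by exact_mod_cast hm0.ne'
  have hma : 1 ≤ m * a := by rwa [div_le_iff₀ ha0] at hm1
  refine ⟨fun z => f z / m, m ^ 3, fun z hz => (hfd z hz).differentiableAt.div_const _, ?_, ?_, ?_,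
    ?_, ?_, ?_, ?_⟩
  · intro z
    simp only [f, hp z]
  · intro x
    simp only [hfφ]
    rw [← ofReal_div, ofReal_im]
  · rw [abs_of_pos (by positivity), ← ha3]
    exact pow_le_pow_left₀ hm0.le hm2 3
  · simp only [hfφ]
    rw [intervalIntegral.integral_div, intervalIntegral.integral_ofReal, hm]
    push_cast
    field_simp
  · intro x
    simp only [hfφ]
    rw [← ofReal_div, ofReal_re, div_le_div_iff₀ hΓ0 hm0, div_le_iff₀ hm0]
    have h2 := (hφ x).1
    rw [div_le_iff₀ ha0] at h2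
    constructor
    · nlinarith [mul_le_mul_of_nonneg_left ha2 (hφ0 x).le, mul_le_mul_of_nonneg_right h2 ha0.le]
    · nlinarith [mul_le_mul_of_nonneg_left ha2 hm0.le, mul_le_mul_of_nonneg_right hma ha0.le,
        (hφ x).2]
  · intro z w hz hw
    have h2 := init_lip hfd hfd' hz hw
    rw [← sub_div, norm_div, norm_real, Real.norm_eq_abs, abs_of_pos hm0, div_le_iff₀ hm0]
    refine h2.trans ?_
    have h3 : a ≤ Γ * m := by
      nlinarith [mul_le_mul_of_nonneg_left ha2 hm0.le, mul_le_mul_of_nonneg_right hma ha0.le]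
    have h4 : 0 ≤ 2 * Γ ^ 2 * ‖z - w‖ := by positivity
    nlinarith [mul_le_mul_of_nonneg_left h3 h4]
  · intro z hz
    refine ⟨?_, hup z hz⟩
    rw [div_pow, hf3 z hz]
    push_cast
    field_simp

/-- An entire approximate solution of `ρ(u) u' ^ 3 = const`, `u (z + 2π) = u z + 2π`. -/
theorem exists_init {Γ τ η : ℝ} (hΓ : 1 ≤ Γ) (hτ : 0 < τ) (hτ' : 10 ^ 6 * Γ ^ 8 * τ ≤ 1)
    (hη : 0 < η) {ρ : ℂ → ℂ} (hρ : Differentiable ℂ ρ) (hp : Per ρ) (hr : RealOn ρ)
    (h0 : ∀ x : ℝ, 1 / Γ ≤ (ρ x).re ∧ (ρ x).re ≤ Γ) (h1 : SB (deriv ρ) τ Γ) :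
    ∃ (u : ℂ → ℂ) (κ : ℝ), Differentiable ℂ u ∧ (∀ z, u (z + 2 * π) = u z + 2 * π) ∧ RealOn u ∧
      |κ| ≤ Γ ∧ (∀ z : ℂ, |z.im| ≤ τ / (100 * Γ ^ 2) →
        Box (deriv u z) (3 / (4 * Γ)) (3 * Γ / 2) (1 / (1000 * Γ)) ∧
        ‖ρ (u z) * deriv u z ^ 3 - κ‖ ≤ η) ∧
      ∀ z z' : ℂ, |z.im| ≤ τ / (100 * Γ ^ 2) → |z'.im| ≤ τ / (100 * Γ ^ 2) →
        ‖deriv u z - deriv u z'‖ ≤ 100 * Γ ^ 6 * ‖z - z'‖ + η := by
  obtain ⟨F, κ, hF, hFp, hFr, hκ, hFm, hF0, hFl, hFρ⟩ := init_root hΓ hτ hτ' hρ hp hr h0 h1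
  obtain ⟨X, hX, hXp, hXr⟩ := init_prim hτ hF hFp hFr hFm
  have hΓ0 : 0 < Γ := by linarith
  have hsm : Γ ^ 4 * τ ≤ 1 / (10 ^ 6 * Γ) := by
    rw [le_div_iff₀ (by positivity)]
    have h2 : Γ ^ 5 ≤ Γ ^ 8 := pow_le_pow_right₀ hΓ (by norm_num)
    nlinarith [mul_le_mul_of_nonneg_right h2 hτ.le]
  obtain ⟨t, ht⟩ : ∃ t : ℝ, t = 1 / (10 ^ 6 * Γ) := ⟨_, rfl⟩
  have ht0 : 0 < t := by rw [ht]; positivity
  have ht1 : 1 / Γ = 10 ^ 6 * t := by rw [ht]; field_simp
  have ht2 : 1 / (2 * Γ) = 10 ^ 6 / 2 * t := by rw [ht]; field_simp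
  have ht3 : 3 / (4 * Γ) = 3 * 10 ^ 6 / 4 * t := by rw [ht]; field_simp
  have ht4 : 1 / (1000 * Γ) = 1000 * t := by rw [ht]; field_simp; norm_num
  have ht5 : 10 ^ 6 * t ≤ Γ := by
    rw [← ht1, div_le_iff₀ hΓ0]
    nlinarith
  rw [← ht] at hsm
  have h34 : Γ ^ 3 ≤ Γ ^ 4 := pow_le_pow_right₀ hΓ (by norm_num)
  have h14 : 1 ≤ Γ ^ 4 := one_le_pow₀ hΓ
  have h12 : 1 ≤ Γ ^ 2 := one_le_pow₀ hΓ
  have hτ1 : τ ≤ 1 := by
    have h2 : 1 ≤ Γ ^ 8 := one_le_pow₀ hΓ
    nlinarith [mul_le_mul_of_nonneg_right h2 hτ.le]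
  have hzre : ∀ z : ℂ, ‖z - z.re‖ = |z.im| := by
    intro z
    have h3 : z - z.re = z.im * I := by
      apply Complex.ext <;> simp
    rw [h3]
    simp
  have hF2 : ∀ z : ℂ, |z.im| ≤ τ / 2 → 1 / (2 * Γ) ≤ (F z).re := by
    intro z hz
    have h2 := (abs_re_le_norm _).trans (hFl z z.re (by linarith) (by simpa using hτ.le))
    rw [sub_re, hzre] at h2
    have h3 := (hF0 z.re).1
    have h4 : 2 * Γ ^ 3 * |z.im| ≤ 2 * Γ ^ 3 * (τ / 2) :=
      mul_le_mul_of_nonneg_left hz (by positivity)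
    linarith [(abs_le.1 h2).1, mul_le_mul_of_nonneg_right h34 hτ.le]
  obtain ⟨v, hv, hvp, hvr, hvl⟩ := init_inv hτ (c := 1 / (2 * Γ)) (by positivity) hX hXp hXr hF2
  obtain ⟨b, hb⟩ : ∃ b : ℝ, b = τ / (400 * Γ ^ 2) := ⟨_, rfl⟩
  have hb0 : 0 < b := by rw [hb]; positivity
  have hb1 : τ / (100 * Γ ^ 2) = 4 * b := by rw [hb]; field_simp; norm_num
  have hb2 : 400 * Γ ^ 2 * b = τ := by rw [hb]; field_simp
  have hb3 : 40 * b < 1 / (2 * Γ) * τ / 4 := by
    have : 1 / (2 * Γ) * τ / 4 = 50 * Γ * b := by rw [← hb2]; field_simp; norm_num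
    rw [this]
    linarith [mul_le_mul_of_nonneg_right hΓ hb0.le]
  have hb4 : 400 * b ≤ 1 := by linarith [mul_le_mul_of_nonneg_right h12 hb0.le]
  rw [hb1]
  obtain ⟨ε, hε0, hε1, hε2, hε3⟩ : ∃ ε : ℝ, 0 < ε ∧ 32 * Γ ^ 4 * ε ≤ η ∧ ε ≤ t ∧ ε ≤ τ / 2 := by
    refine ⟨min (η / (32 * Γ ^ 4)) (min t (τ / 2)), by positivity, ?_,
      (min_le_right _ _).trans (min_le_left _ _), (min_le_right _ _).trans (min_le_right _ _)⟩
    rw [mul_comm, ← le_div_iff₀ (by positivity)]
    exact min_le_left _ _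
  have hG : Hol (fun z => v z - z) (40 * b) := fun z hz =>
    (hv z (by linarith)).2.differentiableAt.sub differentiableAt_id
  obtain ⟨P, hP, hPp, hPr, hPb⟩ := init_approx (G := fun z => v z - z) (σ := 40 * b) (δ := ε * b)
    (by positivity) (by linarith) (by positivity) hG (by
      intro z
      simp only [hvp z]
      ring) (by
      intro x
      simp [hvr x])
  have hPd := SB_deriv (f := fun z => v z - z - P z) (δ := b) hb0 (fun z hz => (hG z (by linarith)).sub (hP z)) hPb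
  have hud : ∀ z, deriv (fun z => z + P z) z = 1 + deriv P z := fun z =>
    ((hasDerivAt_id z).add (hP z).hasDerivAt).deriv
  have hd : ∀ z : ℂ, |z.im| ≤ 4 * b → ‖deriv (fun z => z + P z) z - (F (v z))⁻¹‖ ≤ ε := by
    intro z hz
    have h2 := hPd z (by linarith)
    have h3 : deriv (fun z => v z - z - P z) z = (F (v z))⁻¹ - 1 - deriv P z :=
      (((hv z (by linarith)).2.sub (hasDerivAt_id z)).sub (hP z).hasDerivAt).deriv
    rw [h3, mul_div_cancel_right₀ _ hb0.ne'] at h2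
    rw [hud, ← norm_neg]
    refine le_of_eq_of_le ?_ h2
    congr 1
    ring
  have hn : ∀ z : ℂ, |z.im| ≤ 4 * b → 1 ≤ 2 * Γ * ‖F (v z)‖ := by
    intro z hz
    have h2 := (hF2 _ (hv z (by linarith)).1).trans (re_le_norm _)
    rw [div_le_iff₀ (by positivity)] at h2
    linarith
  have hne : ∀ z : ℂ, |z.im| ≤ 4 * b → F (v z) ≠ 0 := by
    intro z hz e
    have := hn z hz
    rw [e, norm_zero] at this
    linarith
  have hgn : ∀ z : ℂ, |z.im| ≤ 4 * b → ‖(F (v z))⁻¹‖ ≤ 2 * Γ := by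
    intro z hz
    rw [norm_inv, inv_le_iff_one_le_mul₀ (norm_pos_iff.2 (hne z hz))]
    exact hn z hz
  have hgl : ∀ z z' : ℂ, |z.im| ≤ 4 * b → |z'.im| ≤ 4 * b →
      ‖(F (v z))⁻¹ - (F (v z'))⁻¹‖ ≤ 16 * Γ ^ 6 * ‖z - z'‖ := by
    intro z z' hz hz'
    have h2 := hvl z' z (by linarith) (by linarith)
    have h3 := hFl (v z') (v z) (by linarith [(hv z' (by linarith)).1])
      (by linarith [(hv z (by linarith)).1])
    have h4 : ‖v z' - v z‖ ≤ 2 * Γ * ‖z - z'‖ := by
      rw [norm_sub_rev z' z, div_mul_eq_mul_div, div_le_iff₀ (by positivity)] at h2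
      linarith
    have h5 : (F (v z))⁻¹ - (F (v z'))⁻¹ = (F (v z') - F (v z)) * (F (v z))⁻¹ * (F (v z'))⁻¹ := by
      have := hne z hz
      have := hne z' hz'
      field_simp
    rw [h5, norm_mul, norm_mul]
    calc _ ≤ (2 * Γ ^ 3 * (2 * Γ * ‖z - z'‖)) * (2 * Γ) * (2 * Γ) := by
          gcongr
          · exact h3.trans (mul_le_mul_of_nonneg_left h4 (by positivity))
          · exact hgn z hz
          · exact hgn z' hz'
      _ = _ := by ring
  have hgx : ∀ x : ℝ, ∃ r : ℝ, (F (v x))⁻¹ = r ∧ 1 / Γ ≤ r ∧ r ≤ Γ := by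
    intro x
    have h2 : v x = ((v x).re : ℝ) := by
      apply Complex.ext <;> simp [hvr x]
    have h3 : F (v x) = ((F (v x).re).re : ℝ) := by
      rw [h2]
      apply Complex.ext <;> simp [hFr (v x).re]
    have h4 := hF0 (v x).re
    have h5 : 0 < (F (v x).re).re := lt_of_lt_of_le (by positivity) h4.1
    refine ⟨(F (v x).re).re⁻¹, by rw [h3, ofReal_inv], ?_, ?_⟩
    · rw [one_div]
      exact inv_anti₀ h5 h4.2
    · rw [inv_le_comm₀ h5 hΓ0, ← one_div]
      exact h4.1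
  have hbox : ∀ z : ℂ, |z.im| ≤ 4 * b →
      Box (deriv (fun z => z + P z) z) (3 / (4 * Γ)) (3 * Γ / 2) (1 / (1000 * Γ)) := by
    intro z hz
    obtain ⟨r, hr1, hr2, hr3⟩ := hgx z.re
    have h2 := hgl z z.re hz (by simpa using hb0.le)
    rw [hr1, hzre] at h2
    have h3 : 16 * Γ ^ 6 * |z.im| ≤ t := by
      have h4 : 16 * Γ ^ 6 * |z.im| ≤ 16 * Γ ^ 6 * (4 * b) :=
        mul_le_mul_of_nonneg_left hz (by positivity)
      have h5 : Γ ^ 4 * τ = 400 * (Γ ^ 6 * b) := by rw [← hb2]; ring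
      have h6 : 0 ≤ Γ ^ 6 * b := by positivity
      linarith
    have h4 : ‖deriv (fun z => z + P z) z - r‖ ≤ 2 * t := by
      have := norm_sub_le_norm_sub_add_norm_sub (deriv (fun z => z + P z) z) (F (v z))⁻¹ r
      linarith [hd z hz]
    have h5 := (abs_re_le_norm _).trans h4
    have h6 := (abs_im_le_norm _).trans h4
    rw [sub_re, ofReal_re] at h5
    rw [sub_im, ofReal_im, sub_zero] at h6
    have h7 := norm_add_le (deriv (fun z => z + P z) z - r) r
    rw [sub_add_cancel, norm_real, Real.norm_eq_abs, abs_of_pos (by linarith : 0 < r)] at h7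
    exact ⟨by linarith [(abs_le.1 h5).1], by linarith, by linarith⟩
  refine ⟨fun z => z + P z, κ, differentiable_id.add hP, ?_, ?_, hκ, ?_, ?_⟩
  · intro z
    simp only [hPp z]
    ring
  · intro x
    simp [hPr x]
  · intro z hz
    refine ⟨hbox z hz, ?_⟩
    have hvz := (hv z (by linarith)).1
    have h2 : ‖z + P z - v z‖ ≤ ε := by
      have h3 := hPb z (by linarith)
      rw [← norm_neg]
      refine le_of_eq_of_le ?_ (h3.trans (mul_le_of_le_one_right hε0.le (by linarith)))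
      congr 1
      ring
    have h3 : |(z + P z).im| ≤ τ := by
      have h4 := (abs_im_le_norm _).trans h2
      rw [sub_im] at h4
      have := abs_sub_abs_le_abs_sub (z + P z).im (v z).im
      linarith
    have h4 := (init_lip (f := ρ) (f' := deriv ρ) (fun w _ => (hρ w).hasDerivAt) h1 h3
      (b := v z) (by linarith)).trans (mul_le_mul_of_nonneg_left h2 hΓ0.le)
    obtain ⟨h5, h6⟩ := hFρ (v z) (by linarith)
    have h7 := hd z hz
    have h8 := hgn z hz
    have h9 : ‖deriv (fun z => z + P z) z‖ ≤ 2 * Γ := by linarith [(hbox z hz).2.1]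
    have h10 : (κ : ℂ) = ρ (v z) * (F (v z))⁻¹ ^ 3 := by
      have := hne z hz
      rw [h5]
      field_simp
    generalize deriv (fun z => z + P z) z = p at h7 h9 ⊢
    generalize (F (v z))⁻¹ = g at h7 h8 h10
    have h11 : ρ (z + P z) * p ^ 3 - κ =
        (ρ (z + P z) - ρ (v z)) * p ^ 3 + ρ (v z) * (p - g) * (p ^ 2 + p * g + g ^ 2) := by
      rw [h10]
      ring
    have h12 : ‖p ^ 2 + p * g + g ^ 2‖ ≤ (2 * Γ) ^ 2 + 2 * Γ * (2 * Γ) + (2 * Γ) ^ 2 := by
      refine (norm_add₃_le).trans ?_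
      rw [norm_pow, norm_pow, norm_mul]
      gcongr
    rw [h11]
    refine (norm_add_le _ _).trans ?_
    rw [norm_mul, norm_mul, norm_mul, norm_pow]
    calc _ ≤ Γ * ε * (2 * Γ) ^ 3 + 2 * Γ * ε * ((2 * Γ) ^ 2 + 2 * Γ * (2 * Γ) + (2 * Γ) ^ 2) := by
          gcongr
      _ ≤ η := by linarith [mul_le_mul_of_nonneg_right h34 hε0.le]
  · intro z z' hz hz'
    have h2 := hgl z z' hz hz'
    have h3 := hd z hz
    have h4 := hd z' hz'
    rw [norm_sub_rev] at h4
    have h5 := norm_sub_le_norm_sub_add_norm_sub (deriv (fun z => z + P z) z) (F (v z))⁻¹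
      (deriv (fun z => z + P z) z')
    have h6 := norm_sub_le_norm_sub_add_norm_sub (F (v z))⁻¹ (F (v z'))⁻¹
      (deriv (fun z => z + P z) z')
    have h7 : 0 ≤ Γ ^ 6 * ‖z - z'‖ := by positivity
    linarith [mul_le_mul_of_nonneg_right h14 hε0.le]

end Pool.Agent.Lib.MP_abef03_an
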