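import Mathlib
import Pool.Agent.Lib.MP_abef03_an.Num

/-! The inequalities of the main step hold for the concrete parameters. -/

namespace Pool.Agent.Lib.MP_abef03_an

open Real

section

variable {G ε E : ℝ}

theorem numA_abs (h : Big G ε E) {c x y : ℝ} (i : ℕ) (hc : c ≤ 10 ^ 200) (hi : i ≤ 20)
    (hxy : x + E / 10 ^ 8 ≤ y) : c * G ^ i * exp x ≤ exp y :=
  h.absorb (h.le_const hc hi) hxy

theorem numA_abs0 (h : Big G ε E) {c x y : ℝ} (hc : c ≤ 10 ^ 200)
    (hxy : x + E / 10 ^ 8 ≤ y) : c * exp x ≤ exp y := by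
  have := numA_abs h 0 hc (by norm_num) hxy
  rwa [pow_zero, mul_one] at this

theorem numA_E (h : Big G ε E) : 0 ≤ E := le_trans (by norm_num) h.E1

theorem numA_e (h : Big G ε E) (n : ℕ) : E ≤ ee E n := le_ee (numA_E h) n

theorem numA_et1 (n : ℕ) : ee E (n + 1) ≤ et E n := le_max_left _ _

theorem numA_et2 (n : ℕ) : 19 / 10 * E ≤ et E n := le_max_right _ _

theorem numA_et3 (h : Big G ε E) (n : ℕ) : et E (n + 1) ≤ et E n + ee E (n + 1) / 10 ^ 4 := by
  have h1 := numA_et1 (E := E) n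
  have h2 := numA_et2 (E := E) n
  have h3 := numA_e h (n + 1)
  have h4 := numA_E h
  refine max_le ?_ (by linarith)
  rw [ee_succ (n + 1)]
  linarith

theorem numA_la1 (h : Big G ε E) (n : ℕ) :
    la E n ≤ et E n + (1 + 6 / 10 ^ 7) * ee E (n + 1) := by
  have h1 := numA_et1 (E := E) n
  have h3 := numA_e h (n + 1)
  have h4 := numA_E h
  exact max_le (by linarith) (by linarith)

theorem numA_la2 (h : Big G ε E) (n : ℕ) :
    la E (n + 1) ≤ la E n + 3 / 10 ^ 4 * ee E (n + 1) := by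
  have h1 : (1 / 2 + 6 / 10 ^ 7) * ee E (n + 1) + et E n ≤ la E n := le_max_left _ _
  have h2 : (2 + 6 / 10 ^ 7) * ee E (n + 1) ≤ la E n := le_max_right _ _
  have h3 := numA_e h (n + 1)
  have h4 := numA_E h
  have h5 := numA_et3 h n
  have h6 := ee_succ (E := E) (n + 1)
  exact max_le (by linarith) (by linarith)

theorem numA_C : (conc G ε E).C = 200 * G ^ 4 := rfl

theorem numA_t1 (h : Big G ε E) (n : ℕ) : (conc G ε E).t n ≤ 1 := by
  have h3 := numA_e h (n + 1)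
  have h4 := numA_E h
  change exp (-ee E (n + 1)) ≤ 1
  exact exp_le_one_iff.mpr (by linarith)

theorem numA_r1 (h : Big G ε E) (n : ℕ) : (conc G ε E).r n ≤ (conc G ε E).σ n / 16 := by
  have h1 := numA_et1 (E := E) n
  have h3 := numA_e h (n + 1)
  have h4 := numA_E h
  have := numA_abs0 h (c := 16) (x := -(et E n + 2 / 10 ^ 7 * ee E (n + 1)))
    (y := -((1 + 1 / 10 ^ 7) * ee E (n + 1))) (by norm_num) (by linarith)
  change exp (-(et E n + 2 / 10 ^ 7 * ee E (n + 1))) ≤ exp (-((1 + 1 / 10 ^ 7) * ee E (n + 1))) / 16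
  linarith

theorem numA_r2 (h : Big G ε E) (n : ℕ) : (conc G ε E).r n ≤ (conc G ε E).μ / 2 := by
  have h1 := numA_et2 (E := E) n
  have h3 := numA_e h (n + 1)
  have h4 := numA_E h
  have := numA_abs0 h (c := 2) (x := -(et E n + 2 / 10 ^ 7 * ee E (n + 1)))
    (y := -(19 / 10 * E)) (by norm_num) (by linarith)
  change exp (-(et E n + 2 / 10 ^ 7 * ee E (n + 1))) ≤ exp (-(19 / 10 * E)) / 2
  linarith

theorem numA_cube {y : ℝ} (hy : 10 ^ 5 ≤ y) : 10 ^ 9 * y ≤ exp y := by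
  have h0 : 0 ≤ y := le_trans (by norm_num) hy
  have h1 := pow_div_factorial_le_exp y h0 3
  have h2 : (10 ^ 5 : ℝ) ^ 2 ≤ y ^ 2 := pow_le_pow_left₀ (by norm_num) hy 2
  have h3 : (10 ^ 5 : ℝ) ^ 2 * y ≤ y ^ 2 * y := mul_le_mul_of_nonneg_right h2 h0
  have h4 : ((Nat.factorial 3 : ℕ) : ℝ) = 6 := by norm_num [Nat.factorial]
  rw [h4] at h1
  nlinarith

theorem numA_s5 (h : Big G ε E) (n : ℕ) :
    exp (-((conc G ε E).M n * ((conc G ε E).σ n / 2))) ≤
      (conc G ε E).t n ^ 2 * (conc G ε E).σ n / 1000 := by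
  have h3 := numA_e h (n + 1)
  have h4 := numA_E h
  have h5 := h.E1
  have h6 := le_M (G := G) (ε := ε) (E := E) n
  have h7 : exp (ee E (n + 1) / 10 ^ 7) ≤ (conc G ε E).M n * (conc G ε E).σ n := by
    refine le_trans (le_of_eq ?_) (mul_le_mul_of_nonneg_right h6 (exp_pos _).le)
    change _ = _ * exp (-((1 + 1 / 10 ^ 7) * ee E (n + 1)))
    rw [← exp_add]
    congr 1
    ring
  have h8 := numA_cube (y := ee E (n + 1) / 10 ^ 7) (by linarith)
  have h9 := numA_abs0 h (c := 1000) (x := -((conc G ε E).M n * ((conc G ε E).σ n / 2)))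
    (y := -ee E (n + 1) + -ee E (n + 1) + -((1 + 1 / 10 ^ 7) * ee E (n + 1))) (by norm_num)
    (by linarith)
  rw [exp_add, exp_add, ← sq] at h9
  change _ ≤ exp (-ee E (n + 1)) ^ 2 * exp (-((1 + 1 / 10 ^ 7) * ee E (n + 1))) / 1000
  linarith

theorem numA_s6a (n : ℕ) : (conc G ε E).Λ n * (conc G ε E).φ n ≤ (conc G ε E).p n := by
  change exp (la E n) * exp (-(19 / 10 * E + 101 / 100 * ee E (n + 1) + et E n + la E n)) ≤
    exp (-(19 / 10 * E + 101 / 100 * ee E (n + 1) + et E n))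
  rw [← exp_add, exp_le_exp]
  linarith

theorem numA_s6b (h : Big G ε E) (n : ℕ) :
    4 * (conc G ε E).C ^ 3 * (conc G ε E).p n / (conc G ε E).μ ≤ (conc G ε E).γ n := by
  have h3 := numA_e h (n + 1)
  have h4 := numA_E h
  have := numA_abs h (c := 4 * 200 ^ 3)
    (x := -(19 / 10 * E + 101 / 100 * ee E (n + 1) + et E n) - -(19 / 10 * E))
    (y := -((101 / 100 - 1 / 10 ^ 7) * ee E (n + 1) + et E n)) 12 (by norm_num) (by norm_num)
    (by linarith)
  rw [exp_sub] at this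
  change 4 * (200 * G ^ 4) ^ 3 * exp (-(19 / 10 * E + 101 / 100 * ee E (n + 1) + et E n)) /
    exp (-(19 / 10 * E)) ≤ exp (-((101 / 100 - 1 / 10 ^ 7) * ee E (n + 1) + et E n))
  refine le_trans (le_of_eq ?_) this
  ring

theorem numA_s6c (n : ℕ) : (conc G ε E).Λ₀ n * (conc G ε E).γ n ≤ (conc G ε E).ϖ n := by
  change exp (et E n + 4 / 10 ^ 7 * ee E (n + 1)) *
    exp (-((101 / 100 - 1 / 10 ^ 7) * ee E (n + 1) + et E n)) ≤
    exp (-((101 / 100 - 5 / 10 ^ 7) * ee E (n + 1)))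
  rw [← exp_add, exp_le_exp]
  linarith

theorem numA_s6d (h : Big G ε E) (n : ℕ) : (conc G ε E).γ n ≤ (conc G ε E).r n / 8 := by
  have h3 := numA_e h (n + 1)
  have h4 := numA_E h
  have := numA_abs0 h (c := 8) (x := -((101 / 100 - 1 / 10 ^ 7) * ee E (n + 1) + et E n))
    (y := -(et E n + 2 / 10 ^ 7 * ee E (n + 1))) (by norm_num) (by linarith)
  change exp (-((101 / 100 - 1 / 10 ^ 7) * ee E (n + 1) + et E n)) ≤
    exp (-(et E n + 2 / 10 ^ 7 * ee E (n + 1))) / 8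
  linarith

theorem numA_s6e_aux (h : Big G ε E) {μ γ r ϖ σ p t q : ℝ}
    (h1 : μ + γ + γ - r + E / 10 ^ 8 ≤ q) (h2 : μ + γ + ϖ - σ + E / 10 ^ 8 ≤ q)
    (h3 : p + ϖ - σ + E / 10 ^ 8 ≤ q) (h4 : μ + t + γ + E / 10 ^ 8 ≤ q) :
    48 * (200 * G ^ 4) * exp μ * exp γ ^ 2 / exp r +
      8 * (200 * G ^ 4) * exp μ * exp γ * exp ϖ / exp σ +
      16 * exp p * exp ϖ / exp σ + 2 * (200 * G ^ 4) * exp μ * exp t * exp γ ≤ exp q / 3 := by
  have a1 := numA_abs h (c := 12 * (48 * 200)) 4 (by norm_num) (by norm_num) h1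
  have a2 := numA_abs h (c := 12 * (8 * 200)) 4 (by norm_num) (by norm_num) h2
  have a3 := numA_abs0 h (c := 12 * 16) (by norm_num) h3
  have a4 := numA_abs h (c := 12 * (2 * 200)) 4 (by norm_num) (by norm_num) h4
  simp only [exp_sub, exp_add] at a1 a2 a3 a4
  have b1 : 48 * (200 * G ^ 4) * exp μ * exp γ ^ 2 / exp r =
      12 * (48 * 200) * G ^ 4 * (exp μ * exp γ * exp γ / exp r) / 12 := by ring
  have b2 : 8 * (200 * G ^ 4) * exp μ * exp γ * exp ϖ / exp σ =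
      12 * (8 * 200) * G ^ 4 * (exp μ * exp γ * exp ϖ / exp σ) / 12 := by ring
  have b3 : 16 * exp p * exp ϖ / exp σ = 12 * 16 * (exp p * exp ϖ / exp σ) / 12 := by ring
  have b4 : 2 * (200 * G ^ 4) * exp μ * exp t * exp γ =
      12 * (2 * 200) * G ^ 4 * (exp μ * exp t * exp γ) / 12 := by ring
  rw [b1, b2, b3, b4]
  linarith

theorem numA_s6e (h : Big G ε E) (n : ℕ) :
    48 * (conc G ε E).C * (conc G ε E).μ * (conc G ε E).γ n ^ 2 / (conc G ε E).r n +
      8 * (conc G ε E).C * (conc G ε E).μ * (conc G ε E).γ n * (conc G ε E).ϖ n /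
        (conc G ε E).σ n +
      16 * (conc G ε E).p n * (conc G ε E).ϖ n / (conc G ε E).σ n +
      2 * (conc G ε E).C * (conc G ε E).μ * (conc G ε E).t n * (conc G ε E).γ n ≤
      (conc G ε E).p (n + 1) / 3 := by
  have h3 := numA_e h (n + 1)
  have h4 := numA_E h
  have h5 := numA_et3 h n
  have h6 := ee_succ (E := E) (n + 1)
  exact numA_s6e_aux h (by linarith) (by linarith) (by linarith) (by linarith)

theorem numA_s6f_aux (h : Big G ε E) {μ γ φ p t q : ℝ}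
    (h1 : t + φ + E / 10 ^ 8 ≤ q) (h2 : γ + p + E / 10 ^ 8 ≤ q)
    (h3 : γ + μ + γ + E / 10 ^ 8 ≤ q) :
    exp t * exp φ + 2 * exp γ * (4 * (200 * G ^ 4) ^ 2 * exp p +
      2 * (200 * G ^ 4) * exp μ * exp γ) ≤ exp q / 2 := by
  have a1 := numA_abs0 h (c := 6) (by norm_num) h1
  have a2 := numA_abs h (c := 6 * (8 * 200 ^ 2)) 8 (by norm_num) (by norm_num) h2
  have a3 := numA_abs h (c := 6 * (4 * 200)) 4 (by norm_num) (by norm_num) h3
  simp only [exp_add] at a1 a2 a3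
  have b1 : exp t * exp φ + 2 * exp γ * (4 * (200 * G ^ 4) ^ 2 * exp p +
      2 * (200 * G ^ 4) * exp μ * exp γ) = 6 * (exp t * exp φ) / 6 +
      6 * (8 * 200 ^ 2) * G ^ 8 * (exp γ * exp p) / 6 +
      6 * (4 * 200) * G ^ 4 * (exp γ * exp μ * exp γ) / 6 := by ring
  rw [b1]
  linarith

theorem numA_s6f (h : Big G ε E) (n : ℕ) :
    (conc G ε E).t n * (conc G ε E).φ n + 2 * (conc G ε E).γ n *
      (4 * (conc G ε E).C ^ 2 * (conc G ε E).p n +
        2 * (conc G ε E).C * (conc G ε E).μ * (conc G ε E).γ n) ≤ (conc G ε E).φ (n + 1) / 2 := by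
  have h3 := numA_e h (n + 1)
  have h4 := numA_E h
  have h5 := numA_et3 h n
  have h6 := ee_succ (E := E) (n + 1)
  have h7 := numA_la1 h n
  have h8 := numA_la2 h n
  exact numA_s6f_aux h (by linarith) (by linarith) (by linarith)

theorem numA_s7a (h : Big G ε E) (n : ℕ) : (conc G ε E).πb n ≤ (conc G ε E).p n / 3 := by
  have h3 := numA_e h (n + 1)
  have h4 := numA_E h
  have := numA_abs0 h (c := 3) (x := -(19 / 10 * E + 5 / 4 * ee E (n + 1) + et E n))
    (y := -(19 / 10 * E + 101 / 100 * ee E (n + 1) + et E n)) (by norm_num) (by linarith)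
  change exp (-(19 / 10 * E + 5 / 4 * ee E (n + 1) + et E n)) ≤
    exp (-(19 / 10 * E + 101 / 100 * ee E (n + 1) + et E n)) / 3
  linarith

theorem numA_s7b (h : Big G ε E) (n : ℕ) :
    (conc G ε E).ϱ n (conc G ε E).L ≤ (conc G ε E).φ n / 2 := by
  have h3 := numA_e h (n + 1)
  have h4 := numA_E h
  have h7 := numA_la1 h n
  have := numA_abs0 h (c := 2) (x := -(19 / 10 * E + 2 * et E n +
      (2 - 5 / 10 ^ 4 - 1 / 10 ^ 7 + ((150 : ℕ) : ℝ) * (8 / 10 ^ 5 - 1 / 10 ^ 7)) * ee E (n + 1)))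
    (y := -(19 / 10 * E + 101 / 100 * ee E (n + 1) + et E n + la E n)) (by norm_num)
    (by push_cast; linarith)
  change exp (-(19 / 10 * E + 2 * et E n +
      (2 - 5 / 10 ^ 4 - 1 / 10 ^ 7 + ((150 : ℕ) : ℝ) * (8 / 10 ^ 5 - 1 / 10 ^ 7)) * ee E (n + 1))) ≤
    exp (-(19 / 10 * E + 101 / 100 * ee E (n + 1) + et E n + la E n)) / 2
  linarith

theorem numA_s9a (h : Big G ε E) (n : ℕ) :
    3200 * (conc G ε E).G ^ 2 * (conc G ε E).ϖ n / (conc G ε E).σ n ≤ (1 / 2) ^ n := by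
  have h4 := numA_E h
  have h3 := ee_ge h4 (n + 1)
  have h5 : 0 ≤ (n : ℝ) * E := mul_nonneg (Nat.cast_nonneg n) h4
  push_cast at h3
  have := numA_abs h (c := 3200)
    (x := -((101 / 100 - 5 / 10 ^ 7) * ee E (n + 1)) - -((1 + 1 / 10 ^ 7) * ee E (n + 1)))
    (y := -(n / 10 ^ 11 * E)) 2 (by norm_num) (by norm_num) (by linarith)
  rw [exp_sub] at this
  refine le_trans (le_trans (le_of_eq ?_) this) (h.geom n)
  exact mul_div_assoc _ _ _

theorem numA_s9b (h : Big G ε E) (n : ℕ) :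
    (conc G ε E).D n + 8 * (conc G ε E).G * (conc G ε E).ϖ n / (conc G ε E).lam n ≤
      (conc G ε E).D (n + 1) := by
  have h2 := numA_e h n
  have h3 := numA_e h (n + 1)
  have h4 := numA_E h
  have h6 := ee_succ (E := E) n
  have a1 := numA_abs0 h (c := 2) (x := (99 / 100 + 13 / 10 ^ 7) * ee E n)
    (y := (99 / 100 + 13 / 10 ^ 7) * ee E (n + 1)) (by norm_num) (by linarith)
  have a2 := numA_abs h (c := 16)
    (x := -((101 / 100 - 5 / 10 ^ 7) * ee E (n + 1)) - -((2 + 6 / 10 ^ 7) * ee E (n + 1)))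
    (y := (99 / 100 + 13 / 10 ^ 7) * ee E (n + 1)) 1 (by norm_num) (by norm_num) (by linarith)
  rw [exp_sub] at a2
  have b1 : (conc G ε E).D n ≤ exp ((99 / 100 + 13 / 10 ^ 7) * ee E n) := by
    change (if n = 0 then 0 else exp ((99 / 100 + 13 / 10 ^ 7) * ee E n)) ≤ _
    split_ifs
    · exact (exp_pos _).le
    · exact le_rfl
  have b2 : (conc G ε E).D (n + 1) = exp ((99 / 100 + 13 / 10 ^ 7) * ee E (n + 1)) := rfl
  have b3 : 8 * (conc G ε E).G * (conc G ε E).ϖ n / (conc G ε E).lam n =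
      16 * G ^ 1 * (exp (-((101 / 100 - 5 / 10 ^ 7) * ee E (n + 1))) /
        exp (-((2 + 6 / 10 ^ 7) * ee E (n + 1)))) / 2 := by
    change 8 * G * exp (-((101 / 100 - 5 / 10 ^ 7) * ee E (n + 1))) /
      exp (-((2 + 6 / 10 ^ 7) * ee E (n + 1))) = _
    ring
  rw [b2, b3]
  linarith

theorem numA_s10 (h : Big G ε E) (n : ℕ) :
    (conc G ε E).lam n ≤ 6 * (conc G ε E).l n (conc G ε E).L := by
  have h1 := le_l (G := G) (ε := ε) (numA_E h) n 150
  have h2 : lx E n 150 = (2 + 6 / 10 ^ 7) * ee E (n + 1) := by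
    rw [lx]
    push_cast
    ring
  rw [h2] at h1
  have h3 := exp_pos (-((2 + 6 / 10 ^ 7) * ee E (n + 1)))
  change exp (-((2 + 6 / 10 ^ 7) * ee E (n + 1))) ≤ 6 * (conc G ε E).l n 150
  linarith

theorem conc_okA {G ε E : ℝ} (h : Big G ε E) : (conc G ε E).OkA where
  G1 := h.G1
  μ0 := exp_pos _
  pos _ := ⟨exp_pos _, exp_pos _, exp_pos _, exp_pos _, exp_pos _, exp_pos _, exp_pos _,
    exp_pos _, exp_pos _⟩
  t1 := numA_t1 h
  r1 := numA_r1 h
  r2 := numA_r2 h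
  s5 := numA_s5 h
  s6a := numA_s6a
  s6b := numA_s6b h
  s6c := numA_s6c
  s6d := numA_s6d h
  s6e := numA_s6e h
  s6f := numA_s6f h
  s7a := numA_s7a h
  s7b := numA_s7b h
  s9a := numA_s9a h
  s9b := numA_s9b h
  D0 := rfl
  s10 := numA_s10 h

end

end Pool.Agent.Lib.MP_abef03_an
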