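import Mathlib
import Pool.Agent.Lib.MP_abef03_an.Num

/-! The inequalities for the pending blocks. -/

namespace Pool.Agent.Lib.MP_abef03_an

open Real

variable {G ε E : ℝ}

theorem numB_ab (h : Big G ε E) {c x y : ℝ} (i : ℕ) (hc : c ≤ 10 ^ 200) (hi : i ≤ 20)
    (hxy : x + E / 10 ^ 8 ≤ y) : c * G ^ i * exp x ≤ exp y :=
  h.absorb (h.le_const hc hi) hxy

theorem numB_ab0 (h : Big G ε E) (c : ℝ) {x y : ℝ} (hc : c ≤ 10 ^ 200)
    (hxy : x + E / 10 ^ 8 ≤ y) : c * exp x ≤ exp y := by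
  simpa using numB_ab h 0 hc (Nat.zero_le _) hxy

theorem numB_E (h : Big G ε E) : 0 ≤ E := le_trans (by norm_num) h.E1

theorem numB_base (h : Big G ε E) (j : ℕ) {k : ℕ} (hk : k ≤ 150) :
    0 ≤ E ∧ E ≤ ee E (j + 1) ∧ 0 ≤ k * ee E (j + 1) ∧ k * ee E (j + 1) ≤ 150 * ee E (j + 1) := by
  have h0 := numB_E h
  have h1 := le_ee h0 (j + 1)
  exact ⟨h0, h1, mul_nonneg (Nat.cast_nonneg k) (h0.trans h1),
    mul_le_mul_of_nonneg_right (by exact_mod_cast hk) (h0.trans h1)⟩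

theorem numB_base' (h : Big G ε E) (j : ℕ) {k : ℕ} (hk : k < 150) :
    0 ≤ E ∧ E ≤ ee E (j + 1) ∧ 0 ≤ k * ee E (j + 1) ∧ k * ee E (j + 1) ≤ 149 * ee E (j + 1) := by
  have h0 := numB_E h
  have h1 := le_ee h0 (j + 1)
  exact ⟨h0, h1, mul_nonneg (Nat.cast_nonneg k) (h0.trans h1),
    mul_le_mul_of_nonneg_right (by exact_mod_cast Nat.lt_succ_iff.mp hk) (h0.trans h1)⟩

theorem numB_Y (hE : 0 ≤ E) (j : ℕ) {k : ℕ} (hk : k ≤ 150) :
    (1 - (150 - k) / 10 ^ 4) * ee E (j + 1) ≤ ee E (j + k - 150 + 1) := by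
  have h1 := ee_back_ge hE (j + k - 150 + 1) (150 - k)
  have h2 : ee E (j + 1) ≤ ee E (j + k - 150 + 1 + (150 - k)) := ee_mono hE (by omega)
  rw [Nat.cast_sub hk] at h1
  refine le_trans (mul_le_mul_of_nonneg_left h2 ?_) (by exact_mod_cast h1)
  linarith [Nat.cast_nonneg (α := ℝ) k]

theorem numB_back (hE : 0 ≤ E) {j k i : ℕ} (hk : k ≤ 150) (e : j + k - 150 = i + 1) :
    ee E (i + 1) ≤ (1 - 98 / 10 ^ 6 * (151 - k)) * ee E (j + 1) := by
  have h1 := ee_back_le hE (i + 1) (t := 151 - k) (by omega)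
  rw [show i + 1 + (151 - k) = j + 1 by omega, Nat.cast_sub (by omega)] at h1
  exact_mod_cast h1

theorem numB_back' (hE : 0 ≤ E) {j k : ℕ} (hk : k ≤ 150) (e : 150 ≤ j + k) :
    ee E (j + k - 150 + 1) ≤ (1 - 98 / 10 ^ 6 * (150 - k)) * ee E (j + 1) := by
  have h1 := ee_back_le hE (j + k - 150 + 1) (t := 150 - k) (by omega)
  rw [show j + k - 150 + 1 + (150 - k) = j + 1 by omega, Nat.cast_sub hk] at h1
  exact_mod_cast h1

theorem numB_lpos (j k : ℕ) : 0 < (conc G ε E).l j k := by rw [l_eq]; exact exp_pos _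

theorem numB_linv (hE : 0 ≤ E) (j k : ℕ) : ((conc G ε E).l j k)⁻¹ ≤ 2 * exp (lx E j k) := by
  rw [inv_le_comm₀ (numB_lpos j k) (by positivity), mul_inv, ← exp_neg]
  linarith [le_l (G := G) (ε := ε) hE j k]

theorem numB_linv' (j k : ℕ) : exp (lx E j k) ≤ ((conc G ε E).l j k)⁻¹ := by
  rw [le_inv_comm₀ (exp_pos _) (numB_lpos j k), ← exp_neg]
  exact l_le j k

theorem numB_lx (j k : ℕ) : lx E j (k + 1) = lx E j k + 16 / 10 ^ 5 * ee E (j + 1) := by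
  rw [lx, lx]; push_cast; ring

theorem numB_p1 (h : Big G ε E) (j k : ℕ) (hk : k ≤ 150) :
    3 * (conc G ε E).l j k ≤ (conc G ε E).h (j + k - 150) := by
  obtain ⟨b0, b1, b2, b3⟩ := numB_base h j hk
  have a1 := l_le (G := G) (ε := ε) (E := E) j k
  rcases e : j + k - 150 with - | i
  · have a2 := numB_ab0 h 300 (x := -lx E j k) (y := -(19 / 10 * E)) (by norm_num)
      (by rw [lx]; linarith)
    change _ ≤ exp (-(19 / 10 * E)) / 100
    linarith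
  · have a3 := numB_back b0 hk e
    have a2 := numB_ab0 h 12 (x := -lx E j k) (y := -((2 + 6 / 10 ^ 7) * ee E (i + 1)))
      (by norm_num) (by rw [lx]; linarith)
    change _ ≤ exp (-((2 + 6 / 10 ^ 7) * ee E (i + 1))) / 4
    linarith

theorem numB_p2 (h : Big G ε E) (j k : ℕ) (hk : k ≤ 150) :
    4 * 16 ^ 150 * (conc G ε E).σ j ≤ (conc G ε E).τ (j + k - 150) := by
  obtain ⟨b0, b1, b2, b3⟩ := numB_base h j hk
  have hG := h.G1
  change 4 * 16 ^ 150 * exp (-((1 + 1 / 10 ^ 7) * ee E (j + 1))) ≤ _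
  rcases e : j + k - 150 with - | i
  · have a1 := N_le (G := G) (ε := ε) (E := E) 0
    have a0 := le_N (G := G) (ε := ε) b0 0
    rw [ee_zero] at a1 a0
    have a2 := numB_ab h (c := 800 * 16 ^ 150) (x := -((1 + 1 / 10 ^ 7) * ee E (j + 1)) + E)
      (y := 0) 2 (by norm_num) (by norm_num) (by linarith)
    change _ ≤ 1 / (200 * G ^ 2 * ((conc G ε E).N 0 : ℝ))
    have a3 : (0 : ℝ) < (conc G ε E).N 0 := lt_of_lt_of_le (by positivity) a0
    rw [le_div_iff₀ (mul_pos (mul_pos (by norm_num) (pow_pos (one_pos.trans_le hG) 2)) a3)]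
    rw [exp_add, exp_zero] at a2
    refine le_trans ?_ a2
    calc _ = 800 * 16 ^ 150 * G ^ 2 * (exp (-((1 + 1 / 10 ^ 7) * ee E (j + 1)))
          * ((conc G ε E).N 0 : ℝ)) := by ring
      _ ≤ _ := by gcongr
  · have a3 := numB_back b0 hk e
    have a2 := numB_ab0 h (256 * 16 ^ 150) (x := -((1 + 1 / 10 ^ 7) * ee E (j + 1)))
      (y := -((1 + 1 / 10 ^ 7) * ee E (i + 1))) (by norm_num) (by linarith)
    change _ ≤ exp (-((1 + 1 / 10 ^ 7) * ee E (i + 1))) / 64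
    linarith

theorem numB_p3 (h : Big G ε E) (j k : ℕ) (hk : k ≤ 150) :
    8 * G * 16 ^ 150 * (conc G ε E).σ j + 3 * (conc G ε E).l j k * (conc G ε E).D (j + k - 150)
      ≤ 1 / (4 * ((conc G ε E).N (j + 1) : ℝ)) := by
  obtain ⟨b0, b1, b2, b3⟩ := numB_base h j hk
  have a1 := N_le (G := G) (ε := ε) (E := E) (j + 1)
  have a0 := le_N (G := G) (ε := ε) b0 (j + 1)
  have a3 : (0 : ℝ) < (conc G ε E).N (j + 1) := lt_of_lt_of_le (by positivity) a0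
  have a4 : exp (-ee E (j + 1)) / 4 ≤ 1 / (4 * ((conc G ε E).N (j + 1) : ℝ)) := by
    rw [exp_neg, ← one_div, div_div, mul_comm]
    gcongr
  have a2 := numB_ab h (c := 64 * 16 ^ 150) (x := -((1 + 1 / 10 ^ 7) * ee E (j + 1)))
    (y := -ee E (j + 1)) 1 (by norm_num) (by norm_num) (by linarith)
  have a5 : 24 * ((conc G ε E).l j k * (conc G ε E).D (j + k - 150)) ≤ exp (-ee E (j + 1)) := by
    rcases e : j + k - 150 with - | i
    · change 24 * (_ * 0) ≤ _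
      rw [mul_zero, mul_zero]
      exact (exp_pos _).le
    · have a6 := numB_back b0 hk e
      have a7 := numB_ab0 h 24 (x := -lx E j k + (99 / 100 + 13 / 10 ^ 7) * ee E (i + 1))
        (y := -ee E (j + 1)) (by norm_num) (by rw [lx]; linarith)
      refine le_trans ?_ a7
      rw [exp_add]
      change 24 * (_ * exp ((99 / 100 + 13 / 10 ^ 7) * ee E (i + 1))) ≤ _
      gcongr
      exact l_le j k
  change 8 * G * 16 ^ 150 * exp (-((1 + 1 / 10 ^ 7) * ee E (j + 1))) + _ ≤ _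
  linarith

theorem numB_p4 (h : Big G ε E) (j k : ℕ) (hk : k ≤ 150) :
    192 * (conc G ε E).l j k ≤ (conc G ε E).σ j := by
  obtain ⟨b0, b1, b2, b3⟩ := numB_base h j hk
  have a1 := l_le (G := G) (ε := ε) (E := E) j k
  have a2 := numB_ab0 h 192 (x := -lx E j k) (y := -((1 + 1 / 10 ^ 7) * ee E (j + 1)))
    (by norm_num) (by rw [lx]; linarith)
  change _ ≤ exp (-((1 + 1 / 10 ^ 7) * ee E (j + 1)))
  linarith

theorem numB_p5 (h : Big G ε E) (j k : ℕ) (hk : k < 150) :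
    8 * (conc G ε E).l j (k + 1) ≤ (conc G ε E).l j k := by
  obtain ⟨b0, b1, b2, b3⟩ := numB_base' h j hk
  have a1 := l_le (G := G) (ε := ε) (E := E) j (k + 1)
  have a3 := le_l (G := G) (ε := ε) b0 j k
  have a2 := numB_ab0 h 16 (x := -lx E j (k + 1)) (y := -lx E j k)
    (by norm_num) (by rw [numB_lx]; linarith)
  linarith

theorem numB_p6 (h : Big G ε E) (j k : ℕ) (hk : k ≤ 150) :
    6 * ((conc G ε E).M j : ℝ) * (conc G ε E).l j k ≤ 1 := by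
  obtain ⟨b0, b1, b2, b3⟩ := numB_base h j hk
  have a1 := l_le (G := G) (ε := ε) (E := E) j k
  have a3 := M_le (G := G) (ε := ε) b0 j
  have a4 := (numB_lpos (G := G) (ε := ε) (E := E) j k).le
  have a2 := numB_ab0 h 12 (x := (1 + 2 / 10 ^ 7) * ee E (j + 1) + -lx E j k) (y := 0)
    (by norm_num) (by rw [lx]; linarith)
  rw [exp_add, exp_zero] at a2
  calc _ ≤ 6 * (2 * exp ((1 + 2 / 10 ^ 7) * ee E (j + 1))) * exp (-lx E j k) := by gcongr
    _ ≤ _ := by linarith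

theorem numB_p7 (h : Big G ε E) (j k : ℕ) (hk : k < 150) (e : 150 ≤ j + k) :
    6 * (conc G ε E).ϖ (j + k - 150) * (conc G ε E).l j (k + 1) / (conc G ε E).lam (j + k - 150)
      ≤ (conc G ε E).σ j := by
  obtain ⟨b0, b1, b2, b3⟩ := numB_base' h j hk
  have a1 := l_le (G := G) (ε := ε) (E := E) j (k + 1)
  have a3 := numB_back' b0 hk.le e
  have a2 := numB_ab0 h 6 (x := -((101 / 100 - 5 / 10 ^ 7) * ee E (j + k - 150 + 1))
    + -lx E j (k + 1) - -((2 + 6 / 10 ^ 7) * ee E (j + k - 150 + 1)))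
    (y := -((1 + 1 / 10 ^ 7) * ee E (j + 1))) (by norm_num) (by rw [numB_lx, lx]; linarith)
  rw [exp_sub, exp_add, ← mul_div_assoc, ← mul_assoc] at a2
  refine le_trans ?_ a2
  change 6 * exp (-((101 / 100 - 5 / 10 ^ 7) * ee E (j + k - 150 + 1))) * _
    / exp (-((2 + 6 / 10 ^ 7) * ee E (j + k - 150 + 1))) ≤ _
  gcongr

theorem numB_p8 (h : Big G ε E) (j k : ℕ) (hk : k < 150) :
    (conc G ε E).γ (j + k - 150) ≤ (conc G ε E).σ j := by
  obtain ⟨b0, b1, b2, b3⟩ := numB_base' h j hk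
  have a1 := numB_Y b0 j hk.le
  have a2 : ee E (j + k - 150 + 1) ≤ et E (j + k - 150) := le_max_left _ _
  change exp (-((101 / 100 - 1 / 10 ^ 7) * ee E (j + k - 150 + 1) + et E (j + k - 150)))
    ≤ exp (-((1 + 1 / 10 ^ 7) * ee E (j + 1)))
  rw [exp_le_exp]
  linarith

theorem numB_p9 (h : Big G ε E) (j : ℕ) :
    exp (-(((conc G ε E).M j : ℝ) * (conc G ε E).σ j)) ≤ (conc G ε E).b j ^ 2 := by
  obtain ⟨b0, b1, -, -⟩ := numB_base h j (Nat.zero_le _)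
  have b2 := h.E1
  have a1 := le_M (G := G) (ε := ε) (E := E) j
  change exp (-(_ * exp (-((1 + 1 / 10 ^ 7) * ee E (j + 1)))))
    ≤ exp (-((8 / 10 ^ 5 - 75 / 10 ^ 9) * ee E (j + 1))) ^ 2
  rw [← exp_nat_mul, exp_le_exp]
  have a2 := mul_le_mul_of_nonneg_right a1 (exp_pos (-((1 + 1 / 10 ^ 7) * ee E (j + 1)))).le
  rw [← exp_add, show (1 + 2 / 10 ^ 7) * ee E (j + 1) + -((1 + 1 / 10 ^ 7) * ee E (j + 1))
    = ee E (j + 1) / 10 ^ 7 by ring] at a2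
  have a3 := quadratic_le_exp_of_nonneg (x := ee E (j + 1) / 10 ^ 7) (by linarith)
  have a4 := mul_le_mul_of_nonneg_left (b2.trans b1) (b0.trans b1)
  push_cast
  linarith

theorem numB_p10 (h : Big G ε E) (j k : ℕ) (hk : k < 150) :
    64 * (conc G ε E).l j (k + 1) / ((conc G ε E).l j k * (conc G ε E).δ j)
      ≤ (conc G ε E).b j ^ 2 := by
  obtain ⟨b0, b1, b2, b3⟩ := numB_base' h j hk
  have a1 := l_le (G := G) (ε := ε) (E := E) j (k + 1)
  have a3 := le_l (G := G) (ε := ε) b0 j k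
  have a2 := numB_ab0 h 128 (x := -lx E j (k + 1) - (-lx E j k + -(1 / 10 ^ 7 * ee E (j + 1))))
    (y := (2 : ℕ) * -((8 / 10 ^ 5 - 75 / 10 ^ 9) * ee E (j + 1))) (by norm_num)
    (by rw [numB_lx]; push_cast; linarith)
  rw [exp_nat_mul, exp_sub, exp_add] at a2
  refine le_trans ?_ a2
  change _ / (_ * exp (-(1 / 10 ^ 7 * ee E (j + 1)))) ≤ _
  calc _ ≤ 64 * exp (-lx E j (k + 1)) / (exp (-lx E j k) / 2 * exp (-(1 / 10 ^ 7 * ee E (j + 1)))) := by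
        gcongr
    _ = _ := by field_simp; norm_num

theorem numB_sq (x : ℝ) : exp x ^ 2 = exp (2 * x) := by rw [← exp_nat_mul]; norm_num

theorem numB_p11 (h : Big G ε E) (j k : ℕ) (hk : k < 150) :
    256 * (conc G ε E).ϱ j k ^ 2 * (conc G ε E).b j ^ 2
      + 8 * ((conc G ε E).πb j * (2 * (conc G ε E).γ (j + k - 150))) ^ 2
      + 9216 * (2 * (conc G ε E).γ (j + k - 150)) ^ 2
        * ((conc G ε E).ϱ j k / (6 * (conc G ε E).l j (k + 1))) ^ 2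
      ≤ 2 * (conc G ε E).ϱ j (k + 1) ^ 2 := by
  obtain ⟨b0, b1, b2, b3⟩ := numB_base' h j hk
  have a1 := numB_Y b0 j hk.le
  have a2 : ee E (j + k - 150 + 1) ≤ et E (j + k - 150) := le_max_left _ _
  have a3 : ee E (j + k - 150 + 1) ≤ ee E (j + 1) := ee_mono b0 (by omega)
  have a4 : et E j ≤ et E (j + k - 150) + (ee E (j + 1) - ee E (j + k - 150 + 1)) := by
    have : 19 / 10 * E ≤ et E (j + k - 150) := le_max_right _ _
    exact max_le (by linarith) (by linarith)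
  have a5 := numB_linv (G := G) (ε := ε) b0 j (k + 1)
  have a6 := numB_lpos (G := G) (ε := ε) (E := E) j (k + 1)
  set P := -(19 / 10 * E + 2 * et E j +
    (2 - 5 / 10 ^ 4 - 1 / 10 ^ 7 + k * (8 / 10 ^ 5 - 1 / 10 ^ 7)) * ee E (j + 1)) with hP
  set Q := -(19 / 10 * E + 2 * et E j +
    (2 - 5 / 10 ^ 4 - 1 / 10 ^ 7 + (k + 1 : ℕ) * (8 / 10 ^ 5 - 1 / 10 ^ 7)) * ee E (j + 1)) with hQ
  set B := -((8 / 10 ^ 5 - 75 / 10 ^ 9) * ee E (j + 1)) with hB
  set U := -(19 / 10 * E + 5 / 4 * ee E (j + 1) + et E j) with hU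
  set V := -((101 / 100 - 1 / 10 ^ 7) * ee E (j + k - 150 + 1) + et E (j + k - 150)) with hV
  change 256 * exp P ^ 2 * exp B ^ 2 + 8 * (exp U * (2 * exp V)) ^ 2
    + 9216 * (2 * exp V) ^ 2 * (exp P / (6 * _)) ^ 2 ≤ 2 * exp Q ^ 2
  push_cast at hQ
  have c1 := numB_ab0 h 384 (x := 2 * (P + B)) (y := 2 * Q) (by norm_num) (by linarith)
  have c2 := numB_ab0 h 48 (x := 2 * (U + V)) (y := 2 * Q) (by norm_num) (by linarith)
  have c3 := numB_ab0 h 6144 (x := 2 * (V + P + lx E j (k + 1))) (y := 2 * Q) (by norm_num)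
    (by rw [numB_lx, lx]; linarith)
  simp only [← numB_sq, exp_add] at c1 c2 c3
  have c4 : 9216 * (2 * exp V) ^ 2 * (exp P / (6 * (conc G ε E).l j (k + 1))) ^ 2
      ≤ 9216 * (2 * exp V) ^ 2 * (exp P * (6⁻¹ * (2 * exp (lx E j (k + 1))))) ^ 2 := by
    rw [div_eq_mul_inv, mul_inv]
    gcongr
  linarith

theorem numB_p12 (h : Big G ε E) (j k : ℕ) (hk : k < 150) :
    72 * ((conc G ε E).ϱ j k / (6 * (conc G ε E).l j (k + 1))) ^ 2
      ≤ ((conc G ε E).ϱ j (k + 1) / (6 * (conc G ε E).l j (k + 2))) ^ 2 := by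
  obtain ⟨b0, b1, b2, b3⟩ := numB_base' h j hk
  have a5 := numB_linv (G := G) (ε := ε) b0 j (k + 1)
  have a6 := numB_lpos (G := G) (ε := ε) (E := E) j (k + 1)
  have a7 := numB_linv' (G := G) (ε := ε) (E := E) j (k + 1 + 1)
  set P := -(19 / 10 * E + 2 * et E j +
    (2 - 5 / 10 ^ 4 - 1 / 10 ^ 7 + k * (8 / 10 ^ 5 - 1 / 10 ^ 7)) * ee E (j + 1)) with hP
  set Q := -(19 / 10 * E + 2 * et E j +
    (2 - 5 / 10 ^ 4 - 1 / 10 ^ 7 + (k + 1 : ℕ) * (8 / 10 ^ 5 - 1 / 10 ^ 7)) * ee E (j + 1)) with hQ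
  change 72 * (exp P / (6 * _)) ^ 2 ≤ (exp Q / (6 * (conc G ε E).l j (k + 1 + 1))) ^ 2
  push_cast at hQ
  have c1 := numB_ab0 h 288 (x := 2 * (P + lx E j (k + 1))) (y := 2 * (Q + lx E j (k + 1 + 1)))
    (by norm_num) (by rw [numB_lx j (k + 1)]; linarith)
  simp only [← numB_sq, exp_add] at c1
  rw [div_eq_mul_inv, div_eq_mul_inv, mul_inv, mul_inv]
  calc _ ≤ 72 * (exp P * (6⁻¹ * (2 * exp (lx E j (k + 1))))) ^ 2 := by gcongr
    _ ≤ (exp Q * (6⁻¹ * exp (lx E j (k + 1 + 1)))) ^ 2 := by linarith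
    _ ≤ _ := by gcongr

theorem numB_p13 (h : Big G ε E) (j k : ℕ) (hk : k < 150) :
    2 * ((conc G ε E).M j : ℝ) / (conc G ε E).μ ^ 2
      + 4 / ((conc G ε E).δ j * (6 * (conc G ε E).l j (k + 1))) * (2 * ((conc G ε E).M j : ℝ) ^ 2)
      ≤ (conc G ε E).Λp j k ^ 2 / 144 := by
  obtain ⟨b0, b1, b2, b3⟩ := numB_base' h j hk
  have a5 := numB_linv (G := G) (ε := ε) b0 j (k + 1)
  have a6 := numB_lpos (G := G) (ε := ε) (E := E) j (k + 1)
  have a3 := M_le (G := G) (ε := ε) b0 j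
  have a1 : 19 / 10 * E ≤ et E j := le_max_right _ _
  set W := max ((1 / 2 + 6 / 10 ^ 7) * ee E (j + 1) + et E j)
    ((2 + 6 / 10 ^ 7 - 8 / 10 ^ 5 * (149 - k)) * ee E (j + 1)) with hW
  have w1 : _ ≤ W := le_max_left _ _
  have w2 : _ ≤ W := le_max_right _ _
  set A := (1 + 2 / 10 ^ 7) * ee E (j + 1) with hA
  change 2 * _ / exp (-(19 / 10 * E)) ^ 2 + 4 / (exp (-(1 / 10 ^ 7 * ee E (j + 1))) * _) * _
    ≤ exp W ^ 2 / 144
  have c1 := numB_ab0 h 1152 (x := A + 2 * (19 / 10 * E)) (y := 2 * W) (by norm_num) (by linarith)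
  have c2 := numB_ab0 h 3072 (x := 1 / 10 ^ 7 * ee E (j + 1) + lx E j (k + 1) + 2 * A)
    (y := 2 * W) (by norm_num) (by rw [numB_lx, lx]; linarith)
  simp only [← numB_sq, exp_add] at c1 c2
  rw [exp_neg, exp_neg, div_eq_mul_inv, div_eq_mul_inv 4, inv_pow, inv_inv, mul_inv, inv_inv,
    mul_inv]
  calc _ ≤ 2 * (2 * exp A) * exp (19 / 10 * E) ^ 2 + 4 * (exp (1 / 10 ^ 7 * ee E (j + 1))
        * (6⁻¹ * (2 * exp (lx E j (k + 1))))) * (2 * (2 * exp A) ^ 2) := by gcongr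
    _ ≤ _ := by linarith

theorem numB_p14 (h : Big G ε E) (j k : ℕ) (hk : k < 150) :
    3 * 4 ^ 150 * ((conc G ε E).Λp j k * (conc G ε E).ϱ j k) ≤ (conc G ε E).p j := by
  obtain ⟨b0, b1, b2, b3⟩ := numB_base' h j hk
  have a1 : ee E (j + 1) ≤ et E j := le_max_left _ _
  change 3 * 4 ^ 150 * (exp _ * exp _) ≤ exp _
  rw [← exp_add]
  refine numB_ab0 h _ (by norm_num) ?_
  rcases max_cases ((1 / 2 + 6 / 10 ^ 7) * ee E (j + 1) + et E j)
    ((2 + 6 / 10 ^ 7 - 8 / 10 ^ 5 * (149 - k)) * ee E (j + 1)) with ⟨e, -⟩ | ⟨e, -⟩ <;>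
  · rw [e]
    linarith

theorem conc_okB {G ε E : ℝ} (h : Big G ε E) : (conc G ε E).OkB :=
  ⟨fun _ _ => ⟨(exp_pos _).le, (exp_pos _).le⟩, numB_p1 h, numB_p2 h, numB_p3 h, numB_p4 h,
    numB_p5 h, numB_p6 h, fun j k h1 h2 => numB_p7 h j k h1 h2, numB_p8 h, numB_p9 h, numB_p10 h,
    numB_p11 h, numB_p12 h, numB_p13 h, numB_p14 h⟩

end Pool.Agent.Lib.MP_abef03_an
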