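import Mathlib
import Pool.Agent.Lib.MP_abef03_an.Num

/-! The inequalities for the blocks, the start, the limit and the measure. -/

namespace Pool.Agent.Lib.MP_abef03_an

open Real

variable {G ε E : ℝ}

theorem numC_E0 (h : Big G ε E) : 0 ≤ E := le_trans (by norm_num) h.E1

theorem numC_abs (h : Big G ε E) {c x y : ℝ} (i : ℕ) (hc : c ≤ 10 ^ 200) (hi : i ≤ 20)
    (hxy : x + E / 10 ^ 8 ≤ y) : c * G ^ i * exp x ≤ exp y :=
  h.absorb (h.le_const hc hi) hxy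

theorem numC_abs0 (h : Big G ε E) {c x y : ℝ} (hc : c ≤ 10 ^ 200)
    (hxy : x + E / 10 ^ 8 ≤ y) : c * exp x ≤ exp y := by
  simpa using numC_abs h 0 hc (by norm_num) hxy

theorem numC_absε (h : Big G ε E) {c x y : ℝ} (i : ℕ) (hc : c ≤ 10 ^ 200) (hi : i ≤ 20)
    (hxy : x + E / 10 ^ 8 ≤ y) : c * G ^ i * exp x ≤ ε * exp y := by
  have h1 := h.G1
  have h0 := h.ε0
  have h2 : G ^ i ≤ G ^ 20 := pow_le_pow_right₀ h1 hi
  have h3 : c * G ^ i ≤ 10 ^ 200 * G ^ 20 := mul_le_mul hc h2 (by positivity) (by positivity)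
  have h4 := h.absorb (c := c * G ^ i / ε) (div_le_div_of_nonneg_right h3 h0.le) hxy
  rw [div_mul_eq_mul_div, div_le_iff₀ h0] at h4
  linarith

theorem numC_pow (x : ℝ) (k : ℕ) : exp x ^ k = exp (k * x) := (exp_nat_mul x k).symm

theorem numC_Npos (h : Big G ε E) (n : ℕ) : (0 : ℝ) < (conc G ε E).N n :=
  lt_of_lt_of_le (by positivity) (le_N (numC_E0 h) n)

theorem numC_inv (h : Big G ε E) (n k : ℕ) :
    1 / ((conc G ε E).N n : ℝ) ^ k ≤ 2 ^ k * exp (-(k * ee E n)) := by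
  have h1 := le_N (G := G) (ε := ε) (numC_E0 h) n
  have h2 : (exp (ee E n) / 2) ^ k ≤ ((conc G ε E).N n : ℝ) ^ k :=
    pow_le_pow_left₀ (by positivity) h1 k
  refine (one_div_le_one_div_of_le (by positivity) h2).trans (le_of_eq ?_)
  rw [div_pow, numC_pow, exp_neg]
  field_simp

theorem numC_sqrt (n : ℕ) : sqrt ((conc G ε E).N n) ≤ exp (ee E n / 2) := by
  rw [exp_half]
  exact sqrt_le_sqrt (N_le n)

theorem numC_small (h : Big G ε E) {n : ℕ}
    (hs : 48 * G * exp (-(19 / 10 * E)) * (conc G ε E).N (n + 1) ≤ 1) : et E n = 19 / 10 * E := by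
  have h1 := le_N (G := G) (ε := ε) (numC_E0 h) (n + 1)
  have hG := h.G1
  have h2 : 48 * 1 * exp (-(19 / 10 * E)) * (exp (ee E (n + 1)) / 2) ≤
      48 * G * exp (-(19 / 10 * E)) * (conc G ε E).N (n + 1) := by gcongr
  have h3 : exp (-(19 / 10 * E) + ee E (n + 1)) ≤ exp 0 := by
    rw [exp_add, exp_zero]
    nlinarith [mul_pos (exp_pos (-(19 / 10 * E))) (exp_pos (ee E (n + 1)))]
  rw [exp_le_exp] at h3
  exact max_eq_right (by linarith)

theorem numC_large (h : Big G ε E) {n : ℕ}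
    (hs : 1 ≤ 48 * G * exp (-(19 / 10 * E)) * (conc G ε E).N (n + 1)) :
    19 / 10 * E ≤ ee E (n + 1) + E / 10 ^ 8 := by
  have h1 := N_le (G := G) (ε := ε) (E := E) (n + 1)
  have hG := h.G1
  have h2 : 48 * G * exp (-(19 / 10 * E)) * (conc G ε E).N (n + 1) ≤
      48 * G * exp (-(19 / 10 * E)) * exp (ee E (n + 1)) := by gcongr
  have h3 := numC_abs h (c := 48) (x := -(19 / 10 * E) + ee E (n + 1)) 1 (by norm_num)
    (by norm_num) le_rfl
  have h4 : exp 0 ≤ exp (-(19 / 10 * E) + ee E (n + 1) + E / 10 ^ 8) := by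
    rw [exp_zero]
    rw [exp_add, pow_one] at h3
    nlinarith
  rw [exp_le_exp] at h4
  linarith

theorem numC_n1 (h : Big G ε E) (n : ℕ) : 10 ^ 6 * G ^ 8 ≤ (conc G ε E).N n := by
  have hE := numC_E0 h
  have h1 := le_N (G := G) (ε := ε) hE n
  have h2 := numC_abs h (c := 2 * 10 ^ 6) (x := 0) (y := ee E n) 8 (by norm_num) (by norm_num)
    (by linarith [le_ee hE n])
  rw [exp_zero] at h2
  linarith

theorem numC_n2 (h : Big G ε E) (n : ℕ) : (conc G ε E).N n ≤ (conc G ε E).N (n + 1) :=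
  Nat.floor_le_floor (exp_le_exp.mpr (ee_mono (numC_E0 h) (Nat.le_succ n)))

theorem numC_n3 (h : Big G ε E) (n : ℕ) : n ≤ (conc G ε E).N n := by
  refine Nat.le_floor ?_
  have h1 := ee_ge (numC_E0 h) n
  have h2 := add_one_le_exp (ee E n)
  have h3 := h.E1
  nlinarith [Nat.cast_nonneg (α := ℝ) n]

theorem numC_n4 (h : Big G ε E) :
    60 * G ^ 3 * exp (-(19 / 10 * E)) * (conc G ε E).N 0 ≤ 1 := by
  have hE := numC_E0 h
  have hG := h.G1
  have h1 := N_le (G := G) (ε := ε) (E := E) 0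
  rw [ee_zero] at h1
  have h2 := numC_abs h (c := 60) (x := -(19 / 10 * E) + E) (y := 0) 3 (by norm_num) (by norm_num)
    (by linarith)
  rw [exp_zero, exp_add] at h2
  calc _ ≤ 60 * G ^ 3 * exp (-(19 / 10 * E)) * exp E := by gcongr
    _ ≤ 1 := by linarith

theorem numC_rho (n : ℕ) : (conc G ε E).ϱ n 0 ^ 2 =
    exp (-(38 / 10 * E + 4 * et E n + (4 - 1 / 10 ^ 3 - 2 / 10 ^ 7) * ee E (n + 1))) := by
  change exp _ ^ 2 = _
  rw [numC_pow]
  congr 1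
  push_cast
  ring

theorem numC_bl1 (h : Big G ε E) (n : ℕ)
    (hs : 48 * G * exp (-(19 / 10 * E)) * (conc G ε E).N (n + 1) ≤ 1) :
    64 * G ^ 3 * (6 * G * exp (-(19 / 10 * E))) ^ 6 / (conc G ε E).N n ^ 4 ≤
      (conc G ε E).ϱ n 0 ^ 2 := by
  have hE := numC_E0 h
  have hG := h.G1
  have h1 := numC_inv h n 4
  have h2 := le_ee hE n
  rw [numC_rho, numC_small h hs, div_eq_mul_one_div]
  calc _ ≤ 64 * G ^ 3 * (6 * G * exp (-(19 / 10 * E))) ^ 6 *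
        (2 ^ 4 * exp (-((4 : ℕ) * ee E n))) := by gcongr
    _ = 64 * 6 ^ 6 * 2 ^ 4 * G ^ 9 * exp ((6 : ℕ) * (-(19 / 10 * E)) + -((4 : ℕ) * ee E n)) := by
        rw [exp_add, ← numC_pow]
        ring
    _ ≤ _ := by
        refine numC_abs h 9 (by norm_num) (by norm_num) ?_
        rw [ee_succ]
        push_cast
        linarith

theorem numC_bl2 (h : Big G ε E) (n : ℕ)
    (hs : 1 ≤ 48 * G * exp (-(19 / 10 * E)) * (conc G ε E).N (n + 1)) :
    256 * G ^ 3 * (12 * G * exp (-(19 / 10 * E))) ^ 2 / (conc G ε E).N n ^ 8 +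
      384 * G ^ 3 / (conc G ε E).N n ^ 10 ≤ (conc G ε E).ϱ n 0 ^ 2 := by
  have hE := numC_E0 h
  have hG := h.G1
  have h1 := numC_inv h n 8
  have h1' := numC_inv h n 10
  have h2 := le_ee hE n
  have h3 := numC_large h hs
  have h4 : et E n ≤ ee E (n + 1) + E / 10 ^ 8 := max_le (by linarith) h3
  rw [numC_rho, div_eq_mul_one_div, div_eq_mul_one_div (384 * G ^ 3)]
  rw [ee_succ] at h3 h4 ⊢
  have a1 := numC_abs h (c := 2 * (256 * 12 ^ 2 * 2 ^ 8))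
    (x := (2 : ℕ) * (-(19 / 10 * E)) + -((8 : ℕ) * ee E n))
    (y := -(38 / 10 * E + 4 * et E n + (4 - 1 / 10 ^ 3 - 2 / 10 ^ 7) * ((1 + 1 / 10 ^ 4) * ee E n)))
    5 (by norm_num) (by norm_num) (by push_cast; linarith)
  have a2 := numC_abs h (c := 2 * (384 * 2 ^ 10)) (x := -((10 : ℕ) * ee E n))
    (y := -(38 / 10 * E + 4 * et E n + (4 - 1 / 10 ^ 3 - 2 / 10 ^ 7) * ((1 + 1 / 10 ^ 4) * ee E n)))
    3 (by norm_num) (by norm_num) (by push_cast; linarith)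
  rw [exp_add, ← numC_pow] at a1
  calc _ ≤ 256 * G ^ 3 * (12 * G * exp (-(19 / 10 * E))) ^ 2 *
        (2 ^ 8 * exp (-((8 : ℕ) * ee E n))) +
        384 * G ^ 3 * (2 ^ 10 * exp (-((10 : ℕ) * ee E n))) := by gcongr
    _ ≤ _ := by linarith

theorem numC_bl3 (h : Big G ε E) (n : ℕ)
    (hs : 48 * G * exp (-(19 / 10 * E)) * (conc G ε E).N (n + 1) ≤ 1) :
    4 * G * sqrt ((conc G ε E).N n) / (conc G ε E).N n ^ 2 *
      (6 * G * exp (-(19 / 10 * E))) ^ 2 * (2 * G) ≤ (conc G ε E).πb n := by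
  have hE := numC_E0 h
  have hG := h.G1
  have h1 := numC_inv h n 2
  have h2 := le_ee hE n
  have h3 := numC_sqrt (G := G) (ε := ε) (E := E) n
  change _ ≤ exp (-(19 / 10 * E + 5 / 4 * ee E (n + 1) + et E n))
  rw [numC_small h hs, div_eq_mul_one_div, ee_succ]
  have a1 := numC_abs h (c := 4 * 2 ^ 2 * 6 ^ 2 * 2)
    (x := ee E n / 2 + -((2 : ℕ) * ee E n) + (2 : ℕ) * (-(19 / 10 * E)))
    (y := -(19 / 10 * E + 5 / 4 * ((1 + 1 / 10 ^ 4) * ee E n) + 19 / 10 * E))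
    4 (by norm_num) (by norm_num) (by push_cast; linarith)
  rw [exp_add, exp_add, ← numC_pow] at a1
  calc _ ≤ 4 * G * exp (ee E n / 2) * (2 ^ 2 * exp (-((2 : ℕ) * ee E n))) *
      (6 * G * exp (-(19 / 10 * E))) ^ 2 * (2 * G) := by gcongr
    _ ≤ _ := by linarith

theorem numC_bl4 (h : Big G ε E) (n : ℕ)
    (hs : 1 ≤ 48 * G * exp (-(19 / 10 * E)) * (conc G ε E).N (n + 1)) :
    (4 * G * sqrt ((conc G ε E).N n) / (conc G ε E).N n ^ 3 * (6 * G * exp (-(19 / 10 * E))) +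
      3 * (4 * G * sqrt ((conc G ε E).N n) / (conc G ε E).N n ^ 4)) * (2 * G) ≤
      (conc G ε E).πb n := by
  have hE := numC_E0 h
  have hG := h.G1
  have h1 := numC_inv h n 3
  have h1' := numC_inv h n 4
  have h2 := le_ee hE n
  have h3 := numC_large h hs
  have h4 : et E n ≤ ee E (n + 1) + E / 10 ^ 8 := max_le (by linarith) h3
  have h5 := numC_sqrt (G := G) (ε := ε) (E := E) n
  change _ ≤ exp (-(19 / 10 * E + 5 / 4 * ee E (n + 1) + et E n))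
  rw [div_eq_mul_one_div, div_eq_mul_one_div (4 * G * _) (_ ^ 4)]
  rw [ee_succ] at h3 h4 ⊢
  have a1 := numC_abs h (c := 2 * (4 * 2 ^ 3 * 6 * 2))
    (x := ee E n / 2 + -((3 : ℕ) * ee E n) + (-(19 / 10 * E)))
    (y := -(19 / 10 * E + 5 / 4 * ((1 + 1 / 10 ^ 4) * ee E n) + et E n))
    3 (by norm_num) (by norm_num) (by push_cast; linarith)
  have a2 := numC_abs h (c := 2 * (3 * 4 * 2 ^ 4 * 2))
    (x := ee E n / 2 + -((4 : ℕ) * ee E n))
    (y := -(19 / 10 * E + 5 / 4 * ((1 + 1 / 10 ^ 4) * ee E n) + et E n))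
    2 (by norm_num) (by norm_num) (by push_cast; linarith)
  rw [exp_add, exp_add] at a1
  rw [exp_add] at a2
  calc _ ≤ (4 * G * exp (ee E n / 2) * (2 ^ 3 * exp (-((3 : ℕ) * ee E n))) *
      (6 * G * exp (-(19 / 10 * E))) +
      3 * (4 * G * exp (ee E n / 2) * (2 ^ 4 * exp (-((4 : ℕ) * ee E n))))) * (2 * G) := by gcongr
    _ ≤ _ := by linarith

theorem numC_et0 (h : Big G ε E) : et E 0 = 19 / 10 * E := by
  refine max_eq_right ?_
  rw [ee_succ, ee_zero]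
  linarith [numC_E0 h]

theorem numC_in1 (h : Big G ε E) :
    12 * 10 ^ 6 * G ^ 15 * exp (-(19 / 10 * E)) ^ 3 ≤ (conc G ε E).p 0 := by
  have hE := numC_E0 h
  change _ ≤ exp (-(19 / 10 * E + 101 / 100 * ee E (0 + 1) + et E 0))
  rw [numC_pow, numC_et0 h, ee_succ, ee_zero]
  refine numC_abs h 15 (by norm_num) (by norm_num) ?_
  push_cast
  linarith

theorem numC_in2 (h : Big G ε E) :
    24 * 10 ^ 6 * G ^ 15 * exp (-(19 / 10 * E)) ^ 4 ≤ (conc G ε E).φ 0 := by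
  have hE := numC_E0 h
  change _ ≤ exp (-(19 / 10 * E + 101 / 100 * ee E (0 + 1) + et E 0 + la E 0))
  have h1 : la E 0 ≤ 5 / 2 * E := by
    refine max_le ?_ ?_
    · rw [numC_et0 h, ee_succ, ee_zero]
      linarith
    · rw [ee_succ, ee_zero]
      linarith
  rw [numC_pow, numC_et0 h, ee_succ, ee_zero]
  refine numC_abs h 15 (by norm_num) (by norm_num) ?_
  push_cast
  linarith

theorem numC_geo (h : Big G ε E) (n : ℕ) :
    E / 10 ^ 7 + n / 10 ^ 11 * E ≤ 1 / 10 ^ 7 * ee E (n + 1) := by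
  have hE := numC_E0 h
  have h1 := ee_ge hE (n + 1)
  push_cast at h1
  nlinarith

theorem numC_l1 (h : Big G ε E) (n : ℕ) :
    8 * G * (200 * G ^ 4) ^ 2 * (conc G ε E).p n / (conc G ε E).σ n ^ 2 ≤ ε / 4 * (1 / 2) ^ n := by
  have hE := numC_E0 h
  have h0 := h.ε0
  have h1 := numC_geo h n
  have h2 := h.geom n
  have h3 : ee E (n + 1) ≤ et E n := le_max_left _ _
  have h4 := le_ee hE (n + 1)
  change 8 * G * (200 * G ^ 4) ^ 2 * exp (-(19 / 10 * E + 101 / 100 * ee E (n + 1) + et E n)) /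
    exp (-((1 + 1 / 10 ^ 7) * ee E (n + 1))) ^ 2 ≤ _
  have a1 := numC_absε h (c := 4 * (8 * 200 ^ 2))
    (x := -(19 / 10 * E + 101 / 100 * ee E (n + 1) + et E n) -
      (2 : ℕ) * (-((1 + 1 / 10 ^ 7) * ee E (n + 1)))) (y := -(n / 10 ^ 11 * E))
    9 (by norm_num) (by norm_num) (by push_cast; linarith)
  rw [exp_sub, ← numC_pow] at a1
  have a2 := mul_le_mul_of_nonneg_left h2 h0.le
  rw [mul_div_assoc]
  linarith

theorem numC_l2 (h : Big G ε E) :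
    2 * G ^ 2 * exp (-(19 / 10 * E)) ^ 2 / (conc G ε E).σ 0 ^ 2 ≤ ε / 2 := by
  have hE := numC_E0 h
  change _ / exp (-((1 + 1 / 10 ^ 7) * ee E (0 + 1))) ^ 2 ≤ _
  rw [ee_succ, ee_zero]
  have a1 := numC_absε h (c := 4)
    (x := (2 : ℕ) * (-(19 / 10 * E)) - (2 : ℕ) * (-((1 + 1 / 10 ^ 7) * ((1 + 1 / 10 ^ 4) * E))))
    (y := 0) 2 (by norm_num) (by norm_num) (by push_cast; linarith)
  rw [exp_sub, ← numC_pow, ← numC_pow, exp_zero] at a1
  rw [mul_div_assoc]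
  linarith

theorem numC_l3 (h : Big G ε E) (n : ℕ) :
    (conc G ε E).φ n ≤ (conc G ε E).σ n * (conc G ε E).p n := by
  have hE := numC_E0 h
  have h4 := le_ee hE (n + 1)
  have h1 : (2 + 6 / 10 ^ 7) * ee E (n + 1) ≤ la E n := le_max_right _ _
  change exp (-(19 / 10 * E + 101 / 100 * ee E (n + 1) + et E n + la E n)) ≤
    exp (-((1 + 1 / 10 ^ 7) * ee E (n + 1))) *
      exp (-(19 / 10 * E + 101 / 100 * ee E (n + 1) + et E n))
  rw [← exp_add, exp_le_exp]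
  linarith

theorem numC_M2 (h : Big G ε E) (n : ℕ) :
    ((conc G ε E).M n : ℝ) ^ 2 ≤ 4 * exp ((2 + 4 / 10 ^ 7) * ee E (n + 1)) := by
  have h1 := pow_le_pow_left₀ (Nat.cast_nonneg _) (M_le (G := G) (ε := ε) (numC_E0 h) n) 2
  refine h1.trans (le_of_eq ?_)
  rw [mul_pow, numC_pow]
  congr 1
  · norm_num
  · congr 1
    push_cast
    ring

theorem numC_m1 (h : Big G ε E) (n : ℕ) :
    4 * ((conc G ε E).M n : ℝ) ^ 2 * (conc G ε E).lam n + (2 + 4 * (150 : ℕ)) * (conc G ε E).δ n ≤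
      1 / 4 * (1 / 2) ^ n := by
  have hE := numC_E0 h
  have h1 := numC_geo h n
  have h2 := h.geom n
  have h3 := numC_M2 h n
  have h4 := le_ee hE (n + 1)
  change 4 * ((conc G ε E).M n : ℝ) ^ 2 * exp (-((2 + 6 / 10 ^ 7) * ee E (n + 1))) +
    (2 + 4 * (150 : ℕ)) * exp (-(1 / 10 ^ 7 * ee E (n + 1))) ≤ _
  have a1 := numC_abs0 h (c := 8 * 16)
    (x := (2 + 4 / 10 ^ 7) * ee E (n + 1) + -((2 + 6 / 10 ^ 7) * ee E (n + 1)))
    (y := -(n / 10 ^ 11 * E)) (by norm_num) (by linarith)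
  have a2 := numC_abs0 h (c := 8 * 602) (x := -(1 / 10 ^ 7 * ee E (n + 1)))
    (y := -(n / 10 ^ 11 * E)) (by norm_num) (by linarith)
  rw [exp_add] at a1
  calc _ ≤ 4 * (4 * exp ((2 + 4 / 10 ^ 7) * ee E (n + 1))) *
      exp (-((2 + 6 / 10 ^ 7) * ee E (n + 1))) +
      (2 + 4 * (150 : ℕ)) * exp (-(1 / 10 ^ 7 * ee E (n + 1))) := by gcongr
    _ ≤ _ := by
      push_cast
      linarith

theorem numC_mu (c : ℝ) : c / exp (-(19 / 10 * E)) ^ 2 = c * exp (38 / 10 * E) := by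
  rw [numC_pow, div_eq_mul_inv, ← exp_neg]
  congr 2
  push_cast
  ring

theorem numC_dl (n : ℕ) : 4 / ((conc G ε E).δ n * (conc G ε E).lam n) =
    4 * exp ((2 + 7 / 10 ^ 7) * ee E (n + 1)) := by
  change 4 / (exp (-(1 / 10 ^ 7 * ee E (n + 1))) * exp (-((2 + 6 / 10 ^ 7) * ee E (n + 1)))) = _
  rw [← exp_add, div_eq_mul_inv, ← exp_neg]
  congr 2
  ring

theorem numC_m2 (h : Big G ε E) (n : ℕ) :
    2 * ((conc G ε E).M n : ℝ) / exp (-(19 / 10 * E)) ^ 2 +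
      4 / ((conc G ε E).δ n * (conc G ε E).lam n) * (2 * ((conc G ε E).M n : ℝ) ^ 2) ≤
      (conc G ε E).Λ n ^ 2 / 144 := by
  have hE := numC_E0 h
  have h1 := M_le (G := G) (ε := ε) hE n
  have h3 := numC_M2 h n
  have h4 := le_ee hE (n + 1)
  have h5 : (2 + 6 / 10 ^ 7) * ee E (n + 1) ≤ la E n := le_max_right _ _
  have h6 : (1 / 2 + 6 / 10 ^ 7) * ee E (n + 1) + et E n ≤ la E n := le_max_left _ _
  have h7 : 19 / 10 * E ≤ et E n := le_max_right _ _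
  rw [numC_mu, numC_dl]
  change _ ≤ exp (la E n) ^ 2 / 144
  rw [numC_pow]
  have a1 := numC_abs0 h (c := 288 * 4) (x := (1 + 2 / 10 ^ 7) * ee E (n + 1) + 38 / 10 * E)
    (y := (2 : ℕ) * la E n) (by norm_num) (by push_cast; linarith)
  have a2 := numC_abs0 h (c := 288 * 32)
    (x := (2 + 7 / 10 ^ 7) * ee E (n + 1) + (2 + 4 / 10 ^ 7) * ee E (n + 1))
    (y := (2 : ℕ) * la E n) (by norm_num) (by push_cast; linarith)
  rw [exp_add] at a1 a2
  calc _ ≤ 2 * (2 * exp ((1 + 2 / 10 ^ 7) * ee E (n + 1))) * exp (38 / 10 * E) +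
      4 * exp ((2 + 7 / 10 ^ 7) * ee E (n + 1)) *
        (2 * (4 * exp ((2 + 4 / 10 ^ 7) * ee E (n + 1)))) := by gcongr
    _ ≤ _ := by linarith

theorem numC_log (h : Big G ε E) (n : ℕ) :
    1 + log ((conc G ε E).M n) ≤ 6 * 10 ^ 7 * exp (5 / 10 ^ 8 * ee E (n + 1)) := by
  have hE := numC_E0 h
  have h1 := M_le (G := G) (ε := ε) hE n
  have h2 := le_M (G := G) (ε := ε) (E := E) n
  have h3 := log_le_log ((exp_pos _).trans_le h2) h1
  rw [log_mul two_ne_zero (exp_pos _).ne', log_exp] at h3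
  have h4 := le_ee hE (n + 1)
  have h5 := add_one_le_exp (5 / 10 ^ 8 * ee E (n + 1))
  have h6 := log_le_sub_one_of_pos (x := 2) two_pos
  linarith

theorem numC_m3 (h : Big G ε E) (n : ℕ) :
    4 / exp (-(19 / 10 * E)) ^ 2 +
      4 / ((conc G ε E).δ n * (conc G ε E).lam n) * (2 * (1 + log ((conc G ε E).M n))) ≤
      (conc G ε E).Λ₀ n ^ 2 / 144 := by
  have hE := numC_E0 h
  have h1 := numC_log h n
  have h4 := le_ee hE (n + 1)
  have h6 : ee E (n + 1) ≤ et E n := le_max_left _ _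
  have h7 : 19 / 10 * E ≤ et E n := le_max_right _ _
  rw [numC_mu, numC_dl]
  change _ ≤ exp (et E n + 4 / 10 ^ 7 * ee E (n + 1)) ^ 2 / 144
  rw [numC_pow]
  have a1 := numC_abs0 h (c := 288 * 4) (x := 38 / 10 * E)
    (y := (2 : ℕ) * (et E n + 4 / 10 ^ 7 * ee E (n + 1))) (by norm_num) (by push_cast; linarith)
  have a2 := numC_abs0 h (c := 288 * (8 * (6 * 10 ^ 7)))
    (x := (2 + 7 / 10 ^ 7) * ee E (n + 1) + 5 / 10 ^ 8 * ee E (n + 1))
    (y := (2 : ℕ) * (et E n + 4 / 10 ^ 7 * ee E (n + 1))) (by norm_num) (by push_cast; linarith)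
  rw [exp_add] at a2
  calc _ ≤ 4 * exp (38 / 10 * E) + 4 * exp ((2 + 7 / 10 ^ 7) * ee E (n + 1)) *
        (2 * (6 * 10 ^ 7 * exp (5 / 10 ^ 8 * ee E (n + 1)))) := by gcongr
    _ ≤ _ := by linarith

theorem conc_okC {G ε E : ℝ} (h : Big G ε E) : (conc G ε E).OkC where
  n1 := numC_n1 h
  n2 := numC_n2 h
  n3 := numC_n3 h
  n4 := numC_n4 h
  bl1 := numC_bl1 h
  bl2 := numC_bl2 h
  bl3 := numC_bl3 h
  bl4 := numC_bl4 h
  in1 := numC_in1 h
  in2 := numC_in2 h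
  l1 := numC_l1 h
  l2 := numC_l2 h
  l3 := numC_l3 h
  m1 := numC_m1 h
  m2 := numC_m2 h
  m3 := numC_m3 h

end Pool.Agent.Lib.MP_abef03_an
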