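import Mathlib
import Pool.Agent.Lib.MP_abef03_an.Concl
import Pool.Agent.Lib.MP_abef03_an.Arith
import Pool.Agent.Lib.MP_abef03_an.Init
import Pool.Agent.Lib.MP_abef03_an.NumA
import Pool.Agent.Lib.MP_abef03_an.NumB
import Pool.Agent.Lib.MP_abef03_an.NumC

/-! The good frequencies, and the analytic theorem. -/

namespace Pool.Agent.Lib.MP_abef03_an

open Complex Set MeasureTheory
open scoped Real

/-- Centre of the dyadic cell. -/
noncomputable def ctr (n : ℕ) (ω : ℝ) : ℝ := (⌊2 ^ n * ω⌋ + 1 / 2) / 2 ^ n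

theorem abs_sub_ctr (n : ℕ) (ω : ℝ) : |ω - ctr n ω| ≤ 1 / 2 ^ n / 2 := by
  have h0 : (0 : ℝ) < 2 ^ n := by positivity
  have e : ω - ctr n ω = (2 ^ n * ω - ⌊2 ^ n * ω⌋ - 1 / 2) / 2 ^ n := by
    unfold ctr
    field_simp
    ring
  rw [e, abs_div, abs_of_pos h0, div_right_comm]
  gcongr
  rw [abs_le]
  constructor <;> linarith [Int.floor_le (2 ^ n * ω), Int.lt_floor_add_one (2 ^ n * ω)]

namespace Nums

variable (S : Nums)

/-- The non-resonant modes used for the pending blocks. -/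
noncomputable def orc (ω : ℝ) (j k : ℕ) : Finset ℤ :=
  (full (S.M j)).filter fun m => 7 * S.l j (k + 1) ≤ dd m (ctr (S.nn j (k + 1)) ω)

noncomputable def bet (P : Par) (j k : ℕ) (ω : ℝ) (m : ℤ) : ℝ :=
  beta (fun ω' => P.RR (S.orc ω) ω' j k) (ctr (S.nn j k) ω) (S.l j k) (S.s j k) m

def bad2 (M : ℕ) (lam δ : ℝ) (a : ℤ → ℝ) : Set ℝ :=
  {ω ∈ Icc S.μ (2 * S.μ) | ∑ m ∈ full M, a m / S.μ ^ 2 + 4 / (δ * lam) * ∑ m ∈ full M, a m * |(m : ℝ)| <
    ∑ m ∈ full M, a m / (dd m ω ^ 2 + lam ^ 2)}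

def bad5 (P : Par) (j k : ℕ) : Set ℝ :=
  {ω ∈ Icc S.μ (2 * S.μ) | 2 * (8 * S.l j (k + 1)) * 2 ^ S.nn j k / S.δ j *
      ∑ m ∈ full (S.M j), S.bet P j k ω m <
    ∑ m ∈ (full (S.M j)).filter (fun m => dd m ω < 8 * S.l j (k + 1)), S.bet P j k ω m}

def bad (P : Par) (n : ℕ) : Set ℝ :=
  {ω ∈ Icc S.μ (2 * S.μ) | ∃ m ∈ full (S.M n), dd m ω < S.lam n} ∪
    S.bad2 (S.M n) (S.lam n) (S.δ n) (fun _ => 1) ∪
    S.bad2 (S.M n) (S.lam n) (S.δ n) (fun m => 1 / (m : ℝ) ^ 2) ∪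
    ⋃ k ∈ Finset.range S.L, (S.bad2 (S.M n) (6 * S.l n (k + 1)) (S.δ n) (fun _ => 1) ∪ S.bad5 P n k)

variable {S}

theorem nn_le {i k j k' : ℕ} (h : S.l j k' ≤ S.l i k) : S.nn i k ≤ S.nn j k' := by
  unfold l at h
  rw [one_div_le_one_div (by positivity) (by positivity)] at h
  exact (pow_le_pow_iff_right₀ one_lt_two).mp h

theorem l_anti (B : S.OkB) (j : ℕ) {k k' : ℕ} (h : k ≤ k') (h' : k' ≤ S.L) : S.l j k' ≤ S.l j k := by
  induction k', h using Nat.le_induction with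
  | base => rfl
  | succ k' _ ih => linarith [B.p5 j k' h', ih (by omega), l_pos (S := S) j (k' + 1)]

theorem bet_congr (A : S.OkA) (B : S.OkB) {P : Par} (eL : P.L = S.L) {j k : ℕ} (hk : k ≤ S.L)
    {ω ω' : ℝ} (h : ⌊2 ^ S.nn j k * ω⌋ = ⌊2 ^ S.nn j k * ω'⌋) : S.bet P j k ω = S.bet P j k ω' := by
  have key : ∀ i k', S.l j k ≤ S.l i (k' + 1) → S.orc ω i k' = S.orc ω' i k' := fun i k' hl => by
    unfold orc ctr
    rw [floor_two_pow_mono (nn_le hl) h]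
  have e : ∀ w, P.RR (S.orc ω) w j k = P.RR (S.orc ω') w j k := fun w => by
    refine Par.RR_congr w (fun i hi k' hk' => key i k' ?_) fun k' hk' => key j k' (l_anti B j hk' hk)
    rw [eL] at hi hk'
    have h1 := (B.p1 j k hk).trans (h_anti A B (show i + 1 ≤ j + k - S.L by omega))
    change _ ≤ S.lam i / 4 at h1
    linarith [A.s10 i, l_anti B i (k := k' + 1) hk' le_rfl, l_pos (S := S) j k]
  funext m
  unfold bet ctr
  simp only [e, h]

theorem vol_bad (A : S.OkA) (B : S.OkB) (C : S.OkC) {P : Par} (eL : P.L = S.L) (n : ℕ) :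
    volume (S.bad P n) ≤ ENNReal.ofReal (S.μ / 4 * (1 / 2) ^ n) := by
  have hμ := A.μ0
  obtain ⟨-, hlam, -, -, -, -, -, -, hδ⟩ := A.pos n
  have h1 := meas_dioph hμ hlam (by linarith [A.s10 n, l_le_μ A B (j := n) le_rfl]) (S.M n)
  have h2 : ∀ {lam} (a : ℤ → ℝ), 0 < lam → (∀ m, 0 ≤ a m) →
      volume (S.bad2 (S.M n) lam (S.δ n) a) ≤ ENNReal.ofReal (S.δ n * S.μ) := fun a hl ha =>
    meas_sum hμ hl hδ _ (zero_not_mem_full _) a ha
  have h5 : ∀ k ∈ Finset.range S.L,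
      volume (S.bad2 (S.M n) (6 * S.l n (k + 1)) (S.δ n) (fun _ => 1) ∪ S.bad5 P n k) ≤
        ENNReal.ofReal (4 * S.δ n * S.μ) := fun k hk => by
    rw [Finset.mem_range] at hk
    have hl := l_pos (S := S) n (k + 1)
    have hl' := l_pos (S := S) n k
    have h6 : volume (S.bad5 P n k) ≤ _ := meas_cells hμ (by positivity) hδ (S.nn n k) (S.M n)
      (by linarith [l_le_μ A B (j := n) hk.le, show S.l n k = 1 / 2 ^ S.nn n k from rfl]) (by
        have := B.p6 n k hk.le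
        unfold l at this
        rw [mul_one_div, div_le_one (by positivity)] at this
        linarith [Nat.cast_nonneg (α := ℝ) (S.M n)]) (B.p5 n k hk) (S.bet P n k)
      (fun _ _ => beta_nonneg _ _ _ _ _) fun _ _ => bet_congr A B eL hk.le
    refine (measure_union_le _ _).trans ((add_le_add (h2 _ (by positivity) fun _ => zero_le_one) h6).trans ?_)
    rw [← ENNReal.ofReal_add (by positivity) (by positivity)]
    exact ENNReal.ofReal_le_ofReal (by linarith)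
  have h7 := (measure_biUnion_finset_le _ _).trans (Finset.sum_le_sum h5)
  rw [← ENNReal.ofReal_sum_of_nonneg (fun _ _ => by positivity), Finset.sum_const, Finset.card_range,
    nsmul_eq_mul] at h7
  refine (measure_union_le _ _).trans ((add_le_add ((measure_union_le _ _).trans (add_le_add
    ((measure_union_le _ _).trans (add_le_add h1 (h2 _ hlam fun _ => zero_le_one)))
    (h2 _ hlam fun _ => by positivity))) h7).trans ?_)
  rw [← ENNReal.ofReal_add (by positivity) (by positivity),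
    ← ENNReal.ofReal_add (by positivity) (by positivity),
    ← ENNReal.ofReal_add (by positivity) (by positivity)]
  exact ENNReal.ofReal_le_ofReal (by nlinarith [mul_le_mul_of_nonneg_left (C.m1 n) hμ.le])

theorem not_bad2 {M : ℕ} {lam δ ω : ℝ} (hl : 0 < lam) (hδ : 0 < δ) (hω : ω ∈ Icc S.μ (2 * S.μ))
    (h : ω ∉ S.bad2 M lam δ fun _ => 1) :
    ∑ m ∈ full M, 1 / (dd m ω ^ 2 + lam ^ 2) ≤ 2 * M / S.μ ^ 2 + 4 / (δ * lam) * (2 * M ^ 2) := by
  refine (not_lt.mp fun h' => h ⟨hω, h'⟩).trans ?_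
  rw [← Finset.sum_div, sum_full_one]
  simp only [one_mul]
  gcongr
  exact sum_full_abs M

theorem not_bad3 {M : ℕ} {lam δ ω : ℝ} (hl : 0 < lam) (hδ : 0 < δ) (hω : ω ∈ Icc S.μ (2 * S.μ))
    (h : ω ∉ S.bad2 M lam δ fun m => 1 / (m : ℝ) ^ 2) :
    ∑ m ∈ full M, 1 / (m : ℝ) ^ 2 / (dd m ω ^ 2 + lam ^ 2) ≤
      4 / S.μ ^ 2 + 4 / (δ * lam) * (2 * (1 + Real.log M)) := by
  refine (not_lt.mp fun h' => h ⟨hω, h'⟩).trans ?_
  rw [← Finset.sum_div]
  gcongr
  exacts [sum_full_inv_sq M, sum_full_inv M]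

theorem orc_spec (ω : ℝ) (j k : ℕ) : S.orc ω j k ⊆ full (S.M j) ∧
    (∀ m ∈ S.orc ω j k, -m ∈ S.orc ω j k) ∧ ∀ m ∈ S.orc ω j k, 6 * S.l j (k + 1) ≤ dd m ω := by
  refine ⟨Finset.filter_subset _ _, fun m hm => ?_, fun m hm => ?_⟩ <;>
    rw [orc, Finset.mem_filter] at hm
  · rw [orc, Finset.mem_filter, dd_neg]
    exact ⟨neg_mem_full m hm.1, hm.2⟩
  · have h1 := dd_lip m (Finset.mem_erase.mp hm.1).1 (ctr (S.nn j (k + 1)) ω) ω
    have h2 : _ ≤ S.l j (k + 1) / 2 := abs_sub_ctr (S.nn j (k + 1)) ω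
    rw [abs_sub_comm] at h1
    linarith [hm.2, l_pos (S := S) j (k + 1)]

theorem not_bad5 (A : S.OkA) (B : S.OkB) {P : Par} {j k : ℕ} (hk : k < S.L) {ω : ℝ}
    (hω : ω ∈ Icc S.μ (2 * S.μ)) (h : ω ∉ S.bad5 P j k) :
    ∑ m ∈ full (S.M j) \ S.orc ω j k, S.bet P j k ω m ≤
      S.b j ^ 2 / 4 * ∑ m ∈ full (S.M j), S.bet P j k ω m := by
  refine (Finset.sum_le_sum_of_subset_of_nonneg (fun m hm => ?_) fun _ _ _ => beta_nonneg _ _ _ _ _).trans
    ((not_lt.mp fun h' => h ⟨hω, h'⟩).trans (mul_le_mul_of_nonneg_right ?_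
      (Finset.sum_nonneg fun _ _ => beta_nonneg _ _ _ _ _)))
  · rw [Finset.mem_sdiff, orc, Finset.mem_filter, not_and, not_le] at hm
    have h1 := dd_lip m (Finset.mem_erase.mp hm.1).1 ω (ctr (S.nn j (k + 1)) ω)
    have h2 : _ ≤ S.l j (k + 1) / 2 := abs_sub_ctr (S.nn j (k + 1)) ω
    rw [Finset.mem_filter]
    exact ⟨hm.1, by linarith [hm.2 hm.1, l_pos (S := S) j (k + 1)]⟩
  · have hδ := (A.pos j).2.2.2.2.2.2.2.2
    rw [le_div_iff₀ four_pos]
    refine le_trans (le_of_eq ?_) (B.p10 j k hk)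
    rw [show S.l j k = 1 / 2 ^ S.nn j k from rfl]
    field_simp
    ring

end Nums

theorem kam : KAMStmt := by
  intro H hH hp hpos ε hε
  obtain ⟨Γ, a, hΓ, sym, hs, hb, happ⟩ := exists_data hH hp hpos
  obtain ⟨G, hG⟩ : ∃ G, G = 5 * Γ := ⟨_, rfl⟩
  have hG1 : 1 ≤ G := by linarith
  have hG0 : 0 < G := by linarith
  obtain rfl : Γ = G / 5 := by linarith
  set ε' := min 1 (ε / (100 * (2 * G) ^ 4)) with hε'
  have hε0 : 0 < ε' := by positivity
  set E₀ := max (10 ^ 12) (10 ^ 8 * (10 ^ 200 * G ^ 20 / ε')) with hE₀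
  refine ⟨min (Real.exp (-(19 / 10 * E₀))) (ε / (4 * G)), by positivity, fun μ hμ => ?_⟩
  obtain ⟨E, rfl⟩ : ∃ E, μ = Real.exp (-(19 / 10 * E)) :=
    ⟨-(10 / 19 * Real.log μ), by rw [← Real.exp_log hμ.1, Real.log_exp]; congr 1; ring⟩
  have hE : E₀ ≤ E := by linarith [Real.exp_lt_exp.mp (hμ.2.trans_le (min_le_left _ _))]
  have big : Big G ε' E := ⟨hG1, hε0, min_le_left _ _, (le_max_left _ _).trans hE, by
    linarith [(le_max_right _ _).trans hE, Real.add_one_le_exp (E / 10 ^ 8)]⟩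
  have hμ4 := (hμ.2.trans_le (min_le_right _ _)).le
  have A := conc_okA big
  have B := conc_okB big
  have C := conc_okC big
  have eG : (conc G ε' E).G = G := rfl
  have eε : (conc G ε' E).ε = ε' := rfl
  have eμ : (conc G ε' E).μ = Real.exp (-(19 / 10 * E)) := rfl
  rw [← eμ] at hμ4 ⊢
  generalize conc G ε' E = S at A B C eG eε hμ4
  subst eG
  have hμ := A.μ0
  have hN := fun n => Nums.N_pos A C n
  have hN1 : ∀ n, 1 ≤ S.N n := fun n => by exact_mod_cast hN n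
  have pos : ∀ n (x : ℝ), 9 / S.G ≤ (rho (Hc a (S.N n)) x).re := fun n x => by
    have h1 := abs_le.mp ((abs_re_le_norm _).trans (happ _ (hN1 n) x).2.2)
    have h2 : 2 * (S.G / 5) / S.N n ≤ 1 / S.G := by
      rw [div_le_div_iff₀ (by linarith [hN n]) hG0]
      nlinarith [Nums.N_ge A C n]
    have h3 : 2 / (S.G / 5) = 9 / S.G + 1 / S.G := by
      field_simp
      norm_num
    rw [sub_re, ofReal_re] at h1
    rw [Hc, rho_tp]
    linarith [(hb x).1]
  have hρ := rho_Hc hG0.le hs (N := S.N 0) (by linarith [hN 0])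
  have hk := hk_c a (S.N 0)
  obtain ⟨u0, κ, du, pu, ru, hκ, i1, i2⟩ := exists_init (Γ := S.G) (τ := 1 / S.N 0) (η := S.μ) hG1
    (by have := hN 0; positivity) (by
      rw [mul_one_div, div_le_one (by linarith [hN 0])]
      exact C.n1 0) hμ (ρ := rho (Hc a (S.N 0))) (hk.dH.deriv.deriv.add hk.dH)
    (fun z => by simp only [rho, hk.pH z, hk.pH.qp.per_deriv.qp.per_deriv z])
    (real_rho hk.dH (real_Hc sym _)) (fun x => ⟨le_trans (by gcongr; norm_num) (pos 0 x),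
      (re_le_norm _).trans (hρ.1 x (by simp))⟩) hρ.2
  have eτ : 1 / S.N 0 / (100 * S.G ^ 2) = 2 * S.τ 0 := by
    have := hN 0
    rw [show S.τ 0 = 1 / (200 * S.G ^ 2 * S.N 0) from rfl]
    field_simp
    norm_num
  rw [eτ] at i1 i2
  set P : Par := ⟨a, u0, κ, S.N, S.M, S.L⟩ with hP
  obtain ⟨Ω, h1, h2, h3, h4⟩ := exists_compact hμ (S.bad P) (fun n => S.μ / 4 * (1 / 2) ^ n)
    (fun n => by positivity) (Nums.vol_bad A B C rfl) fun N => by
      rw [← Finset.mul_sum]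
      nlinarith [sum_geometric_two_le N]
  refine ⟨Ω, h1, h2, h3, fun ω hω => ?_⟩
  have h5 := h1 hω
  have h6 := fun n => h4 ω hω n
  simp only [Nums.bad, mem_union, mem_iUnion, Finset.mem_range, not_or, not_exists] at h6
  obtain ⟨U, h, c1, c2, c3, c4, c5, c6, c7⟩ := Ctx.conclude
    ⟨S, P, S.orc ω, ω, A, B, C, rfl, rfl, rfl, sym, hs, pos, du, pu, ru, hκ, i1, i2, h5,
      fun n m hm => not_lt.mp fun h' => (h6 n).1.1.1 ⟨h5, m, hm, h'⟩,
      fun n => (Nums.not_bad2 (A.pos n).2.1 (A.pos n).2.2.2.2.2.2.2.2 h5 (h6 n).1.1.2).trans (C.m2 n),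
      fun n => (Nums.not_bad3 (A.pos n).2.1 (A.pos n).2.2.2.2.2.2.2.2 h5 (h6 n).1.2).trans (C.m3 n),
      Nums.orc_spec ω,
      fun j k hk => (Nums.not_bad2 (by linarith [Nums.l_pos (S := S) j (k + 1)])
        (A.pos j).2.2.2.2.2.2.2.2 h5 ((h6 j).2 k hk).1).trans (B.p13 j k hk),
      fun j k hk => ⟨_, abs_sub_ctr _ ω, Nums.not_bad5 A B hk h5 ((h6 j).2 k hk).2⟩⟩
    (hH.of_le (by norm_num)) hp
    (fun n x => (happ _ (hN1 n) x).1.trans (by have := hN n; dsimp only; gcongr; linarith))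
    (fun n x => by
      change ‖deriv (Hc a (S.N n)) _ - _‖ ≤ _
      rw [Hc, deriv_tp]
      exact (happ _ (hN1 n) x).2.1.trans (by have := hN n; dsimp only; gcongr; linarith))
  have hle : 100 * (2 * S.G) ^ 4 * S.ε ≤ ε := by
    rw [eε, mul_comm, ← le_div_iff₀ (by positivity)]
    exact min_le_right _ _
  refine ⟨U, h, c1, c2, c3, c4, c5, fun x => ⟨(c6 x).1.trans hle, (c6 x).2.1.trans hle,
    (c6 x).2.2.trans hle⟩, fun x => ⟨(c7 x).1.trans ?_, (c7 x).2⟩⟩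
  rw [le_div_iff₀ (by positivity)] at hμ4
  dsimp only
  nlinarith [h5.2]

end Pool.Agent.Lib.MP_abef03_an
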